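import Pool.Agent.LibZQ38.Defs

/-!
Real analytic families of matrices.

PLAN. AnalyticOnNhd.add, sub, mul, `Finset.analyticOnNhd_sum`, conjugation is a continuous real
linear map (Complex.conjCLE, ContinuousLinearMap.analyticAt / comp), inverse: `A⁻¹ = (det A)⁻¹ •
adjugate` entrywise as in SP38.Sm.inv (LibSP38/WirtM), AnalyticAt.inv. of_holo:
DifferentiableOn.analyticOnNhd over ℂ, then restrictScalars (AnalyticAt.restrictScalars or
AnalyticOnNhd.restrictScalars). sm: AnalyticOnNhd.contDiffOn.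
-/

open Matrix Complex
open MW38 (Fl Tri blk dg)

namespace ZQ38

variable {ι : Type} [Fintype ι] [DecidableEq ι] {wt p : ι → ℤ} {K : ℕ} {Φ : Matrix ι ι ℂ}
  {P : ℤ → Matrix ι ι ℂ} {Ω : Set ℂ}

theorem An.const (A : Matrix ι ι ℂ) : An Ω (fun _ => A) := fun _ _ => analyticOnNhd_const

theorem An.add {A B : ℂ → Matrix ι ι ℂ} (hA : An Ω A) (hB : An Ω B) :
    An Ω (fun z => A z + B z) := fun i j => (hA i j).add (hB i j)

theorem An.sub {A B : ℂ → Matrix ι ι ℂ} (hA : An Ω A) (hB : An Ω B) :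
    An Ω (fun z => A z - B z) := fun i j => (hA i j).sub (hB i j)

theorem An.mul {A B : ℂ → Matrix ι ι ℂ} (hA : An Ω A) (hB : An Ω B) :
    An Ω (fun z => A z * B z) := by
  intro i j z hz
  simp only [Matrix.mul_apply]
  exact Finset.analyticAt_fun_sum _ fun k _ => (hA i k z hz).mul (hB k j z hz)

theorem An.smul (c : ℂ) {A : ℂ → Matrix ι ι ℂ} (hA : An Ω A) : An Ω (fun z => c • A z) := by
  intro i j z hz
  simp only [Matrix.smul_apply, smul_eq_mul]
  exact analyticAt_const.mul (hA i j z hz)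

theorem An.sum {β : Type*} (s : Finset β) {A : β → ℂ → Matrix ι ι ℂ} (hA : ∀ i ∈ s, An Ω (A i)) :
    An Ω (fun z => ∑ i ∈ s, A i z) := by
  intro i j z hz
  simp only [Matrix.sum_apply]
  exact Finset.analyticAt_fun_sum _ fun k hk => hA k hk i j z hz

theorem An.bar {A : ℂ → Matrix ι ι ℂ} (hA : An Ω A) : An Ω (fun z => ZQ38.bar (A z)) := by
  intro i j z hz
  have h1 : AnalyticAt ℝ (fun w : ℂ => (starRingEnd ℂ) w) (A z i j) :=
    Complex.conjCLE.toContinuousLinearMap.analyticAt _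
  exact AnalyticAt.comp (g := fun w : ℂ => (starRingEnd ℂ) w) (f := fun z => A z i j) h1
    (hA i j z hz)

theorem B05a_det {G : ℂ → Matrix ι ι ℂ} (h : An Ω G) :
    AnalyticOnNhd ℝ (fun z => (G z).det) Ω := by
  intro z hz
  simp only [Matrix.det_apply']
  refine Finset.analyticAt_fun_sum _ fun σ _ => analyticAt_const.mul ?_
  exact Finset.analyticAt_fun_prod _ fun i _ => h (σ i) i z hz

theorem An.inv {A : ℂ → Matrix ι ι ℂ} (hA : An Ω A) (hu : ∀ z ∈ Ω, IsUnit (A z)) :
    An Ω (fun z => (A z)⁻¹) := by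
  intro i j
  have e : (fun z => (A z)⁻¹ i j) = fun z => ((A z).det)⁻¹ * (A z).adjugate i j := by
    funext z
    rw [Matrix.inv_def, Matrix.smul_apply, Ring.inverse_eq_inv', smul_eq_mul]
  rw [e]
  refine AnalyticOnNhd.mul (AnalyticOnNhd.inv (B05a_det hA) fun z hz => ?_) ?_
  · exact ((Matrix.isUnit_iff_isUnit_det _).1 (hu z hz)).ne_zero
  · simp only [Matrix.adjugate_apply]
    refine B05a_det (G := fun z => (A z).updateRow j (Pi.single i 1)) fun k l => ?_
    by_cases hk : k = j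
    · subst hk
      simp only [Matrix.updateRow_self]
      exact analyticOnNhd_const
    · simp only [Matrix.updateRow_ne hk]
      exact hA k l

/-- holomorphic implies real analytic -/
theorem An.of_holo (hΩ : IsOpen Ω) {A : ℂ → Matrix ι ι ℂ}
    (h : ∀ i j, DifferentiableOn ℂ (fun z => A z i j) Ω) : An Ω A := fun i j =>
  (DifferentiableOn.analyticOnNhd (h i j) hΩ).restrictScalars

/-- real analytic implies smooth -/
theorem An.sm {A : ℂ → Matrix ι ι ℂ} (hA : An Ω A) : SP38.Sm Ω A := fun i j =>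
  (hA i j).contDiffOn_of_completeSpace

end ZQ38
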