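import Pool.Agent.LibZQ38.B06
import Pool.Agent.LibZQ38.B05a

/-!
The generic Mumford-Tate algebra.

PLAN. For a submodule L let S_L = {z ∈ Ω | oP ∈ cx L ∧ oQ ∈ cx L}. Closed in Ω (cx L is a finite
dimensional subspace, closed; oP, oQ are continuous on Ω: h, P a and h⁻¹ (Un wt h is invertible,
An.inv) are analytic). If S_L contains a nonempty open set then S_L = Ω: cx L is the kernel of
finitely many linear functionals (Submodule.exists_le_ker_of_notMem or Submodule.dualAnnihilator),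
each composed with oP is real analytic on the preconnected Ω: AnalyticOnNhd.eqOn_zero_of_preconnected_of_eventuallyEq_zero.
There are countably many submodules of the finite dimensional ℚ-space (each is the span of a finite
set: countable many finite subsets of a countable set). Baire: if for every z ∈ Ω the module mtLie z
had S ≠ Ω, then Ω = ⋃ S_L over countably many L with S_L relatively closed without interior, a
contradiction (Ω open in ℂ is a Baire space; for example isOpen / dense_iInter_of_isOpen or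
nonempty_interior_of_iUnion_of_closed on the subtype Ω, IsOpen.baireSpace). So for some z₀ the module
L = mtLie (Φ z₀) has S_L = Ω, and mtLie_le_iff gives mtLie (Φ z) ≤ L for all z.
-/

open Matrix Complex
open MW38 (Fl Tri blk dg)

namespace ZQ38

variable {ι : Type} [Fintype ι] [DecidableEq ι] {wt p : ι → ℤ} {K : ℕ} {Φ : Matrix ι ι ℂ}
  {P : ℤ → Matrix ι ι ℂ} {Ω : Set ℂ}

/-- a linear functional of a real analytic family -/
theorem B10_dual {f : ℂ → Matrix ι ι ℂ} (hf : An Ω f) (φ : Module.Dual ℂ (Matrix ι ι ℂ)) :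
    AnalyticOnNhd ℝ (fun z => φ (f z)) Ω := by
  have e : (fun z => φ (f z)) =
      fun z => ∑ i : ι, ∑ j : ι, f z i j * φ (Matrix.single i j (1:ℂ)) := by
    funext z
    conv_lhs => rw [Matrix.matrix_eq_sum_single (f z)]
    rw [map_sum]
    refine Finset.sum_congr rfl fun i _ => ?_
    rw [map_sum]
    refine Finset.sum_congr rfl fun j _ => ?_
    have e2 : Matrix.single i j (f z i j) = (f z i j) • Matrix.single i j (1:ℂ) := by
      rw [Matrix.smul_single, smul_eq_mul, mul_one]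
    rw [e2, map_smul, smul_eq_mul]
  rw [e]
  refine Finset.analyticOnNhd_fun_sum _ fun i _ => ?_
  refine Finset.analyticOnNhd_fun_sum _ fun j _ => ?_
  exact (hf i j).mul analyticOnNhd_const

/-- identity theorem for membership in a subspace -/
theorem B10_ident (hc : IsPreconnected Ω) {f : ℂ → Matrix ι ι ℂ} (hf : An Ω f)
    (W : Submodule ℂ (Matrix ι ι ℂ)) {z₀ : ℂ} (hz₀ : z₀ ∈ Ω)
    (hev : ∀ᶠ z in nhds z₀, f z ∈ W) : ∀ z ∈ Ω, f z ∈ W := by
  intro z hz
  rw [← Subspace.forall_mem_dualAnnihilator_apply_eq_zero_iff W (f z)]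
  intro φ hφ
  have h1 : (fun z => φ (f z)) =ᶠ[nhds z₀] 0 := by
    filter_upwards [hev] with w hw
    exact (Submodule.mem_dualAnnihilator φ).1 hφ _ hw
  exact (B10_dual hf φ).eqOn_zero_of_preconnected_of_eventuallyEq_zero hc hz₀ h1 hz

/-- closedness of membership in a subspace -/
theorem B10_closed {f : ℂ → Matrix ι ι ℂ} (hf : An Ω f) (W : Submodule ℂ (Matrix ι ι ℂ)) :
    IsClosed {z : Ω | f z ∈ W} := by
  have e : {z : Ω | f z ∈ W} = ⋂ φ ∈ W.dualAnnihilator, {z : Ω | φ (f z) = 0} := by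
    ext z
    simp only [Set.mem_setOf_eq, Set.mem_iInter]
    exact (Subspace.forall_mem_dualAnnihilator_apply_eq_zero_iff W (f z)).symm
  rw [e]
  refine isClosed_biInter fun φ _ => ?_
  refine isClosed_eq ?_ continuous_const
  exact continuousOn_iff_continuous_restrict.1 (B10_dual hf φ).continuousOn

theorem B10_countable : Countable (Submodule ℚ (Matrix ι ι ℚ)) := by
  have hM : Countable (Matrix ι ι ℚ) := inferInstanceAs (Countable (ι → ι → ℚ))
  have hfd : Module.Finite ℚ (Matrix ι ι ℚ) := inferInstance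
  have hsurj : Function.Surjective
      (fun s : Finset (Matrix ι ι ℚ) => Submodule.span ℚ (s : Set (Matrix ι ι ℚ))) := by
    intro L
    obtain ⟨s, hs⟩ := (IsNoetherian.noetherian L : L.FG)
    exact ⟨s, hs⟩
  exact hsurj.countable

theorem B10_An_PG {P : ℂ → ℤ → Matrix ι ι ℂ} (hPa : ∀ a, An Ω (fun z => P z a)) :
    An Ω (fun z => PG K (P z)) := by
  unfold PG
  exact An.sum _ fun a _ => An.smul _ (hPa a)

theorem exists_generic {Φ : ℂ → Matrix ι ι ℂ} {P : ℂ → ℤ → Matrix ι ι ℂ}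
    {h : ℂ → Matrix ι ι ℂ} (hΩ : IsOpen Ω) (hc : IsPreconnected Ω) (hne : Ω.Nonempty)
    (hP : ∀ z ∈ Ω, GrP wt p K (Φ z) (P z)) (hh : ∀ z ∈ Ω, DelH wt p (Φ z) (P z) (h z))
    (hPa : ∀ a, An Ω (fun z => P z a)) (hha : An Ω h) :
    ∃ z₀ ∈ Ω, ∀ z ∈ Ω, mtLie wt p (Φ z) ≤ mtLie wt p (Φ z₀) := by
  have hu : ∀ z ∈ Ω, IsUnit (h z) := fun z hz => (hh z hz).un.isUnit
  have hPG : An Ω (fun z => PG K (P z)) := B10_An_PG hPa
  have hoP : An Ω (fun z => oP K (P z) (h z)) := An.mul (An.mul hha hPG) (An.inv hha hu)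
  have hoQ : An Ω (fun z => oQ wt K (P z) (h z)) :=
    An.mul (An.mul hha (An.sub (An.const _) hPG)) (An.inv hha hu)
  have hB : BaireSpace Ω := hΩ.baireSpace
  have hN : Nonempty Ω := hne.to_subtype
  have hC : Countable (Submodule ℚ (Matrix ι ι ℚ)) := B10_countable
  let I := {L : Submodule ℚ (Matrix ι ι ℚ) // ∃ z : Ω, mtLie wt p (Φ z) = L}
  have hI : Countable I := inferInstance
  let F : I → Set Ω := fun L =>
    {z : Ω | oP K (P z) (h z) ∈ cx L.1} ∩ {z : Ω | oQ wt K (P z) (h z) ∈ cx L.1}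
  have hF : ∀ L, IsClosed (F L) := fun L => (B10_closed hoP _).inter (B10_closed hoQ _)
  have hU : ⋃ L, F L = Set.univ := by
    rw [Set.eq_univ_iff_forall]
    intro z
    refine Set.mem_iUnion.2 ⟨⟨mtLie wt p (Φ z), z, rfl⟩, ?_⟩
    exact ⟨oP_mem (hP z z.2) (hh z z.2), oQ_mem (hP z z.2) (hh z z.2)⟩
  obtain ⟨⟨L, ⟨z₀, hz₀⟩⟩, ⟨z₁, hz₁⟩⟩ := nonempty_interior_of_iUnion_of_closed hF hU
  have hev : ∀ᶠ z in nhds z₁, z ∈ F ⟨L, ⟨z₀, hz₀⟩⟩ := mem_interior_iff_mem_nhds.1 hz₁
  have hev2 : ∀ᶠ z in nhds (z₁ : ℂ), oP K (P z) (h z) ∈ cx L ∧ oQ wt K (P z) (h z) ∈ cx L := by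
    have h1 : Filter.map ((↑) : Ω → ℂ) (nhds z₁) = nhds (z₁ : ℂ) := by
      rw [map_nhds_subtype_val, hΩ.nhdsWithin_eq z₁.2]
    rw [← h1, Filter.eventually_map]
    filter_upwards [hev] with z hz
    exact ⟨hz.1, hz.2⟩
  refine ⟨z₀, z₀.2, fun z hz => ?_⟩
  rw [hz₀]
  have hL : IsLie L := by rw [← hz₀]; exact mtLie_isLie
  rw [mtLie_le_iff (hP z hz) (hh z hz) hL]
  exact ⟨B10_ident hc hoP (cx L) z₁.2 (hev2.mono fun _ h => h.1) z hz,
    B10_ident hc hoQ (cx L) z₁.2 (hev2.mono fun _ h => h.2) z hz⟩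

end ZQ38
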