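import Pool.Agent.LibZQ38.B06

/-!
Transport by a rational automorphism.

PLAN. gC := g.map (algebraMap ℚ ℂ) is real: bar gC = gC. Fl p (bar Φ') a = map gC (Fl p (bar Φ) a) (conjugate
of hF; Fl p (bar Φ) a is the set of conjugates of Fl p Φ a). gC preserves Wt (Tri, invertible with Tri
inverse). So Ide' a b = map gC (Ide a b) (map of inf and sup under an injective map). IsOpP Φ' A' iff
IsOpP Φ (gC⁻¹ A' gC). mtLie_conj: L ↦ g L g⁻¹ is an order isomorphism of submodules respecting IsLie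
and cx; both inclusions by sInf_le. oP_conj: by isOpP_iff for Φ and Φ'.
-/

open Matrix Complex
open MW38 (Fl Tri blk dg)

namespace ZQ38

variable {ι : Type} [Fintype ι] [DecidableEq ι] {wt p : ι → ℤ} {K : ℕ} {Φ : Matrix ι ι ℂ}
  {P : ℤ → Matrix ι ι ℂ} {Ω : Set ℂ}

private theorem B11_cc (G : Matrix ι ι ℂ) (c : ι → ℂ) : MW38.cc (G *ᵥ c) = bar G *ᵥ MW38.cc c := by
  funext i
  unfold MW38.cc bar
  simp only [Matrix.mulVec, dotProduct, Matrix.map_apply, map_sum, map_mul]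

private theorem B11_cc_cc (v : ι → ℂ) : MW38.cc (MW38.cc v) = v := by
  funext i
  unfold MW38.cc
  exact Complex.conj_conj _

private theorem B11_bar_bar (G : Matrix ι ι ℂ) : bar (bar G) = G := by
  ext i j
  unfold bar
  rw [Matrix.map_apply, Matrix.map_apply]
  exact Complex.conj_conj _

private theorem B11_mem (G : Matrix ι ι ℂ) (b : ℤ) (v : ι → ℂ) :
    v ∈ Fl p (bar G) b ↔ MW38.cc v ∈ Fl p G b := by
  rw [MW38.mem_Fl_iff_exists, MW38.mem_Fl_iff_exists]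
  constructor
  · rintro ⟨c, hc, rfl⟩
    refine ⟨MW38.cc c, ?_, ?_⟩
    · intro j hj
      unfold MW38.cc
      rw [hc j hj, map_zero]
    · rw [B11_cc, B11_bar_bar]
  · rintro ⟨c, hc, hv⟩
    refine ⟨MW38.cc c, ?_, ?_⟩
    · intro j hj
      unfold MW38.cc
      rw [hc j hj, map_zero]
    · rw [← B11_cc, ← hv, B11_cc_cc]

private theorem B11_bar (g : Matrix ι ι ℚ) : bar (g.map (algebraMap ℚ ℂ)) = g.map (algebraMap ℚ ℂ) := by
  ext i j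
  unfold bar
  rw [Matrix.map_apply, Matrix.map_apply]
  simp

private theorem B11_map_mul (A B : Matrix ι ι ℚ) :
    (A * B).map (algebraMap ℚ ℂ) = A.map (algebraMap ℚ ℂ) * B.map (algebraMap ℚ ℂ) :=
  Matrix.map_mul

private theorem B11_map_one : (1 : Matrix ι ι ℚ).map (algebraMap ℚ ℂ) = 1 :=
  Matrix.map_one _ (map_zero _) (map_one _)

private theorem B11_inv {g : Matrix ι ι ℚ} (hg : IsUnit g) : g * g⁻¹ = 1 ∧ g⁻¹ * g = 1 :=
  ⟨Matrix.mul_nonsing_inv g ((Matrix.isUnit_iff_isUnit_det g).1 hg),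
    Matrix.nonsing_inv_mul g ((Matrix.isUnit_iff_isUnit_det g).1 hg)⟩

private theorem B11_invC {g : Matrix ι ι ℚ} (hg : IsUnit g) :
    g.map (algebraMap ℚ ℂ) * g⁻¹.map (algebraMap ℚ ℂ) = 1 ∧
      g⁻¹.map (algebraMap ℚ ℂ) * g.map (algebraMap ℚ ℂ) = 1 := by
  constructor
  · rw [← B11_map_mul, (B11_inv hg).1, B11_map_one]
  · rw [← B11_map_mul, (B11_inv hg).2, B11_map_one]

private theorem B11_inv_map {g : Matrix ι ι ℚ} (hg : IsUnit g) :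
    (g.map (algebraMap ℚ ℂ))⁻¹ = g⁻¹.map (algebraMap ℚ ℂ) :=
  Matrix.inv_eq_right_inv (B11_invC hg).1

private theorem B11_isUnit_inv {g : Matrix ι ι ℚ} (hg : IsUnit g) : IsUnit g⁻¹ := by
  rw [Matrix.isUnit_iff_isUnit_det]
  exact Matrix.isUnit_nonsing_inv_det g ((Matrix.isUnit_iff_isUnit_det g).1 hg)

private theorem B11_inj {g : Matrix ι ι ℚ} (hg : IsUnit g) :
    Function.Injective (Matrix.mulVecLin (g.map (algebraMap ℚ ℂ))) := by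
  intro x y hxy
  have h1 := congrArg (fun v => g⁻¹.map (algebraMap ℚ ℂ) *ᵥ v) hxy
  simp only [Matrix.mulVecLin_apply, Matrix.mulVec_mulVec, (B11_invC hg).2, Matrix.one_mulVec] at h1
  exact h1

private theorem B11_tri {g : Matrix ι ι ℚ} (ht : Tri wt g) : Tri wt (g.map (algebraMap ℚ ℂ)) := by
  intro i j hij
  rw [Matrix.map_apply, ht i j hij, map_zero]

private theorem B11_Wt_le {g : Matrix ι ι ℚ} (ht : Tri wt g) (k : ℤ) {v : ι → ℂ} (hv : v ∈ Wt wt k) :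
    g.map (algebraMap ℚ ℂ) *ᵥ v ∈ Wt wt k := by
  intro i hi
  simp only [Matrix.mulVec, dotProduct]
  refine Finset.sum_eq_zero fun j _ => ?_
  by_cases hj : wt j < wt i
  · rw [B11_tri ht i j hj, zero_mul]
  · rw [hv j (by omega), mul_zero]

private theorem B11_Wt {g : Matrix ι ι ℚ} (hg : IsUnit g) (ht : Tri wt g) (k : ℤ) :
    (Wt wt k).map (Matrix.mulVecLin (g.map (algebraMap ℚ ℂ))) = Wt wt k := by
  ext v
  rw [Submodule.mem_map]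
  constructor
  · rintro ⟨u, hu, rfl⟩
    exact B11_Wt_le ht k hu
  · intro hv
    refine ⟨g⁻¹.map (algebraMap ℚ ℂ) *ᵥ v, B11_Wt_le (MW38.Tri.inv ht hg) k hv, ?_⟩
    rw [Matrix.mulVecLin_apply, Matrix.mulVec_mulVec, (B11_invC hg).1, Matrix.one_mulVec]

private theorem B11_Fl_bar {Φ' : Matrix ι ι ℂ} {g : Matrix ι ι ℚ}
    (hF : ∀ a, Fl p Φ' a = (Fl p Φ a).map (Matrix.mulVecLin (g.map (algebraMap ℚ ℂ)))) (a : ℤ) :
    Fl p (bar Φ') a = (Fl p (bar Φ) a).map (Matrix.mulVecLin (g.map (algebraMap ℚ ℂ))) := by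
  ext v
  rw [B11_mem, hF, Submodule.mem_map, Submodule.mem_map]
  constructor
  · rintro ⟨u, hu, hv⟩
    refine ⟨MW38.cc u, ?_, ?_⟩
    · rw [B11_mem, B11_cc_cc]
      exact hu
    · rw [Matrix.mulVecLin_apply] at hv ⊢
      rw [← B11_cc_cc v, ← hv, B11_cc, B11_bar]
  · rintro ⟨u, hu, hv⟩
    refine ⟨MW38.cc u, (B11_mem _ _ _).1 hu, ?_⟩
    rw [Matrix.mulVecLin_apply] at hv ⊢
    rw [← hv, B11_cc, B11_bar]

theorem Ide_map {Φ' : Matrix ι ι ℂ} {g : Matrix ι ι ℚ} (hg : IsUnit g) (ht : Tri wt g)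
    (hF : ∀ a, Fl p Φ' a = (Fl p Φ a).map (Matrix.mulVecLin (g.map (algebraMap ℚ ℂ)))) (a b : ℤ) :
    Ide wt p Φ' a b = (Ide wt p Φ a b).map (Matrix.mulVecLin (g.map (algebraMap ℚ ℂ))) := by
  have hinj := B11_inj hg
  have h1 : ∀ a k, (Fl p Φ a ⊓ Wt wt k).map (Matrix.mulVecLin (g.map (algebraMap ℚ ℂ))) =
      Fl p Φ' a ⊓ Wt wt k := by
    intro a k
    rw [Submodule.map_inf _ hinj, ← hF, B11_Wt hg ht]
  have h2 : ∀ a k, (Fl p (bar Φ) a ⊓ Wt wt k).map (Matrix.mulVecLin (g.map (algebraMap ℚ ℂ))) =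
      Fl p (bar Φ') a ⊓ Wt wt k := by
    intro a k
    rw [Submodule.map_inf _ hinj, ← B11_Fl_bar hF, B11_Wt hg ht]
  unfold Ide
  rw [Submodule.map_inf _ hinj, h1, Submodule.map_sup, h2, Submodule.map_iSup]
  congr 2
  refine iSup_congr fun j => ?_
  rw [h2]

/-- conjugation by `g` -/
private def B11_c {R : Type*} [CommRing R] (A B : Matrix ι ι R) :
    Matrix ι ι R →ₗ[R] Matrix ι ι R where
  toFun M := A * M * B
  map_add' M N := by rw [Matrix.mul_add, Matrix.add_mul]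
  map_smul' c M := by rw [Matrix.mul_smul, Matrix.smul_mul, RingHom.id_apply]

private theorem B11_map_f (A : Matrix ι ι ℂ) (g₁ g₂ : Matrix ι ι ℚ) (f : ℂ →ₗ[ℚ] ℚ) :
    (g₁.map (algebraMap ℚ ℂ) * A * g₂.map (algebraMap ℚ ℂ)).map f = g₁ * A.map f * g₂ := by
  ext i j
  rw [Matrix.map_apply, Matrix.mul_apply, Matrix.mul_apply, map_sum]
  refine Finset.sum_congr rfl fun l _ => ?_
  rw [Matrix.mul_apply, Matrix.mul_apply, Finset.sum_mul, Finset.sum_mul, map_sum]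
  refine Finset.sum_congr rfl fun m _ => ?_
  rw [Matrix.map_apply, Matrix.map_apply, Matrix.map_apply]
  have h1 : algebraMap ℚ ℂ (g₁ i m) * A m l * algebraMap ℚ ℂ (g₂ l j) =
      (g₁ i m * g₂ l j) • A m l := by
    rw [Algebra.smul_def, map_mul]
    ring
  rw [h1, map_smul, smul_eq_mul]
  ring

private theorem B11_IsOp {Φ' : Matrix ι ι ℂ} {g : Matrix ι ι ℚ} (hg : IsUnit g) (ht : Tri wt g)
    (hF : ∀ a, Fl p Φ' a = (Fl p Φ a).map (Matrix.mulVecLin (g.map (algebraMap ℚ ℂ))))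
    (A : Matrix ι ι ℂ) (c : ℤ → ℤ → ℂ)
    (hA : ∀ a b : ℤ, ∀ v ∈ Ide wt p Φ' a b, A *ᵥ v = c a b • v) :
    ∀ a b : ℤ, ∀ v ∈ Ide wt p Φ a b,
      (g⁻¹.map (algebraMap ℚ ℂ) * A * g.map (algebraMap ℚ ℂ)) *ᵥ v = c a b • v := by
  intro a b v hv
  have h1 : g.map (algebraMap ℚ ℂ) *ᵥ v ∈ Ide wt p Φ' a b := by
    rw [Ide_map hg ht hF]
    exact ⟨v, hv, rfl⟩
  have h2 := hA a b _ h1
  rw [← Matrix.mulVec_mulVec, ← Matrix.mulVec_mulVec, h2, Matrix.mulVec_smul, Matrix.mulVec_mulVec,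
    (B11_invC hg).2, Matrix.one_mulVec]

private theorem B11_one {Φ' : Matrix ι ι ℂ} {g : Matrix ι ι ℚ} (hg : IsUnit g) (ht : Tri wt g)
    (hF : ∀ a, Fl p Φ' a = (Fl p Φ a).map (Matrix.mulVecLin (g.map (algebraMap ℚ ℂ))))
    {M : Matrix ι ι ℚ} (hM : M ∈ mtLie wt p Φ') : g⁻¹ * M * g ∈ mtLie wt p Φ := by
  unfold mtLie at hM ⊢
  rw [Submodule.mem_sInf] at hM ⊢
  rintro L ⟨hL, hLP, hLQ⟩
  have hmem : ∀ A : Matrix ι ι ℂ, g⁻¹.map (algebraMap ℚ ℂ) * A * g.map (algebraMap ℚ ℂ) ∈ cx L →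
      A ∈ cx (L.comap (B11_c g⁻¹ g)) := by
    intro A hA
    rw [mem_cx_iff] at hA ⊢
    intro f
    have h1 := hA f
    rw [B11_map_f] at h1
    exact h1
  have h2 := hM (L.comap (B11_c g⁻¹ g)) ⟨?_, ?_, ?_⟩
  · exact h2
  · intro A hA B hB
    have h3 := hL _ hA _ hB
    rw [Submodule.mem_comap]
    have h4 : (B11_c g⁻¹ g) (A * B - B * A) = (B11_c g⁻¹ g) A * (B11_c g⁻¹ g) B -
        (B11_c g⁻¹ g) B * (B11_c g⁻¹ g) A := by
      show g⁻¹ * (A * B - B * A) * g = (g⁻¹ * A * g) * (g⁻¹ * B * g) - (g⁻¹ * B * g) * (g⁻¹ * A * g)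
      have h5 : ∀ X Y : Matrix ι ι ℚ, (g⁻¹ * X * g) * (g⁻¹ * Y * g) = g⁻¹ * (X * Y) * g := by
        intro X Y
        calc (g⁻¹ * X * g) * (g⁻¹ * Y * g) = g⁻¹ * X * (g * g⁻¹) * Y * g := by
              simp only [Matrix.mul_assoc]
          _ = g⁻¹ * (X * Y) * g := by
              rw [(B11_inv hg).1, Matrix.mul_one]
              simp only [Matrix.mul_assoc]
      rw [h5, h5, Matrix.mul_sub, Matrix.sub_mul]
    rw [h4]
    exact h3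
  · intro A hA
    exact hmem A (hLP _ (B11_IsOp hg ht hF A (fun a _ => (a : ℂ)) hA))
  · intro A hA
    exact hmem A (hLQ _ (B11_IsOp hg ht hF A (fun _ b => (b : ℂ)) hA))

private theorem B11_hF {Φ' : Matrix ι ι ℂ} {g : Matrix ι ι ℚ} (hg : IsUnit g)
    (hF : ∀ a, Fl p Φ' a = (Fl p Φ a).map (Matrix.mulVecLin (g.map (algebraMap ℚ ℂ)))) (a : ℤ) :
    Fl p Φ a = (Fl p Φ' a).map (Matrix.mulVecLin (g⁻¹.map (algebraMap ℚ ℂ))) := by
  rw [hF, ← Submodule.map_comp, ← Matrix.mulVecLin_mul, (B11_invC hg).2, Matrix.mulVecLin_one,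
    Submodule.map_id]

theorem mtLie_conj {Φ' : Matrix ι ι ℂ} {g : Matrix ι ι ℚ} (hg : IsUnit g) (ht : Tri wt g)
    (hF : ∀ a, Fl p Φ' a = (Fl p Φ a).map (Matrix.mulVecLin (g.map (algebraMap ℚ ℂ))))
    (M : Matrix ι ι ℚ) : M ∈ mtLie wt p Φ' ↔ g⁻¹ * M * g ∈ mtLie wt p Φ := by
  constructor
  · exact B11_one hg ht hF
  · intro h
    have h1 := B11_one (B11_isUnit_inv hg) (MW38.Tri.inv ht hg) (B11_hF hg hF) h
    have h2 : g⁻¹⁻¹ = g := Matrix.nonsing_inv_nonsing_inv g ((Matrix.isUnit_iff_isUnit_det g).1 hg)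
    rw [h2] at h1
    have h3 : g * (g⁻¹ * M * g) * g⁻¹ = M := by
      calc g * (g⁻¹ * M * g) * g⁻¹ = (g * g⁻¹) * M * (g * g⁻¹) := by simp only [Matrix.mul_assoc]
        _ = M := by rw [(B11_inv hg).1, Matrix.one_mul, Matrix.mul_one]
    rwa [h3] at h1

private theorem B11_op {Φ' : Matrix ι ι ℂ} {g : Matrix ι ι ℚ} (hg : IsUnit g) (ht : Tri wt g)
    (hF : ∀ a, Fl p Φ' a = (Fl p Φ a).map (Matrix.mulVecLin (g.map (algebraMap ℚ ℂ))))
    (A : Matrix ι ι ℂ) (c : ℤ → ℤ → ℂ)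
    (hA : ∀ a b : ℤ, ∀ v ∈ Ide wt p Φ a b, A *ᵥ v = c a b • v) :
    ∀ a b : ℤ, ∀ v ∈ Ide wt p Φ' a b,
      (g.map (algebraMap ℚ ℂ) * A * (g.map (algebraMap ℚ ℂ))⁻¹) *ᵥ v = c a b • v := by
  have h1 := B11_IsOp (B11_isUnit_inv hg) (MW38.Tri.inv ht hg) (B11_hF hg hF) A c hA
  have h2 : g⁻¹⁻¹ = g := Matrix.nonsing_inv_nonsing_inv g ((Matrix.isUnit_iff_isUnit_det g).1 hg)
  rw [h2] at h1
  rw [B11_inv_map hg]
  exact h1

theorem oP_conj {Φ' : Matrix ι ι ℂ} {P' : ℤ → Matrix ι ι ℂ} {h h' : Matrix ι ι ℂ}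
    (hP : GrP wt p K Φ P) (hh : DelH wt p Φ P h)
    (hP' : GrP wt p K Φ' P') (hh' : DelH wt p Φ' P' h')
    {g : Matrix ι ι ℚ} (hg : IsUnit g) (ht : Tri wt g)
    (hF : ∀ a, Fl p Φ' a = (Fl p Φ a).map (Matrix.mulVecLin (g.map (algebraMap ℚ ℂ)))) :
    oP K P' h' = g.map (algebraMap ℚ ℂ) * oP K P h * (g.map (algebraMap ℚ ℂ))⁻¹ ∧
    oQ wt K P' h' = g.map (algebraMap ℚ ℂ) * oQ wt K P h * (g.map (algebraMap ℚ ℂ))⁻¹ := by
  constructor
  · have h1 : IsOpP wt p Φ (oP K P h) := (isOpP_iff hP hh _).2 rfl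
    have h2 : IsOpP wt p Φ' (g.map (algebraMap ℚ ℂ) * oP K P h * (g.map (algebraMap ℚ ℂ))⁻¹) :=
      B11_op hg ht hF _ (fun a _ => (a : ℂ)) h1
    exact ((isOpP_iff hP' hh' _).1 h2).symm
  · have h1 : IsOpQ wt p Φ (oQ wt K P h) := (isOpQ_iff hP hh _).2 rfl
    have h2 : IsOpQ wt p Φ' (g.map (algebraMap ℚ ℂ) * oQ wt K P h * (g.map (algebraMap ℚ ℂ))⁻¹) :=
      B11_op hg ht hF _ (fun _ b => (b : ℂ)) h1
    exact ((isOpQ_iff hP' hh' _).1 h2).symm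

end ZQ38
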