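import Pool.Agent.LibZQ38.C8

/-!
Monodromy permutes the maximal ideals.

PLAN. C8_opc: mob δ τ is (δ • τ : ℍ) (US38.mob_coe); oP_conj with Φ' = Φ (mob δ z). C8_mono: ZL19.gen_cjg and
ZL19.MaxI.mono with e the permutation τ ↦ δ • τ of ℍ (MulAction.toPerm δ), g = γ, g' = γ⁻¹ (γ ∈ WW wt 0 is Tri wt γ; γ⁻¹ is
also block triangular: MW38 or Matrix.BlockTriangular inverse; the ring inverse of a block triangular matrix), C8_gen, C8_uu;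
(γ.map cast)⁻¹ = (γ⁻¹).map cast (Matrix.map_nonsing_inv or by uniqueness of inverses).
-/

open Matrix Complex
open UpperHalfPlane hiding I
open MW38 (Fl Tri blk dg)
open SP38 (Hc)

namespace ZQ38

variable {ι : Type} [Fintype ι] [DecidableEq ι] {wt p : ι → ℤ} {K : ℕ}
variable {Φ : ℂ → Matrix ι ι ℂ} {P : ℂ → ℤ → Matrix ι ι ℂ} {h : ℂ → Matrix ι ι ℂ}

theorem C8b_inv {γ : Matrix ι ι ℚ} (hγ : IsUnit γ) : γ * γ⁻¹ = 1 ∧ γ⁻¹ * γ = 1 :=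
  ⟨Matrix.mul_nonsing_inv γ ((Matrix.isUnit_iff_isUnit_det γ).1 hγ),
    Matrix.nonsing_inv_mul γ ((Matrix.isUnit_iff_isUnit_det γ).1 hγ)⟩

theorem C8b_map_mul (A B : Matrix ι ι ℚ) :
    (A * B).map (algebraMap ℚ ℂ) = A.map (algebraMap ℚ ℂ) * B.map (algebraMap ℚ ℂ) :=
  Matrix.map_mul

theorem C8b_invC {γ : Matrix ι ι ℚ} (hγ : IsUnit γ) :
    (γ.map (algebraMap ℚ ℂ))⁻¹ = (γ⁻¹).map (algebraMap ℚ ℂ) := by
  apply Matrix.inv_eq_right_inv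
  rw [← C8b_map_mul, (C8b_inv hγ).1]
  exact Matrix.map_one _ (map_zero _) (map_one _)

theorem C8b_tri_inv {γ : Matrix ι ι ℚ} (hγ : IsUnit γ) (hγt : Tri wt γ) : Tri wt γ⁻¹ := by
  have : Invertible γ := hγ.invertible
  exact Matrix.blockTriangular_inv_of_blockTriangular (b := wt) (M := γ) hγt

theorem C8b_tri_mul {A B : Matrix ι ι ℚ} (hA : Tri wt A) (hB : Tri wt B) : Tri wt (A * B) :=
  Matrix.BlockTriangular.mul (b := wt) (M := A) (N := B) hA hB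

theorem C8b_WW {γ : Matrix ι ι ℚ} (hγt : Tri wt γ) : γ ∈ ZL19.WW wt 0 := by
  intro i j hij
  exact hγt i j (by omega)

theorem C8b_dgR_diag : dgR wt (Matrix.diagonal (fun i => (wt i : ℚ))) =
    Matrix.diagonal (fun i => (wt i : ℚ)) := by
  ext i j
  by_cases hij : wt i = wt j
  · rw [dgR, if_pos hij]
  · rw [dgR, if_neg hij, Matrix.diagonal_apply_ne]
    rintro rfl
    exact hij rfl

theorem C8b_dgR_comm (A : Matrix ι ι ℚ) : dgR wt A * Matrix.diagonal (fun i => (wt i : ℚ)) =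
    Matrix.diagonal (fun i => (wt i : ℚ)) * dgR wt A := by
  ext i j
  rw [Matrix.mul_diagonal, Matrix.diagonal_mul, dgR]
  by_cases hij : wt i = wt j
  · rw [if_pos hij, hij, mul_comm]
  · rw [if_neg hij, zero_mul, mul_zero]

theorem C8_opc (hP : ∀ z ∈ Hc 0, GrP wt p K (Φ z) (P z))
    (hh : ∀ z ∈ Hc 0, DelH wt p (Φ z) (P z) (h z)) {γ : Matrix ι ι ℚ} (hγ : IsUnit γ)
    (hγt : Tri wt γ) {δ : Matrix.SpecialLinearGroup (Fin 2) ℝ}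
    (hF : ∀ (τ : ℍ) (a : ℤ), Fl p (Φ ((δ • τ : ℍ) : ℂ)) a =
      (Fl p (Φ (τ : ℂ)) a).map (Matrix.mulVecLin (γ.map (algebraMap ℚ ℂ)))) {z : ℂ}
    (hz : z ∈ Hc 0) :
    oP K (P (US38.mob δ z)) (h (US38.mob δ z)) =
      γ.map (algebraMap ℚ ℂ) * oP K (P z) (h z) * (γ⁻¹).map (algebraMap ℚ ℂ) ∧
    oQ wt K (P (US38.mob δ z)) (h (US38.mob δ z)) =
      γ.map (algebraMap ℚ ℂ) * oQ wt K (P z) (h z) * (γ⁻¹).map (algebraMap ℚ ℂ) ∧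
    h (US38.mob δ z) * Dwt wt * (h (US38.mob δ z))⁻¹ =
      γ.map (algebraMap ℚ ℂ) * (h z * Dwt wt * (h z)⁻¹) * (γ⁻¹).map (algebraMap ℚ ℂ) := by
  have hz' : US38.mob δ z ∈ Hc 0 := US38.mob_mem δ hz
  have hF' : ∀ a, Fl p (Φ (US38.mob δ z)) a =
      (Fl p (Φ z) a).map (Matrix.mulVecLin (γ.map (algebraMap ℚ ℂ))) := by
    intro a
    have h1 := hF ⟨z, hz⟩ a
    rw [← US38.mob_coe] at h1
    exact h1
  obtain ⟨h1, h2⟩ := oP_conj (hP z hz) (hh z hz) (hP _ hz') (hh _ hz') hγ hγt hF'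
  rw [C8b_invC hγ] at h1 h2
  refine ⟨h1, h2, ?_⟩
  rw [← oP_add_oQ (h (US38.mob δ z)) K (P (US38.mob δ z)), ← oP_add_oQ (h z) K (P z), h1, h2,
    mul_add, add_mul]

theorem C8_mono (hP : ∀ z ∈ Hc 0, GrP wt p K (Φ z) (P z))
    (hh : ∀ z ∈ Hc 0, DelH wt p (Φ z) (P z) (h z)) (hPa : ∀ a, An (Hc 0) (fun z => P z a))
    (hha : An (Hc 0) h) {γ : Matrix ι ι ℚ} (hγ : IsUnit γ)
    (hγt : Tri wt γ) {δ : Matrix.SpecialLinearGroup (Fin 2) ℝ}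
    (hF : ∀ (τ : ℍ) (a : ℤ), Fl p (Φ ((δ • τ : ℍ) : ℂ)) a =
      (Fl p (Φ (τ : ℂ)) a).map (Matrix.mulVecLin (γ.map (algebraMap ℚ ℂ)))) :
    (genLie wt p Φ).map (ZL19.cjg γ γ⁻¹) = genLie wt p Φ ∧
    ∀ n, ZL19.MaxI (genLie wt p Φ) (genLie wt p Φ ⊓ Low ℚ wt) n →
      ZL19.MaxI (genLie wt p Φ) (genLie wt p Φ ⊓ Low ℚ wt) (n.map (ZL19.cjg γ γ⁻¹)) := by
  have h1 : ∀ τ : ℍ, oP K (P ((MulAction.toPerm δ τ : ℍ) : ℂ)) (h ((MulAction.toPerm δ τ : ℍ) : ℂ)) =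
      ZL19.toC γ * oP K (P (τ : ℂ)) (h (τ : ℂ)) * ZL19.toC γ⁻¹ := by
    intro τ
    have h2 := (C8_opc hP hh hγ hγt hF (z := (τ : ℂ)) τ.2).1
    rw [US38.mob_coe] at h2
    exact h2
  have h2 : ∀ τ : ℍ, oQ wt K (P ((MulAction.toPerm δ τ : ℍ) : ℂ))
      (h ((MulAction.toPerm δ τ : ℍ) : ℂ)) =
      ZL19.toC γ * oQ wt K (P (τ : ℂ)) (h (τ : ℂ)) * ZL19.toC γ⁻¹ := by
    intro τ
    have h2 := (C8_opc hP hh hγ hγt hF (z := (τ : ℂ)) τ.2).2.1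
    rw [US38.mob_coe] at h2
    exact h2
  obtain ⟨hi1, hi2⟩ := C8b_inv hγ
  constructor
  · have h3 := ZL19.gen_cjg (P := fun τ : ℍ => oP K (P τ) (h τ))
      (Q := fun τ : ℍ => oQ wt K (P τ) (h τ)) hi1 hi2 (MulAction.toPerm δ) h1 h2
    rwa [C8_gen hP hh hPa hha] at h3
  · intro n hn
    have h3 := ZL19.MaxI.mono (wt := wt) (N := n) (P := fun τ : ℍ => oP K (P τ) (h τ))
      (Q := fun τ : ℍ => oQ wt K (P τ) (h τ))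
      (by rw [C8_gen hP hh hPa hha, C8_uu]; exact hn) hi1 hi2 (C8b_WW hγt)
      (C8b_WW (C8b_tri_inv hγ hγt)) (MulAction.toPerm δ) h1 h2
    rwa [C8_gen hP hh hPa hha, C8_uu] at h3

theorem C8_spec (hP : ∀ z ∈ Hc 0, GrP wt p K (Φ z) (P z))
    (hh : ∀ z ∈ Hc 0, DelH wt p (Φ z) (P z) (h z)) (hPa : ∀ a, An (Hc 0) (fun z => P z a))
    (hha : An (Hc 0) h) {γ : Matrix ι ι ℚ} (hγ : IsUnit γ)
    (hγt : Tri wt γ) {δ : Matrix.SpecialLinearGroup (Fin 2) ℝ}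
    (hF : ∀ (τ : ℍ) (a : ℤ), Fl p (Φ ((δ • τ : ℍ) : ℂ)) a =
      (Fl p (Φ (τ : ℂ)) a).map (Matrix.mulVecLin (γ.map (algebraMap ℚ ℂ)))) (τ : ℍ)
    (n : Submodule ℚ (Matrix ι ι ℚ)) (t : Matrix ι ι ℚ) (ht : t ∈ genLie wt p Φ)
    (ht' : dgR wt t = Matrix.diagonal (fun i => (wt i : ℚ)))
    (hn : h τ * Dwt wt * (h τ)⁻¹ - t.map (algebraMap ℚ ℂ) ∈ cx n) :
    γ * t * γ⁻¹ ∈ genLie wt p Φ ∧
    dgR wt (γ * t * γ⁻¹) = Matrix.diagonal (fun i => (wt i : ℚ)) ∧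
    h ((δ • τ : ℍ) : ℂ) * Dwt wt * (h ((δ • τ : ℍ) : ℂ))⁻¹ -
      (γ * t * γ⁻¹).map (algebraMap ℚ ℂ) ∈ cx (n.map (ZL19.cjg γ γ⁻¹)) := by
  obtain ⟨hi1, hi2⟩ := C8b_inv hγ
  have htt : Tri wt t := (C8_lie hP hh hPa hha).2.1 t ht
  have hti := C8b_tri_inv hγ hγt
  refine ⟨?_, ?_, ?_⟩
  · have h1 := (C8_mono hP hh hPa hha hγ hγt hF).1
    rw [← h1]
    exact ⟨t, ht, rfl⟩
  · rw [dgR_mul (C8b_tri_mul hγt htt) hti, dgR_mul hγt htt, ht', C8b_dgR_comm, Matrix.mul_assoc,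
      ← dgR_mul hγt hti, hi1, B13_dgR_one, Matrix.mul_one]
  · have h1 := (C8_opc hP hh hγ hγt hF (z := (τ : ℂ)) τ.2).2.2
    rw [US38.mob_coe] at h1
    rw [h1, C8b_map_mul, C8b_map_mul, ← sub_mul, ← mul_sub]
    exact ZL19.mem_cx_map_cjg (g := γ) (g' := γ⁻¹) hn

end ZQ38
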