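import Pool.Agent.LibZQ38.B06

/-!
The Mumford-Tate algebra of the graded pieces.

PLAN. delH_gr: v of type (a,b) lies in Ide (dg Φ) a b (it is in F^a, W_k and F̄^b ∩ W_k, GrP.mem_bar);
conversely Ide_lead and Ide_inj (B04a) for dg Φ: x ∈ Ide gives Ewt k x =: u of type (a,b), u ∈ Ide,
x - u ∈ Ide ∩ W_{k-1} = 0. mtLie_gr: dgR is multiplicative on Tri matrices and
dgR (oP K P h) = PG = oP K P 1. (≤): the image of mtLie Φ under dgR is a submodule closed under the
commutator (elements are Tri, mtLie_tri) and its complexification contains PG and Dwt - PG; mtLie_le_iff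
for dg Φ. (≥): L := {M | M ∈ mtLie Φ..} use instead L := the Tri matrices M with dgR M ∈ mtLie (dg Φ): a
submodule closed under the commutator with oP, oQ ∈ cx L, so mtLie Φ ≤ L.
-/

open Matrix Complex
open MW38 (Fl Tri blk dg)

namespace ZQ38

variable {ι : Type} [Fintype ι] [DecidableEq ι] {wt p : ι → ℤ} {K : ℕ} {Φ : Matrix ι ι ℂ}
  {P : ℤ → Matrix ι ι ℂ} {Ω : Set ℂ}

/-- the block diagonal part -/
def dgR {R : Type*} [Zero R] (wt : ι → ℤ) (A : Matrix ι ι R) : Matrix ι ι R :=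
  fun i j => if wt i = wt j then A i j else 0

theorem dgR_mul {R : Type*} [CommRing R] {A B : Matrix ι ι R} (hA : Tri wt A) (hB : Tri wt B) :
    dgR wt (A * B) = dgR wt A * dgR wt B := by
  ext i j
  rw [Matrix.mul_apply]
  by_cases hij : wt i = wt j
  · rw [dgR, if_pos hij, Matrix.mul_apply]
    refine Finset.sum_congr rfl fun k _ => ?_
    rcases lt_trichotomy (wt i) (wt k) with h | h | h
    · rw [hB k j (hij ▸ h), mul_zero, dgR, if_neg h.ne, zero_mul]
    · rw [dgR, dgR, if_pos h, if_pos (h.symm.trans hij)]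
    · rw [hA i k h, zero_mul, dgR, if_neg h.ne', zero_mul]
  · rw [dgR, if_neg hij]
    refine (Finset.sum_eq_zero fun k _ => ?_).symm
    by_cases h : wt i = wt k
    · rw [dgR, dgR, if_neg (fun h' : wt k = wt j => hij (h.trans h')), mul_zero]
    · rw [dgR, if_neg h, zero_mul]

theorem B13_dgR_sub {R : Type*} [CommRing R] (A B : Matrix ι ι R) :
    dgR wt (A - B) = dgR wt A - dgR wt B := by
  ext i j
  by_cases h : wt i = wt j
  · simp only [dgR, if_pos h, Matrix.sub_apply]
  · simp only [dgR, if_neg h, Matrix.sub_apply, sub_zero]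

theorem B13_dgR_add {R : Type*} [CommRing R] (A B : Matrix ι ι R) :
    dgR wt (A + B) = dgR wt A + dgR wt B := by
  ext i j
  by_cases h : wt i = wt j
  · simp only [dgR, if_pos h, Matrix.add_apply]
  · simp only [dgR, if_neg h, Matrix.add_apply, add_zero]

theorem B13_dgR_smul (c : ℚ) (A : Matrix ι ι ℚ) : dgR wt (c • A) = c • dgR wt A := by
  ext i j
  by_cases h : wt i = wt j
  · simp only [dgR, if_pos h, Matrix.smul_apply]
  · simp only [dgR, if_neg h, Matrix.smul_apply, smul_zero]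

theorem B13_dgR_zero : dgR wt (0 : Matrix ι ι ℚ) = 0 := by
  ext i j
  by_cases h : wt i = wt j
  · simp only [dgR, if_pos h, Matrix.zero_apply]
  · simp only [dgR, if_neg h, Matrix.zero_apply]

theorem B13_dgR_one {R : Type*} [CommRing R] : dgR wt (1 : Matrix ι ι R) = 1 := by
  ext i j
  by_cases h : wt i = wt j
  · simp only [dgR, if_pos h]
  · have hij : i ≠ j := fun e => h (by rw [e])
    simp only [dgR, if_neg h, Matrix.one_apply_ne hij]

theorem B13_dgR_map (A : Matrix ι ι ℂ) (f : ℂ →ₗ[ℚ] ℚ) :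
    dgR wt (A.map f) = (dgR wt A).map f := by
  ext i j
  by_cases h : wt i = wt j
  · simp only [dgR, if_pos h, Matrix.map_apply]
  · simp only [dgR, if_neg h, Matrix.map_apply, map_zero]

theorem B13_tri_map {A : Matrix ι ι ℂ} (hA : Tri wt A) (f : ℂ →ₗ[ℚ] ℚ) : Tri wt (A.map f) := by
  intro i j hij
  rw [Matrix.map_apply, hA i j hij, map_zero]

theorem B13_tri_dg (A : Matrix ι ι ℂ) : Tri wt (dg wt A) := by
  intro i j hij
  rw [dg, if_neg hij.ne']

theorem B13_dg_dg (A : Matrix ι ι ℂ) : dg wt (dg wt A) = dg wt A := by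
  ext i j
  by_cases h : wt i = wt j
  · simp only [dg, if_pos h]
  · simp only [dg, if_neg h]

theorem B13_bar_dg (A : Matrix ι ι ℂ) : bar (dg wt A) = dg wt (bar A) := by
  ext i j
  by_cases h : wt i = wt j
  · simp only [dg, if_pos h, bar, Matrix.map_apply]
  · simp only [dg, if_neg h, bar, Matrix.map_apply, map_zero]

theorem grP_gr (hP : GrP wt p K Φ P) : GrP wt p K (dg wt Φ) P where
  unit := MW38.dg_isUnit hP.unit hP.tri
  tri := B13_tri_dg Φ
  diag := hP.diag
  mul := hP.mul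
  supp := hP.supp
  sum := hP.sum
  conj := hP.conj
  fil := by
    intro a v
    rw [B13_dg_dg]
    exact hP.fil a v

theorem B13_Ewt_apply (k : ℤ) (v : ι → ℂ) (i : ι) :
    (Ewt wt k *ᵥ v) i = if wt i = k then v i else 0 := by
  rw [Ewt, Matrix.mulVec_diagonal]
  by_cases h : wt i = k
  · simp only [if_pos h, one_mul]
  · simp only [if_neg h, zero_mul]

theorem B13_mem (hP : GrP wt p K Φ P) {a b : ℤ} {v : ι → ℂ} (h1 : P a *ᵥ v = v)
    (h2 : Ewt wt (a + b) *ᵥ v = v) : v ∈ Ide wt p (dg wt Φ) a b := by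
  have hz : ∀ c, c ≠ a → P c *ᵥ v = 0 := by
    intro c hc
    rw [← h1, Matrix.mulVec_mulVec, hP.mul, if_neg hc, Matrix.zero_mulVec]
  have hW : v ∈ Wt wt (a + b) := by
    intro i hi
    rw [← h2, B13_Ewt_apply, if_neg hi.ne']
  refine ⟨⟨(hP.fil a v).2 fun c hc => hz c hc.ne, hW⟩, ?_⟩
  refine Submodule.mem_sup_left ⟨?_, hW⟩
  rw [B13_bar_dg]
  refine (hP.mem_bar b (a + b) h2).2 fun c hc => hz c ?_
  intro e
  rw [e] at hc
  linarith

theorem delH_gr (hP : GrP wt p K Φ P) : DelH wt p (dg wt Φ) P 1 where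
  un := by
    intro i j _
    rw [Matrix.one_apply]
  ide := by
    intro a b v
    rw [Matrix.one_mulVec]
    constructor
    · intro hv
      set u := Ewt wt (a + b) *ᵥ v with hu
      have h1 : P a *ᵥ u = u := Ide_lead (grP_gr hP) hv
      have h2 : Ewt wt (a + b) *ᵥ u = u := by
        funext i
        rw [B13_Ewt_apply]
        by_cases h : wt i = a + b
        · rw [if_pos h]
        · rw [if_neg h, hu, B13_Ewt_apply, if_neg h]
      have h3 : u ∈ Ide wt p (dg wt Φ) a b := B13_mem hP h1 h2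
      have h4 : v - u ∈ Wt wt (a + b - 1) := by
        intro i hi
        rw [Pi.sub_apply, hu, B13_Ewt_apply]
        by_cases h : wt i = a + b
        · rw [if_pos h, sub_self]
        · rw [if_neg h, sub_zero]
          exact hv.1.2 i (by omega)
      have h5 : v - u = 0 := Ide_inj (grP_gr hP) (Submodule.sub_mem _ hv h3) h4
      have h6 : v = u := sub_eq_zero.1 h5
      exact ⟨by rw [h6]; exact h1, h6.symm⟩
    · rintro ⟨h1, h2⟩
      exact B13_mem hP h1 h2

theorem B13_dgR_un {h : Matrix ι ι ℂ} (hh : Un wt h) : dgR wt h = 1 := by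
  ext i j
  by_cases e : wt i = wt j
  · rw [dgR, if_pos e, hh i j e.ge, Matrix.one_apply]
  · have hij : i ≠ j := fun e' => e (by rw [e'])
    rw [dgR, if_neg e, Matrix.one_apply_ne hij]

theorem B13_tri_un {h : Matrix ι ι ℂ} (hh : Un wt h) : Tri wt h := by
  intro i j hij
  rw [hh i j hij.le, if_neg]
  intro e
  rw [e] at hij
  exact lt_irrefl _ hij

/-- the diagonal part of a conjugate -/
theorem B13_conj {h A : Matrix ι ι ℂ} (hh : Un wt h) (hA : Tri wt A) :
    dgR wt (h * A * h⁻¹) = dgR wt A := by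
  have hu : IsUnit h := hh.isUnit
  have h1 : Tri wt h := B13_tri_un hh
  have h2 : Tri wt h⁻¹ := h1.inv hu
  have h3 : dgR wt h⁻¹ = 1 := by
    have h4 : h * h⁻¹ = 1 := Matrix.mul_nonsing_inv h ((Matrix.isUnit_iff_isUnit_det h).mp hu)
    have h5 := dgR_mul h1 h2
    rw [h4, B13_dgR_one, B13_dgR_un hh, one_mul] at h5
    exact h5.symm
  rw [dgR_mul (h1.mul hA) h2, dgR_mul h1 hA, h3, B13_dgR_un hh, one_mul, mul_one]

theorem B13_tri_PG (hP : GrP wt p K Φ P) : Tri wt (PG K P) := by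
  intro i j hij
  rw [PG, Matrix.sum_apply]
  refine Finset.sum_eq_zero fun a _ => ?_
  rw [Matrix.smul_apply, hP.diag a i j hij.ne', smul_zero]

theorem B13_dgR_PG (hP : GrP wt p K Φ P) : dgR wt (PG K P) = PG K P := by
  ext i j
  by_cases e : wt i = wt j
  · rw [dgR, if_pos e]
  · rw [dgR, if_neg e, PG, Matrix.sum_apply]
    refine (Finset.sum_eq_zero fun a _ => ?_).symm
    rw [Matrix.smul_apply, hP.diag a i j e, smul_zero]

theorem B13_tri_D : Tri wt (Dwt wt) := by
  intro i j hij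
  rw [Dwt, Matrix.diagonal_apply_ne]
  intro e
  rw [e] at hij
  exact lt_irrefl _ hij

theorem B13_dgR_D : dgR wt (Dwt wt) = Dwt wt := by
  ext i j
  by_cases e : wt i = wt j
  · rw [dgR, if_pos e]
  · have hij : i ≠ j := fun e' => e (by rw [e'])
    rw [dgR, if_neg e, Dwt, Matrix.diagonal_apply_ne _ hij]

theorem B13_tri_sub {A B : Matrix ι ι ℂ} (hA : Tri wt A) (hB : Tri wt B) : Tri wt (A - B) := by
  intro i j hij
  rw [Matrix.sub_apply, hA i j hij, hB i j hij, sub_zero]

theorem B13_oP (hP : GrP wt p K Φ P) {h : Matrix ι ι ℂ} (hh : Un wt h) :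
    dgR wt (oP K P h) = oP K P 1 := by
  rw [oP, oP, B13_conj hh (B13_tri_PG hP), B13_dgR_PG hP, one_mul, inv_one, mul_one]

theorem B13_oQ (hP : GrP wt p K Φ P) {h : Matrix ι ι ℂ} (hh : Un wt h) :
    dgR wt (oQ wt K P h) = oQ wt K P 1 := by
  rw [oQ, oQ, B13_conj hh (B13_tri_sub B13_tri_D (B13_tri_PG hP)), B13_dgR_sub, B13_dgR_PG hP,
    B13_dgR_D, one_mul, inv_one, mul_one]

theorem B13_tri_oP (hP : GrP wt p K Φ P) {h : Matrix ι ι ℂ} (hh : Un wt h) :
    Tri wt (oP K P h) :=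
  ((B13_tri_un hh).mul (B13_tri_PG hP)).mul ((B13_tri_un hh).inv hh.isUnit)

theorem B13_tri_oQ (hP : GrP wt p K Φ P) {h : Matrix ι ι ℂ} (hh : Un wt h) :
    Tri wt (oQ wt K P h) :=
  ((B13_tri_un hh).mul (B13_tri_sub B13_tri_D (B13_tri_PG hP))).mul
    ((B13_tri_un hh).inv hh.isUnit)

theorem B13_dgR_comm {A B : Matrix ι ι ℚ} (hA : Tri wt A) (hB : Tri wt B) :
    dgR wt (A * B - B * A) = dgR wt A * dgR wt B - dgR wt B * dgR wt A := by
  rw [B13_dgR_sub, dgR_mul hA hB, dgR_mul hB hA]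

theorem mtLie_gr (hP : GrP wt p K Φ P) {h : Matrix ι ι ℂ} (hh : DelH wt p Φ P h)
    (M : Matrix ι ι ℚ) : M ∈ mtLie wt p (dg wt Φ) ↔ ∃ M' ∈ mtLie wt p Φ, dgR wt M' = M := by
  have hP' := grP_gr hP
  have hD' := delH_gr hP
  constructor
  · intro hM
    let L : Submodule ℚ (Matrix ι ι ℚ) :=
      { carrier := {M | ∃ M' ∈ mtLie wt p Φ, dgR wt M' = M}
        add_mem' := by
          rintro _ _ ⟨A, hA, rfl⟩ ⟨B, hB, rfl⟩
          exact ⟨A + B, Submodule.add_mem _ hA hB, B13_dgR_add A B⟩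
        zero_mem' := ⟨0, Submodule.zero_mem _, B13_dgR_zero⟩
        smul_mem' := by
          rintro c _ ⟨A, hA, rfl⟩
          exact ⟨c • A, Submodule.smul_mem _ _ hA, B13_dgR_smul c A⟩ }
    have hL : IsLie L := by
      rintro _ ⟨A, hA, rfl⟩ _ ⟨B, hB, rfl⟩
      exact ⟨A * B - B * A, mtLie_isLie A hA B hB,
        B13_dgR_comm (mtLie_tri hP hh A hA) (mtLie_tri hP hh B hB)⟩
    have h1 : mtLie wt p (dg wt Φ) ≤ L := by
      rw [mtLie_le_iff hP' hD' hL]
      constructor
      · rw [mem_cx_iff]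
        intro f
        exact ⟨(oP K P h).map f, (mem_cx_iff _ _).1 (oP_mem hP hh) f, by
          rw [B13_dgR_map, B13_oP hP hh.un]⟩
      · rw [mem_cx_iff]
        intro f
        exact ⟨(oQ wt K P h).map f, (mem_cx_iff _ _).1 (oQ_mem hP hh) f, by
          rw [B13_dgR_map, B13_oQ hP hh.un]⟩
    exact h1 hM
  · rintro ⟨M', hM', rfl⟩
    let L : Submodule ℚ (Matrix ι ι ℚ) :=
      { carrier := {M | Tri wt M ∧ dgR wt M ∈ mtLie wt p (dg wt Φ)}
        add_mem' := by
          rintro A B ⟨hA, hA'⟩ ⟨hB, hB'⟩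
          refine ⟨fun i j hij => ?_, ?_⟩
          · rw [Matrix.add_apply, hA i j hij, hB i j hij, add_zero]
          · rw [B13_dgR_add]
            exact Submodule.add_mem _ hA' hB'
        zero_mem' := by
          refine ⟨fun i j _ => rfl, ?_⟩
          rw [B13_dgR_zero]
          exact Submodule.zero_mem _
        smul_mem' := by
          rintro c A ⟨hA, hA'⟩
          refine ⟨fun i j hij => ?_, ?_⟩
          · rw [Matrix.smul_apply, hA i j hij, smul_zero]
          · rw [B13_dgR_smul]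
            exact Submodule.smul_mem _ _ hA' }
    have hL : IsLie L := by
      rintro A ⟨hA, hA'⟩ B ⟨hB, hB'⟩
      refine ⟨fun i j hij => ?_, ?_⟩
      · rw [Matrix.sub_apply, (hA.mul hB) i j hij, (hB.mul hA) i j hij, sub_zero]
      · rw [B13_dgR_comm hA hB]
        exact mtLie_isLie _ hA' _ hB'
    have h1 : mtLie wt p Φ ≤ L := by
      rw [mtLie_le_iff hP hh hL]
      constructor
      · rw [mem_cx_iff]
        intro f
        refine ⟨B13_tri_map (B13_tri_oP hP hh.un) f, ?_⟩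
        rw [B13_dgR_map, B13_oP hP hh.un]
        exact (mem_cx_iff _ _).1 (oP_mem hP' hD') f
      · rw [mem_cx_iff]
        intro f
        refine ⟨B13_tri_map (B13_tri_oQ hP hh.un) f, ?_⟩
        rw [B13_dgR_map, B13_oQ hP hh.un]
        exact (mem_cx_iff _ _).1 (oQ_mem hP' hD') f
    exact (h1 hM').2

end ZQ38
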