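import Pool.Agent.LibZQ38.BDef
import Pool.Agent.LibMW38.Col

/-!
The projectors of the graded pieces.

PLAN. `P a` is block diagonal (GrP.diag), so it commutes with Ewt and preserves Wt. GrP.mem_bar:
`dg wt (bar Φ) = bar (dg wt Φ)`, and `v ∈ Fl p (bar G) b` iff the conjugate vector is in `Fl p G b`
(spans of conjugate columns); then GrP.fil for the conjugate vector and GrP.conj: the conjugate of
`P c` acts on vectors of weight `k` as `P (k - c)`.
-/

open Matrix Complex
open MW38 (Fl Tri blk dg)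

namespace ZQ38

variable {ι : Type} [Fintype ι] [DecidableEq ι] {wt p : ι → ℤ} {K : ℕ} {Φ : Matrix ι ι ℂ}
  {P : ℤ → Matrix ι ι ℂ} {Ω : Set ℂ}

private theorem B02b_dg (Φ : Matrix ι ι ℂ) : dg wt (bar Φ) = bar (dg wt Φ) := by
  ext i j
  show (if wt i = wt j then (starRingEnd ℂ) (Φ i j) else 0) =
    (starRingEnd ℂ) (if wt i = wt j then Φ i j else 0)
  split_ifs
  · rfl
  · rw [map_zero]

private theorem B02b_cc (G : Matrix ι ι ℂ) (c : ι → ℂ) : MW38.cc (G *ᵥ c) = bar G *ᵥ MW38.cc c := by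
  funext i
  unfold MW38.cc bar
  simp only [Matrix.mulVec, dotProduct, Matrix.map_apply, map_sum, map_mul]

private theorem B02b_cc_cc (v : ι → ℂ) : MW38.cc (MW38.cc v) = v := by
  funext i
  unfold MW38.cc
  exact Complex.conj_conj _

private theorem B02b_bar_bar (G : Matrix ι ι ℂ) : bar (bar G) = G := by
  ext i j
  unfold bar
  rw [Matrix.map_apply, Matrix.map_apply]
  exact Complex.conj_conj _

private theorem B02b_mem (G : Matrix ι ι ℂ) (b : ℤ) (v : ι → ℂ) :
    v ∈ Fl p (bar G) b ↔ MW38.cc v ∈ Fl p G b := by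
  rw [MW38.mem_Fl_iff_exists, MW38.mem_Fl_iff_exists]
  constructor
  · rintro ⟨c, hc, rfl⟩
    refine ⟨MW38.cc c, ?_, ?_⟩
    · intro j hj
      unfold MW38.cc
      rw [hc j hj, map_zero]
    · rw [B02b_cc, B02b_bar_bar]
  · rintro ⟨c, hc, hv⟩
    refine ⟨MW38.cc c, ?_, ?_⟩
    · intro j hj
      unfold MW38.cc
      rw [hc j hj, map_zero]
    · rw [← B02b_cc, ← hv, B02b_cc_cc]

private theorem B02b_Ewt {k : ℤ} {v : ι → ℂ} (hv : Ewt wt k *ᵥ v = v) {i : ι} (hi : wt i ≠ k) :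
    v i = 0 := by
  rw [← hv]
  unfold Ewt
  rw [Matrix.mulVec_diagonal, if_neg hi, zero_mul]

/-- the conjugate filtration on the graded pieces, in terms of the projectors -/
theorem GrP.mem_bar (h : GrP wt p K Φ P) (b k : ℤ) {v : ι → ℂ} (hv : Ewt wt k *ᵥ v = v) :
    v ∈ Fl p (dg wt (bar Φ)) b ↔ ∀ c, k - b < c → P c *ᵥ v = 0 := by
  rw [B02b_dg, B02b_mem, h.fil]
  have hz : ∀ c i, wt i ≠ k → (P c *ᵥ v) i = 0 := by
    intro c i hi
    simp only [Matrix.mulVec, dotProduct]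
    refine Finset.sum_eq_zero fun j _ => ?_
    by_cases hj : wt i = wt j
    · rw [B02b_Ewt hv (by rw [← hj]; exact hi), mul_zero]
    · rw [h.diag c i j hj, zero_mul]
  have key : ∀ b' : ℤ, MW38.cc (P b' *ᵥ MW38.cc v) = P (k - b') *ᵥ v := by
    intro b'
    funext i
    have h1 : MW38.cc (P b' *ᵥ MW38.cc v) i = (P (wt i - b') *ᵥ v) i := by
      rw [B02b_cc, B02b_cc_cc]
      simp only [Matrix.mulVec, dotProduct, bar, Matrix.map_apply]
      refine Finset.sum_congr rfl fun j _ => ?_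
      rw [h.conj]
    rw [h1]
    by_cases hi : wt i = k
    · rw [hi]
    · rw [hz _ i hi, hz _ i hi]
  have hcc0 : ∀ u : ι → ℂ, MW38.cc u = 0 ↔ u = 0 := by
    intro u
    constructor
    · intro hu
      rw [← B02b_cc_cc u, hu]
      funext i
      unfold MW38.cc
      rw [Pi.zero_apply, map_zero]
    · rintro rfl
      funext i
      unfold MW38.cc
      rw [Pi.zero_apply, map_zero]
  constructor
  · intro h1 c hc
    have h2 := h1 (k - c) (by omega)
    rw [← hcc0, key] at h2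
    have h3 : k - (k - c) = c := by omega
    rwa [h3] at h2
  · intro h1 b' hb'
    rw [← hcc0, key]
    exact h1 _ (by omega)

theorem GrP.comm_Ewt (h : GrP wt p K Φ P) (a k : ℤ) : P a * Ewt wt k = Ewt wt k * P a := by
  ext i j
  unfold Ewt
  rw [Matrix.mul_diagonal, Matrix.diagonal_mul]
  by_cases hij : wt i = wt j
  · rw [hij, mul_comm]
  · rw [h.diag a i j hij, zero_mul, mul_zero]

/-- the projectors preserve the weight filtration -/
theorem GrP.mem_Wt (h : GrP wt p K Φ P) (a k : ℤ) {v : ι → ℂ} (hv : v ∈ Wt wt k) :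
    P a *ᵥ v ∈ Wt wt k := by
  intro i hi
  simp only [Matrix.mulVec, dotProduct]
  refine Finset.sum_eq_zero fun j _ => ?_
  by_cases hj : wt i = wt j
  · rw [hv j (by omega), mul_zero]
  · rw [h.diag a i j hj, zero_mul]

theorem GrP.Pge_add_Pls (h : GrP wt p K Φ P) (a : ℤ) : Pge K P a + Pls K P a = 1 := by
  obtain ⟨S, hS⟩ : ∃ S : Finset ℤ, S = Finset.Icc (-((K : ℤ) + |a|)) ((K : ℤ) + |a|) := ⟨_, rfl⟩
  have hz : ∀ b : ℤ, b ∉ Finset.Icc (-(K : ℤ)) K → P b = 0 := by
    intro b hb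
    apply h.supp
    rw [Finset.mem_Icc, not_and_or] at hb
    rcases hb with hb | hb
    · rw [abs_of_neg (by omega)]
      omega
    · rw [abs_of_pos (by omega)]
      omega
  have ha := abs_le.1 (le_refl |a|)
  have h1 : Pge K P a = ∑ b ∈ S with a ≤ b, P b := by
    unfold Pge
    refine Finset.sum_subset ?_ ?_
    · intro b hb
      rw [Finset.mem_Icc] at hb
      rw [Finset.mem_filter, hS, Finset.mem_Icc]
      omega
    · intro b hb hb2
      rw [Finset.mem_filter] at hb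
      apply hz
      rw [Finset.mem_Icc]
      rw [Finset.mem_Icc] at hb2
      omega
  have h2 : Pls K P a = ∑ b ∈ S with ¬ a ≤ b, P b := by
    unfold Pls
    refine Finset.sum_subset ?_ ?_
    · intro b hb
      rw [Finset.mem_Ico] at hb
      rw [Finset.mem_filter, hS, Finset.mem_Icc]
      omega
    · intro b hb hb2
      rw [Finset.mem_filter] at hb
      apply hz
      rw [Finset.mem_Icc]
      rw [Finset.mem_Ico] at hb2
      omega
  rw [h1, h2, Finset.sum_filter_add_sum_filter_not, ← h.sum]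
  symm
  refine Finset.sum_subset ?_ ?_
  · intro b hb
    rw [Finset.mem_Icc] at hb
    rw [hS, Finset.mem_Icc]
    omega
  · intro b _ hb2
    exact hz b hb2

/-- `Pge` maps to `F^a Gr` -/
theorem GrP.Pge_mem (h : GrP wt p K Φ P) (a : ℤ) (v : ι → ℂ) :
    Pge K P a *ᵥ v ∈ Fl p (dg wt Φ) a := by
  rw [h.fil]
  intro b hb
  unfold Pge
  rw [Matrix.mulVec_mulVec, Finset.mul_sum]
  have h1 : ∑ c ∈ Finset.Icc a (K : ℤ), P b * P c = 0 := by
    refine Finset.sum_eq_zero fun c hc => ?_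
    rw [Finset.mem_Icc] at hc
    rw [h.mul, if_neg (by omega)]
  rw [h1, Matrix.zero_mulVec]

/-- `Pls` maps to the conjugate filtration -/
theorem GrP.Pls_mem (h : GrP wt p K Φ P) (a k : ℤ) {v : ι → ℂ} (hv : Ewt wt k *ᵥ v = v) :
    Pls K P a *ᵥ v ∈ Fl p (dg wt (bar Φ)) (k - a + 1) := by
  have h0 : Ewt wt k *ᵥ (Pls K P a *ᵥ v) = Pls K P a *ᵥ v := by
    unfold Pls
    rw [Matrix.mulVec_mulVec, Finset.mul_sum,
      Finset.sum_congr rfl (fun b _ => (h.comm_Ewt b k).symm), ← Finset.sum_mul,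
      ← Matrix.mulVec_mulVec, hv]
  rw [h.mem_bar _ k h0]
  intro c hc
  unfold Pls
  rw [Matrix.mulVec_mulVec, Finset.mul_sum]
  have h1 : ∑ b ∈ Finset.Ico (-(K : ℤ)) a, P c * P b = 0 := by
    refine Finset.sum_eq_zero fun b hb => ?_
    rw [Finset.mem_Ico] at hb
    rw [h.mul, if_neg (by omega)]
  rw [h1, Matrix.zero_mulVec]

end ZQ38
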