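import Pool.Agent.LibZQ38.B02a
import Pool.Agent.LibZQ38.B02b

/-!
Deligne splitting: the construction stops.

PLAN. Dd_mem by induction on `j`: for `j = 0` Un.sub_mem (P a, Ewt wt k send v to a vector of weight
k). Step: `d := Dd .. j v ∈ W_{k-j-1}`, `c := Ewt wt (k-(j+1)) d` its leading coordinates; the
leading coordinates of `L (Pge a c) + L̄ (Pls a c)` are `Pge a c + Pls a c = c` (Lm is unipotent,
GrP.Pge_add_Pls), so the new difference lies in `W_{k-j-2}`. Dd_eq_zero: `Dd .. J v` lies in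
`W_{k-J-1}` and `k = wt i`, so all coordinates vanish.
-/

open Matrix Complex
open MW38 (Fl Tri blk dg)

namespace ZQ38

variable {ι : Type} [Fintype ι] [DecidableEq ι] {wt p : ι → ℤ} {K : ℕ} {Φ : Matrix ι ι ℂ}
  {P : ℤ → Matrix ι ι ℂ} {Ω : Set ℂ}

theorem B03a_Ewt_apply (k : ℤ) (v : ι → ℂ) (i : ι) :
    (Ewt wt k *ᵥ v) i = if wt i = k then v i else 0 := by
  unfold Ewt
  rw [Matrix.mulVec_diagonal]
  split_ifs <;> simp

theorem B03a_Ewt_mem (k : ℤ) (v : ι → ℂ) : Ewt wt k *ᵥ v ∈ Wt wt k := by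
  intro i hi
  rw [B03a_Ewt_apply, if_neg hi.ne']

theorem B03a_Ewt_sub {k : ℤ} {v : ι → ℂ} (hv : v ∈ Wt wt k) :
    v - Ewt wt k *ᵥ v ∈ Wt wt (k - 1) := by
  intro i hi
  rw [Pi.sub_apply, B03a_Ewt_apply]
  split_ifs with h
  · exact sub_self _
  · rw [hv i (lt_of_le_of_ne (by omega) (Ne.symm h)), sub_zero]

theorem B03a_un_one : Un wt (1 : Matrix ι ι ℂ) := by
  intro i j _
  exact Matrix.one_apply

theorem B03a_Pge_mem (h : GrP wt p K Φ P) (a k : ℤ) {v : ι → ℂ} (hv : v ∈ Wt wt k) :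
    Pge K P a *ᵥ v ∈ Wt wt k := by
  unfold Pge
  rw [Matrix.sum_mulVec]
  exact Submodule.sum_mem _ fun b _ => h.mem_Wt b k hv

theorem B03a_Pls_mem (h : GrP wt p K Φ P) (a k : ℤ) {v : ι → ℂ} (hv : v ∈ Wt wt k) :
    Pls K P a *ᵥ v ∈ Wt wt k := by
  unfold Pls
  rw [Matrix.sum_mulVec]
  exact Submodule.sum_mem _ fun b _ => h.mem_Wt b k hv

theorem Dd_mem (h : GrP wt p K Φ P) (a k : ℤ) (j : ℕ) (v : ι → ℂ) :
    Dd wt K Φ P a k j *ᵥ v ∈ Wt wt (k - (j + 1)) := by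
  have hL := Lm_un h.unit h.tri
  have hL' := Lm_un (bar_isUnit h.unit) (bar_tri h.tri)
  induction j with
  | zero =>
    unfold Dd
    rw [← Matrix.mulVec_mulVec, ← Matrix.mulVec_mulVec]
    have h1 := hL.sub_mem hL' (h.mem_Wt a k (B03a_Ewt_mem (wt := wt) k v))
    simpa using h1
  | succ j ih =>
    unfold Dd
    set m : ℤ := k - (j + 1) with hm
    set d := Dd wt K Φ P a k j *ᵥ v with hd
    set c := Ewt wt m *ᵥ d with hc
    have hcm : c ∈ Wt wt m := B03a_Ewt_mem m d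
    have e1 : (Dd wt K Φ P a k j - Lm wt Φ * Pge K P a * Ewt wt m * Dd wt K Φ P a k j -
        Lm wt (bar Φ) * Pls K P a * Ewt wt m * Dd wt K Φ P a k j) *ᵥ v =
        (d - c) - (Lm wt Φ - 1) *ᵥ (Pge K P a *ᵥ c) -
          (Lm wt (bar Φ) - 1) *ᵥ (Pls K P a *ᵥ c) := by
      have e2 : Pge K P a *ᵥ c + Pls K P a *ᵥ c = c := by
        rw [← Matrix.add_mulVec, h.Pge_add_Pls, Matrix.one_mulVec]
      rw [Matrix.sub_mulVec, Matrix.sub_mulVec, ← Matrix.mulVec_mulVec, ← Matrix.mulVec_mulVec,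
        ← Matrix.mulVec_mulVec, ← Matrix.mulVec_mulVec, ← Matrix.mulVec_mulVec,
        ← Matrix.mulVec_mulVec, ← hd, ← hc, Matrix.sub_mulVec, Matrix.sub_mulVec,
        Matrix.one_mulVec, Matrix.one_mulVec]
      nth_rewrite 3 [← e2]
      abel
    rw [e1]
    have e3 : k - (((j + 1 : ℕ) : ℤ) + 1) = m - 1 := by
      rw [hm]
      push_cast
      ring
    rw [e3]
    refine Submodule.sub_mem _ (Submodule.sub_mem _ ?_ ?_) ?_
    · exact B03a_Ewt_sub ih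
    · exact hL.sub_mem B03a_un_one (B03a_Pge_mem h a m hcm)
    · exact hL'.sub_mem B03a_un_one (B03a_Pls_mem h a m hcm)

/-- the construction stops -/
theorem Dd_eq_zero (h : GrP wt p K Φ P) {J : ℕ} (hJ : ∀ i j, wt i - wt j < J) (a k : ℤ)
    (hk : k ∈ Finset.univ.image wt) : Dd wt K Φ P a k J = 0 := by
  rw [Finset.mem_image] at hk
  obtain ⟨i₀, -, rfl⟩ := hk
  ext i j
  have h1 := Dd_mem h a (wt i₀) J (Pi.single j 1) i (by have := hJ i₀ i; omega)
  rw [Matrix.mulVec_single_one] at h1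
  exact h1

end ZQ38
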