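import Pool.Agent.LibZQ38.B02a
import Pool.Agent.LibZQ38.B02b
import Pool.Agent.LibZQ38.B03a

/-!
Deligne splitting: the sum over the types.

PLAN. HH_mulVec: every term of `Hd .. a' k'` ends with `P a' * Ewt wt k'` (also the terms of the sum:
by induction `Dd .. a' k' j = (..) * (P a' * Ewt wt k')`), and `P a' Ewt k' v = 0` unless a' = a and
k' = k (v = P a v = Ewt k v). `P a = 0` if |a| > K, then v = 0. HH_un: `Hd .. a k` is the sum of
`Lm wt Φ * P a * Ewt wt k` and of matrices whose range lies in `W_{k-1}` when applied to weight k; sum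
over a, k: `Lm * ∑ P a * Ewt k = Lm`, and `∑_k Ewt k = 1` over the image of wt.
(`Dd .. j v ∈ W_{k-j-1}` is Dd_mem in B03a; you may import B03a and use it.)
-/

open Matrix Complex
open MW38 (Fl Tri blk dg)

namespace ZQ38

variable {ι : Type} [Fintype ι] [DecidableEq ι] {wt p : ι → ℤ} {K : ℕ} {Φ : Matrix ι ι ℂ}
  {P : ℤ → Matrix ι ι ℂ} {Ω : Set ℂ}

theorem B03c_Dd_factor (a k : ℤ) (j : ℕ) :
    ∃ M : Matrix ι ι ℂ, Dd wt K Φ P a k j = M * (P a * Ewt wt k) := by
  induction j with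
  | zero => exact ⟨Lm wt Φ - Lm wt (bar Φ), by rw [Dd, Matrix.mul_assoc]⟩
  | succ j ih =>
    obtain ⟨M, hM⟩ := ih
    refine ⟨M - Lm wt Φ * Pge K P a * Ewt wt (k - (j + 1)) * M -
      Lm wt (bar Φ) * Pls K P a * Ewt wt (k - (j + 1)) * M, ?_⟩
    rw [Dd, hM, Matrix.sub_mul, Matrix.sub_mul]
    simp only [Matrix.mul_assoc]

theorem B03c_sum_factor (a k : ℤ) (J : ℕ) :
    ∃ M : Matrix ι ι ℂ, ∑ j ∈ Finset.range J,
      Lm wt Φ * Pge K P a * Ewt wt (k - (j + 1)) * Dd wt K Φ P a k j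
        = M * (P a * Ewt wt k) := by
  induction J with
  | zero => exact ⟨0, by rw [Finset.sum_range_zero, Matrix.zero_mul]⟩
  | succ J ih =>
    obtain ⟨M, hM⟩ := ih
    obtain ⟨M', hM'⟩ := B03c_Dd_factor (wt := wt) (K := K) (Φ := Φ) (P := P) a k J
    refine ⟨M + Lm wt Φ * Pge K P a * Ewt wt (k - (J + 1)) * M', ?_⟩
    rw [Finset.sum_range_succ, hM, hM', Matrix.add_mul, Matrix.mul_assoc
      (Lm wt Φ * Pge K P a * Ewt wt (k - (J + 1))) M']

theorem B03c_Hd_factor (J : ℕ) (a k : ℤ) :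
    ∃ M : Matrix ι ι ℂ, Hd wt K Φ P J a k = M * (P a * Ewt wt k) := by
  obtain ⟨M, hM⟩ := B03c_sum_factor (wt := wt) (K := K) (Φ := Φ) (P := P) a k J
  refine ⟨Lm wt Φ - M, ?_⟩
  rw [Hd, Matrix.sub_mul, hM, Matrix.mul_assoc]

theorem B03c_Ewt_mul (k k' : ℤ) : Ewt wt k * Ewt wt k' = if k = k' then Ewt wt k else 0 := by
  unfold Ewt
  rw [Matrix.diagonal_mul_diagonal]
  split_ifs with hk
  · subst hk
    congr 1
    funext i
    split_ifs <;> simp
  · rw [← Matrix.diagonal_zero]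
    congr 1
    funext i
    by_cases h1 : wt i = k
    · have h2 : wt i ≠ k' := by rw [h1]; exact hk
      simp [h2]
    · simp [h1]

theorem B03c_sum_Ewt : ∑ k ∈ Finset.univ.image wt, Ewt wt k = (1 : Matrix ι ι ℂ) := by
  ext i j
  rw [Matrix.sum_apply, Matrix.one_apply]
  unfold Ewt
  by_cases hij : i = j
  · subst hij
    rw [if_pos rfl]
    have h1 : ∀ k ∈ Finset.univ.image wt,
        (Matrix.diagonal (fun i => if wt i = k then (1 : ℂ) else 0)) i i
          = if wt i = k then 1 else 0 := by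
      intro k _
      rw [Matrix.diagonal_apply_eq]
    rw [Finset.sum_congr rfl h1, Finset.sum_ite_eq]
    rw [if_pos (Finset.mem_image_of_mem wt (Finset.mem_univ i))]
  · rw [if_neg hij]
    refine Finset.sum_eq_zero fun k _ => ?_
    rw [Matrix.diagonal_apply_ne _ hij]

theorem HH_mulVec (h : GrP wt p K Φ P) {J : ℕ} {a k : ℤ}
    (hk : k ∈ Finset.univ.image wt) {v : ι → ℂ} (hv : P a *ᵥ v = v) (hv' : Ewt wt k *ᵥ v = v) :
    HH wt K Φ P J *ᵥ v = Hd wt K Φ P J a k *ᵥ v := by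
  have hzero : ∀ a' k', (a' ≠ a ∨ k' ≠ k) → Hd wt K Φ P J a' k' *ᵥ v = 0 := by
    intro a' k' hne
    obtain ⟨M, hM⟩ := B03c_Hd_factor (wt := wt) (K := K) (Φ := Φ) (P := P) J a' k'
    rw [hM, ← Matrix.mulVec_mulVec, ← Matrix.mulVec_mulVec]
    rcases eq_or_ne k' k with hkk | hkk
    · have ha : a' ≠ a := by
        rcases hne with h1 | h1
        · exact h1
        · exact absurd hkk h1
      rw [hkk, hv', ← hv, Matrix.mulVec_mulVec (v := v), h.mul, if_neg ha]
      simp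
    · rw [← hv', Matrix.mulVec_mulVec (v := v), B03c_Ewt_mul, if_neg hkk]
      simp
  unfold HH
  rw [Matrix.sum_mulVec]
  by_cases ha : a ∈ Finset.Icc (-(K : ℤ)) K
  · rw [Finset.sum_eq_single a]
    · rw [Matrix.sum_mulVec, Finset.sum_eq_single k]
      · intro k' _ hk'
        exact hzero a k' (Or.inr hk')
      · intro h1
        exact absurd hk h1
    · intro a' _ ha'
      rw [Matrix.sum_mulVec]
      exact Finset.sum_eq_zero fun k' _ => hzero a' k' (Or.inl ha')
    · intro h1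
      exact absurd ha h1
  · have h1 : (K : ℤ) < |a| := by
      by_contra hcon
      rw [not_lt, abs_le] at hcon
      exact ha (Finset.mem_Icc.mpr hcon)
    have hv0 : v = 0 := by
      rw [← hv, h.supp a h1, Matrix.zero_mulVec]
    rw [hv0, Matrix.mulVec_zero]
    refine Finset.sum_eq_zero fun a' _ => ?_
    rw [Matrix.mulVec_zero]

theorem HH_un (h : GrP wt p K Φ P) (J : ℕ) : Un wt (HH wt K Φ P J) := by
  have hL : Un wt (Lm wt Φ) := Lm_un h.unit h.tri
  have hsplit : HH wt K Φ P J = Lm wt Φ - ∑ a ∈ Finset.Icc (-(K : ℤ)) K,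
      ∑ k ∈ Finset.univ.image wt, ∑ j ∈ Finset.range J,
        Lm wt Φ * Pge K P a * Ewt wt (k - (j + 1)) * Dd wt K Φ P a k j := by
    unfold HH Hd
    have h1 : ∀ a ∈ Finset.Icc (-(K : ℤ)) K, ∑ k ∈ Finset.univ.image wt,
        (Lm wt Φ * P a * Ewt wt k - ∑ j ∈ Finset.range J,
          Lm wt Φ * Pge K P a * Ewt wt (k - (j + 1)) * Dd wt K Φ P a k j)
        = Lm wt Φ * P a - ∑ k ∈ Finset.univ.image wt, ∑ j ∈ Finset.range J,
          Lm wt Φ * Pge K P a * Ewt wt (k - (j + 1)) * Dd wt K Φ P a k j := by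
      intro a _
      rw [Finset.sum_sub_distrib, ← Finset.mul_sum, B03c_sum_Ewt, Matrix.mul_one]
    rw [Finset.sum_congr rfl h1, Finset.sum_sub_distrib, ← Finset.mul_sum, h.sum, Matrix.mul_one]
  have hterm : ∀ (a k : ℤ) (j : ℕ) (i l : ι), wt l ≤ wt i →
      (Lm wt Φ * Pge K P a * Ewt wt (k - (j + 1)) * Dd wt K Φ P a k j) i l = 0 := by
    intro a k j i l hil
    have hcol : (Lm wt Φ * Pge K P a * Ewt wt (k - (j + 1)) * Dd wt K Φ P a k j) i l
        = ((Lm wt Φ * Pge K P a * Ewt wt (k - (j + 1)) * Dd wt K Φ P a k j)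
            *ᵥ Pi.single l 1) i := by
      rw [Matrix.mulVec_single_one]
      rfl
    rw [hcol, ← Matrix.mulVec_mulVec, ← Matrix.mulVec_mulVec, ← Matrix.mulVec_mulVec]
    by_cases hkl : k = wt l
    · have hd := Dd_mem h a k j (Pi.single l (1 : ℂ))
      have hE : Ewt wt (k - (j + 1)) *ᵥ (Dd wt K Φ P a k j *ᵥ Pi.single l 1)
          ∈ Wt wt (k - (j + 1)) := by
        intro i' hi'
        unfold Ewt
        rw [Matrix.mulVec_diagonal, if_neg (by omega), zero_mul]
      have hP : Pge K P a *ᵥ (Ewt wt (k - (j + 1)) *ᵥ (Dd wt K Φ P a k j *ᵥ Pi.single l 1))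
          ∈ Wt wt (k - (j + 1)) := by
        unfold Pge
        rw [Matrix.sum_mulVec]
        exact Submodule.sum_mem _ fun b _ => h.mem_Wt b _ hE
      have hLm := hL.mem_Wt hP
      exact hLm i (by omega)
    · obtain ⟨M, hM⟩ := B03c_Dd_factor (wt := wt) (K := K) (Φ := Φ) (P := P) a k j
      have h0 : Dd wt K Φ P a k j *ᵥ Pi.single l 1 = 0 := by
        rw [hM, ← Matrix.mulVec_mulVec, ← Matrix.mulVec_mulVec]
        have h1 : Ewt wt k *ᵥ (Pi.single l (1 : ℂ)) = 0 := by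
          funext i'
          unfold Ewt
          rw [Matrix.mulVec_diagonal]
          by_cases hi' : i' = l
          · subst hi'
            rw [if_neg (fun h2 => hkl h2.symm), zero_mul]
            rfl
          · rw [Pi.single_eq_of_ne hi', mul_zero]
            rfl
        rw [h1, Matrix.mulVec_zero, Matrix.mulVec_zero]
      rw [h0]
      simp
  intro i l hil
  rw [hsplit, Matrix.sub_apply, hL i l hil, Matrix.sum_apply]
  have h0 : ∑ a ∈ Finset.Icc (-(K : ℤ)) K, (∑ k ∈ Finset.univ.image wt, ∑ j ∈ Finset.range J,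
      Lm wt Φ * Pge K P a * Ewt wt (k - (j + 1)) * Dd wt K Φ P a k j) i l = 0 := by
    refine Finset.sum_eq_zero fun a _ => ?_
    rw [Matrix.sum_apply]
    refine Finset.sum_eq_zero fun k _ => ?_
    rw [Matrix.sum_apply]
    exact Finset.sum_eq_zero fun j _ => hterm a k j i l hil
  rw [h0, sub_zero]

end ZQ38
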