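import Pool.Agent.LibZQ38.B02a
import Pool.Agent.LibZQ38.B02b

/-!
Deligne splitting: uniqueness.

PLAN. Let k = a + b. Ide_lead: u := Ewt k x. `x ∈ F^a ∩ W_k` gives `u ∈ F^a Gr` (lead_mem), so
`P c u = 0` for c < a. `x = y + (element of W_{k-2})` with `y ∈ F̄^b ∩ W_k`, so u = Ewt k y is in
F̄^b Gr_k (lead_mem for bar Φ), so `P c u = 0` for c > k - b = a (GrP.mem_bar). As ∑ P c = 1,
P a u = u.
Ide_inj: show by induction on n that `x ∈ W_{k-n}` for all n ≥ 1; then x = 0. Step: write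
x = y_0 + ∑_{i ≥ 2} y_i (finite sum, Submodule.mem_sup and mem_iSup; use an induction principle or
`Submodule.mem_iSup_iff_exists_finsupp`) with y_0 ∈ F̄^b ∩ W_k, y_i ∈ F̄^{b-i+1} ∩ W_{k-i}. Let
z = y_0 + ∑_{2 ≤ i ≤ n} y_i = x - ∑_{i > n} y_i ∈ W_{k-n}, z ∈ F̄^{b-n+1} (the filtration decreases).
The leading coordinates of x in weight k-n are those of z: so in F̄^{b-n+1} Gr, i.e. killed by P c
for c > (k-n)-(b-n+1) = a-1; and x ∈ F^a, so killed by P c for c < a. Hence they vanish and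
x ∈ W_{k-n-1}.
-/

open Matrix Complex
open MW38 (Fl Tri blk dg)

namespace ZQ38

variable {ι : Type} [Fintype ι] [DecidableEq ι] {wt p : ι → ℤ} {K : ℕ} {Φ : Matrix ι ι ℂ}
  {P : ℤ → Matrix ι ι ℂ} {Ω : Set ℂ}

private theorem B04a_Ewt_apply (wt : ι → ℤ) (k : ℤ) (x : ι → ℂ) (i : ι) :
    (Ewt wt k *ᵥ x) i = if wt i = k then x i else 0 := by
  rw [Ewt, Matrix.mulVec_diagonal]
  split_ifs <;> simp

private theorem B04a_Ewt_idem (wt : ι → ℤ) (k : ℤ) (x : ι → ℂ) :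
    Ewt wt k *ᵥ (Ewt wt k *ᵥ x) = Ewt wt k *ᵥ x := by
  funext i
  rw [B04a_Ewt_apply, B04a_Ewt_apply]
  split_ifs <;> rfl

private theorem B04a_Ewt_low {wt : ι → ℤ} {k : ℤ} {x : ι → ℂ} (hx : x ∈ Wt wt (k - 1)) :
    Ewt wt k *ᵥ x = 0 := by
  funext i
  rw [B04a_Ewt_apply]
  split_ifs with h
  · exact hx i (by omega)
  · rfl

private theorem B04a_mem_low {wt : ι → ℤ} {k : ℤ} {x : ι → ℂ} (hx : x ∈ Wt wt k)
    (h0 : Ewt wt k *ᵥ x = 0) : x ∈ Wt wt (k - 1) := by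
  intro i hi
  by_cases h : wt i = k
  · have := congrFun h0 i
    rwa [B04a_Ewt_apply, if_pos h] at this
  · exact hx i (by omega)

private theorem B04a_Wt_mono {wt : ι → ℤ} {k l : ℤ} (h : k ≤ l) : Wt wt k ≤ Wt wt l := by
  intro x hx i hi
  exact hx i (by omega)

/-- the leading coordinates in the conjugate filtration -/
private theorem B04a_lead_bar (h : GrP wt p K Φ P) {b m : ℤ} {x : ι → ℂ} (hx : x ∈ Wt wt m)
    (hx' : x ∈ Fl p (bar Φ) b ⊔ Wt wt (m - 1)) (c : ℤ) (hc : m - b < c) :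
    P c *ᵥ (Ewt wt m *ᵥ x) = 0 := by
  obtain ⟨s, hs, t, ht, rfl⟩ := Submodule.mem_sup.1 hx'
  have hs' : s ∈ Wt wt m := by
    have h1 : s + t - t ∈ Wt wt m :=
      Submodule.sub_mem _ hx (B04a_Wt_mono (by omega) ht)
    rwa [add_sub_cancel_right] at h1
  have h2 : Ewt wt m *ᵥ (s + t) = Ewt wt m *ᵥ s := by
    rw [Matrix.mulVec_add, B04a_Ewt_low ht, add_zero]
  rw [h2]
  have h3 := lead_mem (bar_isUnit h.unit) (bar_tri h.tri) hs hs'
  exact (h.mem_bar b m (B04a_Ewt_idem wt m s)).1 h3 c hc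

private theorem B04a_lead (h : GrP wt p K Φ P) {a m : ℤ} {x : ι → ℂ} (hx : x ∈ Wt wt m)
    (hx' : x ∈ Fl p Φ a) (c : ℤ) (hc : c < a) : P c *ᵥ (Ewt wt m *ᵥ x) = 0 :=
  (h.fil a _).1 (lead_mem h.unit h.tri hx' hx) c hc

private theorem B04a_single (h : GrP wt p K Φ P) {a : ℤ} {u : ι → ℂ}
    (hu : ∀ c, c ≠ a → P c *ᵥ u = 0) : P a *ᵥ u = u := by
  have h1 : (∑ c ∈ Finset.Icc (-(K : ℤ)) K, P c) *ᵥ u = u := by rw [h.sum, Matrix.one_mulVec]
  rw [Matrix.sum_mulVec] at h1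
  by_cases ha : a ∈ Finset.Icc (-(K : ℤ)) K
  · rw [Finset.sum_eq_single_of_mem a ha (fun c _ hc => hu c hc)] at h1
    exact h1
  · rw [Finset.sum_eq_zero (fun c hc => hu c (fun hca => ha (hca ▸ hc)))] at h1
    rw [← h1, Matrix.mulVec_zero]

private theorem B04a_zero (h : GrP wt p K Φ P) {u : ι → ℂ}
    (hu : ∀ c, P c *ᵥ u = 0) : u = 0 := by
  have h1 : (∑ c ∈ Finset.Icc (-(K : ℤ)) K, P c) *ᵥ u = u := by rw [h.sum, Matrix.one_mulVec]
  rw [Matrix.sum_mulVec, Finset.sum_eq_zero (fun c _ => hu c)] at h1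
  exact h1.symm

private theorem B04a_sup_zero {a b : ℤ} {x : ι → ℂ} (hx : x ∈ Ide wt p Φ a b) :
    x ∈ Fl p (bar Φ) b ⊔ Wt wt (a + b - 1) := by
  have h1 : ((Fl p (bar Φ) b ⊓ Wt wt (a + b)) ⊔
      ⨆ j : ℕ, Fl p (bar Φ) (b - (j + 2) + 1) ⊓ Wt wt (a + b - (j + 2))) ≤
      Fl p (bar Φ) b ⊔ Wt wt (a + b - 1) := by
    apply sup_le
    · exact inf_le_left.trans le_sup_left
    · apply iSup_le
      intro j
      exact (inf_le_right.trans (B04a_Wt_mono (by omega))).trans le_sup_right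
  exact h1 hx.2

private theorem B04a_sup {a b : ℤ} (n : ℕ) (hn : 1 ≤ n) {x : ι → ℂ} (hx : x ∈ Ide wt p Φ a b) :
    x ∈ Fl p (bar Φ) (b - n + 1) ⊔ Wt wt (a + b - n - 1) := by
  have h1 : ((Fl p (bar Φ) b ⊓ Wt wt (a + b)) ⊔
      ⨆ j : ℕ, Fl p (bar Φ) (b - (j + 2) + 1) ⊓ Wt wt (a + b - (j + 2))) ≤
      Fl p (bar Φ) (b - n + 1) ⊔ Wt wt (a + b - n - 1) := by
    apply sup_le
    · exact (inf_le_left.trans (MW38.Fl_anti (by omega))).trans le_sup_left
    · apply iSup_le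
      intro j
      rcases le_or_gt (j + 2) n with hj | hj
      · exact (inf_le_left.trans (MW38.Fl_anti (by omega))).trans le_sup_left
      · exact (inf_le_right.trans (B04a_Wt_mono (by omega))).trans le_sup_right
  exact h1 hx.2

/-- the leading coordinates of an element of `I^{a,b}` are of type `(a,b)` -/
theorem Ide_lead (h : GrP wt p K Φ P) {a b : ℤ} {x : ι → ℂ} (hx : x ∈ Ide wt p Φ a b) :
    P a *ᵥ (Ewt wt (a + b) *ᵥ x) = Ewt wt (a + b) *ᵥ x := by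
  have hF : x ∈ Fl p Φ a := hx.1.1
  have hW : x ∈ Wt wt (a + b) := hx.1.2
  apply B04a_single h
  intro c hc
  rcases lt_or_gt_of_ne hc with hc | hc
  · exact B04a_lead h hW hF c hc
  · exact B04a_lead_bar h hW (B04a_sup_zero hx) c (by omega)

/-- `I^{a,b} ∩ W_{a+b-1} = 0` -/
theorem Ide_inj (h : GrP wt p K Φ P) {a b : ℤ} {x : ι → ℂ} (hx : x ∈ Ide wt p Φ a b)
    (hx' : x ∈ Wt wt (a + b - 1)) : x = 0 := by
  have hF : x ∈ Fl p Φ a := hx.1.1
  have key : ∀ n : ℕ, x ∈ Wt wt (a + b - (n + 1)) := by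
    intro n
    induction n with
    | zero => simpa using hx'
    | succ n ih =>
      have hW : x ∈ Wt wt (a + b - ((n + 1 : ℕ) : ℤ)) := by
        convert ih using 2
        push_cast; ring
      have h0 : Ewt wt (a + b - ((n + 1 : ℕ) : ℤ)) *ᵥ x = 0 := by
        apply B04a_zero h
        intro c
        rcases lt_or_ge c a with hc | hc
        · exact B04a_lead h hW hF c hc
        · have h2 := B04a_sup (n + 1) (by omega) hx
          exact B04a_lead_bar h hW h2 c (by omega)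
      have h3 := B04a_mem_low hW h0
      convert h3 using 2
      push_cast; ring
  funext i
  have h4 := key (a + b - wt i).toNat
  exact h4 i (by have := Int.self_le_toNat (a + b - wt i); omega)

end ZQ38
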