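import Pool.Agent.LibZQ38.B03b
import Pool.Agent.LibZQ38.B03c
import Pool.Agent.LibZQ38.B04a

/-!
Deligne splitting.

PLAN. un = HH_un. ide (←): HH_mulVec and Hd_mem (if a + b is not a weight then v = 0). (→): given
`h v ∈ Ide a b`; let u = Ewt (a+b) (h v), P a u = u by Ide_lead; first show `h v ∈ W_{a+b}` implies
`v ∈ W_{a+b}` (h unipotent, or strong induction), so Ewt (a+b) v = u (h is unipotent). `h u ∈ Ide a b`
by (←), so `h v - h u ∈ Ide a b ∩ W_{a+b-1}` is 0 (Ide_inj), h is injective (unipotent), v = u.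
-/

open Matrix Complex
open MW38 (Fl Tri blk dg)

namespace ZQ38

variable {ι : Type} [Fintype ι] [DecidableEq ι] {wt p : ι → ℤ} {K : ℕ} {Φ : Matrix ι ι ℂ}
  {P : ℤ → Matrix ι ι ℂ} {Ω : Set ℂ}

private theorem B04b_Ewt_apply (wt : ι → ℤ) (k : ℤ) (x : ι → ℂ) (i : ι) :
    (Ewt wt k *ᵥ x) i = if wt i = k then x i else 0 := by
  rw [Ewt, Matrix.mulVec_diagonal]
  split_ifs <;> simp

/-- a coordinate of `g v` when `v` vanishes in higher weights -/
private theorem B04b_coord {g : Matrix ι ι ℂ} (hg : Un wt g) {v : ι → ℂ} {i : ι}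
    (hv : ∀ j, wt i < wt j → v j = 0) : (g *ᵥ v) i = v i := by
  rw [Matrix.mulVec, dotProduct]
  rw [Finset.sum_eq_single i]
  · rw [hg i i le_rfl, if_pos rfl, one_mul]
  · intro j _ hj
    rcases le_or_gt (wt j) (wt i) with h | h
    · rw [hg i j h, if_neg (Ne.symm hj), zero_mul]
    · rw [hv j h, mul_zero]
  · intro h; exact absurd (Finset.mem_univ i) h

private theorem B04b_mem {g : Matrix ι ι ℂ} (hg : Un wt g) {k : ℤ} {v : ι → ℂ}
    (hv : g *ᵥ v ∈ Wt wt k) : v ∈ Wt wt k := by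
  classical
  by_contra hc
  have hne : (Finset.univ.filter (fun i => k < wt i ∧ v i ≠ 0)).Nonempty := by
    by_contra hne
    rw [Finset.not_nonempty_iff_eq_empty] at hne
    apply hc
    intro i hi
    by_contra h0
    have : i ∈ Finset.univ.filter (fun i => k < wt i ∧ v i ≠ 0) := by
      simp [hi, h0]
    rw [hne] at this
    exact absurd this (Finset.notMem_empty i)
  obtain ⟨i, hi, hmax⟩ := Finset.exists_max_image _ wt hne
  rw [Finset.mem_filter] at hi
  have h1 : (g *ᵥ v) i = v i := by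
    apply B04b_coord hg
    intro j hj
    by_contra h0
    have h2 := hmax j (by simp only [Finset.mem_filter, Finset.mem_univ, true_and]; exact ⟨by omega, h0⟩)
    omega
  have h3 : (g *ᵥ v) i = 0 := hv i hi.2.1
  exact hi.2.2 (by rw [← h1, h3])

private theorem B04b_inj {g : Matrix ι ι ℂ} (hg : Un wt g) {v : ι → ℂ} (hv : g *ᵥ v = 0) :
    v = 0 := by
  funext i
  have h1 : g *ᵥ v ∈ Wt wt (wt i - 1) := by rw [hv]; exact Submodule.zero_mem _
  exact B04b_mem hg h1 i (by omega)

/-- Deligne's splitting -/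
theorem HH_delH (h : GrP wt p K Φ P) {J : ℕ} (hJ : ∀ i j, wt i - wt j < J) :
    DelH wt p Φ P (HH wt K Φ P J) := by
  have hun := HH_un h J
  have back : ∀ (a b : ℤ) (v : ι → ℂ), P a *ᵥ v = v → Ewt wt (a + b) *ᵥ v = v →
      HH wt K Φ P J *ᵥ v ∈ Ide wt p Φ a b := by
    intro a b v hv hv'
    by_cases hk : a + b ∈ Finset.univ.image wt
    · rw [HH_mulVec h hk hv hv']
      have := Hd_mem h hJ hk hv hv'
      rwa [add_sub_cancel_left] at this
    · have h0 : v = 0 := by
        rw [← hv']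
        funext i
        rw [B04b_Ewt_apply, if_neg]
        · rfl
        · intro hi
          exact hk (Finset.mem_image.2 ⟨i, Finset.mem_univ i, hi⟩)
      rw [h0, Matrix.mulVec_zero]
      exact Submodule.zero_mem _
  refine ⟨hun, ?_⟩
  intro a b v
  constructor
  · intro hv
    have hW : HH wt K Φ P J *ᵥ v ∈ Wt wt (a + b) := hv.1.2
    have hvW : v ∈ Wt wt (a + b) := B04b_mem hun hW
    have hE : Ewt wt (a + b) *ᵥ (HH wt K Φ P J *ᵥ v) = Ewt wt (a + b) *ᵥ v := by
      funext i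
      rw [B04b_Ewt_apply, B04b_Ewt_apply]
      split_ifs with hi
      · exact B04b_coord hun (fun j hj => hvW j (by omega))
      · rfl
    have hlead := Ide_lead h hv
    rw [hE] at hlead
    have hidem : Ewt wt (a + b) *ᵥ (Ewt wt (a + b) *ᵥ v) = Ewt wt (a + b) *ᵥ v := by
      funext i
      rw [B04b_Ewt_apply, B04b_Ewt_apply]
      split_ifs <;> rfl
    have hu := back a b _ hlead hidem
    have hd : HH wt K Φ P J *ᵥ (v - Ewt wt (a + b) *ᵥ v) ∈ Ide wt p Φ a b := by
      rw [Matrix.mulVec_sub]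
      exact Submodule.sub_mem _ hv hu
    have hlow : v - Ewt wt (a + b) *ᵥ v ∈ Wt wt (a + b - 1) := by
      intro i hi
      rw [Pi.sub_apply, B04b_Ewt_apply]
      split_ifs with hi'
      · rw [sub_self]
      · rw [sub_zero]; exact hvW i (by omega)
    have h0 : HH wt K Φ P J *ᵥ (v - Ewt wt (a + b) *ᵥ v) = 0 :=
      Ide_inj h hd (Un.mem_Wt hun hlow)
    have h1 := B04b_inj hun h0
    have h2 : Ewt wt (a + b) *ᵥ v = v := (sub_eq_zero.1 h1).symm
    rw [h2] at hlead
    exact ⟨hlead, h2⟩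
  · rintro ⟨h1, h2⟩
    exact back a b v h1 h2

theorem Un.isUnit {R : Type*} [CommRing R] {g : Matrix ι ι R} (hg : Un wt g) : IsUnit g := by
  rw [Matrix.isUnit_iff_isUnit_det]
  have hb : g.BlockTriangular wt := by
    intro i j hij
    rw [hg i j (le_of_lt hij), if_neg]
    rintro rfl
    exact lt_irrefl _ hij
  rw [hb.det]
  have : ∀ a ∈ Finset.univ.image wt, (g.toSquareBlock wt a).det = 1 := by
    intro a _
    have h1 : g.toSquareBlock wt a = 1 := by
      ext ⟨i, hi⟩ ⟨j, hj⟩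
      rw [Matrix.toSquareBlock_def, Matrix.of_apply, hg i j (by rw [hi, hj]), Matrix.one_apply]
      simp
    rw [h1, Matrix.det_one]
  rw [Finset.prod_eq_one this]
  exact isUnit_one

end ZQ38
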