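import Pool.Agent.LibZQ38.B04b
import Pool.Agent.LibZQ38.B05a

/-!
Deligne splitting of an analytic family.

PLAN. `h z := HH wt K (Φ z) (P z) J` with J large (J := ∑ or sup of |wt i - wt j| + 1); analytic by
induction on the recursion for Dd, with An.mul, An.sub, An.inv (dg (Φ z) is invertible), An.bar.
-/

open Matrix Complex
open MW38 (Fl Tri blk dg)

namespace ZQ38

variable {ι : Type} [Fintype ι] [DecidableEq ι] {wt p : ι → ℤ} {K : ℕ} {Φ : Matrix ι ι ℂ}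
  {P : ℤ → Matrix ι ι ℂ} {Ω : Set ℂ}

theorem B05b_dg {Φ : ℂ → Matrix ι ι ℂ} (hΦ : An Ω Φ) : An Ω (fun z => dg wt (Φ z)) := by
  intro i j
  by_cases h : wt i = wt j
  · have e : (fun z => dg wt (Φ z) i j) = fun z => Φ z i j := by
      funext z
      simp [dg, h]
    rw [e]
    exact hΦ i j
  · have e : (fun z => dg wt (Φ z) i j) = fun _ => (0 : ℂ) := by
      funext z
      simp [dg, h]
    rw [e]
    exact analyticOnNhd_const

theorem B05b_Lm {Φ : ℂ → Matrix ι ι ℂ} (hΦ : An Ω Φ) (hu : ∀ z ∈ Ω, IsUnit (Φ z))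
    (ht : ∀ z ∈ Ω, Tri wt (Φ z)) : An Ω (fun z => Lm wt (Φ z)) := by
  unfold Lm
  exact hΦ.mul ((B05b_dg hΦ).inv fun z hz => MW38.dg_isUnit (hu z hz) (ht z hz))

theorem B05b_Pge {P : ℂ → ℤ → Matrix ι ι ℂ} (hPa : ∀ a, An Ω (fun z => P z a)) (a : ℤ) :
    An Ω (fun z => Pge K (P z) a) := by
  unfold Pge
  exact An.sum _ fun b _ => hPa b

theorem B05b_Pls {P : ℂ → ℤ → Matrix ι ι ℂ} (hPa : ∀ a, An Ω (fun z => P z a)) (a : ℤ) :
    An Ω (fun z => Pls K (P z) a) := by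
  unfold Pls
  exact An.sum _ fun b _ => hPa b

theorem B05b_Dd {Φ : ℂ → Matrix ι ι ℂ} {P : ℂ → ℤ → Matrix ι ι ℂ}
    (hL : An Ω (fun z => Lm wt (Φ z))) (hL' : An Ω (fun z => Lm wt (ZQ38.bar (Φ z))))
    (hPa : ∀ a, An Ω (fun z => P z a)) (a k : ℤ) (j : ℕ) :
    An Ω (fun z => Dd wt K (Φ z) (P z) a k j) := by
  induction j with
  | zero =>
    simp only [Dd]
    exact ((hL.sub hL').mul (hPa a)).mul (An.const _)
  | succ j ih =>
    simp only [Dd]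
    exact (ih.sub (((hL.mul (B05b_Pge hPa a)).mul (An.const _)).mul ih)).sub
      (((hL'.mul (B05b_Pls hPa a)).mul (An.const _)).mul ih)

theorem B05b_HH {Φ : ℂ → Matrix ι ι ℂ} {P : ℂ → ℤ → Matrix ι ι ℂ}
    (hL : An Ω (fun z => Lm wt (Φ z))) (hL' : An Ω (fun z => Lm wt (ZQ38.bar (Φ z))))
    (hPa : ∀ a, An Ω (fun z => P z a)) (J : ℕ) :
    An Ω (fun z => HH wt K (Φ z) (P z) J) := by
  unfold HH
  refine An.sum _ fun a _ => An.sum _ fun k _ => ?_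
  unfold Hd
  refine ((hL.mul (hPa a)).mul (An.const _)).sub (An.sum _ fun j _ => ?_)
  exact ((hL.mul (B05b_Pge hPa a)).mul (An.const _)).mul (B05b_Dd hL hL' hPa a k j)

theorem B05b_J (wt : ι → ℤ) : ∃ J : ℕ, ∀ i j, wt i - wt j < J := by
  refine ⟨2 * ∑ i, (wt i).natAbs + 1, fun i j => ?_⟩
  have h : ∀ i, (wt i).natAbs ≤ ∑ i, (wt i).natAbs := fun i =>
    Finset.single_le_sum (f := fun i => (wt i).natAbs) (fun _ _ => Nat.zero_le _)
      (Finset.mem_univ i)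
  have h1 := h i
  have h2 := h j
  omega

theorem exists_h {Φ : ℂ → Matrix ι ι ℂ} {P : ℂ → ℤ → Matrix ι ι ℂ}
    (hP : ∀ z ∈ Ω, GrP wt p K (Φ z) (P z)) (hΦ : An Ω Φ) (hPa : ∀ a, An Ω (fun z => P z a)) :
    ∃ h : ℂ → Matrix ι ι ℂ, An Ω h ∧ ∀ z ∈ Ω, DelH wt p (Φ z) (P z) (h z) := by
  obtain ⟨J, hJ⟩ := B05b_J wt
  refine ⟨fun z => HH wt K (Φ z) (P z) J, B05b_HH ?_ ?_ hPa J, fun z hz => HH_delH (hP z hz) hJ⟩
  · exact B05b_Lm hΦ (fun z hz => (hP z hz).unit) fun z hz => (hP z hz).tri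
  · exact B05b_Lm hΦ.bar (fun z hz => bar_isUnit (hP z hz).unit) fun z hz =>
      bar_tri (hP z hz).tri

end ZQ38
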