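import Pool.Agent.LibZQ38.B07
import Pool.Agent.LibMW38.HomT
import Pool.Agent.LibSP38.WirtM

/-!
Derivatives of families of endomorphisms respecting the Hodge filtration.

PLAN. Write A = Φ B Φ⁻¹, B = Φ⁻¹ A Φ, B i j = 0 for p i < p j + c (mem_Fend_iff) identically on Ω, so the
same holds for DZ B, DB B (B is smooth: Φ and Φ⁻¹ are holomorphic, MW38.homT_inv). DB Φ = 0,
DB Φ⁻¹ = 0, DZ Φ = Φ G with G = Φ⁻¹ Φ', G i j = 0 for p i < p j - 1 (tr); DZ Φ⁻¹ = -G Φ⁻¹.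
DB A = Φ (DB B) Φ⁻¹; DZ A = Φ (G B - B G + DZ B) Φ⁻¹. The product rules are in LibSP38/WirtM
(DZ_mul, DB_mul), DZ_of_holo.
-/

open Matrix Complex
open MW38 (Fl Tri blk dg)

namespace ZQ38

variable {ι : Type} [Fintype ι] [DecidableEq ι] {wt p : ι → ℤ} {K : ℕ} {Φ : Matrix ι ι ℂ}
  {P : ℤ → Matrix ι ι ℂ} {Ω : Set ℂ}

/-- a holomorphic frame satisfying Griffiths transversality -/
structure HolTr (p : ι → ℤ) (Ω : Set ℂ) (Φ : ℂ → Matrix ι ι ℂ) : Prop where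
  unit : ∀ z ∈ Ω, IsUnit (Φ z)
  hol : ∀ i j, DifferentiableOn ℂ (fun z => Φ z i j) Ω
  tr : ∀ z ∈ Ω, ∀ j, (fun i => deriv (fun z => Φ z i j) z) ∈ Fl p (Φ z) (p j - 1)

theorem deriv_Fend {Φ : ℂ → Matrix ι ι ℂ} (hΩ : IsOpen Ω) (hΦ : HolTr p Ω Φ) {c : ℤ}
    {A : ℂ → Matrix ι ι ℂ} (hA : SP38.Sm Ω A) (hF : ∀ z ∈ Ω, A z ∈ Fend p (Φ z) c) {z : ℂ}
    (hz : z ∈ Ω) :
    SP38.DB A z ∈ Fend p (Φ z) c ∧ SP38.DZ A z ∈ Fend p (Φ z) (c - 1) := by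
  have hu := hΦ.unit z hz
  have hdet : ∀ x ∈ Ω, IsUnit (Φ x).det := fun x hx =>
    (Matrix.isUnit_iff_isUnit_det _).1 (hΦ.unit x hx)
  have hΨh : ∀ i j, DifferentiableOn ℂ (fun z => (Φ z)⁻¹ i j) Ω := MW38.homT_inv hΦ.hol hΦ.unit
  have sΦ : SP38.Sm Ω Φ := SP38.Sm.of_holo hΩ hΦ.hol
  have sΨ : SP38.Sm Ω (fun z => (Φ z)⁻¹) := SP38.Sm.of_holo hΩ hΨh
  have bΦ : SP38.DB Φ z = 0 := SP38.DB_of_holo hΩ hz hΦ.hol
  have bΨ : SP38.DB (fun z => (Φ z)⁻¹) z = 0 := SP38.DB_of_holo hΩ hz hΨh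
  have zΨ : SP38.DZ (fun z => (Φ z)⁻¹) z = -((Φ z)⁻¹ * SP38.DZ Φ z * (Φ z)⁻¹) := by
    have e : SP38.DZ (fun z => (Φ z)⁻¹ * Φ z) z = 0 := by
      rw [← SP38.DZ_const (z := z) (1 : Matrix ι ι ℂ)]
      refine SP38.DZ_congr ?_
      filter_upwards [hΩ.mem_nhds hz] with x hx
      exact Matrix.nonsing_inv_mul _ (hdet x hx)
    rw [SP38.DZ_mul hΩ hz sΨ sΦ] at e
    have e2 : SP38.DZ (fun z => (Φ z)⁻¹) z * Φ z = -((Φ z)⁻¹ * SP38.DZ Φ z) :=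
      eq_neg_of_add_eq_zero_left e
    calc SP38.DZ (fun z => (Φ z)⁻¹) z
        = (SP38.DZ (fun z => (Φ z)⁻¹) z * Φ z) * (Φ z)⁻¹ := by
          rw [Matrix.mul_assoc, Matrix.mul_nonsing_inv _ (hdet z hz), Matrix.mul_one]
      _ = _ := by rw [e2, Matrix.neg_mul]
  set B : ℂ → Matrix ι ι ℂ := fun z => (Φ z)⁻¹ * A z * Φ z with hBdef
  have hB0 : ∀ x ∈ Ω, ∀ i j, p i < p j + c → B x i j = 0 := fun x hx i j hij =>
    (mem_Fend_iff (hΦ.unit x hx) c (A x)).1 (hF x hx) i j hij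
  have sΨA : SP38.Sm Ω (fun z => (Φ z)⁻¹ * A z) := SP38.Sm.mul sΨ hA
  have dBB : SP38.DB B z = (Φ z)⁻¹ * SP38.DB A z * Φ z := by
    rw [hBdef, SP38.DB_mul hΩ hz sΨA sΦ, SP38.DB_mul hΩ hz sΨ hA, bΦ, bΨ]
    simp
  set G : Matrix ι ι ℂ := (Φ z)⁻¹ * SP38.DZ Φ z with hG
  have hG0 : ∀ i j, p i < p j - 1 → G i j = 0 := by
    intro i j hij
    have h1 := (MW38.mem_Fl_iff hu _).1 (hΦ.tr z hz j) i hij
    rw [hG, SP38.DZ_of_holo hΩ hz hΦ.hol]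
    exact h1
  have dZB : (Φ z)⁻¹ * SP38.DZ A z * Φ z = SP38.DZ B z + G * B z - B z * G := by
    have e1 : SP38.DZ B z = SP38.DZ (fun z => (Φ z)⁻¹) z * A z * Φ z
        + (Φ z)⁻¹ * SP38.DZ A z * Φ z + (Φ z)⁻¹ * A z * SP38.DZ Φ z := by
      rw [hBdef, SP38.DZ_mul hΩ hz sΨA sΦ, SP38.DZ_mul hΩ hz sΨ hA, Matrix.add_mul]
    have e2 : SP38.DZ (fun z => (Φ z)⁻¹) z * A z * Φ z = -(G * B z) := by
      rw [zΨ, hG, hBdef]
      simp only [Matrix.neg_mul, Matrix.mul_assoc]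
    have e3 : (Φ z)⁻¹ * A z * SP38.DZ Φ z = B z * G := by
      rw [hG, hBdef]
      simp only [Matrix.mul_assoc]
      rw [← Matrix.mul_assoc (Φ z) (Φ z)⁻¹, Matrix.mul_nonsing_inv _ (hdet z hz), Matrix.one_mul]
    rw [e1, e2, e3]
    abel
  have hDB0 : ∀ i j, p i < p j + c → SP38.DB B z i j = 0 := by
    intro i j hij
    change SP38.dzb (fun z => B z i j) z = 0
    rw [← SP38.dzb_const (z := z) (0 : ℂ)]
    refine SP38.dzb_congr ?_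
    filter_upwards [hΩ.mem_nhds hz] with x hx
    exact hB0 x hx i j hij
  have hDZ0 : ∀ i j, p i < p j + c → SP38.DZ B z i j = 0 := by
    intro i j hij
    change SP38.dz (fun z => B z i j) z = 0
    rw [← SP38.dz_const (z := z) (0 : ℂ)]
    refine SP38.dz_congr ?_
    filter_upwards [hΩ.mem_nhds hz] with x hx
    exact hB0 x hx i j hij
  constructor
  · rw [mem_Fend_iff hu, ← dBB]
    exact hDB0
  · rw [mem_Fend_iff hu, dZB]
    intro i j hij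
    have h1 : SP38.DZ B z i j = 0 := hDZ0 i j (by omega)
    have h2 : (G * B z) i j = 0 := by
      rw [Matrix.mul_apply]
      refine Finset.sum_eq_zero fun k _ => ?_
      by_cases hk : p i < p k - 1
      · rw [hG0 i k hk, zero_mul]
      · rw [hB0 z hz k j (by omega), mul_zero]
    have h3 : (B z * G) i j = 0 := by
      rw [Matrix.mul_apply]
      refine Finset.sum_eq_zero fun k _ => ?_
      by_cases hk : p i < p k + c
      · rw [hB0 z hz i k hk, zero_mul]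
      · rw [hG0 k j (by omega), mul_zero]
    rw [Matrix.sub_apply, Matrix.add_apply, h1, h2, h3]
    ring

end ZQ38
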