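import Pool.Agent.LibZQ38.B06
import Pool.Agent.LibZQ38.B02b
import Pool.Agent.LibMW38.Alg

/-!
The Hodge filtration on endomorphisms and eigenvalues of `ad opP`.

PLAN. fil_h: `h` maps `F^a Gr` into `F^a Φ`: v in F^a Gr is the sum of P a' (Ewt k v), a' ≥ a, and
`h` maps each into Ide a' (k-a') ≤ Fl p Φ a' ≤ Fl p Φ a. Both have the same dimension
(MW38.Fl_eq_of_le applied to the frames `h * dg wt Φ` and `Φ`; MW38.Fl_mul). mem_Fend_iff: `M` maps
column j (in F^{p j}) to F^{p j + c}; conversely F^a is spanned by the columns with p j ≥ a.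
poly_Fend: let N = h⁻¹ M h, then P r N P a = 0 for r < a + c (fil_h, GrP.fil). N = ∑ P r N P a, and
`adm PG (P r N P a) = (r - a) (P r N P a)`; conjugation by h intertwines adm PG and adm (oP). Each
term is killed by the product since r - a ∈ Icc c (2K) (P r = 0 unless |r| ≤ K).
poly_all: the case c = -2K of the same computation.
-/

open Matrix Complex
open MW38 (Fl Tri blk dg)

namespace ZQ38

variable {ι : Type} [Fintype ι] [DecidableEq ι] {wt p : ι → ℤ} {K : ℕ} {Φ : Matrix ι ι ℂ}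
  {P : ℤ → Matrix ι ι ℂ} {Ω : Set ℂ}

/-- the commutator with `A` -/
noncomputable def adm (A : Matrix ι ι ℂ) : Module.End ℂ (Matrix ι ι ℂ) :=
  LinearMap.mulLeft ℂ A - LinearMap.mulRight ℂ A

theorem adm_apply (A M : Matrix ι ι ℂ) : adm A M = A * M - M * A := by
  rfl

/-- the polynomial with roots the integers in `[a, b]` -/
noncomputable def rts (a b : ℤ) : Polynomial ℂ :=
  ∏ r ∈ Finset.Icc a b, (Polynomial.X - Polynomial.C (r : ℂ))

private theorem B07_ext {A : Matrix ι ι ℂ} (h : ∀ w, A *ᵥ w = 0) : A = 0 := by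
  ext i j
  have h1 := congrFun (h (Pi.single j 1)) i
  rw [Matrix.mulVec_single_one] at h1
  exact h1

private theorem B07_sum_Ewt (wt : ι → ℤ) : ∑ k ∈ Finset.univ.image wt, Ewt wt k = 1 := by
  ext i j
  rw [Matrix.sum_apply]
  by_cases hij : i = j
  · subst hij
    rw [Matrix.one_apply_eq]
    have : ∀ k ∈ Finset.univ.image wt, Ewt wt k i i = if wt i = k then (1 : ℂ) else 0 := by
      intro k _
      rw [Ewt, Matrix.diagonal_apply_eq]
    rw [Finset.sum_congr rfl this, Finset.sum_ite_eq, if_pos (Finset.mem_image_of_mem _ (Finset.mem_univ i))]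
  · rw [Matrix.one_apply_ne hij]
    apply Finset.sum_eq_zero
    intro k _
    rw [Ewt, Matrix.diagonal_apply_ne _ hij]

private theorem B07_Ewt_idem (wt : ι → ℤ) (k : ℤ) : Ewt wt k * Ewt wt k = Ewt wt k := by
  rw [Ewt, Matrix.diagonal_mul_diagonal]
  congr 1
  funext i
  split_ifs <;> simp

private theorem B07_inv {h : Matrix ι ι ℂ} (hu : IsUnit h) : h⁻¹ * h = 1 ∧ h * h⁻¹ = 1 :=
  ⟨Matrix.nonsing_inv_mul h ((Matrix.isUnit_iff_isUnit_det h).1 hu),
    Matrix.mul_nonsing_inv h ((Matrix.isUnit_iff_isUnit_det h).1 hu)⟩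

private theorem B07_map (hP : GrP wt p K Φ P) {h : Matrix ι ι ℂ} (hh : DelH wt p Φ P h) (a : ℤ)
    {v : ι → ℂ} (hv : v ∈ Fl p (dg wt Φ) a) : h *ᵥ v ∈ Fl p Φ a := by
  have hdec : v = ∑ c ∈ Finset.Icc (-(K : ℤ)) K, ∑ k ∈ Finset.univ.image wt,
      (P c *ᵥ (Ewt wt k *ᵥ v)) := by
    have h1 : ∀ c ∈ Finset.Icc (-(K : ℤ)) K, ∑ k ∈ Finset.univ.image wt,
        (P c *ᵥ (Ewt wt k *ᵥ v)) = P c *ᵥ v := by
      intro c _
      rw [← Matrix.mulVec_sum, ← Matrix.sum_mulVec, B07_sum_Ewt, Matrix.one_mulVec]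
    rw [Finset.sum_congr rfl h1, ← Matrix.sum_mulVec, hP.sum, Matrix.one_mulVec]
  rw [hdec, Matrix.mulVec_sum]
  apply Submodule.sum_mem
  intro c _
  rw [Matrix.mulVec_sum]
  apply Submodule.sum_mem
  intro k _
  rcases lt_or_ge c a with hc | hc
  · have h2 : P c *ᵥ (Ewt wt k *ᵥ v) = 0 := by
      rw [Matrix.mulVec_mulVec, hP.comm_Ewt, ← Matrix.mulVec_mulVec, (hP.fil a v).1 hv c hc,
        Matrix.mulVec_zero]
    rw [h2, Matrix.mulVec_zero]
    exact Submodule.zero_mem _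
  · have h3 : h *ᵥ (P c *ᵥ (Ewt wt k *ᵥ v)) ∈ Ide wt p Φ c (k - c) := by
      apply (hh.ide c (k - c) _).2
      constructor
      · rw [Matrix.mulVec_mulVec, hP.mul, if_pos rfl]
      · have hck : c + (k - c) = k := by ring
        rw [hck, Matrix.mulVec_mulVec, Matrix.mulVec_mulVec, Matrix.mulVec_mulVec,
          ← hP.comm_Ewt, Matrix.mul_assoc, B07_Ewt_idem]
    exact MW38.Fl_anti hc h3.1.1

theorem fil_h (hP : GrP wt p K Φ P) {h : Matrix ι ι ℂ} (hh : DelH wt p Φ P h) (a : ℤ)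
    (v : ι → ℂ) : v ∈ Fl p Φ a ↔ h⁻¹ *ᵥ v ∈ Fl p (dg wt Φ) a := by
  have hu : IsUnit h := Un.isUnit hh.un
  have key : Fl p (h * dg wt Φ) a = Fl p Φ a := by
    apply MW38.Fl_eq_of_le (hu.mul (MW38.dg_isUnit hP.unit hP.tri)) hP.unit
    rw [MW38.Fl_mul]
    rintro _ ⟨u, hu', rfl⟩
    exact B07_map hP hh a hu'
  rw [← key, MW38.Fl_mul, Submodule.mem_map]
  constructor
  · rintro ⟨u, hu', rfl⟩
    rw [Matrix.mulVecLin_apply, Matrix.mulVec_mulVec, (B07_inv hu).1, Matrix.one_mulVec]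
    exact hu'
  · intro hv
    refine ⟨h⁻¹ *ᵥ v, hv, ?_⟩
    rw [Matrix.mulVecLin_apply, Matrix.mulVec_mulVec, (B07_inv hu).2, Matrix.one_mulVec]

theorem mem_Fend_iff (hu : IsUnit Φ) (c : ℤ) (M : Matrix ι ι ℂ) :
    M ∈ Fend p Φ c ↔ ∀ i j, p i < p j + c → (Φ⁻¹ * M * Φ) i j = 0 := by
  constructor
  · intro hM i j hij
    have h1 : M *ᵥ (fun i => Φ i j) ∈ Fl p Φ (p j + c) :=
      hM (p j) _ (MW38.col_mem_Fl (G := Φ) (p := p) (j := j) le_rfl)
    have h2 := (MW38.mem_Fl_iff hu _).1 h1 i hij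
    rw [Matrix.mulVec_mulVec] at h2
    exact h2
  · intro hM a v hv
    obtain ⟨c', hc', rfl⟩ := (MW38.mem_Fl_iff_exists v).1 hv
    rw [MW38.mem_Fl_iff hu]
    intro i hi
    rw [Matrix.mulVec_mulVec, Matrix.mulVec_mulVec, Matrix.mulVec, dotProduct]
    apply Finset.sum_eq_zero
    intro j _
    by_cases hj : p j < a
    · rw [hc' j hj, mul_zero]
    · rw [hM i j (by omega), zero_mul]

private theorem B07_P_PG (hP : GrP wt p K Φ P) (b : ℤ) : P b * PG K P = (b : ℂ) • P b := by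
  rw [PG, Finset.mul_sum]
  by_cases hb : b ∈ Finset.Icc (-(K : ℤ)) K
  · rw [Finset.sum_eq_single_of_mem b hb]
    · rw [Matrix.mul_smul, hP.mul, if_pos rfl]
    · intro c _ hc
      rw [Matrix.mul_smul, hP.mul, if_neg (Ne.symm hc), smul_zero]
  · have h0 : P b = 0 := by
      apply hP.supp
      rw [Finset.mem_Icc, not_and_or, not_le, not_le] at hb
      rw [lt_abs]
      omega
    rw [h0, smul_zero]
    exact Finset.sum_eq_zero (fun c _ => by rw [Matrix.zero_mul])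

private theorem B07_PG_P (hP : GrP wt p K Φ P) (b : ℤ) : PG K P * P b = (b : ℂ) • P b := by
  rw [PG, Finset.sum_mul]
  by_cases hb : b ∈ Finset.Icc (-(K : ℤ)) K
  · rw [Finset.sum_eq_single_of_mem b hb]
    · rw [Matrix.smul_mul, hP.mul, if_pos rfl]
    · intro c _ hc
      rw [Matrix.smul_mul, hP.mul, if_neg hc, smul_zero]
  · have h0 : P b = 0 := by
      apply hP.supp
      rw [Finset.mem_Icc, not_and_or, not_le, not_le] at hb
      rw [lt_abs]
      omega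
    rw [h0, smul_zero]
    exact Finset.sum_eq_zero (fun c _ => by rw [Matrix.mul_zero])

private theorem B07_P_Dwt (hP : GrP wt p K Φ P) (b : ℤ) : P b * Dwt wt = Dwt wt * P b := by
  ext i j
  rw [Dwt, Matrix.mul_diagonal, Matrix.diagonal_mul]
  by_cases hij : wt i = wt j
  · rw [hij, mul_comm]
  · rw [hP.diag b i j hij, zero_mul, mul_zero]

theorem oP_mem_Fend (hP : GrP wt p K Φ P) {h : Matrix ι ι ℂ} (hh : DelH wt p Φ P h) :
    oP K P h ∈ Fend p Φ 0 ∧ h * Dwt wt * h⁻¹ ∈ Fend p Φ 0 := by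
  have hu : IsUnit h := Un.isUnit hh.un
  constructor
  · intro a v hv
    have h1 := (fil_h hP hh a v).1 hv
    rw [add_zero]
    apply (fil_h hP hh a _).2
    have h2 : h⁻¹ *ᵥ (oP K P h *ᵥ v) = PG K P *ᵥ (h⁻¹ *ᵥ v) := by
      rw [oP, Matrix.mulVec_mulVec, Matrix.mulVec_mulVec, ← Matrix.mul_assoc, ← Matrix.mul_assoc,
        (B07_inv hu).1, Matrix.one_mul]
    rw [h2]
    apply (hP.fil a _).2
    intro b hb
    rw [Matrix.mulVec_mulVec, B07_P_PG hP, Matrix.smul_mulVec, (hP.fil a _).1 h1 b hb, smul_zero]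
  · intro a v hv
    have h1 := (fil_h hP hh a v).1 hv
    rw [add_zero]
    apply (fil_h hP hh a _).2
    have h2 : h⁻¹ *ᵥ ((h * Dwt wt * h⁻¹) *ᵥ v) = Dwt wt *ᵥ (h⁻¹ *ᵥ v) := by
      rw [Matrix.mulVec_mulVec, Matrix.mulVec_mulVec, ← Matrix.mul_assoc, ← Matrix.mul_assoc,
        (B07_inv hu).1, Matrix.one_mul]
    rw [h2]
    apply (hP.fil a _).2
    intro b hb
    rw [Matrix.mulVec_mulVec, B07_P_Dwt hP, ← Matrix.mulVec_mulVec, (hP.fil a _).1 h1 b hb,
      Matrix.mulVec_zero]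

private theorem B07_aeval {A : Module.End ℂ (Matrix ι ι ℂ)} {x : Matrix ι ι ℂ} {μ : ℂ}
    (hx : A x = μ • x) (f : Polynomial ℂ) : Polynomial.aeval A f x = f.eval μ • x := by
  by_cases h0 : x = 0
  · rw [h0, map_zero, smul_zero]
  · exact Module.End.aeval_apply_of_hasEigenvector
      ⟨Module.End.mem_eigenspace_iff.2 hx, h0⟩

private theorem B07_eig (hP : GrP wt p K Φ P) {h : Matrix ι ι ℂ} (hu : IsUnit h)
    (N : Matrix ι ι ℂ) (r a : ℤ) :
    adm (oP K P h) (h * (P r * N * P a) * h⁻¹)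
      = ((r : ℂ) - a) • (h * (P r * N * P a) * h⁻¹) := by
  have e1 : oP K P h * (h * (P r * N * P a) * h⁻¹) = (r : ℂ) • (h * (P r * N * P a) * h⁻¹) := by
    calc oP K P h * (h * (P r * N * P a) * h⁻¹)
        = h * PG K P * (h⁻¹ * h) * (P r * N * P a) * h⁻¹ := by
          rw [oP]; simp only [Matrix.mul_assoc]
      _ = h * ((PG K P * P r) * N * P a) * h⁻¹ := by
          rw [(B07_inv hu).1]; simp only [Matrix.mul_assoc, Matrix.one_mul]
      _ = _ := by
          rw [B07_PG_P hP, Matrix.smul_mul, Matrix.smul_mul, Matrix.mul_smul, Matrix.smul_mul]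
  have e2 : (h * (P r * N * P a) * h⁻¹) * oP K P h = (a : ℂ) • (h * (P r * N * P a) * h⁻¹) := by
    calc (h * (P r * N * P a) * h⁻¹) * oP K P h
        = h * (P r * N * P a) * (h⁻¹ * h) * PG K P * h⁻¹ := by
          rw [oP]; simp only [Matrix.mul_assoc]
      _ = h * (P r * N * (P a * PG K P)) * h⁻¹ := by
          rw [(B07_inv hu).1]; simp only [Matrix.mul_assoc, Matrix.one_mul]
      _ = _ := by
          rw [B07_P_PG hP, Matrix.mul_smul, Matrix.mul_smul, Matrix.smul_mul]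
  rw [adm_apply, e1, e2, sub_smul]

private theorem B07_expand (hP : GrP wt p K Φ P) {h : Matrix ι ι ℂ} (hu : IsUnit h)
    (M : Matrix ι ι ℂ) :
    M = ∑ r ∈ Finset.Icc (-(K : ℤ)) K, ∑ a ∈ Finset.Icc (-(K : ℤ)) K,
      h * (P r * (h⁻¹ * M * h) * P a) * h⁻¹ := by
  have h1 : ∑ r ∈ Finset.Icc (-(K : ℤ)) K, ∑ a ∈ Finset.Icc (-(K : ℤ)) K,
      h * (P r * (h⁻¹ * M * h) * P a) * h⁻¹
      = h * ((∑ r ∈ Finset.Icc (-(K : ℤ)) K, P r) * (h⁻¹ * M * h)
        * (∑ a ∈ Finset.Icc (-(K : ℤ)) K, P a)) * h⁻¹ := by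
    rw [Finset.sum_mul, Finset.sum_mul, Finset.mul_sum, Finset.sum_mul]
    apply Finset.sum_congr rfl
    intro r _
    rw [Finset.mul_sum, Finset.mul_sum, Finset.sum_mul]
  rw [h1, hP.sum, Matrix.one_mul, Matrix.mul_one]
  calc M = (h * h⁻¹) * M * (h * h⁻¹) := by rw [(B07_inv hu).2, Matrix.one_mul, Matrix.mul_one]
    _ = _ := by simp only [Matrix.mul_assoc]

private theorem B07_rts_eval {c d r a : ℤ} (h : r - a ∈ Finset.Icc c d) :
    (rts c d).eval ((r : ℂ) - a) = 0 := by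
  rw [rts, Polynomial.eval_prod]
  apply Finset.prod_eq_zero h
  rw [Polynomial.eval_sub, Polynomial.eval_X, Polynomial.eval_C]
  push_cast
  ring

/-- eigenvalues of `ad opP` on `F^c End` -/
theorem poly_Fend (hP : GrP wt p K Φ P) {h : Matrix ι ι ℂ} (hh : DelH wt p Φ P h) {c : ℤ}
    {M : Matrix ι ι ℂ} (hM : M ∈ Fend p Φ c) :
    Polynomial.aeval (adm (oP K P h)) (rts c (2 * K)) M = 0 := by
  have hu : IsUnit h := Un.isUnit hh.un
  conv_lhs => rw [B07_expand hP hu M]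
  rw [map_sum]
  apply Finset.sum_eq_zero
  intro r hr
  rw [map_sum]
  apply Finset.sum_eq_zero
  intro a ha
  rw [B07_aeval (B07_eig hP hu _ r a)]
  rw [Finset.mem_Icc] at hr ha
  rcases lt_or_ge r (a + c) with hra | hra
  · have h0 : P r * (h⁻¹ * M * h) * P a = 0 := by
      apply B07_ext
      intro w
      have h1 : P a *ᵥ w ∈ Fl p (dg wt Φ) a := by
        apply (hP.fil a _).2
        intro b hb
        rw [Matrix.mulVec_mulVec, hP.mul, if_neg (by omega), Matrix.zero_mulVec]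
      have h2 : h *ᵥ (P a *ᵥ w) ∈ Fl p Φ a := by
        apply (fil_h hP hh a _).2
        have e : h⁻¹ *ᵥ (h *ᵥ (P a *ᵥ w)) = P a *ᵥ w := by
          rw [Matrix.mulVec_mulVec (P a *ᵥ w) h⁻¹ h, (B07_inv hu).1, Matrix.one_mulVec]
        rw [e]
        exact h1
      have h3 := hM a _ h2
      have h4 := (fil_h hP hh (a + c) _).1 h3
      have h5 := (hP.fil (a + c) _).1 h4 r hra
      rw [← h5]
      simp only [Matrix.mulVec_mulVec, Matrix.mul_assoc]
    rw [h0, Matrix.mul_zero, Matrix.zero_mul, smul_zero]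
  · rw [B07_rts_eval (Finset.mem_Icc.2 ⟨by omega, by omega⟩), zero_smul]

theorem poly_all (hP : GrP wt p K Φ P) {h : Matrix ι ι ℂ} (hh : Un wt h)
    (M : Matrix ι ι ℂ) :
    Polynomial.aeval (adm (oP K P h)) (rts (-(2 * K)) (2 * K)) M = 0 := by
  have hu : IsUnit h := Un.isUnit hh
  conv_lhs => rw [B07_expand hP hu M]
  rw [map_sum]
  apply Finset.sum_eq_zero
  intro r hr
  rw [map_sum]
  apply Finset.sum_eq_zero
  intro a ha
  rw [B07_aeval (B07_eig hP hu _ r a)]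
  rw [Finset.mem_Icc] at hr ha
  rw [B07_rts_eval (Finset.mem_Icc.2 ⟨by omega, by omega⟩), zero_smul]

/-- `F^c` is stable under the commutator with `opP` -/
theorem Fend_stab (hP : GrP wt p K Φ P) {h : Matrix ι ι ℂ} (hh : DelH wt p Φ P h) {c : ℤ}
    {M : Matrix ι ι ℂ} (hM : M ∈ Fend p Φ c) : adm (oP K P h) M ∈ Fend p Φ c := by
  have ho := (oP_mem_Fend hP hh).1
  intro a v hv
  rw [adm_apply, Matrix.sub_mulVec, ← Matrix.mulVec_mulVec, ← Matrix.mulVec_mulVec]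
  apply Submodule.sub_mem
  · have h1 := ho (a + c) _ (hM a v hv)
    rwa [add_zero] at h1
  · have h1 := ho a v hv
    rw [add_zero] at h1
    exact hM a _ h1

end ZQ38
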