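import Pool.Agent.LibZQ38.B08a
import Pool.Agent.LibZQ38.B07

/-!
`opP + opQ` is real modulo the part of negative types.

PLAN. Let C = h⁻¹ bar h = 1 + Λ, Λ ∈ Lam. Lam is closed under products (Lam_mul: insert
1 = ∑ P b Ewt m between the factors), N nilpotent so C⁻¹ = 1 + (element of Lam) (finite geometric
series, Un wt C). QG := Dwt - PG = bar PG (GrP.conj). The commutator of Λ with PG or QG is in Lam.
bar (oP) = bar h QG (bar h)⁻¹ = h C QG C⁻¹ h⁻¹, so
bar (oP) - oQ = h ((C QG - QG C) C⁻¹) h⁻¹. conj_Y: Y = h Dwt h⁻¹, bar Y = h C Dwt C⁻¹ h⁻¹.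
poly_Lam: N = ∑ P r Ewt l N P a Ewt k over r < a, l - r < k - a, eigenvector of ad PG with eigenvalue
r - a ∈ [-2K, -1], of ad QG with eigenvalue (l-r)-(k-a) ∈ [-2K,-1] (P r Ewt l = 0 unless |l - r| ≤ K,
by GrP.conj, supp).
-/

open Matrix Complex
open MW38 (Fl Tri blk dg)

namespace ZQ38

variable {ι : Type} [Fintype ι] [DecidableEq ι] {wt p : ι → ℤ} {K : ℕ} {Φ : Matrix ι ι ℂ}
  {P : ℤ → Matrix ι ι ℂ} {Ω : Set ℂ}

theorem B08b_Ewt_mul (l k : ℤ) :
    Ewt wt l * Ewt wt k = if l = k then Ewt wt k else 0 := by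
  unfold Ewt
  rw [Matrix.diagonal_mul_diagonal]
  split_ifs with h
  · congr 1
    funext i
    subst h
    split_ifs <;> simp
  · rw [← Matrix.diagonal_zero]
    congr 1
    funext i
    split_ifs with h1 h2
    · exact absurd (h1.symm.trans h2) h
    · simp
    · simp
    · simp

theorem B08b_sum_Ewt : ∑ m ∈ Finset.univ.image wt, Ewt wt m = 1 := by
  ext i j
  rw [Matrix.sum_apply, Matrix.one_apply]
  simp only [Ewt, Matrix.diagonal_apply]
  by_cases h : i = j
  · subst h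
    simp only [if_true]
    rw [Finset.sum_ite_eq]
    simp
  · simp [h]

theorem B08b_one (hP : GrP wt p K Φ P) :
    ∑ b ∈ Finset.Icc (-(K : ℤ)) K, ∑ m ∈ Finset.univ.image wt, P b * Ewt wt m = 1 := by
  simp_rw [← Finset.mul_sum, B08b_sum_Ewt, mul_one]
  exact hP.sum

theorem B08b_E_mul (hP : GrP wt p K Φ P) (r l a k : ℤ) :
    (P r * Ewt wt l) * (P a * Ewt wt k) = if r = a ∧ l = k then P a * Ewt wt k else 0 := by
  have h1 : (P r * Ewt wt l) * (P a * Ewt wt k) = (P r * P a) * (Ewt wt l * Ewt wt k) := by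
    rw [Matrix.mul_assoc, ← Matrix.mul_assoc (Ewt wt l), ← hP.comm_Ewt a l, Matrix.mul_assoc,
      ← Matrix.mul_assoc]
  rw [h1, hP.mul, B08b_Ewt_mul]
  by_cases h : r = a
  · subst h
    by_cases h' : l = k
    · simp [h']
    · simp [h']
  · simp [h]

theorem B08b_supp (hP : GrP wt p K Φ P) {r l : ℤ} (h : (K : ℤ) < |l - r|) :
    P r * Ewt wt l = 0 := by
  ext i j
  simp only [Ewt, Matrix.mul_diagonal, Matrix.zero_apply]
  split_ifs with hj
  · by_cases hij : wt i = wt j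
    · have h1 := hP.conj (l - r) i j
      rw [hP.supp _ h] at h1
      simp only [Matrix.zero_apply, map_zero] at h1
      rw [hij, hj] at h1
      rw [show l - (l - r) = r by ring] at h1
      rw [← h1]; simp
    · rw [hP.diag _ _ _ hij]; simp
  · simp

theorem B08b_ins (hP : GrP wt p K Φ P) (A B : Matrix ι ι ℂ) :
    A * B = ∑ b ∈ Finset.Icc (-(K : ℤ)) K, ∑ m ∈ Finset.univ.image wt,
      A * (P b * Ewt wt m) * ((P b * Ewt wt m) * B) := by
  have h1 : ∀ b m : ℤ, A * (P b * Ewt wt m) * ((P b * Ewt wt m) * B) =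
      A * (P b * Ewt wt m) * B := by
    intro b m
    rw [← Matrix.mul_assoc, Matrix.mul_assoc A, B08b_E_mul hP]
    simp
  simp_rw [h1]
  have h2 : A * (∑ b ∈ Finset.Icc (-(K : ℤ)) K, ∑ m ∈ Finset.univ.image wt, P b * Ewt wt m) * B =
      A * B := by rw [B08b_one hP, mul_one]
  rw [← h2, Finset.mul_sum, Finset.sum_mul]
  refine Finset.sum_congr rfl fun b _ => ?_
  rw [Finset.mul_sum, Finset.sum_mul]

theorem Lam_mul (hP : GrP wt p K Φ P) {M N : Matrix ι ι ℂ} (hM : M ∈ Lam wt P)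
    (hN : N ∈ Lam wt P) : M * N ∈ Lam wt P := by
  intro r l a k h
  have h1 : P r * Ewt wt l * (M * N) * (P a * Ewt wt k) =
      (P r * Ewt wt l * M) * (N * (P a * Ewt wt k)) := by
    simp only [Matrix.mul_assoc]
  rw [h1, B08b_ins hP]
  apply Finset.sum_eq_zero
  intro b _
  apply Finset.sum_eq_zero
  intro m _
  by_cases hb : b ≤ r ∨ m - b ≤ l - r
  · rw [hM r l b m hb, Matrix.zero_mul]
  · push Not at hb
    have h2 : (P b * Ewt wt m) * (N * (P a * Ewt wt k)) = 0 := by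
      rw [← Matrix.mul_assoc]
      apply hN b m a k
      rcases h with h | h
      · left; linarith [hb.1]
      · right; linarith [hb.2]
    rw [h2, Matrix.mul_zero]

/-- `1 + Λ` has inverse `1 + Λ'` -/
theorem B08b_inv (hP : GrP wt p K Φ P) {C D : Matrix ι ι ℂ} (hC : C - 1 ∈ Lam wt P)
    (hCD : C * D = 1) : D - 1 ∈ Lam wt P := by
  set Λ := C - 1 with hΛ
  have hD : D - 1 = - Λ - Λ * (D - 1) := by
    have : C = 1 + Λ := by rw [hΛ]; abel
    rw [this] at hCD
    have h2 : D + Λ * D = 1 := by rw [← hCD]; rw [Matrix.add_mul, Matrix.one_mul]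
    rw [Matrix.mul_sub, Matrix.mul_one, ← h2]
    nth_rewrite 1 [show D = D from rfl]
    abel
  have key : ∀ n : ℕ, ∀ r l a k : ℤ, (K : ℤ) - n < r → (a ≤ r ∨ k - a ≤ l - r) →
      P r * Ewt wt l * (D - 1) * (P a * Ewt wt k) = 0 := by
    intro n
    induction n with
    | zero =>
      intro r l a k hr _
      have : P r = 0 := hP.supp r (by
        have : (K : ℤ) < r := by simpa using hr
        exact lt_of_lt_of_le this (le_abs_self r))
      rw [this]; simp
    | succ n ih =>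
      intro r l a k hr h
      rw [hD, Matrix.mul_sub, Matrix.sub_mul, Matrix.mul_neg, Matrix.neg_mul, hC r l a k h]
      have h1 : P r * Ewt wt l * (Λ * (D - 1)) * (P a * Ewt wt k) =
          (P r * Ewt wt l * Λ) * ((D - 1) * (P a * Ewt wt k)) := by
        simp only [Matrix.mul_assoc]
      rw [h1, B08b_ins hP]
      rw [Finset.sum_eq_zero]
      · simp
      intro b _
      apply Finset.sum_eq_zero
      intro m _
      by_cases hb : b ≤ r ∨ m - b ≤ l - r
      · rw [hC r l b m hb, Matrix.zero_mul]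
      · push Not at hb
        have h2 : (P b * Ewt wt m) * ((D - 1) * (P a * Ewt wt k)) = 0 := by
          rw [← Matrix.mul_assoc]
          apply ih b m a k
          · push_cast at hr
            have := hb.1
            omega
          rcases h with h | h
          · left; linarith [hb.1]
          · right; linarith [hb.2]
        rw [h2, Matrix.mul_zero]
  intro r l a k h
  by_cases hr : r < -(K : ℤ)
  · have : P r = 0 := hP.supp r (by rw [lt_abs]; right; linarith)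
    rw [this]; simp
  · apply key (2 * K + 1) r l a k _ h
    push_cast
    omega

theorem B08b_PG_mul (hP : GrP wt p K Φ P) (a : ℤ) : PG K P * P a = (a : ℂ) • P a := by
  unfold PG
  rw [Finset.sum_mul]
  simp_rw [Matrix.smul_mul, hP.mul]
  by_cases ha : a ∈ Finset.Icc (-(K : ℤ)) K
  · rw [Finset.sum_eq_single a]
    · simp
    · intro b _ hb; simp [hb]
    · intro h; exact absurd ha h
  · have : P a = 0 := by
      apply hP.supp
      rw [Finset.mem_Icc] at ha
      rw [lt_abs]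
      by_contra hcon
      push Not at hcon
      exact ha ⟨by linarith [hcon.2], hcon.1⟩
    rw [this, smul_zero]
    apply Finset.sum_eq_zero
    intro b hb
    have : b ≠ a := by rintro rfl; exact ha hb
    simp [this]

theorem B08b_mul_PG (hP : GrP wt p K Φ P) (a : ℤ) : P a * PG K P = (a : ℂ) • P a := by
  unfold PG
  rw [Finset.mul_sum]
  simp_rw [Matrix.mul_smul, hP.mul]
  by_cases ha : a ∈ Finset.Icc (-(K : ℤ)) K
  · rw [Finset.sum_eq_single a]
    · simp
    · intro b _ hb; simp [Ne.symm hb]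
    · intro h; exact absurd ha h
  · have : P a = 0 := by
      apply hP.supp
      rw [Finset.mem_Icc] at ha
      rw [lt_abs]
      by_contra hcon
      push Not at hcon
      exact ha ⟨by linarith [hcon.2], hcon.1⟩
    rw [this, smul_zero]
    apply Finset.sum_eq_zero
    intro b hb
    have : a ≠ b := by rintro rfl; exact ha hb
    simp [this]

theorem B08b_Dwt_mul (k : ℤ) : Dwt wt * Ewt wt k = (k : ℂ) • Ewt wt k := by
  unfold Dwt Ewt
  rw [Matrix.diagonal_mul_diagonal, ← Matrix.diagonal_smul]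
  congr 1
  funext i
  by_cases h : wt i = k
  · simp [h]
  · simp [h]

theorem B08b_mul_Dwt (k : ℤ) : Ewt wt k * Dwt wt = (k : ℂ) • Ewt wt k := by
  unfold Dwt Ewt
  rw [Matrix.diagonal_mul_diagonal, ← Matrix.diagonal_smul]
  congr 1
  funext i
  by_cases h : wt i = k
  · simp [h]
  · simp [h]

theorem B08b_PG_E (hP : GrP wt p K Φ P) (a k : ℤ) :
    PG K P * (P a * Ewt wt k) = (a : ℂ) • (P a * Ewt wt k) := by
  rw [← Matrix.mul_assoc, B08b_PG_mul hP, Matrix.smul_mul]

theorem B08b_E_PG (hP : GrP wt p K Φ P) (a k : ℤ) :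
    (P a * Ewt wt k) * PG K P = (a : ℂ) • (P a * Ewt wt k) := by
  rw [hP.comm_Ewt, Matrix.mul_assoc, B08b_mul_PG hP, Matrix.mul_smul]

theorem B08b_Dwt_E (hP : GrP wt p K Φ P) (a k : ℤ) :
    Dwt wt * (P a * Ewt wt k) = (k : ℂ) • (P a * Ewt wt k) := by
  rw [hP.comm_Ewt, ← Matrix.mul_assoc, B08b_Dwt_mul, Matrix.smul_mul]

theorem B08b_E_Dwt (a k : ℤ) :
    (P a * Ewt wt k) * Dwt wt = (k : ℂ) • (P a * Ewt wt k) := by
  rw [Matrix.mul_assoc, B08b_mul_Dwt, Matrix.mul_smul]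

/-- the operators `X` acting by scalars `φ` on the types -/
def B08b_Sc (wt : ι → ℤ) (P : ℤ → Matrix ι ι ℂ) (X : Matrix ι ι ℂ) (φ : ℤ → ℤ → ℤ) : Prop :=
  ∀ a k : ℤ, X * (P a * Ewt wt k) = (φ a k : ℂ) • (P a * Ewt wt k) ∧
    (P a * Ewt wt k) * X = (φ a k : ℂ) • (P a * Ewt wt k)

theorem B08b_Sc_PG (hP : GrP wt p K Φ P) : B08b_Sc wt P (PG K P) (fun a _ => a) :=
  fun a k => ⟨B08b_PG_E hP a k, B08b_E_PG hP a k⟩

theorem B08b_Sc_QG (hP : GrP wt p K Φ P) :
    B08b_Sc wt P (Dwt wt - PG K P) (fun a k => k - a) := by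
  intro a k
  constructor
  · rw [Matrix.sub_mul, B08b_Dwt_E hP, B08b_PG_E hP]
    push_cast
    rw [sub_smul]
  · rw [Matrix.mul_sub, B08b_E_Dwt, B08b_E_PG hP]
    push_cast
    rw [sub_smul]

theorem B08b_Sc_Dwt (hP : GrP wt p K Φ P) : B08b_Sc wt P (Dwt wt) (fun _ k => k) :=
  fun a k => ⟨B08b_Dwt_E hP a k, B08b_E_Dwt a k⟩

theorem B08b_comm {X : Matrix ι ι ℂ} {φ : ℤ → ℤ → ℤ} (hX : B08b_Sc wt P X φ)
    (N : Matrix ι ι ℂ) (r l a k : ℤ) :
    P r * Ewt wt l * (X * N - N * X) * (P a * Ewt wt k) =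
      ((φ r l : ℂ) - φ a k) • (P r * Ewt wt l * N * (P a * Ewt wt k)) := by
  have h1 : P r * Ewt wt l * (X * N) * (P a * Ewt wt k) =
      (φ r l : ℂ) • (P r * Ewt wt l * N * (P a * Ewt wt k)) := by
    rw [← Matrix.mul_assoc (P r * Ewt wt l) X N, (hX r l).2, Matrix.smul_mul, Matrix.smul_mul]
  have h2 : P r * Ewt wt l * (N * X) * (P a * Ewt wt k) =
      (φ a k : ℂ) • (P r * Ewt wt l * N * (P a * Ewt wt k)) := by
    rw [← Matrix.mul_assoc (P r * Ewt wt l) N X, Matrix.mul_assoc (P r * Ewt wt l * N), (hX a k).1,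
      Matrix.mul_smul]
  rw [Matrix.mul_sub, Matrix.sub_mul, h1, h2, sub_smul]

theorem B08b_comm_mem {X : Matrix ι ι ℂ} {φ : ℤ → ℤ → ℤ} (hX : B08b_Sc wt P X φ)
    {N : Matrix ι ι ℂ} (hN : N ∈ Lam wt P) : X * N - N * X ∈ Lam wt P := by
  intro r l a k h
  rw [B08b_comm hX, hN r l a k h, smul_zero]

theorem B08b_bar_mul (A B : Matrix ι ι ℂ) : bar (A * B) = bar A * bar B := by
  unfold bar
  exact Matrix.map_mul

theorem B08b_bar_one : bar (1 : Matrix ι ι ℂ) = 1 := by
  unfold bar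
  exact Matrix.map_one _ (map_zero _) (map_one _)

theorem B08b_bar_inv {h : Matrix ι ι ℂ} (hh : IsUnit h) : bar h⁻¹ = (bar h)⁻¹ := by
  symm
  apply Matrix.inv_eq_left_inv
  rw [← B08b_bar_mul, Matrix.nonsing_inv_mul _ ((Matrix.isUnit_iff_isUnit_det _).1 hh),
    B08b_bar_one]

theorem B08b_bar_Dwt : bar (Dwt wt) = Dwt wt := by
  ext i j
  simp only [bar, Dwt, Matrix.map_apply, Matrix.diagonal_apply]
  split_ifs with h
  · exact map_intCast _ _
  · simp

theorem B08b_bar_PG (hP : GrP wt p K Φ P) : bar (PG K P) = Dwt wt - PG K P := by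
  -- compare after multiplication by the projectors
  have hE : ∀ a k, bar (P a * Ewt wt k) = P (k - a) * Ewt wt k := by
    intro a k
    ext i j
    simp only [bar, Ewt, Matrix.map_apply, Matrix.mul_diagonal]
    by_cases hj : wt j = k
    · simp only [hj, if_true, mul_one]
      by_cases hij : wt i = wt j
      · rw [hP.conj a i j, hij, hj]
      · rw [hP.diag a i j hij, hP.diag (k - a) i j hij, map_zero]
    · simp [hj]
  have h1 : ∀ X : Matrix ι ι ℂ, (∀ a k : ℤ, X * (P a * Ewt wt k) = 0) → X = 0 := by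
    intro X hX
    have : X = X * 1 := by rw [mul_one]
    rw [this, ← B08b_one hP, Finset.mul_sum]
    apply Finset.sum_eq_zero
    intro b _
    rw [Finset.mul_sum]
    exact Finset.sum_eq_zero fun m _ => hX b m
  rw [← sub_eq_zero]
  apply h1
  intro a k
  rw [Matrix.sub_mul, (B08b_Sc_QG hP a k).1]
  have h2 : P a * Ewt wt k = bar (P (k - a) * Ewt wt k) := by
    rw [hE, sub_sub_cancel]
  rw [h2, ← B08b_bar_mul, B08b_PG_E hP]
  rw [sub_eq_zero]
  ext i j
  generalize P (k - a) * Ewt wt k = Z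
  simp [bar]

theorem B08b_conj_gen (hP : GrP wt p K Φ P) {h : Matrix ι ι ℂ} (hh : DelH wt p Φ P h)
    {X : Matrix ι ι ℂ} {φ : ℤ → ℤ → ℤ} (hX : B08b_Sc wt P X φ) :
    h⁻¹ * (bar h * X * (bar h)⁻¹ - h * X * h⁻¹) * h ∈ Lam wt P := by
  have hu : IsUnit h := hh.un.isUnit
  have hu' : IsUnit (bar h) := bar_isUnit hu
  have hdet := (Matrix.isUnit_iff_isUnit_det _).1 hu
  have hdet' := (Matrix.isUnit_iff_isUnit_det _).1 hu'
  have e1 : h⁻¹ * h = 1 := Matrix.nonsing_inv_mul _ hdet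
  have e2 : h * h⁻¹ = 1 := Matrix.mul_nonsing_inv _ hdet
  have e3 : (bar h)⁻¹ * bar h = 1 := Matrix.nonsing_inv_mul _ hdet'
  have e4 : bar h * (bar h)⁻¹ = 1 := Matrix.mul_nonsing_inv _ hdet'
  set C := h⁻¹ * bar h with hC
  set D := (bar h)⁻¹ * h with hD
  have hCL : C - 1 ∈ Lam wt P := bar_h hP hh
  have hCD : C * D = 1 := by
    rw [hC, hD, Matrix.mul_assoc, ← Matrix.mul_assoc (bar h), e4, Matrix.one_mul, e1]
  have hDL : D - 1 ∈ Lam wt P := B08b_inv hP hCL hCD
  have h1 : h⁻¹ * (bar h * X * (bar h)⁻¹ - h * X * h⁻¹) * h = C * X * D - X := by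
    rw [Matrix.mul_sub, Matrix.sub_mul, hC, hD]
    have a1 : h⁻¹ * (bar h * X * (bar h)⁻¹) * h = h⁻¹ * bar h * X * ((bar h)⁻¹ * h) := by
      simp only [Matrix.mul_assoc]
    have a2 : h⁻¹ * (h * X * h⁻¹) * h = (h⁻¹ * h) * X * (h⁻¹ * h) := by
      simp only [Matrix.mul_assoc]
    rw [a1, a2, e1, Matrix.one_mul, Matrix.mul_one]
  have h2 : C * X * D - X = (C * X - X * C) * D := by
    rw [Matrix.sub_mul, Matrix.mul_assoc X C D, hCD, Matrix.mul_one]
  have h3 : C * X - X * C = -(X * (C - 1) - (C - 1) * X) := by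
    rw [Matrix.mul_sub, Matrix.sub_mul, Matrix.mul_one, Matrix.one_mul]; abel
  rw [h1, h2, h3]
  have h4 : X * (C - 1) - (C - 1) * X ∈ Lam wt P := B08b_comm_mem hX hCL
  have h5 : -(X * (C - 1) - (C - 1) * X) * D =
      -(X * (C - 1) - (C - 1) * X) + -(X * (C - 1) - (C - 1) * X) * (D - 1) := by
    generalize -(X * (C - 1) - (C - 1) * X) = Z
    rw [Matrix.mul_sub, Matrix.mul_one]; abel
  rw [h5]
  exact Submodule.add_mem _ (Submodule.neg_mem _ h4) (Lam_mul hP (Submodule.neg_mem _ h4) hDL)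

theorem conj_oP (hP : GrP wt p K Φ P) {h : Matrix ι ι ℂ} (hh : DelH wt p Φ P h) :
    h⁻¹ * (bar (oP K P h) - oQ wt K P h) * h ∈ Lam wt P := by
  have := B08b_conj_gen hP hh (B08b_Sc_QG hP)
  unfold oP oQ
  rw [B08b_bar_mul, B08b_bar_mul, B08b_bar_PG hP, B08b_bar_inv hh.un.isUnit]
  exact this

theorem conj_Y (hP : GrP wt p K Φ P) {h : Matrix ι ι ℂ} (hh : DelH wt p Φ P h) :
    h⁻¹ * (h * Dwt wt * h⁻¹ - bar (h * Dwt wt * h⁻¹)) * h ∈ Lam wt P := by
  have := B08b_conj_gen hP hh (B08b_Sc_Dwt hP)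
  rw [B08b_bar_mul, B08b_bar_mul, B08b_bar_Dwt, B08b_bar_inv hh.un.isUnit]
  have e : h⁻¹ * (h * Dwt wt * h⁻¹ - bar h * Dwt wt * (bar h)⁻¹) * h =
      -(h⁻¹ * (bar h * Dwt wt * (bar h)⁻¹ - h * Dwt wt * h⁻¹) * h) := by
    rw [← neg_sub (bar h * Dwt wt * (bar h)⁻¹), Matrix.mul_neg, Matrix.neg_mul]
  rw [e]
  exact Submodule.neg_mem _ this

theorem B08b_adm_conj {h : Matrix ι ι ℂ} (hu : IsUnit h) (X M : Matrix ι ι ℂ) :
    h⁻¹ * adm (h * X * h⁻¹) M * h = adm X (h⁻¹ * M * h) := by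
  have hdet := (Matrix.isUnit_iff_isUnit_det _).1 hu
  have e1 : h⁻¹ * h = 1 := Matrix.nonsing_inv_mul _ hdet
  rw [adm_apply, adm_apply, Matrix.mul_sub, Matrix.sub_mul]
  have a1 : h⁻¹ * (h * X * h⁻¹ * M) * h = (h⁻¹ * h) * X * (h⁻¹ * M * h) := by
    simp only [Matrix.mul_assoc]
  have a2 : h⁻¹ * (M * (h * X * h⁻¹)) * h = (h⁻¹ * M * h) * X * (h⁻¹ * h) := by
    simp only [Matrix.mul_assoc]
  rw [a1, a2, e1, Matrix.one_mul, Matrix.mul_one]

theorem B08b_aeval_conj {h : Matrix ι ι ℂ} (hu : IsUnit h) (X M : Matrix ι ι ℂ)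
    (q : Polynomial ℂ) :
    h⁻¹ * Polynomial.aeval (adm (h * X * h⁻¹)) q M * h =
      Polynomial.aeval (adm X) q (h⁻¹ * M * h) := by
  induction q using Polynomial.induction_on' generalizing M with
  | add f g hf hg =>
    rw [map_add, map_add, LinearMap.add_apply, LinearMap.add_apply, Matrix.mul_add,
      Matrix.add_mul, hf, hg]
  | monomial n c =>
    induction n generalizing M with
    | zero =>
      simp only [Polynomial.monomial_zero_left, Polynomial.aeval_C, Module.algebraMap_end_apply,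
        Matrix.mul_smul, Matrix.smul_mul]
    | succ n ih =>
      have e : Polynomial.monomial (n + 1) c = Polynomial.monomial n c * Polynomial.X := by
        rw [Polynomial.monomial_mul_X]
      rw [e, map_mul (Polynomial.aeval (adm (h * X * h⁻¹))), map_mul (Polynomial.aeval (adm X)),
        Polynomial.aeval_X, Polynomial.aeval_X, Module.End.mul_apply,
        Module.End.mul_apply, ih, B08b_adm_conj hu]

theorem B08b_aeval_eig (f : Module.End ℂ (Matrix ι ι ℂ)) {μ : ℂ} {x : Matrix ι ι ℂ}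
    (hx : f x = μ • x) (q : Polynomial ℂ) : Polynomial.aeval f q x = q.eval μ • x := by
  induction q using Polynomial.induction_on' with
  | add f g hf hg =>
    rw [map_add, LinearMap.add_apply, hf, hg, Polynomial.eval_add, add_smul]
  | monomial n c =>
    induction n with
    | zero =>
      simp only [Polynomial.monomial_zero_left, Polynomial.aeval_C, Module.algebraMap_end_apply,
        Polynomial.eval_C]
    | succ n ih =>
      have e : Polynomial.monomial (n + 1) c = Polynomial.monomial n c * Polynomial.X := by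
        rw [Polynomial.monomial_mul_X]
      rw [e, map_mul, Polynomial.aeval_X, Module.End.mul_apply, hx, map_smul, ih,
        Polynomial.eval_mul, Polynomial.eval_X, smul_smul, mul_comm]

theorem B08b_poly_gen (hP : GrP wt p K Φ P) {X N : Matrix ι ι ℂ} {φ : ℤ → ℤ → ℤ}
    (hX : B08b_Sc wt P X φ) (hN : N ∈ Lam wt P)
    (hφ : ∀ r l a k : ℤ, r < a → l - r < k - a → |r| ≤ K → |a| ≤ K → |l - r| ≤ K → |k - a| ≤ K →
      -(2 * K) ≤ φ r l - φ a k ∧ φ r l - φ a k ≤ -1) :
    Polynomial.aeval (adm X) (rts (-(2 * K)) (-1)) N = 0 := by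
  have hsum : N = ∑ r ∈ Finset.Icc (-(K : ℤ)) K, ∑ l ∈ Finset.univ.image wt,
      ∑ a ∈ Finset.Icc (-(K : ℤ)) K, ∑ k ∈ Finset.univ.image wt,
        P r * Ewt wt l * N * (P a * Ewt wt k) := by
    have h1 : ∀ r l : ℤ, ∑ a ∈ Finset.Icc (-(K : ℤ)) K, ∑ k ∈ Finset.univ.image wt,
        P r * Ewt wt l * N * (P a * Ewt wt k) = P r * Ewt wt l * N := by
      intro r l
      have h2 : P r * Ewt wt l * N * (∑ a ∈ Finset.Icc (-(K : ℤ)) K,
          ∑ k ∈ Finset.univ.image wt, P a * Ewt wt k) = P r * Ewt wt l * N := by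
        rw [B08b_one hP, mul_one]
      rw [Finset.mul_sum] at h2
      rw [← h2]
      refine Finset.sum_congr rfl fun a _ => ?_
      rw [Finset.mul_sum, h2]
    simp_rw [h1, ← Finset.sum_mul]
    rw [B08b_one hP, one_mul]
  rw [hsum]
  simp only [map_sum]
  refine Finset.sum_eq_zero fun r _ => Finset.sum_eq_zero fun l _ => Finset.sum_eq_zero fun a _ =>
    Finset.sum_eq_zero fun k _ => ?_
  by_cases h0 : P r * Ewt wt l * N * (P a * Ewt wt k) = 0
  · rw [h0, map_zero]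
  have c1 : ¬ (a ≤ r ∨ k - a ≤ l - r) := fun h => h0 (hN r l a k h)
  push Not at c1
  have c2 : |r| ≤ K := by
    by_contra hc
    push Not at hc
    apply h0; rw [hP.supp r hc]; simp
  have c3 : |a| ≤ K := by
    by_contra hc
    push Not at hc
    apply h0; rw [hP.supp a hc]; simp
  have c4 : |l - r| ≤ K := by
    by_contra hc
    push Not at hc
    apply h0; rw [B08b_supp hP hc]; simp
  have c5 : |k - a| ≤ K := by
    by_contra hc
    push Not at hc
    apply h0; rw [B08b_supp hP hc]; simp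
  have c6 := hφ r l a k c1.1 c1.2 c2 c3 c4 c5
  have heig : adm X (P r * Ewt wt l * N * (P a * Ewt wt k)) =
      (((φ r l - φ a k : ℤ)) : ℂ) • (P r * Ewt wt l * N * (P a * Ewt wt k)) := by
    rw [adm_apply]
    have b1 : X * (P r * Ewt wt l * N * (P a * Ewt wt k)) =
        (φ r l : ℂ) • (P r * Ewt wt l * N * (P a * Ewt wt k)) := by
      rw [Matrix.mul_assoc (P r * Ewt wt l) N, ← Matrix.mul_assoc X, (hX r l).1, Matrix.smul_mul]
    have b2 : (P r * Ewt wt l * N * (P a * Ewt wt k)) * X =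
        (φ a k : ℂ) • (P r * Ewt wt l * N * (P a * Ewt wt k)) := by
      rw [Matrix.mul_assoc (P r * Ewt wt l * N), (hX a k).2, Matrix.mul_smul]
    rw [b1, b2]
    push_cast
    rw [sub_smul]
  rw [B08b_aeval_eig _ heig]
  have : Polynomial.eval (((φ r l - φ a k : ℤ)) : ℂ) (rts (-(2 * K)) (-1)) = 0 := by
    unfold rts
    rw [Polynomial.eval_prod]
    apply Finset.prod_eq_zero (i := φ r l - φ a k)
    · rw [Finset.mem_Icc]; exact c6
    · simp
  rw [this, zero_smul]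

theorem poly_Lam (hP : GrP wt p K Φ P) {h : Matrix ι ι ℂ} (hh : Un wt h) {M : Matrix ι ι ℂ}
    (hM : h⁻¹ * M * h ∈ Lam wt P) :
    Polynomial.aeval (adm (oP K P h)) (rts (-(2 * K)) (-1)) M = 0 ∧
    Polynomial.aeval (adm (oQ wt K P h)) (rts (-(2 * K)) (-1)) M = 0 := by
  have hu : IsUnit h := hh.isUnit
  have hdet := (Matrix.isUnit_iff_isUnit_det _).1 hu
  have e1 : h⁻¹ * h = 1 := Matrix.nonsing_inv_mul _ hdet
  have e2 : h * h⁻¹ = 1 := Matrix.mul_nonsing_inv _ hdet
  have back : ∀ Y : Matrix ι ι ℂ, h⁻¹ * Y * h = 0 → Y = 0 := by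
    intro Y hY
    have : h * (h⁻¹ * Y * h) * h⁻¹ = Y := by
      have : h * (h⁻¹ * Y * h) * h⁻¹ = (h * h⁻¹) * Y * (h * h⁻¹) := by
        simp only [Matrix.mul_assoc]
      rw [this, e2, Matrix.one_mul, Matrix.mul_one]
    rw [← this, hY]; simp
  constructor
  · apply back
    unfold oP
    rw [B08b_aeval_conj hu]
    apply B08b_poly_gen hP (B08b_Sc_PG hP) hM
    intro r l a k h1 _ h3 h4 _ _
    rw [abs_le] at h3 h4
    constructor <;> omega
  · apply back
    unfold oQ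
    rw [B08b_aeval_conj hu]
    apply B08b_poly_gen hP (B08b_Sc_QG hP) hM
    intro r l a k _ h2 _ _ h5 h6
    rw [abs_le] at h5 h6
    constructor <;> omega

/-- `Lam` is stable under the commutator with `opP` and `opQ` -/
theorem Lam_stab (hP : GrP wt p K Φ P) {h : Matrix ι ι ℂ} (hh : Un wt h) {M : Matrix ι ι ℂ}
    (hM : h⁻¹ * M * h ∈ Lam wt P) :
    h⁻¹ * adm (oP K P h) M * h ∈ Lam wt P ∧ h⁻¹ * adm (oQ wt K P h) M * h ∈ Lam wt P := by
  unfold oP oQ
  rw [B08b_adm_conj hh.isUnit, B08b_adm_conj hh.isUnit, adm_apply, adm_apply]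
  exact ⟨B08b_comm_mem (B08b_Sc_PG hP) hM, B08b_comm_mem (B08b_Sc_QG hP) hM⟩

theorem B08b_Lam_low (hP : GrP wt p K Φ P) {N : Matrix ι ι ℂ} (hN : N ∈ Lam wt P) :
    N ∈ Low ℂ wt := by
  intro i j hij
  -- the entry of `Ewt N Ewt`
  have h1 : Ewt wt (wt i) * N * Ewt wt (wt j) = 0 := by
    have hs : ∑ r ∈ Finset.Icc (-(K : ℤ)) K, P r = 1 := hP.sum
    have e1 : Ewt wt (wt i) * N * Ewt wt (wt j) =
        ∑ r ∈ Finset.Icc (-(K : ℤ)) K, ∑ a ∈ Finset.Icc (-(K : ℤ)) K,
          P r * Ewt wt (wt i) * N * (P a * Ewt wt (wt j)) := by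
      have b1 : ∀ r : ℤ, ∑ a ∈ Finset.Icc (-(K : ℤ)) K,
          P r * Ewt wt (wt i) * N * (P a * Ewt wt (wt j)) =
          P r * (Ewt wt (wt i) * N * Ewt wt (wt j)) := by
        intro r
        rw [← Finset.mul_sum, ← Finset.sum_mul, hs, Matrix.one_mul]
        simp only [Matrix.mul_assoc]
      simp_rw [b1]
      rw [← Finset.sum_mul, hs, Matrix.one_mul]
    rw [e1]
    refine Finset.sum_eq_zero fun r _ => Finset.sum_eq_zero fun a _ => hN _ _ _ _ ?_
    by_contra hc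
    push Not at hc
    omega
  have h2 : (Ewt wt (wt i) * N * Ewt wt (wt j)) i j = N i j := by
    simp [Ewt, Matrix.mul_diagonal, Matrix.diagonal_mul]
  rw [← h2, h1]; simp

theorem B08b_Un_inv {h : Matrix ι ι ℂ} (hh : Un wt h) (i j : ι) (hij : wt j < wt i) :
    h⁻¹ i j = 0 := by
  have hu : IsUnit h := hh.isUnit
  have : Invertible h := hu.invertible
  have hb : Matrix.BlockTriangular h wt := by
    intro i j hij
    have h1 := hh i j (le_of_lt hij)
    rw [h1, if_neg]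
    rintro rfl
    exact lt_irrefl _ hij
  exact Matrix.blockTriangular_inv_of_blockTriangular hb hij

theorem Lam_le_low (hP : GrP wt p K Φ P) {h : Matrix ι ι ℂ} (hh : Un wt h) {M : Matrix ι ι ℂ}
    (hM : h⁻¹ * M * h ∈ Lam wt P) : M ∈ Low ℂ wt := by
  have hu : IsUnit h := hh.isUnit
  have hdet := (Matrix.isUnit_iff_isUnit_det _).1 hu
  have e2 : h * h⁻¹ = 1 := Matrix.mul_nonsing_inv _ hdet
  set N := h⁻¹ * M * h with hNdef
  have hN : N ∈ Low ℂ wt := B08b_Lam_low hP hM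
  have hMN : M = h * N * h⁻¹ := by
    rw [hNdef]
    have : h * (h⁻¹ * M * h) * h⁻¹ = (h * h⁻¹) * M * (h * h⁻¹) := by
      simp only [Matrix.mul_assoc]
    rw [this, e2, Matrix.one_mul, Matrix.mul_one]
  have h1 : h * N ∈ Low ℂ wt := by
    intro i j hij
    rw [Matrix.mul_apply]
    apply Finset.sum_eq_zero
    intro m _
    by_cases hm : wt m < wt i
    · rw [hh i m (le_of_lt hm), if_neg (by rintro rfl; exact lt_irrefl _ hm), zero_mul]
    · rw [hN m j (le_trans hij (not_lt.1 hm)), mul_zero]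
  rw [hMN]
  intro i j hij
  rw [Matrix.mul_apply]
  apply Finset.sum_eq_zero
  intro m _
  by_cases hm : wt m ≤ wt i
  · rw [h1 i m hm, zero_mul]
  · rw [B08b_Un_inv hh m j (lt_of_le_of_lt hij (not_le.1 hm)), mul_zero]

end ZQ38
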