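import Pool.Agent.LibZQ38.B04b

/-!
Uniqueness of Deligne's splitting.

PLAN. delH_unique: for v of type (a,b) both h v and h' v are in Ide a b with leading coordinates v, so the
difference is in Ide a b ∩ W_{a+b-1} = 0 (Ide_inj); these v span. delH_congr: Ide only depends on the
filtration Fl p Φ and its conjugate Fl p (bar Φ) (conjugates of the vectors of Fl p Φ a).
-/

open Matrix Complex
open MW38 (Fl Tri blk dg)

namespace ZQ38

variable {ι : Type} [Fintype ι] [DecidableEq ι] {wt p : ι → ℤ} {K : ℕ} {Φ : Matrix ι ι ℂ}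
  {P : ℤ → Matrix ι ι ℂ} {Ω : Set ℂ}

theorem B12a_sumE : ∑ k ∈ Finset.univ.image wt, Ewt wt k = 1 := by
  classical
  ext i j
  rw [Matrix.sum_apply]
  by_cases hij : i = j
  · subst hij
    rw [Matrix.one_apply_eq]
    rw [Finset.sum_eq_single (wt i)]
    · simp [Ewt]
    · intro b _ hb
      simp [Ewt, Ne.symm hb]
    · intro hb
      exact absurd (Finset.mem_image_of_mem _ (Finset.mem_univ i)) hb
  · rw [Matrix.one_apply_ne hij]
    apply Finset.sum_eq_zero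
    intro k _
    simp [Ewt, hij]

theorem B12a_Emul (k : ℤ) : Ewt wt k * Ewt wt k = Ewt wt k := by
  unfold Ewt
  rw [Matrix.diagonal_mul_diagonal]
  congr 1
  ext i
  split_ifs <;> simp

theorem B12a_mulVec_E (k : ℤ) (v : ι → ℂ) (i : ι) :
    (Ewt wt k *ᵥ v) i = if wt i = k then v i else 0 := by
  unfold Ewt
  rw [Matrix.mulVec_diagonal]
  split_ifs <;> simp

theorem B12a_mem_Wt {k : ℤ} {v : ι → ℂ} (h : Ewt wt k *ᵥ v = v) : v ∈ Wt wt k := by
  intro i hi
  have h1 := congrFun h i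
  rw [B12a_mulVec_E, if_neg (by omega)] at h1
  exact h1.symm

theorem delH_unique (hP : GrP wt p K Φ P) {h h' : Matrix ι ι ℂ} (hh : DelH wt p Φ P h)
    (hh' : DelH wt p Φ P h') : h = h' := by
  have key : ∀ a k : ℤ, (h - h') * (P a * Ewt wt k) = 0 := by
    intro a k
    apply Matrix.ext_of_mulVec_single
    intro j
    rw [← Matrix.mulVec_mulVec, Matrix.zero_mulVec]
    set u : ι → ℂ := (P a * Ewt wt k) *ᵥ Pi.single j 1 with hu
    have h1 : P a *ᵥ u = u := by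
      rw [hu, Matrix.mulVec_mulVec, ← Matrix.mul_assoc, hP.mul, if_pos rfl]
    have h2 : Ewt wt k *ᵥ u = u := by
      rw [hu, Matrix.mulVec_mulVec, ← Matrix.mul_assoc, ← hP.comm_Ewt, Matrix.mul_assoc,
        B12a_Emul]
    have h3 : a + (k - a) = k := by ring
    have h4 := (hh.ide a (k - a) u).2 ⟨h1, by rw [h3]; exact h2⟩
    have h5 := (hh'.ide a (k - a) u).2 ⟨h1, by rw [h3]; exact h2⟩
    apply Ide_inj hP (a := a) (b := k - a)
    · rw [Matrix.sub_mulVec]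
      exact Submodule.sub_mem _ h4 h5
    · rw [h3]
      exact Un.sub_mem hh.un hh'.un (B12a_mem_Wt h2)
  have h1 : (h - h') * ((∑ a ∈ Finset.Icc (-(K : ℤ)) K, P a) *
      ∑ k ∈ Finset.univ.image wt, Ewt wt k) = 0 := by
    rw [Finset.sum_mul, Finset.mul_sum]
    apply Finset.sum_eq_zero
    intro a _
    rw [Finset.mul_sum, Finset.mul_sum]
    exact Finset.sum_eq_zero (fun k _ => key a k)
  rw [hP.sum, B12a_sumE, mul_one, mul_one] at h1
  exact sub_eq_zero.1 h1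

theorem B12a_bar_mem {Φ : Matrix ι ι ℂ} {a : ℤ} {v : ι → ℂ} (hv : v ∈ Fl p (bar Φ) a) :
    star v ∈ Fl p Φ a := by
  unfold Fl at hv
  induction hv using Submodule.span_induction with
  | mem x hx =>
    obtain ⟨j, hj, rfl⟩ := hx
    apply Submodule.subset_span
    refine ⟨j, hj, ?_⟩
    ext i
    simp [bar]
  | zero => rw [star_zero]; exact Submodule.zero_mem _
  | add x y _ _ hx hy => rw [star_add]; exact Submodule.add_mem _ hx hy
  | smul c x _ hx => rw [star_smul]; exact Submodule.smul_mem _ _ hx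

theorem B12a_bar_bar (Φ : Matrix ι ι ℂ) : bar (bar Φ) = Φ := by
  ext i j
  simp [bar]

theorem B12a_bar_le {Φ Φ' : Matrix ι ι ℂ} (hF : ∀ a, Fl p Φ a = Fl p Φ' a) (a : ℤ) :
    Fl p (bar Φ) a ≤ Fl p (bar Φ') a := by
  intro v hv
  have h1 := B12a_bar_mem hv
  rw [hF a, ← B12a_bar_bar Φ'] at h1
  have h2 := B12a_bar_mem h1
  rwa [star_star] at h2

theorem delH_congr {Φ' : Matrix ι ι ℂ} (hF : ∀ a, Fl p Φ a = Fl p Φ' a) {h : Matrix ι ι ℂ}
    (hh : DelH wt p Φ P h) : DelH wt p Φ' P h := by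
  have hb : ∀ a, Fl p (bar Φ) a = Fl p (bar Φ') a := fun a =>
    le_antisymm (B12a_bar_le hF a) (B12a_bar_le (fun a => (hF a).symm) a)
  have hI : ∀ a b, Ide wt p Φ' a b = Ide wt p Φ a b := by
    intro a b
    unfold Ide
    simp only [hF, hb]
  refine ⟨hh.un, fun a b v => ?_⟩
  rw [hI]
  exact hh.ide a b v

theorem B12a_dg_le {Φ Φ' : Matrix ι ι ℂ} (htΦ : Tri wt Φ) (hu : IsUnit Φ') (ht : Tri wt Φ')
    (hF : ∀ a, Fl p Φ a = Fl p Φ' a) (a : ℤ) : Fl p (dg wt Φ) a ≤ Fl p (dg wt Φ') a := by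
  unfold Fl
  apply Submodule.span_le.2
  rintro v ⟨j, hj, rfl⟩
  have h1 : (fun i => Φ i j) ∈ Fl p Φ' a := by
    rw [← hF]
    exact Submodule.subset_span ⟨j, hj, rfl⟩
  have h2 : (fun i => Φ i j) ∈ Wt wt (wt j) := fun i hi => htΦ i j hi
  have h3 := lead_mem hu ht h1 h2
  have h4 : Ewt wt (wt j) *ᵥ (fun i => Φ i j) = fun i => dg wt Φ i j := by
    ext i
    rw [B12a_mulVec_E]
    rfl
  rw [h4] at h3
  exact h3

theorem grP_congr {Φ' : Matrix ι ι ℂ} (hu : IsUnit Φ') (ht : Tri wt Φ')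
    (hF : ∀ a, Fl p Φ a = Fl p Φ' a) (h : GrP wt p K Φ P) : GrP wt p K Φ' P := by
  have hd : ∀ a, Fl p (dg wt Φ') a = Fl p (dg wt Φ) a := fun a =>
    le_antisymm (B12a_dg_le ht h.unit h.tri (fun a => (hF a).symm) a)
      (B12a_dg_le h.tri hu ht hF a)
  refine ⟨hu, ht, h.diag, h.mul, h.supp, h.sum, h.conj, fun a v => ?_⟩
  rw [hd]
  exact h.fil a v

end ZQ38
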