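import Pool.Agent.LibZQ38.B04b
import Pool.Agent.LibMW38.Col

/-!
Size of the matrix `h`.

PLAN. Entries of a product of r matrices with entries bounded by X (X ≥ 1) are bounded by
(card ι)^r X^r. By induction on j the entries of Dd are at most c_j X^{m_j} (Pge, Pls are sums of at
most 2K+1 of the P a; Ewt has entries 0, 1; Lm (bar Φ) = bar (Lm Φ) has the same absolute values). Then
Hd and HH (finite sums). The inverse of HH: HH = 1 + n with n strictly lower triangular for the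
weights, n^J' = 0, HH⁻¹ = ∑ (-n)^i (i < J'), J' = card ι + 1.
-/

open Matrix Complex
open MW38 (Fl Tri blk dg)

namespace ZQ38

variable {ι : Type} [Fintype ι] [DecidableEq ι] {wt p : ι → ℤ} {K : ℕ} {Φ : Matrix ι ι ℂ}
  {P : ℤ → Matrix ι ι ℂ} {Ω : Set ℂ}

section poly

variable {T : Type} {X : T → ℝ}

/-- entries bounded by a constant times a power of `X` -/
def B12c_Poly (X : T → ℝ) (f : T → Matrix ι ι ℂ) : Prop :=
  ∃ (c : ℝ) (m : ℕ), 0 ≤ c ∧ ∀ t i j, ‖f t i j‖ ≤ c * X t ^ m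

theorem B12c_mono (hX : ∀ t, 1 ≤ X t) {f : T → Matrix ι ι ℂ} {c : ℝ} {m : ℕ} (hc : 0 ≤ c)
    (h : ∀ t i j, ‖f t i j‖ ≤ c * X t ^ m) {c' : ℝ} {m' : ℕ} (hcc : c ≤ c') (hm : m ≤ m') :
    ∀ t i j, ‖f t i j‖ ≤ c' * X t ^ m' := by
  intro t i j
  refine (h t i j).trans ?_
  have h1 : X t ^ m ≤ X t ^ m' := pow_le_pow_right₀ (hX t) hm
  have h0 : (0 : ℝ) ≤ X t ^ m := pow_nonneg (zero_le_one.trans (hX t)) m
  exact mul_le_mul hcc h1 h0 (hc.trans hcc)

theorem B12c_add (hX : ∀ t, 1 ≤ X t) {f g : T → Matrix ι ι ℂ} (hf : B12c_Poly X f)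
    (hg : B12c_Poly X g) : B12c_Poly X (fun t => f t + g t) := by
  obtain ⟨c, m, hc, h⟩ := hf
  obtain ⟨c', m', hc', h'⟩ := hg
  refine ⟨c + c', max m m', add_nonneg hc hc', fun t i j => ?_⟩
  show ‖(f t + g t) i j‖ ≤ _
  rw [Matrix.add_apply, add_mul]
  exact (norm_add_le _ _).trans (add_le_add
    (B12c_mono hX hc h le_rfl (le_max_left m m') t i j)
    (B12c_mono hX hc' h' le_rfl (le_max_right m m') t i j))

theorem B12c_neg {f : T → Matrix ι ι ℂ} (hf : B12c_Poly X f) :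
    B12c_Poly X (fun t => -f t) := by
  obtain ⟨c, m, hc, h⟩ := hf
  exact ⟨c, m, hc, fun t i j => by
    show ‖(-f t) i j‖ ≤ _
    rw [Matrix.neg_apply, norm_neg]
    exact h t i j⟩

theorem B12c_sub (hX : ∀ t, 1 ≤ X t) {f g : T → Matrix ι ι ℂ} (hf : B12c_Poly X f)
    (hg : B12c_Poly X g) : B12c_Poly X (fun t => f t - g t) := by
  simp only [sub_eq_add_neg]
  exact B12c_add hX hf (B12c_neg hg)

theorem B12c_const (A : Matrix ι ι ℂ) : B12c_Poly X (fun _ => A) := by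
  refine ⟨∑ i, ∑ j, ‖A i j‖, 0, Finset.sum_nonneg fun i _ => Finset.sum_nonneg fun j _ =>
    norm_nonneg _, fun t i j => ?_⟩
  rw [pow_zero, mul_one]
  exact (Finset.single_le_sum (f := fun j => ‖A i j‖) (fun j _ => norm_nonneg _)
    (Finset.mem_univ j)).trans
    (Finset.single_le_sum (f := fun i => ∑ j, ‖A i j‖)
      (fun i _ => Finset.sum_nonneg fun j _ => norm_nonneg _) (Finset.mem_univ i))

theorem B12c_mul (hX : ∀ t, 1 ≤ X t) {f g : T → Matrix ι ι ℂ} (hf : B12c_Poly X f)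
    (hg : B12c_Poly X g) : B12c_Poly X (fun t => f t * g t) := by
  obtain ⟨c, m, hc, h⟩ := hf
  obtain ⟨c', m', hc', h'⟩ := hg
  refine ⟨Fintype.card ι * (c * c'), m + m', by positivity, fun t i j => ?_⟩
  show ‖(f t * g t) i j‖ ≤ _
  rw [Matrix.mul_apply]
  calc ‖∑ k, f t i k * g t k j‖ ≤ ∑ k, ‖f t i k * g t k j‖ := norm_sum_le _ _
    _ ≤ ∑ _k : ι, c * c' * X t ^ (m + m') := by
        refine Finset.sum_le_sum fun k _ => ?_
        have h0 : (0 : ℝ) ≤ X t ^ m := pow_nonneg (zero_le_one.trans (hX t)) m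
        rw [norm_mul]
        calc ‖f t i k‖ * ‖g t k j‖ ≤ (c * X t ^ m) * (c' * X t ^ m') :=
              mul_le_mul (h t i k) (h' t k j) (norm_nonneg _) (mul_nonneg hc h0)
          _ = c * c' * X t ^ (m + m') := by rw [pow_add]; ring
    _ = Fintype.card ι * (c * c') * X t ^ (m + m') := by
        rw [Finset.sum_const, Finset.card_univ, nsmul_eq_mul]; ring

theorem B12c_sum (hX : ∀ t, 1 ≤ X t) {α : Type} (s : Finset α) {f : α → T → Matrix ι ι ℂ}
    (hf : ∀ a ∈ s, B12c_Poly X (f a)) : B12c_Poly X (fun t => ∑ a ∈ s, f a t) := by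
  classical
  induction s using Finset.induction_on with
  | empty => simpa using B12c_const (X := X) (0 : Matrix ι ι ℂ)
  | insert a s ha ih =>
      simp only [Finset.sum_insert ha]
      exact B12c_add hX (hf a (Finset.mem_insert_self a s))
        (ih fun b hb => hf b (Finset.mem_insert_of_mem hb))

theorem B12c_pow (hX : ∀ t, 1 ≤ X t) {f : T → Matrix ι ι ℂ} (hf : B12c_Poly X f) (n : ℕ) :
    B12c_Poly X (fun t => f t ^ n) := by
  induction n with
  | zero => simpa using B12c_const (X := X) (1 : Matrix ι ι ℂ)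
  | succ n ih =>
      simp only [pow_succ]
      exact B12c_mul hX ih hf

end poly

theorem B12c_bar_mul (A B : Matrix ι ι ℂ) : bar (A * B) = bar A * bar B := by
  rw [bar, bar, bar, Matrix.map_mul]

theorem B12c_Lm_bar (hu : IsUnit Φ) (ht : Tri wt Φ) : Lm wt (bar Φ) = bar (Lm wt Φ) := by
  have hdet : IsUnit Φ.det := (Matrix.isUnit_iff_isUnit_det Φ).mp hu
  have h1 : bar Φ * bar Φ⁻¹ = 1 := by
    rw [← B12c_bar_mul, Matrix.mul_nonsing_inv Φ hdet, bar]
    exact Matrix.map_one _ (map_zero _) (map_one _)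
  have h2 : (bar Φ)⁻¹ = bar Φ⁻¹ := Matrix.inv_eq_right_inv h1
  have h3 : ∀ A : Matrix ι ι ℂ, dg wt (bar A) = bar (dg wt A) := by
    intro A
    ext i j
    by_cases h : wt i = wt j
    · simp [dg, bar, h]
    · simp [dg, bar, h]
  rw [Lm, Lm, MW38.Col_dg_inv hu ht, MW38.Col_dg_inv (bar_isUnit hu) (bar_tri ht), h2, h3,
    B12c_bar_mul]

theorem B12c_pow_zero {n : Matrix ι ι ℂ} (hn : ∀ i j, wt j ≤ wt i → n i j = 0) (r : ℕ) :
    ∀ i j, wt j < wt i + r → (n ^ r) i j = 0 := by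
  induction r with
  | zero =>
      intro i j hij
      have : i ≠ j := by
        rintro rfl
        simp at hij
      rw [pow_zero, Matrix.one_apply_ne this]
  | succ r ih =>
      intro i j hij
      rw [pow_succ, Matrix.mul_apply]
      apply Finset.sum_eq_zero
      intro k _
      rcases lt_or_ge (wt k) (wt i + r) with h | h
      · rw [ih i k h, zero_mul]
      · rw [hn k j (by push_cast at hij; linarith), mul_zero]

theorem B12c_inv {D : ℕ} (hD : ∀ i j, wt i - wt j < D) {g : Matrix ι ι ℂ} (hg : Un wt g) :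
    g⁻¹ = ∑ i ∈ Finset.range D, (-(g - 1)) ^ i := by
  apply Matrix.inv_eq_right_inv
  have h1 : g = 1 - (-(g - 1)) := by abel
  have h2 : (-(g - 1)) ^ D = 0 := by
    ext i j
    refine B12c_pow_zero (wt := wt) ?_ D i j ?_
    · intro i j hij
      rw [Matrix.neg_apply, Matrix.sub_apply, hg i j hij, Matrix.one_apply]
      simp
    · have := hD j i
      linarith
  conv_lhs => rw [h1]
  rw [show (1 - (-(g - 1))) - 1 = g - 1 by abel, mul_neg_geom_sum, h2, sub_zero]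

theorem HH_bound (wt : ι → ℤ) (K J : ℕ) : ∃ (c : ℝ) (m : ℕ), ∀ (Φ : Matrix ι ι ℂ)
    (P : ℤ → Matrix ι ι ℂ) (X : ℝ), 1 ≤ X → IsUnit Φ → Tri wt Φ → GrP wt p K Φ P →
    (∀ i j, ‖Lm wt Φ i j‖ ≤ X) → (∀ a i j, ‖P a i j‖ ≤ X) →
    ∀ i j, ‖HH wt K Φ P J i j‖ ≤ c * X ^ m ∧ ‖(HH wt K Φ P J)⁻¹ i j‖ ≤ c * X ^ m := by
  classical
  let T : Type := {x : Matrix ι ι ℂ × (ℤ → Matrix ι ι ℂ) × ℝ // 1 ≤ x.2.2 ∧ IsUnit x.1 ∧
    Tri wt x.1 ∧ GrP wt p K x.1 x.2.1 ∧ (∀ i j, ‖Lm wt x.1 i j‖ ≤ x.2.2) ∧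
    (∀ a i j, ‖x.2.1 a i j‖ ≤ x.2.2)}
  let X : T → ℝ := fun t => t.1.2.2
  have hX : ∀ t, 1 ≤ X t := fun t => t.2.1
  have hL : B12c_Poly X (fun t : T => Lm wt t.1.1) :=
    ⟨1, 1, zero_le_one, fun t i j => by
      rw [one_mul, pow_one]; exact t.2.2.2.2.2.1 i j⟩
  have hLb : B12c_Poly X (fun t : T => Lm wt (bar t.1.1)) :=
    ⟨1, 1, zero_le_one, fun t i j => by
      show ‖Lm wt (bar t.1.1) i j‖ ≤ _
      rw [one_mul, pow_one, B12c_Lm_bar t.2.2.1 t.2.2.2.1, bar, Matrix.map_apply,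
        RCLike.norm_conj]
      exact t.2.2.2.2.2.1 i j⟩
  have hP : ∀ a, B12c_Poly X (fun t : T => t.1.2.1 a) := fun a =>
    ⟨1, 1, zero_le_one, fun t i j => by
      rw [one_mul, pow_one]; exact t.2.2.2.2.2.2 a i j⟩
  have hPge : ∀ a, B12c_Poly X (fun t : T => Pge K t.1.2.1 a) := fun a =>
    B12c_sum hX _ fun b _ => hP b
  have hPls : ∀ a, B12c_Poly X (fun t : T => Pls K t.1.2.1 a) := fun a =>
    B12c_sum hX _ fun b _ => hP b
  have hDd : ∀ a k j, B12c_Poly X (fun t : T => Dd wt K t.1.1 t.1.2.1 a k j) := by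
    intro a k j
    induction j with
    | zero =>
        simp only [Dd]
        exact B12c_mul hX (B12c_mul hX (B12c_sub hX hL hLb) (hP a)) (B12c_const _)
    | succ j ih =>
        simp only [Dd]
        exact B12c_sub hX (B12c_sub hX ih
          (B12c_mul hX (B12c_mul hX (B12c_mul hX hL (hPge a)) (B12c_const _)) ih))
          (B12c_mul hX (B12c_mul hX (B12c_mul hX hLb (hPls a)) (B12c_const _)) ih)
  have hHd : ∀ a k, B12c_Poly X (fun t : T => Hd wt K t.1.1 t.1.2.1 J a k) := by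
    intro a k
    simp only [Hd]
    exact B12c_sub hX (B12c_mul hX (B12c_mul hX hL (hP a)) (B12c_const _))
      (B12c_sum hX _ fun j _ => B12c_mul hX (B12c_mul hX (B12c_mul hX hL (hPge a))
        (B12c_const _)) (hDd a k j))
  have hHH : B12c_Poly X (fun t : T => HH wt K t.1.1 t.1.2.1 J) := by
    simp only [HH]
    exact B12c_sum hX _ fun a _ => B12c_sum hX _ fun k _ => hHd a k
  obtain ⟨D, hD⟩ : ∃ D : ℕ, ∀ i j, wt i - wt j < D := by
    refine ⟨∑ i, ∑ j, ((wt i - wt j).natAbs + 1), fun i j => ?_⟩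
    have h1 : (wt i - wt j).natAbs + 1 ≤ ∑ i, ∑ j, ((wt i - wt j).natAbs + 1) :=
      (Finset.single_le_sum (f := fun j => (wt i - wt j).natAbs + 1) (fun j _ => Nat.zero_le _)
        (Finset.mem_univ j)).trans
        (Finset.single_le_sum (f := fun i => ∑ j, ((wt i - wt j).natAbs + 1))
          (fun i _ => Nat.zero_le _) (Finset.mem_univ i))
    omega
  have hinv : B12c_Poly X (fun t : T => (HH wt K t.1.1 t.1.2.1 J)⁻¹) := by
    have h1 : ∀ t : T, (HH wt K t.1.1 t.1.2.1 J)⁻¹ =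
        ∑ i ∈ Finset.range D, (-(HH wt K t.1.1 t.1.2.1 J - 1)) ^ i := fun t =>
      B12c_inv hD (HH_un t.2.2.2.2.1 J)
    simp only [h1]
    exact B12c_sum hX _ fun i _ => B12c_pow hX (B12c_neg (B12c_sub hX hHH (B12c_const 1))) i
  obtain ⟨c, m, hc, h⟩ := hHH
  obtain ⟨c', m', hc', h'⟩ := hinv
  refine ⟨c + c', m + m', fun Φ P x hx hu ht hG hLx hPx i j => ?_⟩
  let t : T := ⟨(Φ, P, x), hx, hu, ht, hG, hLx, hPx⟩
  exact ⟨B12c_mono hX hc h (le_add_of_nonneg_right hc') (Nat.le_add_right m m') t i j,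
    B12c_mono hX hc' h' (le_add_of_nonneg_left hc) (Nat.le_add_left m' m) t i j⟩

end ZQ38
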