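import Pool.Agent.LibZQ38.SDef
import Pool.Agent.LibZL19.Mono

/-!
Definitions used in the statement of `MixedToPure` (relative version).
-/

open Matrix Complex
open UpperHalfPlane hiding I
open MW38 (Fl Tri blk dg)

namespace ZQ38

variable {ι : Type} [Fintype ι] [DecidableEq ι]

/-- `γ` is a monodromy matrix of the variation along `δ`: rational, it preserves the weight
filtration and the polarizations of the graded pieces, and carries the Hodge filtration at `τ` to
the one at `δ • τ` -/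
def MonQ (wt p : ι → ℤ) (Q : Matrix ι ι ℚ) (Φ : ℂ → Matrix ι ι ℂ)
    (δ : Matrix.SpecialLinearGroup (Fin 2) ℝ) (γ : Matrix ι ι ℚ) : Prop :=
  IsUnit γ ∧ Tri wt γ ∧
    (∀ k, (blk wt k k γ)ᵀ * blk wt k k Q * blk wt k k γ = blk wt k k Q) ∧
    ∀ (τ : ℍ) (a : ℤ), Fl p (Φ ((δ • τ : ℍ) : ℂ)) a =
      (Fl p (Φ (τ : ℂ)) a).map (Matrix.mulVecLin (γ.map (algebraMap ℚ ℂ)))

/-- `n` is a maximal proper `m`-stable subspace of `u` containing `[u, u]` -/
structure MaxSt (m u n : Submodule ℚ (Matrix ι ι ℚ)) : Prop where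
  br : brk u u ≤ n
  le : n ≤ u
  ne : n ≠ u
  stab : Stab m n
  max : ∀ n', n ≤ n' → n' ≤ u → Stab m n' → n' = n ∨ n' = u

/-- the conjugate `γ n γ⁻¹` -/
noncomputable def conjS (γ : Matrix ι ι ℚ) (n : Submodule ℚ (Matrix ι ι ℚ)) :
    Submodule ℚ (Matrix ι ι ℚ) where
  carrier := {A | γ⁻¹ * A * γ ∈ n}
  add_mem' := by
    intro A B hA hB
    show γ⁻¹ * (A + B) * γ ∈ n
    rw [mul_add, add_mul]
    exact n.add_mem hA hB
  zero_mem' := by simp
  smul_mem' := by
    intro c A hA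
    show γ⁻¹ * (c • A) * γ ∈ n
    rw [mul_smul_comm, smul_mul_assoc]
    exact n.smul_mem c hA

end ZQ38
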