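import Pool.Agent.LibZQ38.Asm
import Pool.Agent.LibZQ38.SDef2

/-!
The assembly of `MixedToPure`, for a finite family of maximal ideals.
-/

open Matrix Complex
open UpperHalfPlane hiding I
open MW38 (Fl Tri blk dg)
open SP38 (Hc)

namespace ZQ38

variable {ι : Type} [Fintype ι] [DecidableEq ι] {wt p : ι → ℤ} {K : ℕ}
  {Q : Matrix ι ι ℚ} {Φ : ℂ → Matrix ι ι ℂ} {h : ℂ → Matrix ι ι ℂ} {s : Equiv.Perm ι}
  {P : ℂ → ℤ → Matrix ι ι ℂ}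

theorem types_ok0 {Φ : Matrix ι ι ℂ} {P : ℤ → Matrix ι ι ℂ} {h : Matrix ι ι ℂ}
    {r : ℕ} {m n : Submodule ℚ (Matrix ι ι ℚ)} {w : ℤ}
    {lam : Matrix ι ι ℚ →ₗ[ℚ] (Fin r → ℚ)} {rho : Matrix ι ι ℚ →ₗ[ℚ] Matrix (Fin r) (Fin r) ℚ}
    (hW : WD wt m (m ⊓ Low ℚ wt) n w r lam rho) (hn : n ≤ m ⊓ Low ℚ wt) (hm : IsLie m)
    (ht : ∀ A ∈ m, Tri wt A) {t₀ : Matrix ι ι ℚ} (ht₀ : t₀ ∈ m)
    (ht₀' : dgR wt t₀ = Matrix.diagonal (fun i => (wt i : ℚ)))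
    (hP : GrP wt p K Φ P) (hh : DelH wt p Φ P h)
    (h1 : oP K P h ∈ cx m) (h2 : oQ wt K P h ∈ cx m) (hw : w < 0)
    (h3 : ∀ t : ℤ × ℤ, (t = (-1, -1) ∨ t = (-1, 0) ∨ t = (0, -1)) →
      hab wt p Φ (m ⊓ Low ℚ wt) t = hab wt p Φ n t) {a : ℤ}
    (ha : ZW67.LP (2 * K) (rhoC rho (oP K P h)) a ≠ 0) : a < -1 ∨ w - a < -1 := by
  by_contra hcon
  push Not at hcon
  obtain ⟨ha1, ha2⟩ := hcon
  have hD : Polynomial.aeval (rhoC rho (oP K P h)) (ZW67.npoly (2 * K)) = 0 := by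
    rw [npoly_eq]
    exact_mod_cast W_all hW hm ht hP hh.un h1
  obtain ⟨u, hu⟩ : ∃ u, ZW67.LP (2 * K) (rhoC rho (oP K P h)) a *ᵥ u ≠ 0 := by
    by_contra hall
    push Not at hall
    apply ha
    ext i j
    have h4 := congrFun (hall (Pi.single j 1)) i
    rw [Matrix.mulVec_single_one] at h4
    exact h4
  have hv : rhoC rho (oP K P h) *ᵥ (ZW67.LP (2 * K) (rhoC rho (oP K P h)) a *ᵥ u) =
      (a : ℂ) • (ZW67.LP (2 * K) (rhoC rho (oP K P h)) a *ᵥ u) := by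
    rw [Matrix.mulVec_mulVec, ZW67.LP_left hD, Matrix.smul_mulVec]
  obtain ⟨x, hx, hxt, hxv⟩ := lift_typ hW hm ht ht₀ ht₀' hP hh h1 h2 hv
  have hcase : (a, w - a) = ((-1, -1) : ℤ × ℤ) ∨ (a, w - a) = ((-1, 0) : ℤ × ℤ) ∨
      (a, w - a) = ((0, -1) : ℤ × ℤ) := by
    simp only [Prod.mk.injEq]
    omega
  have h5 := h3 (a, w - a) hcase
  have h6 : (cx n ⊓ typ wt p Φ a (w - a) : Submodule ℂ (Matrix ι ι ℂ)) =
      cx (m ⊓ Low ℚ wt) ⊓ typ wt p Φ a (w - a) :=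
    Submodule.eq_of_le_of_finrank_eq (inf_le_inf_right _ (cx_mono hn)) h5.symm
  have h7 : x ∈ cx n ⊓ typ wt p Φ a (w - a) := by
    rw [h6]
    exact ⟨hx, hxt⟩
  exact hu (hxv.symm.trans ((hW.kerC hx).2 h7.1))

/-- a point whose unipotent part lies in `n` -/
theorem asm_t (hP : ∀ z ∈ Hc 0, GrP wt p K (Φ z) (P z))
    (hh : ∀ z ∈ Hc 0, DelH wt p (Φ z) (P z) (h z)) (hPa : ∀ a, An (Hc 0) (fun z => P z a))
    (hha : An (Hc 0) h) {τ : ℍ} {n : Submodule ℚ (Matrix ι ι ℚ)}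
    (hn : mtLie wt p (Φ τ) ⊓ Low ℚ wt ≤ n) :
    ∃ t ∈ genLie wt p Φ, dgR wt t = Matrix.diagonal (fun i => (wt i : ℚ)) ∧
      h τ * Dwt wt * (h τ)⁻¹ - t.map (algebraMap ℚ ℂ) ∈ cx n := by
  obtain ⟨t, ht, htY, ht'⟩ := (C8_del hP hh).exists_t τ
  rw [C8_mt hP hh, C8_uu] at ht'
  refine ⟨t, ?_, htY, ?_⟩
  · rw [← C8_gen hP hh hPa hha]
    exact ZL19.mt_le_gen _ ht
  · rw [← oP_add_oQ _ K (P τ), ← neg_sub]
    exact Submodule.neg_mem _ (cx_mono hn ht')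

/-- a point of the Hodge locus which is not in the Hodge locus of the graded pieces -/
theorem asm_hl (hP : ∀ z ∈ Hc 0, GrP wt p K (Φ z) (P z))
    (hh : ∀ z ∈ Hc 0, DelH wt p (Φ z) (P z) (h z)) (hPa : ∀ a, An (Hc 0) (fun z => P z a))
    (hha : An (Hc 0) h) {τ : ℍ} (h1 : τ ∈ hodgeLocus wt p Φ)
    (h2 : τ ∉ hodgeLocus wt p fun z => dg wt (Φ z)) :
    ∃ n, ZL19.MaxI (genLie wt p Φ) (genLie wt p Φ ⊓ Low ℚ wt) n ∧
      mtLie wt p (Φ τ) ⊓ Low ℚ wt ≤ n := by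
  obtain ⟨z₀, hz₀, hmax, hg⟩ := C8_generic hP hh hPa hha
  have hgr : mtLie wt p (dg wt (Φ τ)) = mtLie wt p (dg wt (Φ z₀)) := by
    apply le_antisymm
    · rw [← ZL19.map_gr_mtLie hP hh τ.2, ← ZL19.map_gr_mtLie hP hh hz₀]
      exact Submodule.map_mono (hmax τ τ.2)
    · have h3 : mtLie wt p (dg wt (Φ τ)) = genLie wt p fun z => dg wt (Φ z) := by
        by_contra hne
        exact h2 hne
      rw [h3]
      exact le_iSup (fun τ : ℍ => mtLie wt p (dg wt (Φ (τ : ℂ)))) ⟨z₀, hz₀⟩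
  have hne : mtLie wt p (Φ τ) ≠ mtLie wt p (Φ z₀) := by
    rw [← hg]
    exact h1
  have hD := ZL19.del_opp hP hh
  have hg' := ZL19.gen_eq_mtLie hP hh hz₀ hmax
  have h1 : (ZL19.mt (ZL19.opp K (Hc 0) P h) (ZL19.opq wt K (Hc 0) P h) ⟨τ, τ.2⟩).map
      (ZL19.grL wt) =
      (ZL19.gen (ZL19.opp K (Hc 0) P h) (ZL19.opq wt K (Hc 0) P h)).map (ZL19.grL wt) := by
    rw [hg', ZL19.mt_eq_mtLie hP hh, ZL19.map_gr_mtLie hP hh τ.2, ZL19.map_gr_mtLie hP hh hz₀]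
    exact hgr
  have h2 : ZL19.uu wt (ZL19.mt (ZL19.opp K (Hc 0) P h) (ZL19.opq wt K (Hc 0) P h) ⟨τ, τ.2⟩) ≠
      ZL19.uu wt (ZL19.gen (ZL19.opp K (Hc 0) P h) (ZL19.opq wt K (Hc 0) P h)) := by
    intro he
    apply hne
    have := hD.mt_eq h1 he
    rwa [hg', ZL19.mt_eq_mtLie hP hh] at this
  obtain ⟨N, hN, hN'⟩ := hD.core h2
  have hN'' := hD.MaxI_gen h1 hN'
  rw [ZL19.uu_eq, hg', ← hg] at hN''
  rw [ZL19.uu_eq, ZL19.mt_eq_mtLie hP hh] at hN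
  exact ⟨N, hN'', hN⟩

/-- the member of the family attached to a maximal ideal -/
theorem asm_mem0 (hv : MW38.VMHS wt p (Q.map (algebraMap ℚ ℝ)) Φ)
    (hs : ∀ j, wt (s j) = wt j ∧ p (s j) = wt j - p j) (hK : ∀ j, |p j| ≤ K)
    (hh : ∀ z ∈ Hc 0, DelH wt p (Φ z) (PPg wt p s (Φ z)) (h z)) (hha : An (Hc 0) h)
    {n : Submodule ℚ (Matrix ι ι ℚ)}
    (htypes : ∀ t : ℤ × ℤ, (t = (-1, -1) ∨ t = (-1, 0) ∨ t = (0, -1)) → ∀ τ : ℍ,
      hab wt p (Φ τ) (genLie wt p Φ ⊓ Low ℚ wt) t = hab wt p (Φ τ) n t)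
    (hn : ZL19.MaxI (genLie wt p Φ) (genLie wt p Φ ⊓ Low ℚ wt) n)
    {t₀ : Matrix ι ι ℚ} (ht₀ : t₀ ∈ genLie wt p Φ)
    (ht₀' : dgR wt t₀ = Matrix.diagonal (fun i => (wt i : ℚ)))
    (d : Dat wt Q (genLie wt p Φ) n) :
    ZW67.Mem d.w (2 * K) ((QWf wt Q d.j).map (algebraMap ℚ ℝ))
      (DD K (fun z => PPg wt p s (Φ z)) h d.rho) (ee wt h t₀ d.lam) := by
  have hO := asm_OpD hv hs hK hh hha
  obtain ⟨hlie, htri, hop⟩ := C8_lie hO.gr hO.del hO.anP hO.anh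
  have hQ : QuD wt K (fun z => PPg wt p s (Φ z)) h (genLie wt p Φ) n t₀ d.w d.r d.lam d.rho :=
    ⟨hlie, htri, ht₀, ht₀', fun z hz => (hop z hz).1, fun z hz => (hop z hz).2, d.wd⟩
  exact
    { gd :=
        { sm := DD_sm hO
          poly := fun z hz => DD_poly hO hQ hz
          conj := fun z hz => DD_conj hO hQ hz
          skew := fun z hz => dat_skew hv hs hK hh hha d hz
          deg := fun z hz => deg_DD hO hQ hz
          pos := fun z hz a v hv1 hv0 => dat_pos hv hs hK hh hha d hz a v hv1 hv0 }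
      sme := ee_sm hO
      d0 := fun z hz a ha => ee_d0 hO hQ hz ha
      d1 := fun z hz a ha => ee_d1 hO hQ hz ha
      types := fun z hz a ha => types_ok0 d.wd hn.le hlie htri ht₀ ht₀' (hO.gr z hz)
        (hO.del z hz) (hop z hz).1 (hop z hz).2 d.jd.neg
        (fun t ht => htypes t ht ⟨z, hz⟩) ha
      neg := d.jd.neg
      frame := dat_frame hv hs hK hh hha d }

theorem asm_conjS {γ : Matrix ι ι ℚ} (hγ : IsUnit γ) (n : Submodule ℚ (Matrix ι ι ℚ)) :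
    conjS γ n = n.map (ZL19.cjg γ γ⁻¹) := by
  obtain ⟨h1, h2⟩ := C8b_inv hγ
  ext A
  constructor
  · intro hA
    refine ⟨γ⁻¹ * A * γ, hA, ?_⟩
    show γ * (γ⁻¹ * A * γ) * γ⁻¹ = A
    rw [← mul_assoc, ← mul_assoc, h1, one_mul, mul_assoc, h1, mul_one]
  · rintro ⟨B, hB, rfl⟩
    show γ⁻¹ * (γ * B * γ⁻¹) * γ ∈ n
    rw [← mul_assoc, ← mul_assoc, h2, one_mul, mul_assoc, h2, mul_one]
    exact hB

theorem asm_maxI {m u n : Submodule ℚ (Matrix ι ι ℚ)} : MaxSt m u n ↔ ZL19.MaxI m u n := by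
  constructor
  · intro hn
    exact ⟨fun a ha b hb => hn.br (Submodule.subset_span ⟨a, ha, b, hb, rfl⟩), hn.le, hn.ne,
      hn.stab, hn.max⟩
  · intro hn
    refine ⟨Submodule.span_le.2 ?_, hn.le, hn.ne, hn.stb, hn.max⟩
    rintro C ⟨X, hX, Y, hY, rfl⟩
    exact hn.br X hX Y hY

/-- the bound for a finite family -/
theorem asm_countS (hv : MW38.VMHS wt p (Q.map (algebraMap ℚ ℝ)) Φ)
    (hs : ∀ j, wt (s j) = wt j ∧ p (s j) = wt j - p j) (hK : ∀ j, |p j| ≤ K)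
    (hh : ∀ z ∈ Hc 0, DelH wt p (Φ z) (PPg wt p s (Φ z)) (h z)) (hha : An (Hc 0) h)
    {t₀ : Matrix ι ι ℚ} (ht₀ : t₀ ∈ genLie wt p Φ)
    (ht₀' : dgR wt t₀ = Matrix.diagonal (fun i => (wt i : ℚ)))
    (S : Finset (Submodule ℚ (Matrix ι ι ℚ)))
    (hS : ∀ n ∈ S, ZL19.MaxI (genLie wt p Φ) (genLie wt p Φ ⊓ Low ℚ wt) n)
    (d : ∀ n : {n // n ∈ S}, Dat wt Q (genLie wt p Φ) n.1)
    (T : Finset {n // n ∈ S}) {z : ℂ} (hz : z ∈ Hc 0) :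
    4 * ∑ n ∈ T, (Matrix.trace ((DD K (fun z => PPg wt p s (Φ z)) h (d n).rho z -
        (((d n).w : ℂ) / 2) • 1) * (DD K (fun z => PPg wt p s (Φ z)) h (d n).rho z -
        (((d n).w : ℂ) / 2) • 1))).re ≤
      ∑ n ∈ S, ∑ t ∈ types wt p, ((t.1 : ℝ) - t.2) ^ 2 *
        ((hab wt p (Φ z) (genLie wt p Φ ⊓ Low ℚ wt) t : ℝ) - hab wt p (Φ z) n t) := by
  classical
  have hO := asm_OpD hv hs hK hh hha
  obtain ⟨hlie, htri, hop⟩ := C8_lie hO.gr hO.del hO.anP hO.anh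
  have htr : ∀ n : {n // n ∈ S}, 4 * (Matrix.trace ((DD K (fun z => PPg wt p s (Φ z)) h
      (d n).rho z - (((d n).w : ℂ) / 2) • 1) * (DD K (fun z => PPg wt p s (Φ z)) h
      (d n).rho z - (((d n).w : ℂ) / 2) • 1))).re = ∑ t ∈ types wt p,
      ((t.1 : ℝ) - t.2) ^ 2 * ((hab wt p (Φ z) (genLie wt p Φ ⊓ Low ℚ wt) t : ℝ) -
        hab wt p (Φ z) n.1 t) := by
    intro n
    rw [DD, trace_hab (d n).wd (hS _ n.2).le hlie htri ht₀ ht₀' (hO.gr z hz)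
      (hO.del z hz) (hop z hz).1 (hop z hz).2]
  have e0 : ∀ n : {n // n ∈ S}, 0 ≤ ∑ t ∈ types wt p, ((t.1 : ℝ) - t.2) ^ 2 *
      ((hab wt p (Φ z) (genLie wt p Φ ⊓ Low ℚ wt) t : ℝ) - hab wt p (Φ z) n.1 t) := by
    intro n
    refine Finset.sum_nonneg fun t _ => mul_nonneg (sq_nonneg _) ?_
    have h2 := hab_quot (d n).wd (hS _ n.2).le hlie htri ht₀ ht₀' (hO.gr z hz)
      (hO.del z hz) (hop z hz).1 (hop z hz).2 t
    rw [sub_nonneg, Nat.cast_le, h2]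
    exact Nat.le_add_right _ _
  rw [Finset.mul_sum, Finset.sum_congr rfl fun n _ => htr n]
  refine (Finset.sum_le_sum_of_subset_of_nonneg (Finset.subset_univ T) fun n _ _ => e0 n).trans
    (le_of_eq ?_)
  exact Finset.sum_coe_sort S fun n => ∑ t ∈ types wt p, ((t.1 : ℝ) - t.2) ^ 2 *
    ((hab wt p (Φ z) (genLie wt p Φ ⊓ Low ℚ wt) t : ℝ) - hab wt p (Φ z) n t)

/-- **The main theorem, for a finite family of maximal ideals.** -/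
theorem main_S {κ : Type} [Fintype κ]
    {Δ : Subgroup (Matrix.SpecialLinearGroup (Fin 2) ℝ)}
    {σ : κ → Matrix.SpecialLinearGroup (Fin 2) ℝ} {l : κ → ℝ} {D : Set ℍ}
    (hsymm : ∃ s : Equiv.Perm ι, ∀ j, wt (s j) = wt j ∧ p (s j) = wt j - p j)
    (hcurve : US38.IsCurve Δ σ l D) (hv : MW38.VMHS wt p (Q.map (algebraMap ℚ ℝ)) Φ)
    (hadm : ∀ i, MW38.Adm wt p (Q.map (algebraMap ℚ ℝ)) Φ Δ (σ i))
    (S : Finset (Submodule ℚ (Matrix ι ι ℚ)))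
    (hS : ∀ n ∈ S, ZL19.MaxI (genLie wt p Φ) (genLie wt p Φ ⊓ Low ℚ wt) n)
    (hdesc : ∀ δ ∈ Δ, ∃ γ, MonQ wt p Q Φ δ γ ∧ ∀ n ∈ S, n.map (ZL19.cjg γ γ⁻¹) ∈ S)
    (htypes : ∀ n ∈ S, ∀ t : ℤ × ℤ, (t = (-1, -1) ∨ t = (-1, 0) ∨ t = (0, -1)) → ∀ τ : ℍ,
      hab wt p (Φ τ) (genLie wt p Φ ⊓ Low ℚ wt) t = hab wt p (Φ τ) n t) :
    ∃ Z : Finset ℍ, (∀ τ : ℍ, (∃ n ∈ S, mtLie wt p (Φ τ) ⊓ Low ℚ wt ≤ n) →
        ∃ δ ∈ Δ, δ • τ ∈ Z) ∧
      ∀ τ : ℍ, (Z.card : ℝ) * (4 * Real.pi) ≤ (∑ n ∈ S, ∑ t ∈ types wt p,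
        ((t.1 : ℝ) - t.2) ^ 2 * ((hab wt p (Φ τ) (genLie wt p Φ ⊓ Low ℚ wt) t : ℝ) -
          hab wt p (Φ τ) n t)) * (MeasureTheory.volume D).toReal := by
  classical
  obtain ⟨s, hs⟩ := hsymm
  obtain ⟨K, hK⟩ : ∃ K : ℕ, ∀ j, |p j| ≤ K := by
    refine ⟨∑ j, (p j).natAbs, fun j => ?_⟩
    have h1 : (p j).natAbs ≤ ∑ j, (p j).natAbs :=
      Finset.single_le_sum (f := fun j => (p j).natAbs) (fun _ _ => Nat.zero_le _)
        (Finset.mem_univ j)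
    have h2 : ((p j).natAbs : ℤ) ≤ ((∑ j, (p j).natAbs : ℕ) : ℤ) := by exact_mod_cast h1
    rwa [Int.natCast_natAbs] at h2
  obtain ⟨h, hha, hh⟩ := vmhs_h hv hs hK
  replace hh : ∀ z ∈ Hc 0, DelH wt p (Φ z) (PPg wt p s (Φ z)) (h z) := fun z hz => hh z hz
  have hO := asm_OpD hv hs hK hh hha
  obtain ⟨hlie, htri, hop⟩ := C8_lie hO.gr hO.del hO.anP hO.anh
  obtain ⟨t₀, ht₀, ht₀'⟩ := C8_t0 hO.gr hO.del hO.anP hO.anh
  have hdat : ∀ n : {n // n ∈ S}, Nonempty (Dat wt Q (genLie wt p Φ) n.1) :=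
    fun n => exists_dat hv hs hK hh hha (hS n.1 n.2)
  let d : ∀ n : {n // n ∈ S}, Dat wt Q (genLie wt p Φ) n.1 :=
    fun n => Classical.choice (hdat n)
  let Sp : {n // n ∈ S} → Prop := fun n =>
    ∃ (τ : ℍ) (t : Matrix ι ι ℚ), t ∈ genLie wt p Φ ∧
      dgR wt t = Matrix.diagonal (fun i => (wt i : ℚ)) ∧
      h τ * Dwt wt * (h τ)⁻¹ - t.map (algebraMap ℚ ℂ) ∈ cx n.1
  have hQ : ∀ n, QuD wt K (fun z => PPg wt p s (Φ z)) h (genLie wt p Φ) n.1 t₀ (d n).w (d n).r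
      (d n).lam (d n).rho := fun n =>
    ⟨hlie, htri, ht₀, ht₀', fun z hz => (hop z hz).1, fun z hz => (hop z hz).2, (d n).wd⟩
  have hI : (I : ℂ) ∈ Hc 0 := by
    show (0 : ℝ) < I.im
    simp
  -- the permutation
  have hperm : ∀ δ ∈ Δ, ∃ π : Equiv.Perm {n // Sp n}, ∀ n : {n // Sp n},
      ∃ (g : Matrix (Fin (d (π n).1).r) (Fin (d n.1).r) ℝ) (b : Fin (d (π n).1).r → ℝ),
        (d (π n).1).w = (d n.1).w ∧
        gᵀ * ((QWf wt Q (d (π n).1).j).map (algebraMap ℚ ℝ)) * g =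
          (QWf wt Q (d n.1).j).map (algebraMap ℚ ℝ) ∧
        ∀ z ∈ Hc 0, DD K (fun z => PPg wt p s (Φ z)) h (d (π n).1).rho (US38.mob δ z) *
            SP38.cm g = SP38.cm g * DD K (fun z => PPg wt p s (Φ z)) h (d n.1).rho z ∧
          ee wt h t₀ (d (π n).1).lam (US38.mob δ z) =
            SP38.cm g *ᵥ ee wt h t₀ (d n.1).lam z + SP38.ofR b := by
    intro δ hδ
    obtain ⟨γ, ⟨hγ, hγt, hγQ, hF⟩, hγS⟩ := hdesc δ hδ
    have hgg' : γ⁻¹ * γ = 1 := (C8b_inv hγ).2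
    let f : {n // Sp n} → {n // Sp n} := fun n => ⟨⟨n.1.1.map (ZL19.cjg γ γ⁻¹), hγS _ n.1.2⟩, by
      obtain ⟨τ, t, ht, ht', hmem⟩ := n.2
      obtain ⟨h1, h2, h3⟩ := C8_spec hO.gr hO.del hO.anP hO.anh hγ hγt hF τ n.1.1 t ht ht' hmem
      exact ⟨δ • τ, γ * t * γ⁻¹, h1, h2, h3⟩⟩
    have hf : Function.Injective f := by
      intro a b hab
      have h1 : a.1.1.map (ZL19.cjg γ γ⁻¹) = b.1.1.map (ZL19.cjg γ γ⁻¹) :=
        congrArg (fun x => x.1.1) hab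
      have h2 := congrArg (fun L => L.map (ZL19.cjg γ⁻¹ γ)) h1
      simp only [ZL19.map_map_cjg hgg'] at h2
      exact Subtype.ext (Subtype.ext h2)
    refine ⟨Equiv.ofBijective f (Finite.injective_iff_bijective.1 hf), fun n => ?_⟩
    exact asm_inv hv hs hK hh hha (hS _ n.1.2) ht₀ ht₀' (d n.1) (d (f n).1) hγ hγt hγQ hF rfl
  have hmain := ZW67.zw_main (J := {n // Sp n}) hcurve
    (fun n => asm_mem0 hv hs hK hh hha (htypes _ n.1.2) (hS _ n.1.2) ht₀ ht₀' (d n.1))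
    (κ := fun n => (Matrix.trace ((DD K (fun z => PPg wt p s (Φ z)) h (d n.1).rho I -
        (((d n.1).w : ℂ) / 2) • 1) * (DD K (fun z => PPg wt p s (Φ z)) h (d n.1).rho I -
        (((d n.1).w : ℂ) / 2) • 1))).re)
    (fun n z hz => le_of_eq (congrArg Complex.re (trace_const (w := (d n.1).w) (DD_sm hO)
      (fun z hz => DD_poly hO (hQ n.1) hz) (Q := 0) hz hI)))
    hperm (fun n i M => ee_growth hv hs hK (hadm i) hh (d n.1).lam t₀ M)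
  rcases hmain with ⟨n, hn⟩ | ⟨Z, hZ1, hZ2⟩
  · exfalso
    obtain ⟨τ, t, ht, ht', hmem⟩ := n.2
    exact asm_flat hv hs hK hh hha (d n.1).jd.neg (hS _ n.1.2) (hQ n.1) ht ht' hmem hn
  · refine ⟨Z, ?_, fun τ => ?_⟩
    · rintro τ ⟨n, hn, hle⟩
      obtain ⟨t, ht, ht', hmem⟩ := asm_t hO.gr hO.del hO.anP hO.anh hle
      refine hZ2 τ ⟨⟨⟨n, hn⟩, τ, t, ht, ht', hmem⟩, ?_⟩
      refine ⟨fun i => (((d ⟨n, hn⟩).lam (t - t₀) i : ℚ) : ℝ), fun a _ => ?_⟩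
      rw [asm_val (hS n hn).le (hQ ⟨n, hn⟩) hmem, sub_self, Matrix.mulVec_zero]
    · have hτ : (τ : ℂ) ∈ Hc 0 := τ.2
      have h1 : ∑ n : {n // Sp n}, (Matrix.trace ((DD K (fun z => PPg wt p s (Φ z)) h
          (d n.1).rho I - (((d n.1).w : ℂ) / 2) • 1) * (DD K (fun z => PPg wt p s (Φ z)) h
          (d n.1).rho I - (((d n.1).w : ℂ) / 2) • 1))).re =
          ∑ n ∈ Finset.univ.filter Sp, (Matrix.trace ((DD K (fun z => PPg wt p s (Φ z)) h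
          (d n).rho τ - (((d n).w : ℂ) / 2) • 1) * (DD K (fun z => PPg wt p s (Φ z)) h
          (d n).rho τ - (((d n).w : ℂ) / 2) • 1))).re := by
        rw [← Finset.sum_subtype_eq_sum_filter]
        refine Finset.sum_bij (fun n _ => n) ?_ ?_ ?_ ?_
        · intro n _
          simp
        · intro a _ b _ hab
          exact hab
        · intro b _
          exact ⟨b, Finset.mem_univ _, rfl⟩
        · intro n _
          exact congrArg Complex.re (trace_const (w := (d n.1).w) (DD_sm hO)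
            (fun z hz => DD_poly hO (hQ n.1) hz) (Q := 0) hI hτ)
      have h2 := asm_countS hv hs hK hh hha ht₀ ht₀' S hS d (Finset.univ.filter Sp) hτ
      have h3 : 0 ≤ (MeasureTheory.volume D).toReal := ENNReal.toReal_nonneg
      calc (Z.card : ℝ) * (4 * Real.pi) = 4 * ((Z.card : ℝ) * Real.pi) := by ring
        _ ≤ 4 * ((∑ n : {n // Sp n}, (Matrix.trace ((DD K (fun z => PPg wt p s (Φ z)) h
          (d n.1).rho I - (((d n.1).w : ℂ) / 2) • 1) * (DD K (fun z => PPg wt p s (Φ z)) h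
          (d n.1).rho I - (((d n.1).w : ℂ) / 2) • 1))).re) *
            (MeasureTheory.volume D).toReal) := by
            exact mul_le_mul_of_nonneg_left hZ1 (by norm_num)
        _ ≤ _ := by
            rw [h1, ← mul_assoc]
            exact mul_le_mul_of_nonneg_right h2 h3

end ZQ38
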