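import Pool.Agent.LibZQ38.W1
import Pool.Agent.LibZQ38.B08b

/-!
The grading operator of `W` at one point.

PLAN. W_poly: for A ∈ cx m and x ∈ cx u: lamC (adm A x) = rhoC A lamC x (actC) and adm A x ∈ cx u
(IsLie, Low ideal: hypothesis hst), so lamC (aeval (adm A) q x) = aeval (rhoC A) q *ᵥ lamC x by
Polynomial.induction_on. W_all: poly_all and surjC. W_conj: conj (rhoC oP) = rhoC (bar oP) =
rhoC (oQ) + rhoC (bar oP - oQ), the last in cx u (it is in cx m, bar_mem_cx, and in Low, Lam_le_low with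
conj_oP), so 0; rhoC (oP + oQ) = w: take t₀ rational in m with dgR t₀ = diag wt, then
oP + oQ - t₀ ∈ cx m ∩ Low = cx u. W_F: poly_Fend; W_Lam: poly_Lam, and oQ acts as w - D.
-/

open Matrix Complex
open MW38 (Fl Tri blk dg)

namespace ZQ38

variable {ι : Type} [Fintype ι] [DecidableEq ι] {wt p : ι → ℤ} {K : ℕ} {Φ : Matrix ι ι ℂ}
  {P : ℤ → Matrix ι ι ℂ} {Ω : Set ℂ}

variable {r : ℕ} {m n : Submodule ℚ (Matrix ι ι ℚ)} {w : ℤ}
  {lam : Matrix ι ι ℚ →ₗ[ℚ] (Fin r → ℚ)} {rho : Matrix ι ι ℚ →ₗ[ℚ] Matrix (Fin r) (Fin r) ℚ}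
  {h : Matrix ι ι ℂ}

theorem W2_tri_low {A x : Matrix ι ι ℂ} (hA : Tri wt A) (hx : x ∈ Low ℂ wt) :
    A * x - x * A ∈ Low ℂ wt := by
  intro i j hij
  rw [Matrix.sub_apply, Matrix.mul_apply, Matrix.mul_apply,
    Finset.sum_eq_zero, Finset.sum_eq_zero, sub_zero]
  · intro k _
    rcases le_or_gt (wt k) (wt i) with h | h
    · rw [hx i k h, zero_mul]
    · rw [hA k j (lt_of_le_of_lt hij h), mul_zero]
  · intro k _
    rcases le_or_gt (wt j) (wt k) with h | h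
    · rw [hx k j h, mul_zero]
    · rw [hA i k (lt_of_lt_of_le h hij), zero_mul]

theorem W2_mem_u {x : Matrix ι ι ℂ} :
    x ∈ cx (m ⊓ Low ℚ wt) ↔ x ∈ cx m ∧ x ∈ Low ℂ wt := by
  rw [cx_inf, cx_low, Submodule.mem_inf]

theorem W2_adm_mem (hm : IsLie m) (ht : ∀ A ∈ m, Tri wt A) {A x : Matrix ι ι ℂ}
    (hA : A ∈ cx m) (hx : x ∈ cx (m ⊓ Low ℚ wt)) : adm A x ∈ cx (m ⊓ Low ℚ wt) := by
  rw [W2_mem_u] at hx ⊢
  rw [adm_apply]
  exact ⟨cx_isLie hm A hA x hx.1, W2_tri_low (cx_tri ht hA) hx.2⟩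

/-- zero diagonal part and triangular: lowers the weights -/
theorem W2_low_of_dgR {A B : Matrix ι ι ℂ} (hA : Tri wt A) (hB : Tri wt B)
    (h : dgR wt A = dgR wt B) : A - B ∈ Low ℂ wt := by
  intro i j hij
  rw [Matrix.sub_apply]
  rcases hij.lt_or_eq with h1 | h1
  · rw [hA i j h1, hB i j h1, sub_zero]
  · have h2 := congrFun (congrFun h i) j
    rw [dgR, dgR, if_pos h1.symm, if_pos h1.symm] at h2
    rw [h2, sub_self]

theorem W_poly (hW : WD wt m (m ⊓ Low ℚ wt) n w r lam rho) (hm : IsLie m)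
    (ht : ∀ A ∈ m, Tri wt A) {A x : Matrix ι ι ℂ} (hA : A ∈ cx m) (hx : x ∈ cx (m ⊓ Low ℚ wt))
    (q : Polynomial ℂ) : Polynomial.aeval (adm A) q x ∈ cx (m ⊓ Low ℚ wt) ∧
      lamC lam (Polynomial.aeval (adm A) q x) =
        Polynomial.aeval (rhoC rho A) q *ᵥ lamC lam x := by
  induction q using Polynomial.induction_on' with
  | add p q hp hq =>
    rw [map_add, map_add, LinearMap.add_apply, lamC_add, Matrix.add_mulVec, hp.2, hq.2]
    exact ⟨Submodule.add_mem _ hp.1 hq.1, rfl⟩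
  | monomial k a =>
    have hk : ∀ k : ℕ, ∀ x ∈ cx (m ⊓ Low ℚ wt), ((adm A) ^ k) x ∈ cx (m ⊓ Low ℚ wt) ∧
        lamC lam (((adm A) ^ k) x) = (rhoC rho A) ^ k *ᵥ lamC lam x := by
      intro k
      induction k with
      | zero =>
        intro x hx
        rw [pow_zero, pow_zero, Module.End.one_apply, Matrix.one_mulVec]
        exact ⟨hx, rfl⟩
      | succ k ih =>
        intro x hx
        rw [pow_succ, pow_succ, Module.End.mul_apply, ← Matrix.mulVec_mulVec]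
        obtain ⟨h1, h2⟩ := ih _ (W2_adm_mem hm ht hA hx)
        refine ⟨h1, ?_⟩
        rw [h2, adm_apply, hW.actC hA hx]
    obtain ⟨h1, h2⟩ := hk k x hx
    rw [Polynomial.aeval_monomial, Polynomial.aeval_monomial, ← Algebra.smul_def,
      ← Algebra.smul_def, LinearMap.smul_apply, lamC_smul, Matrix.smul_mulVec, h2]
    exact ⟨Submodule.smul_mem _ _ h1, rfl⟩

theorem W_all (hW : WD wt m (m ⊓ Low ℚ wt) n w r lam rho) (hm : IsLie m)
    (ht : ∀ A ∈ m, Tri wt A) (hP : GrP wt p K Φ P) (hh : Un wt h) (h1 : oP K P h ∈ cx m) :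
    Polynomial.aeval (rhoC rho (oP K P h)) (rts (-(2 * K)) (2 * K)) = 0 := by
  have key : ∀ v, Polynomial.aeval (rhoC rho (oP K P h)) (rts (-(2 * K)) (2 * K)) *ᵥ v = 0 := by
    intro v
    obtain ⟨x, hx, rfl⟩ := hW.surjC v
    rw [← (W_poly hW hm ht h1 hx _).2, poly_all hP hh x]
    have := lamC_smul (lam := lam) 0 (0 : Matrix ι ι ℂ)
    rwa [smul_zero, zero_smul] at this
  ext i j
  have h2 := congrFun (key (Pi.single j 1)) i
  rw [Matrix.mulVec_single_one] at h2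
  exact h2

theorem W_sum (hW : WD wt m (m ⊓ Low ℚ wt) n w r lam rho) (ht : ∀ A ∈ m, Tri wt A)
    {t₀ : Matrix ι ι ℚ} (ht₀ : t₀ ∈ m)
    (ht₀' : dgR wt t₀ = Matrix.diagonal (fun i => (wt i : ℚ))) (hh : Un wt h)
    (h1 : oP K P h ∈ cx m) (h2 : oQ wt K P h ∈ cx m) :
    rhoC rho (oQ wt K P h) = (w : ℂ) • 1 - rhoC rho (oP K P h) := by
  have hsum : oP K P h + oQ wt K P h = h * Dwt wt * h⁻¹ := by
    rw [oP, oQ, Matrix.mul_sub, Matrix.sub_mul]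
    abel
  have ht0 : t₀.map (algebraMap ℚ ℂ) ∈ cx m := mem_cx_of_mem ht₀
  have htri : Tri wt (t₀.map (algebraMap ℚ ℂ)) := cx_tri ht ht0
  have hdg : dgR wt (t₀.map (algebraMap ℚ ℂ)) = Dwt wt := by
    ext i j
    have h3 := congrFun (congrFun ht₀' i) j
    by_cases hij : wt i = wt j
    · rw [dgR, if_pos hij] at h3 ⊢
      rw [Matrix.map_apply, h3, Dwt]
      by_cases e : i = j
      · subst e
        rw [Matrix.diagonal_apply_eq, Matrix.diagonal_apply_eq]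
        simp
      · rw [Matrix.diagonal_apply_ne _ e, Matrix.diagonal_apply_ne _ e, map_zero]
    · have e : i ≠ j := fun e => hij (by rw [e])
      rw [dgR, if_neg hij, Dwt, Matrix.diagonal_apply_ne _ e]
  have hmem : (oP K P h + oQ wt K P h) - t₀.map (algebraMap ℚ ℂ) ∈ cx (m ⊓ Low ℚ wt) := by
    rw [W2_mem_u]
    refine ⟨Submodule.sub_mem _ (Submodule.add_mem _ h1 h2) ht0, ?_⟩
    refine W2_low_of_dgR (cx_tri ht (Submodule.add_mem _ h1 h2)) htri ?_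
    rw [hsum, B13_conj hh B13_tri_D, B13_dgR_D, hdg]
  have h3 := hW.uzC hmem
  rw [rhoC_sub, rhoC_add, rhoC_rat, hW.wtp t₀ ht₀ ht₀', sub_eq_zero] at h3
  have h4 : ((w : ℚ) • (1 : Matrix (Fin r) (Fin r) ℚ)).map (algebraMap ℚ ℂ) = (w : ℂ) • 1 := by
    ext i j
    rw [Matrix.map_apply, Matrix.smul_apply, Matrix.smul_apply]
    by_cases e : i = j
    · subst e
      rw [Matrix.one_apply_eq, Matrix.one_apply_eq]
      simp
    · rw [Matrix.one_apply_ne e, Matrix.one_apply_ne e]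
      simp
  rw [h4] at h3
  rw [← h3]
  abel

theorem W_conj (hW : WD wt m (m ⊓ Low ℚ wt) n w r lam rho) (ht : ∀ A ∈ m, Tri wt A)
    {t₀ : Matrix ι ι ℚ} (ht₀ : t₀ ∈ m)
    (ht₀' : dgR wt t₀ = Matrix.diagonal (fun i => (wt i : ℚ)))
    (hP : GrP wt p K Φ P) (hh : DelH wt p Φ P h)
    (h1 : oP K P h ∈ cx m) (h2 : oQ wt K P h ∈ cx m) :
    (rhoC rho (oP K P h)).map (starRingEnd ℂ) = (w : ℂ) • 1 - rhoC rho (oP K P h) := by
  rw [← rhoC_bar, ← W_sum hW ht ht₀ ht₀' hh.un h1 h2, ← sub_eq_zero, ← rhoC_sub]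
  apply hW.uzC
  rw [W2_mem_u]
  exact ⟨Submodule.sub_mem _ (bar_mem_cx h1) h2, Lam_le_low hP hh.un (conj_oP hP hh)⟩

/-- `F^c` of `𝔲` maps to the eigenspaces with eigenvalue at least `c` -/
theorem W_F (hW : WD wt m (m ⊓ Low ℚ wt) n w r lam rho) (hm : IsLie m)
    (ht : ∀ A ∈ m, Tri wt A) (hP : GrP wt p K Φ P) (hh : DelH wt p Φ P h)
    (h1 : oP K P h ∈ cx m) {c : ℤ} {x : Matrix ι ι ℂ} (hx : x ∈ cx (m ⊓ Low ℚ wt))
    (hF : x ∈ Fend p Φ c) :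
    Polynomial.aeval (rhoC rho (oP K P h)) (rts c (2 * K)) *ᵥ lamC lam x = 0 := by
  rw [← (W_poly hW hm ht h1 hx _).2, poly_Fend hP hh hF]
  have := lamC_smul (lam := lam) 0 (0 : Matrix ι ι ℂ)
  rwa [smul_zero, zero_smul] at this

/-- the part of negative types maps to the eigenvalues `w < a < 0` -/
theorem W_Lam (hW : WD wt m (m ⊓ Low ℚ wt) n w r lam rho) (hm : IsLie m)
    (ht : ∀ A ∈ m, Tri wt A) {t₀ : Matrix ι ι ℚ} (ht₀ : t₀ ∈ m)
    (ht₀' : dgR wt t₀ = Matrix.diagonal (fun i => (wt i : ℚ)))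
    (hP : GrP wt p K Φ P) (hh : DelH wt p Φ P h)
    (h1 : oP K P h ∈ cx m) (h2 : oQ wt K P h ∈ cx m) {x : Matrix ι ι ℂ}
    (hx : x ∈ cx (m ⊓ Low ℚ wt)) (hL : h⁻¹ * x * h ∈ Lam wt P) :
    Polynomial.aeval (rhoC rho (oP K P h)) (rts (-(2 * K)) (-1)) *ᵥ lamC lam x = 0 ∧
    Polynomial.aeval ((w : ℂ) • 1 - rhoC rho (oP K P h)) (rts (-(2 * K)) (-1)) *ᵥ
      lamC lam x = 0 := by
  have h0 : lamC lam (0 : Matrix ι ι ℂ) = 0 := by
    have := lamC_smul (lam := lam) 0 (0 : Matrix ι ι ℂ)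
    rwa [smul_zero, zero_smul] at this
  obtain ⟨h3, h4⟩ := poly_Lam hP hh.un hL
  rw [← W_sum hW ht ht₀ ht₀' hh.un h1 h2, ← (W_poly hW hm ht h1 hx _).2,
    ← (W_poly hW hm ht h2 hx _).2, h3, h4, h0]
  exact ⟨rfl, rfl⟩

end ZQ38
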