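import Pool.Agent.LibZQ38.C1
import Pool.Agent.LibZQ38.W2
import Pool.Agent.LibZW67.PVD

/-!
Lifting eigenvectors of the grading operator of `𝔲 / 𝔫` to elements of `𝔲` of pure type.

PLAN. poly_allQ: as poly_all in B07 (h⁻¹ · h and the block decomposition: the roots are (l - r) - (k - a) with
|l - r|, |k - a| ≤ K, see B08b_supp, B08b_comm for oQ). lift_typ: x0 ∈ cx u with lamC x0 = v (WD.surjC).
Let L_c = ZW67.lpoly (2K) c, the Lagrange polynomial of the nodes -2K..2K: (X - c) L_c is a multiple of the product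
of all (X - b) (ZW67.X_sub_mul_lpoly, npoly (2K) = rts (-(2K)) (2K)), and L_c(c) = 1 for |c| ≤ 2K (lpoly_eval). If
|a| > 2K then v = 0 (W_all, ZW67.eigen_zero) and x = 0 works; the same for b = w - a and rhoC oQ = w - rhoC oP
(W_sum). x1 = aeval (adm oP) L_a x0, x = aeval (adm oQ) L_b x1: in cx u with lamC x = v by W_poly (A = oP, oQ),
adm oP x = a x (adm oP and adm oQ commute as oP oQ = oQ oP), adm oQ x = b x; typ_iff.
-/

open Matrix Complex
open UpperHalfPlane hiding I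
open MW38 (Fl Tri blk dg)
open SP38 (Hc)

namespace ZQ38

variable {ι : Type} [Fintype ι] [DecidableEq ι] {wt p : ι → ℤ} {K : ℕ}
variable {Φ : Matrix ι ι ℂ} {P : ℤ → Matrix ι ι ℂ} {h : Matrix ι ι ℂ}
  {r : ℕ} {m n : Submodule ℚ (Matrix ι ι ℚ)} {w : ℤ}
  {lam : Matrix ι ι ℚ →ₗ[ℚ] (Fin r → ℚ)} {rho : Matrix ι ι ℚ →ₗ[ℚ] Matrix (Fin r) (Fin r) ℚ}

theorem C2_ext (hP : GrP wt p K Φ P) {X : Matrix ι ι ℂ}
    (hX : ∀ a k : ℤ, X * (P a * Ewt wt k) = 0) : X = 0 := by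
  have h1 : X = X * 1 := by rw [mul_one]
  rw [h1, ← B08b_one hP, Finset.mul_sum]
  apply Finset.sum_eq_zero
  intro b _
  rw [Finset.mul_sum]
  exact Finset.sum_eq_zero fun m _ => hX b m

theorem C2_poly_gen (hP : GrP wt p K Φ P) {X : Matrix ι ι ℂ} (N : Matrix ι ι ℂ) {φ : ℤ → ℤ → ℤ}
    (hX : B08b_Sc wt P X φ)
    (hφ : ∀ r l a k : ℤ, |r| ≤ K → |a| ≤ K → |l - r| ≤ K → |k - a| ≤ K →
      -(2 * K) ≤ φ r l - φ a k ∧ φ r l - φ a k ≤ 2 * K) :
    Polynomial.aeval (adm X) (rts (-(2 * K)) (2 * K)) N = 0 := by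
  have hsum : N = ∑ r ∈ Finset.Icc (-(K : ℤ)) K, ∑ l ∈ Finset.univ.image wt,
      ∑ a ∈ Finset.Icc (-(K : ℤ)) K, ∑ k ∈ Finset.univ.image wt,
        P r * Ewt wt l * N * (P a * Ewt wt k) := by
    have h1 : ∀ r l : ℤ, ∑ a ∈ Finset.Icc (-(K : ℤ)) K, ∑ k ∈ Finset.univ.image wt,
        P r * Ewt wt l * N * (P a * Ewt wt k) = P r * Ewt wt l * N := by
      intro r l
      have h2 : P r * Ewt wt l * N * (∑ a ∈ Finset.Icc (-(K : ℤ)) K,
          ∑ k ∈ Finset.univ.image wt, P a * Ewt wt k) = P r * Ewt wt l * N := by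
        rw [B08b_one hP, mul_one]
      rw [Finset.mul_sum] at h2
      rw [← h2]
      refine Finset.sum_congr rfl fun a _ => ?_
      rw [Finset.mul_sum, h2]
    simp_rw [h1, ← Finset.sum_mul]
    rw [B08b_one hP, one_mul]
  rw [hsum]
  simp only [map_sum]
  refine Finset.sum_eq_zero fun r _ => Finset.sum_eq_zero fun l _ => Finset.sum_eq_zero fun a _ =>
    Finset.sum_eq_zero fun k _ => ?_
  by_cases h0 : P r * Ewt wt l * N * (P a * Ewt wt k) = 0
  · rw [h0, map_zero]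
  have c2 : |r| ≤ K := by
    by_contra hc
    rw [not_le] at hc
    apply h0; rw [hP.supp r hc]; simp
  have c3 : |a| ≤ K := by
    by_contra hc
    rw [not_le] at hc
    apply h0; rw [hP.supp a hc]; simp
  have c4 : |l - r| ≤ K := by
    by_contra hc
    rw [not_le] at hc
    apply h0; rw [B08b_supp hP hc]; simp
  have c5 : |k - a| ≤ K := by
    by_contra hc
    rw [not_le] at hc
    apply h0; rw [B08b_supp hP hc]; simp
  have c6 := hφ r l a k c2 c3 c4 c5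
  have heig : adm X (P r * Ewt wt l * N * (P a * Ewt wt k)) =
      (((φ r l - φ a k : ℤ)) : ℂ) • (P r * Ewt wt l * N * (P a * Ewt wt k)) := by
    rw [adm_apply]
    have b1 : X * (P r * Ewt wt l * N * (P a * Ewt wt k)) =
        (φ r l : ℂ) • (P r * Ewt wt l * N * (P a * Ewt wt k)) := by
      rw [Matrix.mul_assoc (P r * Ewt wt l) N, ← Matrix.mul_assoc X, (hX r l).1, Matrix.smul_mul]
    have b2 : (P r * Ewt wt l * N * (P a * Ewt wt k)) * X =
        (φ a k : ℂ) • (P r * Ewt wt l * N * (P a * Ewt wt k)) := by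
      rw [Matrix.mul_assoc (P r * Ewt wt l * N), (hX a k).2, Matrix.mul_smul]
    rw [b1, b2]
    push_cast
    rw [sub_smul]
  rw [B08b_aeval_eig _ heig]
  have : Polynomial.eval (((φ r l - φ a k : ℤ)) : ℂ) (rts (-(2 * K)) (2 * K)) = 0 := by
    unfold rts
    rw [Polynomial.eval_prod]
    apply Finset.prod_eq_zero (i := φ r l - φ a k)
    · rw [Finset.mem_Icc]; exact c6
    · simp
  rw [this, zero_smul]

theorem poly_allQ (hP : GrP wt p K Φ P) (hh : Un wt h) (M : Matrix ι ι ℂ) :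
    Polynomial.aeval (adm (oQ wt K P h)) (rts (-(2 * K)) (2 * K)) M = 0 := by
  have hu : IsUnit h := hh.isUnit
  have hdet := (Matrix.isUnit_iff_isUnit_det _).1 hu
  have e2 : h * h⁻¹ = 1 := Matrix.mul_nonsing_inv _ hdet
  have back : ∀ Y : Matrix ι ι ℂ, h⁻¹ * Y * h = 0 → Y = 0 := by
    intro Y hY
    have h3 : h * (h⁻¹ * Y * h) * h⁻¹ = Y := by
      have h4 : h * (h⁻¹ * Y * h) * h⁻¹ = (h * h⁻¹) * Y * (h * h⁻¹) := by
        simp only [Matrix.mul_assoc]
      rw [h4, e2, Matrix.one_mul, Matrix.mul_one]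
    rw [← h3, hY]; simp
  apply back
  unfold oQ
  rw [B08b_aeval_conj hu]
  apply C2_poly_gen hP _ (B08b_Sc_QG hP)
  intro r l a k _ _ h5 h6
  rw [abs_le] at h5 h6
  constructor <;> omega

theorem npoly_eq (K : ℕ) : ZW67.npoly (2 * K) = rts (-(2 * K)) (2 * K) := by
  unfold ZW67.npoly rts
  push_cast
  rfl

theorem C2_lam_zero : lamC lam (0 : Matrix ι ι ℂ) = 0 := by
  have h1 := lamC_smul (lam := lam) 0 (0 : Matrix ι ι ℂ)
  rwa [zero_smul, zero_smul] at h1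

theorem C2_allQ (hW : WD wt m (m ⊓ Low ℚ wt) n w r lam rho) (hm : IsLie m)
    (ht : ∀ A ∈ m, Tri wt A) (hP : GrP wt p K Φ P) (hh : Un wt h) (h1 : oQ wt K P h ∈ cx m) :
    Polynomial.aeval (rhoC rho (oQ wt K P h)) (rts (-(2 * K)) (2 * K)) = 0 := by
  have key : ∀ v, Polynomial.aeval (rhoC rho (oQ wt K P h)) (rts (-(2 * K)) (2 * K)) *ᵥ v = 0 := by
    intro v
    obtain ⟨x, hx, rfl⟩ := hW.surjC v
    rw [← (W_poly hW hm ht h1 hx _).2, poly_allQ hP hh x, C2_lam_zero]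
  ext i j
  have h2 := congrFun (key (Pi.single j 1)) i
  rw [Matrix.mulVec_single_one] at h2
  exact h2

theorem C2_vec {s : ℕ} {A : Matrix (Fin s) (Fin s) ℂ} {v : Fin s → ℂ} {c : ℂ}
    (hv : A *ᵥ v = c • v) (f : Polynomial ℂ) : Polynomial.aeval A f *ᵥ v = f.eval c • v := by
  induction f using Polynomial.induction_on' with
  | add p q hp hq => rw [map_add, Matrix.add_mulVec, hp, hq, Polynomial.eval_add, add_smul]
  | monomial n a =>
    rw [Polynomial.aeval_monomial, Polynomial.eval_monomial, Algebra.algebraMap_eq_smul_one,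
      smul_mul_assoc, one_mul, Matrix.smul_mulVec, mul_smul]
    congr 1
    induction n with
    | zero => simp
    | succ n ih =>
      rw [pow_succ', ← Matrix.mulVec_mulVec, ih, Matrix.mulVec_smul, hv, smul_smul, pow_succ]

theorem C2_vec_zero {s L : ℕ} {A : Matrix (Fin s) (Fin s) ℂ} {v : Fin s → ℂ} {c : ℤ}
    (hA : Polynomial.aeval A (ZW67.npoly L) = 0) (hv : A *ᵥ v = (c : ℂ) • v)
    (hc : c ∉ Finset.Icc (-(L : ℤ)) L) : v = 0 := by
  have h1 := C2_vec hv (ZW67.npoly L)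
  rw [hA, Matrix.zero_mulVec] at h1
  have h2 : (ZW67.npoly L).eval (c : ℂ) ≠ 0 := by
    rw [ZW67.npoly, Polynomial.eval_prod, Finset.prod_ne_zero_iff]
    intro a ha
    rw [Polynomial.eval_sub, Polynomial.eval_X, Polynomial.eval_C, sub_ne_zero]
    intro h
    have h3 : c = a := by exact_mod_cast h
    exact hc (h3 ▸ ha)
  exact (smul_eq_zero.1 h1.symm).resolve_left h2

theorem C2_vec_LP {s L : ℕ} {A : Matrix (Fin s) (Fin s) ℂ} {v : Fin s → ℂ} {c : ℤ}
    (hv : A *ᵥ v = (c : ℂ) • v) (hc : c ∈ Finset.Icc (-(L : ℤ)) L) :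
    Polynomial.aeval A (ZW67.lpoly L c) *ᵥ v = v := by
  rw [C2_vec hv, ZW67.lpoly_eval hc hc, if_pos rfl, one_smul]

/-- projection on an eigenspace of an endomorphism -/
theorem C2_eig {L : ℕ} {f : Module.End ℂ (Matrix ι ι ℂ)} {x : Matrix ι ι ℂ}
    (hf : Polynomial.aeval f (ZW67.npoly L) x = 0) (c : ℤ) :
    f (Polynomial.aeval f (ZW67.lpoly L c) x) =
      (c : ℂ) • Polynomial.aeval f (ZW67.lpoly L c) x := by
  obtain ⟨d, hd⟩ := ZW67.X_sub_mul_lpoly L c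
  have h1 := congrArg (fun q => Polynomial.aeval f q x) hd
  simp only [map_mul, map_sub, Polynomial.aeval_X, Polynomial.aeval_C, Module.End.mul_apply,
    LinearMap.sub_apply, Module.algebraMap_end_apply, hf, smul_zero] at h1
  exact sub_eq_zero.1 h1

theorem C2_comm_aeval {f g : Module.End ℂ (Matrix ι ι ℂ)} (hfg : ∀ x, f (g x) = g (f x))
    (q : Polynomial ℂ) (x : Matrix ι ι ℂ) :
    f (Polynomial.aeval g q x) = Polynomial.aeval g q (f x) := by
  have hc : Commute f g := LinearMap.ext hfg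
  have h1 : Commute f (Polynomial.aeval g q) := by
    induction q using Polynomial.induction_on' with
    | add p q hp hq => rw [map_add]; exact hp.add_right hq
    | monomial n a =>
      rw [Polynomial.aeval_monomial]
      have e : Commute f (algebraMap ℂ (Module.End ℂ (Matrix ι ι ℂ)) a) :=
        (Algebra.commutes a f).symm
      exact e.mul_right (hc.pow_right n)
  exact LinearMap.congr_fun h1.eq x

theorem C2_PG_Dwt (hP : GrP wt p K Φ P) : PG K P * Dwt wt = Dwt wt * PG K P := by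
  rw [← sub_eq_zero]
  apply C2_ext hP
  intro a k
  rw [Matrix.sub_mul, Matrix.mul_assoc, Matrix.mul_assoc, B08b_Dwt_E hP, B08b_PG_E hP,
    Matrix.mul_smul, Matrix.mul_smul, B08b_Dwt_E hP, B08b_PG_E hP, smul_smul, smul_smul, mul_comm,
    sub_self]

theorem C2_oPQ (hP : GrP wt p K Φ P) (hu : IsUnit h) :
    oP K P h * oQ wt K P h = oQ wt K P h * oP K P h := by
  have hdet := (Matrix.isUnit_iff_isUnit_det _).1 hu
  have e1 : h⁻¹ * h = 1 := Matrix.nonsing_inv_mul _ hdet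
  have gen : ∀ X Y : Matrix ι ι ℂ, (h * X * h⁻¹) * (h * Y * h⁻¹) = h * (X * Y) * h⁻¹ := by
    intro X Y
    have h2 : (h * X * h⁻¹) * (h * Y * h⁻¹) = h * X * (h⁻¹ * h) * Y * h⁻¹ := by
      simp only [Matrix.mul_assoc]
    rw [h2, e1, Matrix.mul_one]
    simp only [Matrix.mul_assoc]
  unfold oP oQ
  rw [gen, gen, Matrix.mul_sub, Matrix.sub_mul, C2_PG_Dwt hP]

theorem C2_adm_comm {A B : Matrix ι ι ℂ} (hAB : A * B = B * A) (x : Matrix ι ι ℂ) :
    adm A (adm B x) = adm B (adm A x) := by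
  simp only [adm_apply, Matrix.mul_sub, Matrix.sub_mul]
  have e1 : A * (B * x) = B * (A * x) := by
    rw [← Matrix.mul_assoc, hAB, Matrix.mul_assoc]
  have e2 : x * B * A = x * A * B := by
    rw [Matrix.mul_assoc, ← hAB, ← Matrix.mul_assoc]
  rw [e1, e2]
  simp only [Matrix.mul_assoc]
  abel

theorem lift_typ (hW : WD wt m (m ⊓ Low ℚ wt) n w r lam rho) (hm : IsLie m)
    (ht : ∀ A ∈ m, Tri wt A) {t₀ : Matrix ι ι ℚ} (ht₀ : t₀ ∈ m)
    (ht₀' : dgR wt t₀ = Matrix.diagonal (fun i => (wt i : ℚ)))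
    (hP : GrP wt p K Φ P) (hh : DelH wt p Φ P h)
    (h1 : oP K P h ∈ cx m) (h2 : oQ wt K P h ∈ cx m) {a : ℤ} {v : Fin r → ℂ}
    (hv : rhoC rho (oP K P h) *ᵥ v = (a : ℂ) • v) :
    ∃ x ∈ cx (m ⊓ Low ℚ wt), x ∈ typ wt p Φ a (w - a) ∧ lamC lam x = v := by
  have hA : Polynomial.aeval (rhoC rho (oP K P h)) (ZW67.npoly (2 * K)) = 0 := by
    rw [npoly_eq]
    exact W_all hW hm ht hP hh.un h1
  have hB : Polynomial.aeval (rhoC rho (oQ wt K P h)) (ZW67.npoly (2 * K)) = 0 := by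
    rw [npoly_eq]
    exact C2_allQ hW hm ht hP hh.un h2
  have hv' : rhoC rho (oQ wt K P h) *ᵥ v = ((w - a : ℤ) : ℂ) • v := by
    rw [W_sum hW ht ht₀ ht₀' hh.un h1 h2, Matrix.sub_mulVec, Matrix.smul_mulVec,
      Matrix.one_mulVec, hv]
    push_cast
    rw [sub_smul]
  by_cases hv0 : v = 0
  · refine ⟨0, Submodule.zero_mem _, Submodule.zero_mem _, ?_⟩
    rw [C2_lam_zero, hv0]
  have ca : a ∈ Finset.Icc (-((2 * K : ℕ) : ℤ)) ((2 * K : ℕ) : ℤ) := by
    by_contra hc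
    exact hv0 (C2_vec_zero hA hv hc)
  have cb : w - a ∈ Finset.Icc (-((2 * K : ℕ) : ℤ)) ((2 * K : ℕ) : ℤ) := by
    by_contra hc
    exact hv0 (C2_vec_zero hB hv' hc)
  obtain ⟨x0, hx0, hlam⟩ := hW.surjC v
  set x1 := Polynomial.aeval (adm (oP K P h)) (ZW67.lpoly (2 * K) a) x0 with hx1
  obtain ⟨m1, l1⟩ := W_poly hW hm ht h1 hx0 (ZW67.lpoly (2 * K) a)
  rw [← hx1] at m1 l1
  rw [hlam, C2_vec_LP hv ca] at l1
  set x := Polynomial.aeval (adm (oQ wt K P h)) (ZW67.lpoly (2 * K) (w - a)) x1 with hx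
  obtain ⟨m2, l2⟩ := W_poly hW hm ht h2 m1 (ZW67.lpoly (2 * K) (w - a))
  rw [← hx] at m2 l2
  rw [l1, C2_vec_LP hv' cb] at l2
  have eP1 : adm (oP K P h) x1 = (a : ℂ) • x1 := by
    rw [hx1]
    apply C2_eig
    rw [npoly_eq]
    exact poly_all hP hh.un x0
  have eQ : adm (oQ wt K P h) x = ((w - a : ℤ) : ℂ) • x := by
    rw [hx]
    apply C2_eig
    rw [npoly_eq]
    exact poly_allQ hP hh.un x1
  have eP : adm (oP K P h) x = (a : ℂ) • x := by
    rw [hx, C2_comm_aeval (C2_adm_comm (C2_oPQ hP hh.un.isUnit)), eP1, map_smul]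
  refine ⟨x, m2, ?_, l2⟩
  rw [typ_iff hP hh]
  rw [adm_apply] at eP eQ
  exact ⟨eP, eQ⟩

end ZQ38
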