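import Pool.Agent.LibZQ38.B13

/-!
The quotient `W = 𝔲 / 𝔫`, in coordinates.
-/

open Matrix Complex
open MW38 (Fl Tri blk dg)

namespace ZQ38

variable {ι : Type} [Fintype ι] [DecidableEq ι] {wt p : ι → ℤ} {K : ℕ} {Φ : Matrix ι ι ℂ}
  {P : ℤ → Matrix ι ι ℂ} {Ω : Set ℂ}

variable {r : ℕ}

/-- `lam` identifies `𝔲 / 𝔫` with `ℚ^r`, `rho` is the action of `𝔪` on it, of weight `w` -/
structure WD (wt : ι → ℤ) (m u n : Submodule ℚ (Matrix ι ι ℚ)) (w : ℤ) (r : ℕ)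
    (lam : Matrix ι ι ℚ →ₗ[ℚ] (Fin r → ℚ))
    (rho : Matrix ι ι ℚ →ₗ[ℚ] Matrix (Fin r) (Fin r) ℚ) : Prop where
  surj : ∀ v, ∃ x ∈ u, lam x = v
  ker : ∀ x ∈ u, lam x = 0 ↔ x ∈ n
  act : ∀ A ∈ m, ∀ x ∈ u, lam (A * x - x * A) = rho A *ᵥ lam x
  uz : ∀ A ∈ u, rho A = 0
  wtp : ∀ A ∈ m, dgR wt A = Matrix.diagonal (fun i => (wt i : ℚ)) → rho A = (w : ℚ) • 1

/-- complexification of `lam` -/
noncomputable def lamC (lam : Matrix ι ι ℚ →ₗ[ℚ] (Fin r → ℚ)) (A : Matrix ι ι ℂ) : Fin r → ℂ :=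
  ∑ i, ∑ j, A i j • fun t => ((lam (Matrix.single i j 1) t : ℚ) : ℂ)

/-- complexification of `rho` -/
noncomputable def rhoC (rho : Matrix ι ι ℚ →ₗ[ℚ] Matrix (Fin r) (Fin r) ℚ) (A : Matrix ι ι ℂ) :
    Matrix (Fin r) (Fin r) ℂ :=
  ∑ i, ∑ j, A i j • (rho (Matrix.single i j 1)).map (algebraMap ℚ ℂ)

end ZQ38
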