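import Pool.Agent.LibZQ38.WDef
import Pool.Agent.LibZL19.Mono

/-!
The embedding of `𝔲 / 𝔫` into the graded piece of weight `w` of `End V`.
-/

open Matrix Complex
open UpperHalfPlane hiding I
open MW38 (Fl Tri blk dg)
open SP38 (Hc)

namespace ZQ38

variable {ι : Type} [Fintype ι] [DecidableEq ι] {wt p : ι → ℤ} {K : ℕ}

/-- the symbol of weight `w` -/
def symb (wt : ι → ℤ) (w : ℤ) (x : Matrix ι ι ℚ) : Matrix ι ι ℚ :=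
  fun i k => if wt i - wt k = w then x i k else 0

/-- the form on the graded pieces of `End V` -/
noncomputable def QE (wt : ι → ℤ) (Q : Matrix ι ι ℚ) (A B : Matrix ι ι ℚ) : ℚ :=
  Matrix.trace (Aᵀ * dgR wt Q * B * (dgR wt Q)⁻¹)

/-- `j` embeds `𝔲 / 𝔫` (coordinates `lam`) in the symbols of weight `w`, as the orthogonal
complement of the symbols of `𝔫` in the symbols of `𝔲` -/
structure JD (wt : ι → ℤ) (Q : Matrix ι ι ℚ) (m u n : Submodule ℚ (Matrix ι ι ℚ)) (w : ℤ) (r : ℕ)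
    (lam : Matrix ι ι ℚ →ₗ[ℚ] (Fin r → ℚ))
    (rho : Matrix ι ι ℚ →ₗ[ℚ] Matrix (Fin r) (Fin r) ℚ)
    (j : (Fin r → ℚ) →ₗ[ℚ] Matrix ι ι ℚ) : Prop where
  supp : ∀ v i k, wt i - wt k ≠ w → j v i k = 0
  inj : Function.Injective j
  act : ∀ A ∈ m, ∀ v, j (rho A *ᵥ v) = dgR wt A * j v - j v * dgR wt A
  mem : ∀ v, ∃ x ∈ u, x ∈ ZL19.WW wt w ∧ symb wt w x = j v
  perp : ∀ v, ∀ y ∈ n, y ∈ ZL19.WW wt w → QE wt Q (symb wt w y) (j v) = 0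
  sym : ∀ x ∈ u, x ∈ ZL19.WW wt w → ∃ y ∈ n, y ∈ ZL19.WW wt w ∧
    symb wt w x - j (lam x) = symb wt w y
  nd : ∀ y ∈ n, y ∈ ZL19.WW wt w →
    (∀ y₂ ∈ n, y₂ ∈ ZL19.WW wt w → QE wt Q (symb wt w y₂) (symb wt w y) = 0) → symb wt w y = 0
  sup : ∀ x ∈ u, ∃ x₁ ∈ n, ∃ x₂ ∈ u, x₂ ∈ ZL19.WW wt w ∧ x = x₁ + x₂
  neg : w < 0

/-- the form on `𝔲 / 𝔫` -/
noncomputable def QWf (wt : ι → ℤ) (Q : Matrix ι ι ℚ) {r : ℕ}
    (j : (Fin r → ℚ) →ₗ[ℚ] Matrix ι ι ℚ) : Matrix (Fin r) (Fin r) ℚ :=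
  fun a b => QE wt Q (j (Pi.single a 1)) (j (Pi.single b 1))

end ZQ38
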