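import Pool.Agent.LibZQ38.BPa
import Pool.Agent.LibSP38.HD2
import Pool.Agent.LibZQ38.B13

/-!
The polarization is nondegenerate.

PLAN. For each weight k the block blk wt k k Q (real) is invertible: reindex to Fin (BPaE wt k, BPa_phs), IsPHS.hd (or
BPa_hda) gives HD; metr k K Q P = Σ I^(2a-k) • ((cm Q)ᵀ * P a) = (cm Q)ᵀ * (Σ I^(2a-k) • P a) is positive definite (HD1), hence
invertible, so (cm Q)ᵀ is invertible, so Q is (determinants). Then dgR wt Q, the block diagonal matrix with the blocks of Q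
(over ℚ), is invertible: BPa_isUnit for its complexification (blocks cast to ℂ), then det ≠ 0 over ℂ gives det ≠ 0 over ℚ.
-/

open Matrix Complex
open UpperHalfPlane hiding I
open MW38 (Fl Tri blk dg)
open SP38 (Hc)

namespace ZQ38

variable {ι : Type} [Fintype ι] [DecidableEq ι] {wt p : ι → ℤ} {K : ℕ}

open scoped ComplexOrder in
theorem C12a_hd {m : ℕ} {w : ℤ} {K : ℕ} {Q : Matrix (Fin m) (Fin m) ℝ}
    {P : ℤ → Matrix (Fin m) (Fin m) ℂ} (h : SP38.HD w K Q P) :
    (Matrix.det (SP38.cm Q)) ≠ 0 := by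
  have h1 := h.posDef.isUnit
  have h2 : SP38.metr w K Q P = (SP38.cm Q)ᵀ *
      ∑ a ∈ Finset.Icc (-(K : ℤ)) K, (I ^ (2 * a - w)) • P a := by
    unfold SP38.metr
    rw [Finset.mul_sum]
    refine Finset.sum_congr rfl fun a _ => ?_
    rw [Matrix.mul_smul]
  rw [h2, Matrix.isUnit_iff_isUnit_det, Matrix.det_mul, Matrix.det_transpose] at h1
  exact (isUnit_of_mul_isUnit_left h1).ne_zero

theorem Q_unit {Q : Matrix ι ι ℚ} {Φ : Matrix ι ι ℂ}
    (hm : MW38.MHS wt p (Q.map (algebraMap ℚ ℝ)) Φ) {s : Equiv.Perm ι}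
    (hs : ∀ j, wt (s j) = wt j ∧ p (s j) = wt j - p j) : IsUnit (dgR wt Q) := by
  have hK : ∀ j, |p j| ≤ ((∑ i, (p i).natAbs : ℕ) : ℤ) := by
    intro j
    have h1 : (p j).natAbs ≤ ∑ i, (p i).natAbs :=
      Finset.single_le_sum (f := fun i => (p i).natAbs) (fun i _ => Nat.zero_le _)
        (Finset.mem_univ j)
    rw [Int.abs_eq_natAbs]
    exact_mod_cast h1
  have h1 : IsUnit ((dgR wt Q).map (algebraMap ℚ ℂ)) := by
    refine BPa_isUnit (wt := wt) ?_ ?_
    · intro i j hij
      rw [Matrix.map_apply, dgR, if_neg hij, map_zero]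
    · intro k
      have h2 := C12a_hd ((BPa_phs hm k).hd (BPaT_spec hs k) (fun j => hK _))
      rw [Matrix.isUnit_iff_isUnit_det, isUnit_iff_ne_zero]
      have h3 : blk wt k k ((dgR wt Q).map (algebraMap ℚ ℂ)) =
          (SP38.cm (Matrix.reindex (BPaE wt k) (BPaE wt k)
            (blk wt k k (Q.map (algebraMap ℚ ℝ))))).submatrix (BPaE wt k) (BPaE wt k) := by
        ext i j
        simp only [blk, SP38.cm, Matrix.map_apply, Matrix.submatrix_apply, Matrix.reindex_apply,
          Equiv.symm_apply_apply]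
        rw [dgR, if_pos (by rw [i.2, j.2])]
        simp
      rw [h3, Matrix.det_submatrix_equiv_self]
      exact h2
  rw [Matrix.isUnit_iff_isUnit_det, isUnit_iff_ne_zero] at h1 ⊢
  intro h2
  apply h1
  have h3 := (RingHom.map_det (algebraMap ℚ ℂ) (dgR wt Q))
  rw [h2, map_zero] at h3
  exact h3.symm

end ZQ38
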