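import Pool.Agent.LibZQ38.BDef
import Pool.Agent.LibMW38.Col
import Pool.Agent.LibMW38.HomT
import Pool.Agent.LibSP38.Cus3

/-!
Growth of the lift at a cusp.

PLAN. Φ' = exp(ζN) Ψ(q), Φ'⁻¹ = Ψ(q)⁻¹ exp(-ζN), (dg Φ')⁻¹ = dg (Φ'⁻¹) (MW38.Col_dg_inv), so
Lm wt Φ' = Φ' * dg wt (Φ'⁻¹). Entries of Ψ, Ψ⁻¹ are bounded on a smaller ball (continuous at 0; the
inverse is holomorphic, MW38.homT_inv); entries of exp(±ζN) are polynomials in ζ
(IsNilpotent.exp is a finite sum). |ζ| ≤ (M+1) * Im ζ for Im ζ ≥ 1.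
-/

open Matrix Complex
open MW38 (Fl Tri blk dg)

namespace ZQ38

variable {ι : Type} [Fintype ι] [DecidableEq ι] {wt p : ι → ℤ} {K : ℕ} {Φ : Matrix ι ι ℂ}
  {P : ℤ → Matrix ι ι ℂ} {Ω : Set ℂ}

section poly

variable {T : Type} {X : T → ℝ}

/-- entries bounded by a constant times a power of `X` -/
def B12b_Poly (X : T → ℝ) (f : T → Matrix ι ι ℂ) : Prop :=
  ∃ (c : ℝ) (m : ℕ), 0 ≤ c ∧ ∀ t i j, ‖f t i j‖ ≤ c * X t ^ m

theorem B12b_mono (hX : ∀ t, 1 ≤ X t) {f : T → Matrix ι ι ℂ} {c : ℝ} {m : ℕ} (hc : 0 ≤ c)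
    (h : ∀ t i j, ‖f t i j‖ ≤ c * X t ^ m) {c' : ℝ} {m' : ℕ} (hcc : c ≤ c') (hm : m ≤ m') :
    ∀ t i j, ‖f t i j‖ ≤ c' * X t ^ m' := by
  intro t i j
  refine (h t i j).trans ?_
  have h1 : X t ^ m ≤ X t ^ m' := pow_le_pow_right₀ (hX t) hm
  have h0 : (0 : ℝ) ≤ X t ^ m := pow_nonneg (zero_le_one.trans (hX t)) m
  exact mul_le_mul hcc h1 h0 (hc.trans hcc)

theorem B12b_add (hX : ∀ t, 1 ≤ X t) {f g : T → Matrix ι ι ℂ} (hf : B12b_Poly X f)
    (hg : B12b_Poly X g) : B12b_Poly X (fun t => f t + g t) := by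
  obtain ⟨c, m, hc, h⟩ := hf
  obtain ⟨c', m', hc', h'⟩ := hg
  refine ⟨c + c', max m m', add_nonneg hc hc', fun t i j => ?_⟩
  show ‖(f t + g t) i j‖ ≤ _
  rw [Matrix.add_apply, add_mul]
  exact (norm_add_le _ _).trans (add_le_add
    (B12b_mono hX hc h le_rfl (le_max_left m m') t i j)
    (B12b_mono hX hc' h' le_rfl (le_max_right m m') t i j))

theorem B12b_neg {f : T → Matrix ι ι ℂ} (hf : B12b_Poly X f) :
    B12b_Poly X (fun t => -f t) := by
  obtain ⟨c, m, hc, h⟩ := hf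
  exact ⟨c, m, hc, fun t i j => by
    show ‖(-f t) i j‖ ≤ _
    rw [Matrix.neg_apply, norm_neg]
    exact h t i j⟩

theorem B12b_const (A : Matrix ι ι ℂ) : B12b_Poly X (fun _ => A) := by
  refine ⟨∑ i, ∑ j, ‖A i j‖, 0, Finset.sum_nonneg fun i _ => Finset.sum_nonneg fun j _ =>
    norm_nonneg _, fun t i j => ?_⟩
  rw [pow_zero, mul_one]
  exact (Finset.single_le_sum (f := fun j => ‖A i j‖) (fun j _ => norm_nonneg _)
    (Finset.mem_univ j)).trans
    (Finset.single_le_sum (f := fun i => ∑ j, ‖A i j‖)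
      (fun i _ => Finset.sum_nonneg fun j _ => norm_nonneg _) (Finset.mem_univ i))

theorem B12b_mul (hX : ∀ t, 1 ≤ X t) {f g : T → Matrix ι ι ℂ} (hf : B12b_Poly X f)
    (hg : B12b_Poly X g) : B12b_Poly X (fun t => f t * g t) := by
  obtain ⟨c, m, hc, h⟩ := hf
  obtain ⟨c', m', hc', h'⟩ := hg
  refine ⟨Fintype.card ι * (c * c'), m + m', by positivity, fun t i j => ?_⟩
  show ‖(f t * g t) i j‖ ≤ _
  rw [Matrix.mul_apply]
  calc ‖∑ k, f t i k * g t k j‖ ≤ ∑ k, ‖f t i k * g t k j‖ := norm_sum_le _ _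
    _ ≤ ∑ _k : ι, c * c' * X t ^ (m + m') := by
        refine Finset.sum_le_sum fun k _ => ?_
        have h0 : (0 : ℝ) ≤ X t ^ m := pow_nonneg (zero_le_one.trans (hX t)) m
        rw [norm_mul]
        calc ‖f t i k‖ * ‖g t k j‖ ≤ (c * X t ^ m) * (c' * X t ^ m') :=
              mul_le_mul (h t i k) (h' t k j) (norm_nonneg _) (mul_nonneg hc h0)
          _ = c * c' * X t ^ (m + m') := by rw [pow_add]; ring
    _ = Fintype.card ι * (c * c') * X t ^ (m + m') := by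
        rw [Finset.sum_const, Finset.card_univ, nsmul_eq_mul]; ring

theorem B12b_sum (hX : ∀ t, 1 ≤ X t) {α : Type} (s : Finset α) {f : α → T → Matrix ι ι ℂ}
    (hf : ∀ a ∈ s, B12b_Poly X (f a)) : B12b_Poly X (fun t => ∑ a ∈ s, f a t) := by
  classical
  induction s using Finset.induction_on with
  | empty => simpa using B12b_const (X := X) (0 : Matrix ι ι ℂ)
  | insert a s ha ih =>
      simp only [Finset.sum_insert ha]
      exact B12b_add hX (hf a (Finset.mem_insert_self a s))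
        (ih fun b hb => hf b (Finset.mem_insert_of_mem hb))

theorem B12b_pow (hX : ∀ t, 1 ≤ X t) {f : T → Matrix ι ι ℂ} (hf : B12b_Poly X f) (n : ℕ) :
    B12b_Poly X (fun t => f t ^ n) := by
  induction n with
  | zero => simpa using B12b_const (X := X) (1 : Matrix ι ι ℂ)
  | succ n ih =>
      simp only [pow_succ]
      exact B12b_mul hX ih hf

theorem B12b_qsmul (q : ℚ) {f : T → Matrix ι ι ℂ} (hf : B12b_Poly X f) :
    B12b_Poly X (fun t => q • f t) := by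
  obtain ⟨c, m, hc, h⟩ := hf
  refine ⟨|(q : ℝ)| * c, m, by positivity, fun t i j => ?_⟩
  have h1 : (q • f t) i j = (q : ℂ) * f t i j := by
    rw [Matrix.smul_apply, Rat.smul_def]
  show ‖(q • f t) i j‖ ≤ _
  rw [h1, norm_mul, mul_assoc]
  have h2 : ‖(q : ℂ)‖ = |(q : ℝ)| := by
    rw [← Complex.ofReal_ratCast, Complex.norm_real, Real.norm_eq_abs]
  rw [h2]
  exact mul_le_mul_of_nonneg_left (h t i j) (abs_nonneg _)

theorem B12b_exp (hX : ∀ t, 1 ≤ X t) {f : T → Matrix ι ι ℂ} (hf : B12b_Poly X f) {k : ℕ}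
    (hk : ∀ t, f t ^ k = 0) : B12b_Poly X (fun t => IsNilpotent.exp (f t)) := by
  have h1 : (fun t => IsNilpotent.exp (f t)) =
      fun t => ∑ i ∈ Finset.range k, (i.factorial : ℚ)⁻¹ • (f t ^ i) := by
    funext t
    exact IsNilpotent.exp_eq_sum (hk t)
  rw [h1]
  exact B12b_sum hX _ fun i _ => B12b_qsmul _ (B12b_pow hX hf i)

theorem B12b_dg {f : T → Matrix ι ι ℂ} (hX : ∀ t, 1 ≤ X t) (hf : B12b_Poly X f) :
    B12b_Poly X (fun t => dg wt (f t)) := by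
  obtain ⟨c, m, hc, h⟩ := hf
  refine ⟨c, m, hc, fun t i j => ?_⟩
  by_cases hij : wt i = wt j
  · show ‖dg wt (f t) i j‖ ≤ _
    rw [show dg wt (f t) i j = f t i j from if_pos hij]
    exact h t i j
  · show ‖dg wt (f t) i j‖ ≤ _
    rw [show dg wt (f t) i j = 0 from if_neg hij, norm_zero]
    exact mul_nonneg hc (pow_nonneg (zero_le_one.trans (hX t)) m)

end poly

/-- entries which are continuous on a disc are bounded on a smaller disc -/
theorem B12b_bdd {A : ℂ → Matrix ι ι ℂ} {ε : ℝ}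
    (hA : ∀ i j, DifferentiableOn ℂ (fun q => A q i j) (Metric.ball 0 ε)) :
    ∃ c : ℝ, 0 ≤ c ∧ ∀ q : ℂ, ‖q‖ ≤ ε / 2 → ∀ i j, 0 < ε → ‖A q i j‖ ≤ c := by
  have h1 : ∀ i j, ∃ c : ℝ, 0 ≤ c ∧ ∀ q : ℂ, ‖q‖ ≤ ε / 2 → 0 < ε → ‖A q i j‖ ≤ c := by
    intro i j
    rcases le_or_gt ε 0 with h | h
    · exact ⟨0, le_rfl, fun q _ h' => absurd h' (not_lt.mpr h)⟩
    · have hc : ContinuousOn (fun q => A q i j) (Metric.closedBall 0 (ε / 2)) :=
        (hA i j).continuousOn.mono (Metric.closedBall_subset_ball (by linarith))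
      obtain ⟨c, hc'⟩ := (isCompact_closedBall (0 : ℂ) (ε / 2)).exists_bound_of_continuousOn hc
      refine ⟨max c 0, le_max_right _ _, fun q hq _ => (hc' q ?_).trans (le_max_left _ _)⟩
      simpa [Metric.mem_closedBall, dist_zero_right] using hq
  choose c hc0 hc using h1
  refine ⟨∑ i, ∑ j, c i j, Finset.sum_nonneg fun i _ => Finset.sum_nonneg fun j _ => hc0 i j,
    fun q hq i j hε => (hc i j q hq hε).trans ?_⟩
  exact (Finset.single_le_sum (f := fun j => c i j) (fun j _ => hc0 i j)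
    (Finset.mem_univ j)).trans
    (Finset.single_le_sum (f := fun i => ∑ j, c i j)
      (fun i _ => Finset.sum_nonneg fun j _ => hc0 i j) (Finset.mem_univ i))

theorem Lm_growth {N : Matrix ι ι ℝ} {Ψ : ℂ → Matrix ι ι ℂ} {ε : ℝ} (hε : 0 < ε)
    (hN : IsNilpotent N) (hNt : Tri wt N)
    (hΨ : ∀ i j, DifferentiableOn ℂ (fun q => Ψ q i j) (Metric.ball 0 ε))
    (hΨu : ∀ q ∈ Metric.ball (0 : ℂ) ε, IsUnit (Ψ q) ∧ Tri wt (Ψ q)) (M : ℝ) :
    ∃ (C : ℝ) (n : ℕ) (Y : ℝ), ∀ ζ : ℂ, |ζ.re| ≤ M → Y ≤ ζ.im →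
      ∀ i j, ‖Lm wt (IsNilpotent.exp (ζ • SP38.cm N) *
        Ψ (Complex.exp (2 * Real.pi * I * ζ))) i j‖ ≤ C * ζ.im ^ n := by
  obtain ⟨k, hk⟩ := hN
  have hk' : (SP38.cm N) ^ k = 0 := by
    have h1 : SP38.cm N = Complex.ofRealHom.mapMatrix N := rfl
    rw [h1, ← map_pow, hk, map_zero]
  have hpw : ∀ ζ : ℂ, (ζ • SP38.cm N) ^ k = 0 := fun ζ => by rw [smul_pow, hk', smul_zero]
  have hpw' : ∀ ζ : ℂ, (-(ζ • SP38.cm N)) ^ k = 0 := fun ζ => by
    rw [neg_pow, hpw, mul_zero]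
  -- a height beyond which `q` is small
  obtain ⟨Y, hY1, hY⟩ : ∃ Y : ℝ, 1 ≤ Y ∧ ∀ ζ : ℂ, Y ≤ ζ.im →
      ‖Complex.exp (2 * Real.pi * I * ζ)‖ ≤ ε / 2 := by
    refine ⟨max 1 (-Real.log (ε / 2)), le_max_left _ _, fun ζ hζ => ?_⟩
    have h2 : 1 ≤ ζ.im := (le_max_left _ _).trans hζ
    have h3 : -Real.log (ε / 2) ≤ ζ.im := (le_max_right _ _).trans hζ
    have h1 := SP38.norm_qq ζ
    unfold SP38.qq at h1
    rw [h1]
    calc Real.exp (-(2 * Real.pi * ζ.im)) ≤ Real.exp (Real.log (ε / 2)) := by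
          rw [Real.exp_le_exp]
          have := Real.pi_gt_three
          nlinarith
      _ = ε / 2 := Real.exp_log (by linarith)
  let T : Type := {ζ : ℂ // |ζ.re| ≤ M ∧ Y ≤ ζ.im}
  let X : T → ℝ := fun t => t.1.im
  have hX : ∀ t, 1 ≤ X t := fun t => hY1.trans t.2.2
  have hA : B12b_Poly X (fun t : T => t.1 • SP38.cm N) := by
    obtain ⟨c, m, hc, h⟩ := B12b_const (X := X) (SP38.cm N)
    refine ⟨(|M| + 1) * c, m + 1, by positivity, fun t i j => ?_⟩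
    have h1 : ‖t.1‖ ≤ (|M| + 1) * X t := by
      have h2 : ‖t.1‖ ≤ |t.1.re| + |t.1.im| := Complex.norm_le_abs_re_add_abs_im _
      have h3 : |t.1.im| = X t := abs_of_nonneg (zero_le_one.trans (hX t))
      have h4 : |t.1.re| ≤ |M| := t.2.1.trans (le_abs_self M)
      have h5 := hX t
      have h6 : 0 ≤ |M| := abs_nonneg M
      nlinarith
    show ‖(t.1 • SP38.cm N) i j‖ ≤ _
    rw [Matrix.smul_apply, smul_eq_mul, norm_mul]
    calc ‖t.1‖ * ‖SP38.cm N i j‖ ≤ ((|M| + 1) * X t) * (c * X t ^ m) :=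
          mul_le_mul h1 (h t i j) (norm_nonneg _) (by
            have := hX t
            positivity)
      _ = (|M| + 1) * c * X t ^ (m + 1) := by rw [pow_succ]; ring
  have hE : B12b_Poly X (fun t : T => IsNilpotent.exp (t.1 • SP38.cm N)) :=
    B12b_exp hX hA fun t => hpw t.1
  have hE' : B12b_Poly X (fun t : T => IsNilpotent.exp (-(t.1 • SP38.cm N))) :=
    B12b_exp hX (B12b_neg hA) fun t => hpw' t.1
  have hq : ∀ t : T, Complex.exp (2 * Real.pi * I * t.1) ∈ Metric.ball (0 : ℂ) ε := by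
    intro t
    rw [Metric.mem_ball, dist_zero_right]
    exact (hY t.1 t.2.2).trans_lt (by linarith)
  have hS : B12b_Poly X (fun t : T => Ψ (Complex.exp (2 * Real.pi * I * t.1))) := by
    obtain ⟨c, hc, h⟩ := B12b_bdd hΨ
    exact ⟨c, 0, hc, fun t i j => by
      rw [pow_zero, mul_one]; exact h _ (hY t.1 t.2.2) i j hε⟩
  have hS' : B12b_Poly X (fun t : T => (Ψ (Complex.exp (2 * Real.pi * I * t.1)))⁻¹) := by
    obtain ⟨c, hc, h⟩ := B12b_bdd (A := fun q => (Ψ q)⁻¹)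
      (fun i j => MW38.homT_inv hΨ (fun q hq => (hΨu q hq).1) i j)
    exact ⟨c, 0, hc, fun t i j => by
      rw [pow_zero, mul_one]; exact h _ (hY t.1 t.2.2) i j hε⟩
  have hL : ∀ t : T, Lm wt (IsNilpotent.exp (t.1 • SP38.cm N) *
      Ψ (Complex.exp (2 * Real.pi * I * t.1))) =
      (IsNilpotent.exp (t.1 • SP38.cm N) * Ψ (Complex.exp (2 * Real.pi * I * t.1))) *
      dg wt ((Ψ (Complex.exp (2 * Real.pi * I * t.1)))⁻¹ *
        IsNilpotent.exp (-(t.1 • SP38.cm N))) := by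
    intro t
    have hnil : IsNilpotent (t.1 • SP38.cm N) := ⟨k, hpw t.1⟩
    have hu1 : IsUnit (IsNilpotent.exp (t.1 • SP38.cm N)) := IsNilpotent.isUnit_exp hnil
    have ht0 : Tri wt (t.1 • SP38.cm N) := by
      intro i j hij
      rw [Matrix.smul_apply, hNt.cm i j hij, smul_zero]
    have ht1 : Tri wt (IsNilpotent.exp (t.1 • SP38.cm N)) := by
      rw [IsNilpotent.exp_eq_sum (hpw t.1)]
      intro i j hij
      rw [Matrix.sum_apply]
      apply Finset.sum_eq_zero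
      intro l _
      rw [Matrix.smul_apply, ht0.pow l i j hij, smul_zero]
    have hu := hu1.mul (hΨu _ (hq t)).1
    have ht := ht1.mul (hΨu _ (hq t)).2
    have hinv : (IsNilpotent.exp (t.1 • SP38.cm N))⁻¹ =
        IsNilpotent.exp (-(t.1 • SP38.cm N)) :=
      Matrix.inv_eq_right_inv (IsNilpotent.exp_mul_exp_neg_self hnil)
    rw [Lm, MW38.Col_dg_inv hu ht, Matrix.mul_inv_rev, hinv]
  have hfin : B12b_Poly X (fun t : T => Lm wt (IsNilpotent.exp (t.1 • SP38.cm N) *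
      Ψ (Complex.exp (2 * Real.pi * I * t.1)))) := by
    simp only [hL]
    exact B12b_mul hX (B12b_mul hX hE hS) (B12b_dg hX (B12b_mul hX hS' hE'))
  obtain ⟨c, m, _, h⟩ := hfin
  exact ⟨c, m, Y, fun ζ h1 h2 i j => h ⟨ζ, h1, h2⟩ i j⟩

end ZQ38
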