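import Pool.Agent.LibZQ38.BPa
import Pool.Agent.LibZQ38.B05b

/-!
Analyticity of the projectors; Deligne's splitting of a variation.

PLAN. PPg is built from dg (Φ z) (holomorphic entries) and its conjugate, products and one inverse
(AAg_isUnit): An.of_holo, An.bar (entrywise), An.mul, An.inv. Then exists_h.
-/

open Matrix Complex
open MW38 (Fl Tri blk dg)

namespace ZQ38

variable {ι : Type} [Fintype ι] [DecidableEq ι] {wt p : ι → ℤ} {K : ℕ} {Φ : Matrix ι ι ℂ}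
  {P : ℤ → Matrix ι ι ℂ} {Ω : Set ℂ}

theorem BPb_open : IsOpen {z : ℂ | 0 < z.im} := isOpen_lt continuous_const Complex.continuous_im

theorem BPb_AAg {Φ : ℂ → Matrix ι ι ℂ} (hΦ : An Ω Φ) (s : Equiv.Perm ι) (k : ℤ) :
    An Ω (fun z => AAg wt p s k (Φ z)) := by
  intro i j
  by_cases h1 : k ≤ p j
  · by_cases h2 : wt i = wt j
    · have h3 : (fun z => AAg wt p s k (Φ z) i j) = fun z => Φ z i j := by
        funext z
        simp only [AAg, Matrix.of_apply, dg, if_pos h1, if_pos h2]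
      rw [h3]
      exact hΦ i j
    · have h3 : (fun z => AAg wt p s k (Φ z) i j) = fun _ => (0 : ℂ) := by
        funext z
        simp only [AAg, Matrix.of_apply, dg, if_pos h1, if_neg h2]
      rw [h3]
      exact analyticOnNhd_const
  · by_cases h2 : wt i = wt (s j)
    · have h3 : (fun z => AAg wt p s k (Φ z) i j) = fun z => ZQ38.bar (Φ z) i (s j) := by
        funext z
        simp only [AAg, Matrix.of_apply, dg, if_neg h1, if_pos h2]
        rfl
      rw [h3]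
      exact hΦ.bar i (s j)
    · have h3 : (fun z => AAg wt p s k (Φ z) i j) = fun _ => (0 : ℂ) := by
        funext z
        simp only [AAg, Matrix.of_apply, dg, if_neg h1, if_neg h2, map_zero]
      rw [h3]
      exact analyticOnNhd_const

theorem BPb_PIg {Q : Matrix ι ι ℝ} {Φ : ℂ → Matrix ι ι ℂ} (hv : MW38.VMHS wt p Q Φ)
    {s : Equiv.Perm ι} (hs : ∀ j, wt (s j) = wt j ∧ p (s j) = wt j - p j) (a : ℤ) :
    An {z : ℂ | 0 < z.im} (fun z => PIg wt p s a (Φ z)) := by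
  have hΦ : An {z : ℂ | 0 < z.im} Φ := An.of_holo BPb_open hv.hol
  have hA := BPb_AAg (wt := wt) (p := p) hΦ s a
  exact (hA.mul (An.const _)).mul (hA.inv fun z hz => AAg_isUnit (hv.mhs z hz) hs a)

theorem PPg_an {Q : Matrix ι ι ℝ} {Φ : ℂ → Matrix ι ι ℂ} (hv : MW38.VMHS wt p Q Φ)
    {s : Equiv.Perm ι} (hs : ∀ j, wt (s j) = wt j ∧ p (s j) = wt j - p j) (a : ℤ) :
    An {z : ℂ | 0 < z.im} (fun z => PPg wt p s (Φ z) a) :=
  (BPb_PIg hv hs a).sub (BPb_PIg hv hs (a + 1))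

theorem vmhs_h {Q : Matrix ι ι ℝ} {Φ : ℂ → Matrix ι ι ℂ} (hv : MW38.VMHS wt p Q Φ)
    {s : Equiv.Perm ι} (hs : ∀ j, wt (s j) = wt j ∧ p (s j) = wt j - p j) (hK : ∀ j, |p j| ≤ K) :
    ∃ h : ℂ → Matrix ι ι ℂ, An {z : ℂ | 0 < z.im} h ∧
      ∀ z : ℂ, 0 < z.im → DelH wt p (Φ z) (PPg wt p s (Φ z)) (h z) :=
  exists_h (P := fun z => PPg wt p s (Φ z)) (fun z hz => exists_GrP (hv.mhs z hz) hs hK)
    (An.of_holo BPb_open hv.hol) (PPg_an hv hs)

end ZQ38
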