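import Pool.Agent.LibZQ38.SDef
import Pool.Agent.LibZQ38.WDef
import Pool.Agent.LibZQ38.B09
import Pool.Agent.LibZQ38.B05b
import Pool.Agent.LibZW67.Stmt

/-!
The operators of a variation on a quotient `𝔲 / 𝔫`.
-/

open Matrix Complex
open UpperHalfPlane hiding I
open MW38 (Fl Tri blk dg)
open SP38 (Hc)

namespace ZQ38

variable {ι : Type} [Fintype ι] [DecidableEq ι] {wt p : ι → ℤ} {K : ℕ}

variable {Φ : ℂ → Matrix ι ι ℂ} {P : ℂ → ℤ → Matrix ι ι ℂ} {h : ℂ → Matrix ι ι ℂ} {r : ℕ}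

/-- the Deligne splittings of a variation over the upper half plane -/
structure OpD (wt p : ι → ℤ) (K : ℕ) (Φ : ℂ → Matrix ι ι ℂ) (P : ℂ → ℤ → Matrix ι ι ℂ)
    (h : ℂ → Matrix ι ι ℂ) : Prop where
  hol : HolTr p (Hc 0) Φ
  gr : ∀ z ∈ Hc 0, GrP wt p K (Φ z) (P z)
  del : ∀ z ∈ Hc 0, DelH wt p (Φ z) (P z) (h z)
  anP : ∀ a, An (Hc 0) (fun z => P z a)
  anh : An (Hc 0) h

/-- a quotient `𝔲 / 𝔫` of the unipotent part `𝔲` of a Lie algebra `𝔪` which contains all the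
operators, and a rational lift `t₀` of the weight grading -/
structure QuD (wt : ι → ℤ) (K : ℕ) (P : ℂ → ℤ → Matrix ι ι ℂ) (h : ℂ → Matrix ι ι ℂ)
    (m n : Submodule ℚ (Matrix ι ι ℚ)) (t₀ : Matrix ι ι ℚ) (w : ℤ) (r : ℕ)
    (lam : Matrix ι ι ℚ →ₗ[ℚ] (Fin r → ℚ))
    (rho : Matrix ι ι ℚ →ₗ[ℚ] Matrix (Fin r) (Fin r) ℚ) : Prop where
  lie : IsLie m
  tri : ∀ A ∈ m, Tri wt A
  t0 : t₀ ∈ m
  t0' : dgR wt t₀ = Matrix.diagonal (fun i => (wt i : ℚ))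
  opP : ∀ z ∈ Hc 0, oP K (P z) (h z) ∈ cx m
  opQ : ∀ z ∈ Hc 0, oQ wt K (P z) (h z) ∈ cx m
  wd : WD wt m (m ⊓ Low ℚ wt) n w r lam rho

/-- the grading operator of `𝔲 / 𝔫` -/
noncomputable def DD (K : ℕ) (P : ℂ → ℤ → Matrix ι ι ℂ) (h : ℂ → Matrix ι ι ℂ)
    (rho : Matrix ι ι ℚ →ₗ[ℚ] Matrix (Fin r) (Fin r) ℚ) (z : ℂ) : Matrix (Fin r) (Fin r) ℂ :=
  rhoC rho (oP K (P z) (h z))

/-- the extension class: `Y - t₀` modulo `𝔫` -/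
noncomputable def ee (wt : ι → ℤ) (h : ℂ → Matrix ι ι ℂ) (t₀ : Matrix ι ι ℚ)
    (lam : Matrix ι ι ℚ →ₗ[ℚ] (Fin r → ℚ)) (z : ℂ) : Fin r → ℂ :=
  lamC lam (h z * Dwt wt * (h z)⁻¹ - t₀.map (algebraMap ℚ ℂ))

end ZQ38
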