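import Pool.Agent.LibZQ38.C9b
import Pool.Agent.LibZQ38.B12a
import Pool.Agent.LibZQ38.B12b
import Pool.Agent.LibZQ38.B12c
import Pool.Agent.LibZQ38.BPb
import Pool.Agent.LibZQ38.CDef

/-!
Polynomial growth of the grading `Y = h Dwt h⁻¹` on strips at a cusp.

PLAN. Adm gives h₀ > 0, N, Ψ, ε. For τ = ζ with Im ζ large, |exp(2πi ζ/h₀)| = exp(-2π Im ζ/h₀) < ε and Fl p (Φ (mob σ ζ)) =
Fl p (G ζ), G ζ = exp ((ζ/h₀) N) Ψ(exp(2πi ζ/h₀)) (US38.mob_coe). G ζ is invertible and block triangular (as in the proof of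
Lm_growth). Lm_growth with ζ/h₀ and M/h₀ bounds Lm wt (G ζ); PPg_growth bounds P = PPg wt p s (Φ (mob σ ζ)). GrP for G ζ by
exists_GrP and grP_congr, HH_delH (J from B05b_J) gives DelH wt p (G ζ) P (HH wt K (G ζ) P J), delH_congr and delH_unique:
h (mob σ ζ) = HH wt K (G ζ) P J. HH_bound with X = C' (Im ζ)^n' ≥ 1 gives the bounds for h, h⁻¹, and the product of three
matrices is bounded. ee_growth: lamC is a finite linear combination of the entries.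
-/

open Matrix Complex
open UpperHalfPlane hiding I
open MW38 (Fl Tri blk dg)
open SP38 (Hc)

namespace ZQ38

variable {ι : Type} [Fintype ι] [DecidableEq ι] {wt p : ι → ℤ} {K : ℕ}

theorem C10_tri_exp {N : Matrix ι ι ℝ} (hN : IsNilpotent N) (hNt : Tri wt N) (ξ : ℂ) :
    IsUnit (IsNilpotent.exp (ξ • SP38.cm N)) ∧ Tri wt (IsNilpotent.exp (ξ • SP38.cm N)) := by
  obtain ⟨k, hk⟩ := hN
  have hk' : (SP38.cm N) ^ k = 0 := by
    have h1 : SP38.cm N = Complex.ofRealHom.mapMatrix N := rfl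
    rw [h1, ← map_pow, hk, map_zero]
  have hpw : (ξ • SP38.cm N) ^ k = 0 := by rw [smul_pow, hk', smul_zero]
  have ht0 : Tri wt (ξ • SP38.cm N) := by
    intro i j hij
    rw [Matrix.smul_apply, hNt.cm i j hij, smul_zero]
  refine ⟨IsNilpotent.isUnit_exp ⟨k, hpw⟩, ?_⟩
  rw [IsNilpotent.exp_eq_sum hpw]
  intro i j hij
  rw [Matrix.sum_apply]
  apply Finset.sum_eq_zero
  intro l _
  rw [Matrix.smul_apply, ht0.pow l i j hij, smul_zero]

theorem Y_growth {Q : Matrix ι ι ℝ} {Φ : ℂ → Matrix ι ι ℂ} (hv : MW38.VMHS wt p Q Φ)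
    {s : Equiv.Perm ι} (hs : ∀ j, wt (s j) = wt j ∧ p (s j) = wt j - p j) (hK : ∀ j, |p j| ≤ K)
    {Δ : Subgroup (Matrix.SpecialLinearGroup (Fin 2) ℝ)}
    {σ : Matrix.SpecialLinearGroup (Fin 2) ℝ} (ha : MW38.Adm wt p Q Φ Δ σ)
    {h : ℂ → Matrix ι ι ℂ} (hh : ∀ z ∈ Hc 0, DelH wt p (Φ z) (PPg wt p s (Φ z)) (h z)) (M : ℝ) :
    ∃ (C : ℝ) (n : ℕ) (Y : ℝ), ∀ ζ : ℂ, |ζ.re| ≤ M → Y ≤ ζ.im → ∀ i j,
      ‖(h (US38.mob σ ζ) * Dwt wt * (h (US38.mob σ ζ))⁻¹) i j‖ ≤ C * ζ.im ^ n := by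
  obtain ⟨h₀, N, Ψ, ε, hh0, -, hε, hN, hNt, -, hΨ, hΨu, hF⟩ := ha
  obtain ⟨C1, n1, Y1, hL⟩ := Lm_growth (wt := wt) hε hN hNt hΨ hΨu (M / h₀)
  obtain ⟨C2, n2, Y2, hPP⟩ := PPg_growth hv hs hK σ M
  obtain ⟨J, hJ⟩ := B05b_J wt
  obtain ⟨c, m, hHH⟩ := HH_bound (p := p) wt K J
  -- the constant
  set C' : ℝ := 1 + |C1| / h₀ ^ n1 + |C2| with hC'
  have hC'1 : 1 ≤ C' := by
    have : 0 ≤ |C1| / h₀ ^ n1 := by positivity
    have h2 : 0 ≤ |C2| := abs_nonneg _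
    linarith
  refine ⟨|c| * |c| * (∑ i, |(wt i : ℝ)|) * C' ^ (2 * m), (n1 + n2) * (2 * m),
    max (max 1 Y2) (max (h₀ * Y1) (h₀ * (|Real.log ε| + 1))), ?_⟩
  intro ζ hζ1 hζ2 i j
  have e1 : 1 ≤ ζ.im := ((le_max_left _ _).trans (le_max_left _ _)).trans hζ2
  have e2 : Y2 ≤ ζ.im := ((le_max_right _ _).trans (le_max_left _ _)).trans hζ2
  have e3 : h₀ * Y1 ≤ ζ.im := ((le_max_left _ _).trans (le_max_right _ _)).trans hζ2
  have e4 : h₀ * (|Real.log ε| + 1) ≤ ζ.im :=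
    ((le_max_right _ _).trans (le_max_right _ _)).trans hζ2
  have him : 0 < ζ.im := by linarith
  set τ : ℍ := ⟨ζ, him⟩ with hτ
  have hτc : (τ : ℂ) = ζ := rfl
  have hmobc : US38.mob σ ζ = ((σ • τ : ℍ) : ℂ) := US38.mob_coe σ τ
  have hz : US38.mob σ ζ ∈ Hc 0 := by
    rw [hmobc]
    exact (σ • τ).im_pos
  set ξ : ℂ := ζ / h₀ with hξ
  have hξim : ξ.im = ζ.im / h₀ := Complex.div_ofReal_im ζ h₀
  have hξre : ξ.re = ζ.re / h₀ := Complex.div_ofReal_re ζ h₀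
  have hq : ‖Complex.exp (2 * Real.pi * I * ξ)‖ < ε := by
    have h1 := SP38.norm_qq ξ
    unfold SP38.qq at h1
    rw [h1]
    have h2 : |Real.log ε| + 1 ≤ ξ.im := by
      rw [hξim, le_div_iff₀ hh0]
      linarith
    calc Real.exp (-(2 * Real.pi * ξ.im)) < Real.exp (Real.log ε) := by
          rw [Real.exp_lt_exp]
          have h3 := Real.pi_gt_three
          have h4 := neg_abs_le (Real.log ε)
          have h5 := abs_nonneg (Real.log ε)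
          nlinarith
      _ = ε := Real.exp_log hε
  have hqb : Complex.exp (2 * Real.pi * I * ξ) ∈ Metric.ball (0 : ℂ) ε := by
    rw [Metric.mem_ball, dist_zero_right]
    exact hq
  set G : Matrix ι ι ℂ := IsNilpotent.exp (ξ • SP38.cm N) *
    Ψ (Complex.exp (2 * Real.pi * I * ξ)) with hG
  have hGF : ∀ a, Fl p (Φ (US38.mob σ ζ)) a = Fl p G a := by
    intro a
    rw [hmobc]
    exact hF τ hq a
  obtain ⟨hE1, hE2⟩ := C10_tri_exp (wt := wt) hN hNt ξ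
  have hGu : IsUnit G := hE1.mul (hΨu _ hqb).1
  have hGt : Tri wt G := hE2.mul (hΨu _ hqb).2
  have hgrΦ := exists_GrP (hv.mhs _ hz) hs hK
  have hgr := grP_congr hGu hGt hGF hgrΦ
  have hdel := delH_congr (fun a => (hGF a).symm) (HH_delH hgr hJ)
  have heq := delH_unique hgrΦ (hh _ hz) hdel
  -- the bounds
  set X : ℝ := C' * ζ.im ^ (n1 + n2) with hX
  have hpow : 1 ≤ ζ.im ^ (n1 + n2) := one_le_pow₀ e1
  have hX1 : 1 ≤ X := by
    rw [hX]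
    nlinarith
  have b1 : ∀ i j, ‖Lm wt G i j‖ ≤ X := by
    intro i j
    have h1 := hL ξ (by
      rw [hξre, abs_div, abs_of_pos hh0]
      exact div_le_div_of_nonneg_right hζ1 hh0.le) (by
      rw [hξim, le_div_iff₀ hh0]
      linarith) i j
    refine h1.trans ?_
    rw [hξim, div_pow]
    calc C1 * (ζ.im ^ n1 / h₀ ^ n1) ≤ |C1| * (ζ.im ^ n1 / h₀ ^ n1) := by
          gcongr
          exact le_abs_self C1
      _ = (|C1| / h₀ ^ n1) * ζ.im ^ n1 := by ring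
      _ ≤ C' * ζ.im ^ (n1 + n2) := by
          have h2 : |C1| / h₀ ^ n1 ≤ C' := by
            rw [hC']
            have := abs_nonneg C2
            linarith
          have h3 : ζ.im ^ n1 ≤ ζ.im ^ (n1 + n2) := pow_le_pow_right₀ e1 (Nat.le_add_right _ _)
          gcongr
  have b2 : ∀ a i j, ‖PPg wt p s (Φ (US38.mob σ ζ)) a i j‖ ≤ X := by
    intro a i j
    refine (hPP ζ hζ1 e2 a i j).trans ?_
    calc C2 * ζ.im ^ n2 ≤ |C2| * ζ.im ^ n2 := by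
          gcongr
          exact le_abs_self C2
      _ ≤ C' * ζ.im ^ (n1 + n2) := by
          have h2 : |C2| ≤ C' := by
            rw [hC']
            have : 0 ≤ |C1| / h₀ ^ n1 := by positivity
            linarith
          have h3 : ζ.im ^ n2 ≤ ζ.im ^ (n1 + n2) := pow_le_pow_right₀ e1 (Nat.le_add_left _ _)
          gcongr
  have hb := hHH G _ X hX1 hGu hGt hgr b1 b2
  rw [heq]
  set H := HH wt K G (PPg wt p s (Φ (US38.mob σ ζ))) J with hH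
  have hXm : 0 ≤ X ^ m := by positivity
  have hb1 : ∀ i j, ‖H i j‖ ≤ |c| * X ^ m := fun i j =>
    (hb i j).1.trans (mul_le_mul_of_nonneg_right (le_abs_self c) hXm)
  have hb2 : ∀ i j, ‖H⁻¹ i j‖ ≤ |c| * X ^ m := fun i j =>
    (hb i j).2.trans (mul_le_mul_of_nonneg_right (le_abs_self c) hXm)
  have hexp : (H * Dwt wt * H⁻¹) i j = ∑ k, H i k * (wt k : ℂ) * H⁻¹ k j := by
    rw [Matrix.mul_apply]
    refine Finset.sum_congr rfl fun k _ => ?_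
    rw [Dwt, Matrix.mul_diagonal]
  rw [hexp]
  have hXX : X ^ m * X ^ m = C' ^ (2 * m) * ζ.im ^ ((n1 + n2) * (2 * m)) := by
    rw [hX, ← pow_add, ← two_mul, mul_pow, ← pow_mul]
  calc ‖∑ k, H i k * (wt k : ℂ) * H⁻¹ k j‖ ≤ ∑ k, ‖H i k * (wt k : ℂ) * H⁻¹ k j‖ :=
        norm_sum_le _ _
    _ ≤ ∑ k, (|c| * X ^ m) * |(wt k : ℝ)| * (|c| * X ^ m) := by
        refine Finset.sum_le_sum fun k _ => ?_
        rw [norm_mul, norm_mul]
        have h1 : ‖(wt k : ℂ)‖ = |(wt k : ℝ)| := by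
          rw [← Complex.ofReal_intCast, Complex.norm_real, Real.norm_eq_abs]
        rw [h1]
        have := hb1 i k
        have := hb2 k j
        gcongr
    _ = |c| * |c| * (∑ k, |(wt k : ℝ)|) * (X ^ m * X ^ m) := by
        rw [Finset.mul_sum, Finset.sum_mul]
        refine Finset.sum_congr rfl fun k _ => ?_
        ring
    _ = _ := by
        rw [hXX]
        ring

theorem ee_growth {Q : Matrix ι ι ℝ} {Φ : ℂ → Matrix ι ι ℂ} (hv : MW38.VMHS wt p Q Φ)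
    {s : Equiv.Perm ι} (hs : ∀ j, wt (s j) = wt j ∧ p (s j) = wt j - p j) (hK : ∀ j, |p j| ≤ K)
    {Δ : Subgroup (Matrix.SpecialLinearGroup (Fin 2) ℝ)}
    {σ : Matrix.SpecialLinearGroup (Fin 2) ℝ} (ha : MW38.Adm wt p Q Φ Δ σ)
    {h : ℂ → Matrix ι ι ℂ} (hh : ∀ z ∈ Hc 0, DelH wt p (Φ z) (PPg wt p s (Φ z)) (h z))
    {r : ℕ} (lam : Matrix ι ι ℚ →ₗ[ℚ] (Fin r → ℚ)) (t₀ : Matrix ι ι ℚ) (M : ℝ) :
    ∃ (C : ℝ) (n : ℕ) (Y : ℝ), ∀ ζ : ℂ, |ζ.re| ≤ M → Y ≤ ζ.im → ∀ j,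
      ‖ee wt h t₀ lam (US38.mob σ ζ) j‖ ≤ C * ζ.im ^ n := by
  obtain ⟨C, n, Y, hY⟩ := Y_growth hv hs hK ha hh M
  set co : ι → ι → Fin r → ℂ := fun i j t => ((lam (Matrix.single i j 1) t : ℚ) : ℂ) with hco
  set S : ℝ := ∑ i, ∑ j, ∑ t, ‖co i j t‖ with hS
  set T : ℝ := ∑ i, ∑ j, ‖(algebraMap ℚ ℂ) (t₀ i j)‖ with hT
  refine ⟨(|C| + T) * S, n, max 1 Y, fun ζ hζ1 hζ2 t => ?_⟩
  have e1 : 1 ≤ ζ.im := (le_max_left _ _).trans hζ2
  have e2 : Y ≤ ζ.im := (le_max_right _ _).trans hζ2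
  have hpow : 1 ≤ ζ.im ^ n := one_le_pow₀ e1
  set A : Matrix ι ι ℂ := h (US38.mob σ ζ) * Dwt wt * (h (US38.mob σ ζ))⁻¹ -
    t₀.map (algebraMap ℚ ℂ) with hA
  have hT0 : ∀ i j, ‖(algebraMap ℚ ℂ) (t₀ i j)‖ ≤ T := by
    intro i j
    refine (Finset.single_le_sum (f := fun j => ‖(algebraMap ℚ ℂ) (t₀ i j)‖)
      (fun j _ => norm_nonneg _) (Finset.mem_univ j)).trans ?_
    exact Finset.single_le_sum (f := fun i => ∑ j, ‖(algebraMap ℚ ℂ) (t₀ i j)‖)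
      (fun i _ => Finset.sum_nonneg fun j _ => norm_nonneg _) (Finset.mem_univ i)
  have hAb : ∀ i j, ‖A i j‖ ≤ (|C| + T) * ζ.im ^ n := by
    intro i j
    rw [hA, Matrix.sub_apply, Matrix.map_apply]
    refine (norm_sub_le _ _).trans ?_
    have h1 := hY ζ hζ1 e2 i j
    have h2 := hT0 i j
    have h3 : 0 ≤ T := (norm_nonneg _).trans h2
    have h4 : C * ζ.im ^ n ≤ |C| * ζ.im ^ n := by
      gcongr
      exact le_abs_self C
    nlinarith
  have hee : ee wt h t₀ lam (US38.mob σ ζ) t = ∑ i, ∑ j, A i j * co i j t := by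
    rw [ee, lamC, ← hA]
    simp only [Finset.sum_apply, Pi.smul_apply, smul_eq_mul, hco]
  rw [hee]
  calc ‖∑ i, ∑ j, A i j * co i j t‖ ≤ ∑ i, ∑ j, ‖A i j‖ * ‖co i j t‖ := by
        refine (norm_sum_le _ _).trans (Finset.sum_le_sum fun i _ => ?_)
        refine (norm_sum_le _ _).trans (Finset.sum_le_sum fun j _ => ?_)
        rw [norm_mul]
    _ ≤ ∑ i, ∑ j, ((|C| + T) * ζ.im ^ n) * ∑ t, ‖co i j t‖ := by
        refine Finset.sum_le_sum fun i _ => Finset.sum_le_sum fun j _ => ?_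
        have h1 : ‖co i j t‖ ≤ ∑ t, ‖co i j t‖ :=
          Finset.single_le_sum (f := fun t => ‖co i j t‖) (fun t _ => norm_nonneg _)
            (Finset.mem_univ t)
        have h2 := hAb i j
        have h3 : 0 ≤ (|C| + T) * ζ.im ^ n := (norm_nonneg _).trans h2
        gcongr
    _ = (|C| + T) * S * ζ.im ^ n := by
        rw [hS]
        simp only [← Finset.mul_sum]
        ring

end ZQ38
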