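import Pool.Agent.LibZQ38.WDef
import Pool.Agent.LibZQ38.B05a
import Pool.Agent.LibUS38.Hm

/-!
Derivatives of the complexified maps along smooth families.

PLAN. lamC and rhoC are finite sums of entries times constants: unfold, SmS.const_mul / ContDiffOn.sum,
dz and dzb are additive and commute with constants (WirtM_dz_sum, WirtM_dz_smul, ..).
-/

open Matrix Complex
open MW38 (Fl Tri blk dg)

namespace ZQ38

variable {ι : Type} [Fintype ι] [DecidableEq ι] {wt p : ι → ℤ} {K : ℕ} {Φ : Matrix ι ι ℂ}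
  {P : ℤ → Matrix ι ι ℂ} {Ω : Set ℂ}

variable {r : ℕ} {lam : Matrix ι ι ℚ →ₗ[ℚ] (Fin r → ℚ)}
  {rho : Matrix ι ι ℚ →ₗ[ℚ] Matrix (Fin r) (Fin r) ℚ}

/-- a constant combination of the entries of a smooth family is smooth -/
private theorem W1b_comb_sm {A : ℂ → Matrix ι ι ℂ} (hA : SP38.Sm Ω A) (c : ι → ι → ℂ) :
    SP38.SmS Ω (fun z => ∑ i, ∑ j, A z i j * c i j) := by
  unfold SP38.SmS
  exact ContDiffOn.sum fun i _ => ContDiffOn.sum fun j _ =>
    ContDiffOn.mul (hA i j) contDiffOn_const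

/-- the derivatives of a constant combination of the entries of a smooth family -/
private theorem W1b_comb_d (hΩ : IsOpen Ω) {A : ℂ → Matrix ι ι ℂ} (hA : SP38.Sm Ω A) {z : ℂ}
    (hz : z ∈ Ω) (c : ι → ι → ℂ) :
    SP38.dz (fun z => ∑ i, ∑ j, A z i j * c i j) z = ∑ i, ∑ j, SP38.DZ A z i j * c i j ∧
    SP38.dzb (fun z => ∑ i, ∑ j, A z i j * c i j) z = ∑ i, ∑ j, SP38.DB A z i j * c i j := by
  have hd : ∀ i j, DifferentiableAt ℝ (fun z => A z i j) z := fun i j =>
    (hA i j).differentiableAt hΩ hz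
  have hc : ∀ i j, DifferentiableAt ℝ (fun z => A z i j * c i j) z := fun i j =>
    (hd i j).mul (differentiableAt_const _)
  have hs : ∀ i, DifferentiableAt ℝ (fun z => ∑ j, A z i j * c i j) z := fun i =>
    DifferentiableAt.fun_sum fun j _ => hc i j
  constructor
  · refine (SP38.WirtM_dz_sum Finset.univ (f := fun i z => ∑ j, A z i j * c i j)
      fun i _ => hs i).trans (Finset.sum_congr rfl fun i _ => ?_)
    refine (SP38.WirtM_dz_sum Finset.univ (f := fun j z => A z i j * c i j)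
      fun j _ => hc i j).trans (Finset.sum_congr rfl fun j _ => ?_)
    rw [SP38.dz_mul (hd i j) (differentiableAt_const _), SP38.dz_const, mul_zero, add_zero]
    rfl
  · refine (SP38.WirtM_dzb_sum Finset.univ (f := fun i z => ∑ j, A z i j * c i j)
      fun i _ => hs i).trans (Finset.sum_congr rfl fun i _ => ?_)
    refine (SP38.WirtM_dzb_sum Finset.univ (f := fun j z => A z i j * c i j)
      fun j _ => hc i j).trans (Finset.sum_congr rfl fun j _ => ?_)
    rw [SP38.dzb_mul (hd i j) (differentiableAt_const _), SP38.dzb_const, mul_zero, add_zero]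
    rfl

private theorem W1b_lamC_apply (A : Matrix ι ι ℂ) (t : Fin r) :
    lamC lam A t = ∑ i, ∑ j, A i j * ((lam (Matrix.single i j 1) t : ℚ) : ℂ) := by
  simp only [lamC, Finset.sum_apply, Pi.smul_apply, smul_eq_mul]

private theorem W1b_rhoC_apply (A : Matrix ι ι ℂ) (s t : Fin r) :
    rhoC rho A s t = ∑ i, ∑ j, A i j * ((rho (Matrix.single i j 1) s t : ℚ) : ℂ) := by
  simp only [rhoC, Matrix.sum_apply, Matrix.smul_apply, smul_eq_mul, Matrix.map_apply,
    eq_ratCast]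

theorem lamC_sm {A : ℂ → Matrix ι ι ℂ} (hA : SP38.Sm Ω A) :
    US38.SmV Ω (fun z => lamC lam (A z)) := by
  intro t
  simp only [W1b_lamC_apply]
  exact W1b_comb_sm hA fun i j => ((lam (Matrix.single i j 1) t : ℚ) : ℂ)

theorem rhoC_sm {A : ℂ → Matrix ι ι ℂ} (hA : SP38.Sm Ω A) :
    SP38.Sm Ω (fun z => rhoC rho (A z)) := by
  intro s t
  simp only [W1b_rhoC_apply]
  exact W1b_comb_sm hA fun i j => ((rho (Matrix.single i j 1) s t : ℚ) : ℂ)

theorem DV_lamC (hΩ : IsOpen Ω) {A : ℂ → Matrix ι ι ℂ} (hA : SP38.Sm Ω A) {z : ℂ} (hz : z ∈ Ω) :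
    US38.DV (fun z => lamC lam (A z)) z = lamC lam (SP38.DZ A z) ∧
    US38.DVb (fun z => lamC lam (A z)) z = lamC lam (SP38.DB A z) := by
  constructor
  · funext t
    simp only [US38.DV, W1b_lamC_apply]
    exact (W1b_comb_d hΩ hA hz fun i j => ((lam (Matrix.single i j 1) t : ℚ) : ℂ)).1
  · funext t
    simp only [US38.DVb, W1b_lamC_apply]
    exact (W1b_comb_d hΩ hA hz fun i j => ((lam (Matrix.single i j 1) t : ℚ) : ℂ)).2

theorem DZ_rhoC (hΩ : IsOpen Ω) {A : ℂ → Matrix ι ι ℂ} (hA : SP38.Sm Ω A) {z : ℂ} (hz : z ∈ Ω) :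
    SP38.DZ (fun z => rhoC rho (A z)) z = rhoC rho (SP38.DZ A z) ∧
    SP38.DB (fun z => rhoC rho (A z)) z = rhoC rho (SP38.DB A z) := by
  constructor
  · ext s t
    rw [W1b_rhoC_apply]
    simp only [SP38.DZ, Matrix.of_apply, W1b_rhoC_apply]
    exact (W1b_comb_d hΩ hA hz fun i j => ((rho (Matrix.single i j 1) s t : ℚ) : ℂ)).1
  · ext s t
    rw [W1b_rhoC_apply]
    simp only [SP38.DB, Matrix.of_apply, W1b_rhoC_apply]
    exact (W1b_comb_d hΩ hA hz fun i j => ((rho (Matrix.single i j 1) s t : ℚ) : ℂ)).2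

/-- a complex linear form on matrices is a combination of the entries -/
private theorem W1b_form (φ : Matrix ι ι ℂ →ₗ[ℂ] ℂ) (B : Matrix ι ι ℂ) :
    φ B = ∑ i, ∑ j, B i j * φ (Matrix.single i j 1) := by
  conv_lhs => rw [Matrix.matrix_eq_sum_single B]
  simp only [map_sum]
  refine Finset.sum_congr rfl fun i _ => Finset.sum_congr rfl fun j _ => ?_
  have h : Matrix.single i j (B i j) = B i j • Matrix.single i j (1 : ℂ) := by
    rw [Matrix.smul_single, smul_eq_mul, mul_one]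
  rw [h, map_smul, smul_eq_mul]

/-- derivatives of a family with values in a fixed complex subspace stay in it -/
theorem deriv_mem_sub {S : Submodule ℂ (Matrix ι ι ℂ)} (hΩ : IsOpen Ω)
    {A : ℂ → Matrix ι ι ℂ} (hA : SP38.Sm Ω A) (hS : ∀ z ∈ Ω, A z ∈ S) {z : ℂ} (hz : z ∈ Ω) :
    SP38.DZ A z ∈ S ∧ SP38.DB A z ∈ S := by
  have key : ∀ B : Matrix ι ι ℂ,
      (∀ φ : Matrix ι ι ℂ →ₗ[ℂ] ℂ, (∀ X ∈ S, φ X = 0) → φ B = 0) → B ∈ S := by
    intro B hB
    by_contra hn
    obtain ⟨φ, hφ, hle⟩ := Submodule.exists_le_ker_of_notMem hn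
    exact hφ (hB φ fun X hX => LinearMap.mem_ker.mp (hle hX))
  have hev : ∀ φ : Matrix ι ι ℂ →ₗ[ℂ] ℂ, (∀ X ∈ S, φ X = 0) →
      (fun z => ∑ i, ∑ j, A z i j * φ (Matrix.single i j 1)) =ᶠ[nhds z] fun _ => 0 := by
    intro φ hφ
    filter_upwards [hΩ.mem_nhds hz] with w hw
    rw [← W1b_form φ (A w)]
    exact hφ _ (hS w hw)
  constructor
  · refine key _ fun φ hφ => ?_
    rw [W1b_form φ]
    rw [← (W1b_comb_d hΩ hA hz fun i j => φ (Matrix.single i j 1)).1]
    rw [SP38.dz_congr (hev φ hφ), SP38.dz_const]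
  · refine key _ fun φ hφ => ?_
    rw [W1b_form φ]
    rw [← (W1b_comb_d hΩ hA hz fun i j => φ (Matrix.single i j 1)).2]
    rw [SP38.dzb_congr (hev φ hφ), SP38.dzb_const]

end ZQ38
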