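import Pool.Agent.LibZQ38.CDef
import Pool.Agent.LibZQ38.W2
import Pool.Agent.LibZQ38.W1b
import Pool.Agent.LibZQ38.C2

/-!
The operator and the class of `𝔲 / 𝔫`.
-/

open Matrix Complex
open UpperHalfPlane hiding I
open MW38 (Fl Tri blk dg)
open SP38 (Hc)

namespace ZQ38

variable {ι : Type} [Fintype ι] [DecidableEq ι] {wt p : ι → ℤ} {K : ℕ}
variable {Φ : ℂ → Matrix ι ι ℂ} {P : ℂ → ℤ → Matrix ι ι ℂ} {h : ℂ → Matrix ι ι ℂ}
  {r : ℕ} {m n : Submodule ℚ (Matrix ι ι ℚ)} {w : ℤ} {t₀ : Matrix ι ι ℚ}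
  {lam : Matrix ι ι ℚ →ₗ[ℚ] (Fin r → ℚ)} {rho : Matrix ι ι ℚ →ₗ[ℚ] Matrix (Fin r) (Fin r) ℚ}

theorem C6_inv (hO : OpD wt p K Φ P h) : An (Hc 0) (fun z => (h z)⁻¹) :=
  hO.anh.inv fun z hz => (hO.del z hz).un.isUnit

theorem C6_PG (hO : OpD wt p K Φ P h) : An (Hc 0) (fun z => PG K (P z)) := by
  unfold PG
  exact An.sum _ fun a _ => An.smul _ (hO.anP a)

theorem C6_oP (hO : OpD wt p K Φ P h) : An (Hc 0) (fun z => oP K (P z) (h z)) := by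
  unfold oP
  exact (hO.anh.mul (C6_PG hO)).mul (C6_inv hO)

theorem C6_Y (hO : OpD wt p K Φ P h) : An (Hc 0) (fun z => h z * Dwt wt * (h z)⁻¹) :=
  (hO.anh.mul (An.const _)).mul (C6_inv hO)

theorem C6_kill {A : Matrix (Fin r) (Fin r) ℂ} {K' : ℕ}
    (hA : Polynomial.aeval A (ZW67.npoly K') = 0) {a : ℤ} {q : Polynomial ℂ}
    (hq : q.eval (a : ℂ) ≠ 0) {v : Fin r → ℂ} (hv : Polynomial.aeval A q *ᵥ v = 0) :
    ZW67.LP K' A a *ᵥ v = 0 := by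
  have h1 := ZW67.aeval_eigen_right (ZW67.LP_right hA a) q
  have h2 : ZW67.LP K' A a *ᵥ (Polynomial.aeval A q *ᵥ v) = q.eval (a : ℂ) •
      (ZW67.LP K' A a *ᵥ v) := by
    rw [Matrix.mulVec_mulVec, h1, Matrix.smul_mulVec]
  rw [hv, Matrix.mulVec_zero] at h2
  exact (smul_eq_zero.1 h2.symm).resolve_left hq

theorem C6_rts {c d a : ℤ} (ha : a ∉ Finset.Icc c d) : (rts c d).eval (a : ℂ) ≠ 0 := by
  rw [rts, Polynomial.eval_prod, Finset.prod_ne_zero_iff]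
  intro b hb
  rw [Polynomial.eval_sub, Polynomial.eval_X, Polynomial.eval_C, sub_ne_zero]
  intro e
  have h3 : a = b := by exact_mod_cast e
  exact ha (h3 ▸ hb)

theorem DD_sm (hO : OpD wt p K Φ P h) : SP38.Sm (Hc 0) (DD K P h rho) :=
  rhoC_sm (C6_oP hO).sm

theorem DD_poly (hO : OpD wt p K Φ P h) (hQ : QuD wt K P h m n t₀ w r lam rho) {z : ℂ}
    (hz : z ∈ Hc 0) : Polynomial.aeval (DD K P h rho z) (ZW67.npoly (2 * K)) = 0 := by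
  rw [npoly_eq]
  exact W_all hQ.wd hQ.lie hQ.tri (hO.gr z hz) (hO.del z hz).un (hQ.opP z hz)

theorem DD_conj (hO : OpD wt p K Φ P h) (hQ : QuD wt K P h m n t₀ w r lam rho) {z : ℂ}
    (hz : z ∈ Hc 0) : (DD K P h rho z).map (starRingEnd ℂ) = (w : ℂ) • 1 - DD K P h rho z :=
  W_conj hQ.wd hQ.tri hQ.t0 hQ.t0' (hO.gr z hz) (hO.del z hz) (hQ.opP z hz) (hQ.opQ z hz)

theorem Y_sub_t0 (hO : OpD wt p K Φ P h) (hQ : QuD wt K P h m n t₀ w r lam rho) {z : ℂ}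
    (hz : z ∈ Hc 0) :
    h z * Dwt wt * (h z)⁻¹ - t₀.map (algebraMap ℚ ℂ) ∈ cx (m ⊓ Low ℚ wt) := by
  have hh := (hO.del z hz).un
  have ht0 : t₀.map (algebraMap ℚ ℂ) ∈ cx m := mem_cx_of_mem hQ.t0
  have htri : Tri wt (t₀.map (algebraMap ℚ ℂ)) := cx_tri hQ.tri ht0
  have hdg : dgR wt (t₀.map (algebraMap ℚ ℂ)) = Dwt wt := by
    ext i j
    have h3 := congrFun (congrFun hQ.t0' i) j
    by_cases hij : wt i = wt j
    · rw [dgR, if_pos hij] at h3 ⊢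
      rw [Matrix.map_apply, h3, Dwt]
      by_cases e : i = j
      · subst e
        rw [Matrix.diagonal_apply_eq, Matrix.diagonal_apply_eq]
        simp
      · rw [Matrix.diagonal_apply_ne _ e, Matrix.diagonal_apply_ne _ e, map_zero]
    · have e : i ≠ j := fun e => hij (by rw [e])
      rw [dgR, if_neg hij, Dwt, Matrix.diagonal_apply_ne _ e]
  have hY : h z * Dwt wt * (h z)⁻¹ ∈ cx m := by
    rw [← oP_add_oQ (wt := wt) (h z) K (P z)]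
    exact Submodule.add_mem _ (hQ.opP z hz) (hQ.opQ z hz)
  rw [W2_mem_u]
  refine ⟨Submodule.sub_mem _ hY ht0, ?_⟩
  refine W2_low_of_dgR (cx_tri hQ.tri hY) htri ?_
  rw [B13_conj hh B13_tri_D, B13_dgR_D, hdg]

theorem C6_Yt (hO : OpD wt p K Φ P h) (t₀ : Matrix ι ι ℚ) :
    An (Hc 0) (fun z => h z * Dwt wt * (h z)⁻¹ - t₀.map (algebraMap ℚ ℂ)) :=
  (C6_Y hO).sub (An.const _)

theorem ee_sm (hO : OpD wt p K Φ P h) : US38.SmV (Hc 0) (ee wt h t₀ lam) :=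
  lamC_sm (C6_Yt hO t₀).sm

/-- the derivatives of the class -/
theorem C6_d (hO : OpD wt p K Φ P h) (hQ : QuD wt K P h m n t₀ w r lam rho) {z : ℂ}
    (hz : z ∈ Hc 0) :
    (∃ x ∈ cx (m ⊓ Low ℚ wt), x ∈ Fend p (Φ z) 0 ∧
      US38.DVb (ee wt h t₀ lam) z = lamC lam x) ∧
    (∃ x ∈ cx (m ⊓ Low ℚ wt), x ∈ Fend p (Φ z) (-1) ∧
      US38.DV (ee wt h t₀ lam) z = lamC lam x) := by
  have hΩ := SP38.isOpen_Hc 0
  have hsm := (C6_Yt hO t₀).sm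
  have h1 := DV_lamC (lam := lam) hΩ hsm hz
  have h2 := deriv_mem_sub hΩ hsm (fun z hz => Y_sub_t0 hO hQ hz) hz
  have hF : ∀ z ∈ Hc 0, h z * Dwt wt * (h z)⁻¹ ∈ Fend p (Φ z) 0 := fun z hz =>
    (oP_mem_Fend (hO.gr z hz) (hO.del z hz)).2
  have h3 := deriv_Fend hΩ hO.hol (C6_Y hO).sm hF hz
  have eDB : SP38.DB (fun z => h z * Dwt wt * (h z)⁻¹ - t₀.map (algebraMap ℚ ℂ)) z =
      SP38.DB (fun z => h z * Dwt wt * (h z)⁻¹) z := by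
    rw [SP38.DB_sub hΩ hz (C6_Y hO).sm (SP38.Sm.const _), SP38.DB_const, sub_zero]
  have eDZ : SP38.DZ (fun z => h z * Dwt wt * (h z)⁻¹ - t₀.map (algebraMap ℚ ℂ)) z =
      SP38.DZ (fun z => h z * Dwt wt * (h z)⁻¹) z := by
    rw [SP38.DZ_sub hΩ hz (C6_Y hO).sm (SP38.Sm.const _), SP38.DZ_const, sub_zero]
  refine ⟨⟨_, h2.2, ?_, h1.2⟩, ⟨_, h2.1, ?_, h1.1⟩⟩
  · rw [eDB]
    exact h3.1
  · rw [eDZ]
    have h4 := h3.2
    rwa [zero_sub] at h4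

theorem ee_d0 (hO : OpD wt p K Φ P h) (hQ : QuD wt K P h m n t₀ w r lam rho) {z : ℂ}
    (hz : z ∈ Hc 0) {a : ℤ} (ha : a < 0) :
    ZW67.LP (2 * K) (DD K P h rho z) a *ᵥ US38.DVb (ee wt h t₀ lam) z = 0 := by
  obtain ⟨x, hx, hxF, e⟩ := (C6_d hO hQ hz).1
  rw [e]
  refine C6_kill (DD_poly hO hQ hz) (q := rts 0 (2 * K)) (C6_rts ?_) ?_
  · rw [Finset.mem_Icc]
    omega
  · exact W_F hQ.wd hQ.lie hQ.tri (hO.gr z hz) (hO.del z hz) (hQ.opP z hz) hx hxF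

theorem ee_d1 (hO : OpD wt p K Φ P h) (hQ : QuD wt K P h m n t₀ w r lam rho) {z : ℂ}
    (hz : z ∈ Hc 0) {a : ℤ} (ha : a < -1) :
    ZW67.LP (2 * K) (DD K P h rho z) a *ᵥ US38.DV (ee wt h t₀ lam) z = 0 := by
  obtain ⟨x, hx, hxF, e⟩ := (C6_d hO hQ hz).2
  rw [e]
  refine C6_kill (DD_poly hO hQ hz) (q := rts (-1) (2 * K)) (C6_rts ?_) ?_
  · rw [Finset.mem_Icc]
    omega
  · exact W_F hQ.wd hQ.lie hQ.tri (hO.gr z hz) (hO.del z hz) (hQ.opP z hz) hx hxF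

theorem ee_im (hO : OpD wt p K Φ P h) (hQ : QuD wt K P h m n t₀ w r lam rho) {z : ℂ}
    (hz : z ∈ Hc 0) {a : ℤ} (ha : 0 ≤ a ∨ 0 ≤ w - a) :
    ZW67.LP (2 * K) (DD K P h rho z) a *ᵥ
      (ee wt h t₀ lam z - fun i => (starRingEnd ℂ) (ee wt h t₀ lam z i)) = 0 := by
  set Y := h z * Dwt wt * (h z)⁻¹ with hY
  have hYt := Y_sub_t0 hO hQ hz
  rw [← hY] at hYt
  have hbart : bar (t₀.map (algebraMap ℚ ℂ)) = t₀.map (algebraMap ℚ ℂ) := by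
    ext i j
    simp [bar]
  have hbar : bar (Y - t₀.map (algebraMap ℚ ℂ)) = bar Y - t₀.map (algebraMap ℚ ℂ) := by
    rw [← hbart]
    ext i j
    simp [bar]
  have hx : Y - bar Y ∈ cx (m ⊓ Low ℚ wt) := by
    have h1 := Submodule.sub_mem _ hYt (bar_mem_cx hYt)
    rw [hbar, sub_sub_sub_cancel_right] at h1
    exact h1
  have he : ee wt h t₀ lam z - (fun i => (starRingEnd ℂ) (ee wt h t₀ lam z i)) =
      lamC lam (Y - bar Y) := by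
    have e1 : ee wt h t₀ lam z = lamC lam (Y - t₀.map (algebraMap ℚ ℂ)) := rfl
    rw [e1, ← lamC_bar, ← lamC_sub, hbar, sub_sub_sub_cancel_right]
  rw [he]
  have hL := W_Lam hQ.wd hQ.lie hQ.tri hQ.t0 hQ.t0' (hO.gr z hz) (hO.del z hz) (hQ.opP z hz)
    (hQ.opQ z hz) hx (conj_Y (hO.gr z hz) (hO.del z hz))
  rcases ha with ha | ha
  · refine C6_kill (DD_poly hO hQ hz) (q := rts (-(2 * K)) (-1)) (C6_rts ?_) hL.1
    rw [Finset.mem_Icc]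
    omega
  · refine C6_kill (DD_poly hO hQ hz)
      (q := (rts (-(2 * K)) (-1)).comp (Polynomial.C (w : ℂ) - Polynomial.X)) ?_ ?_
    · rw [Polynomial.eval_comp, Polynomial.eval_sub, Polynomial.eval_C, Polynomial.eval_X]
      have h5 : ((w : ℂ) - (a : ℂ)) = ((w - a : ℤ) : ℂ) := by push_cast; rfl
      rw [h5]
      apply C6_rts
      rw [Finset.mem_Icc]
      omega
    · rw [Polynomial.aeval_comp]
      have h6 : Polynomial.aeval (DD K P h rho z) (Polynomial.C (w : ℂ) - Polynomial.X) =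
          (w : ℂ) • 1 - DD K P h rho z := by
        rw [map_sub, Polynomial.aeval_C, Polynomial.aeval_X, Algebra.algebraMap_eq_smul_one]
      rw [h6]
      exact hL.2

end ZQ38
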