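import Pool.Agent.LibZQ38.C8b
import Pool.Agent.LibZQ38.C6
import Pool.Agent.LibZQ38.C11a

/-!
Equivariance of the grading operator and of the class.

PLAN. lamC lam' (γ x γ⁻¹) = G lamC lam x for x ∈ cx u and rhoC rho' (γ A γ⁻¹) G = G rhoC rho A for A ∈ cx m: span_induction
(lamC, rhoC are ℂ-linear, lamC_rat, rhoC_rat). DD: C8_opc. ee: Y (mob δ z) - t₀ = γ (Y z - t₀) γ⁻¹ + (γ t₀ γ⁻¹ - t₀) with
Y z - t₀ ∈ cx u (Y_sub_t0), and lamC of the rational matrix γ t₀ γ⁻¹ - t₀ is the rational vector lam' (γ t₀ γ⁻¹ - t₀)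
(lamC_rat, lamC_add).
-/

open Matrix Complex
open UpperHalfPlane hiding I
open MW38 (Fl Tri blk dg)
open SP38 (Hc)

namespace ZQ38

variable {ι : Type} [Fintype ι] [DecidableEq ι] {wt p : ι → ℤ} {K : ℕ}
variable {Φ : ℂ → Matrix ι ι ℂ} {P : ℂ → ℤ → Matrix ι ι ℂ} {h : ℂ → Matrix ι ι ℂ}
  {r : ℕ} {m n : Submodule ℚ (Matrix ι ι ℚ)} {w : ℤ} {t₀ : Matrix ι ι ℚ}
  {lam : Matrix ι ι ℚ →ₗ[ℚ] (Fin r → ℚ)} {rho : Matrix ι ι ℚ →ₗ[ℚ] Matrix (Fin r) (Fin r) ℚ}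

theorem C11b_lam {u : Submodule ℚ (Matrix ι ι ℚ)} {r' : ℕ}
    {lam' : Matrix ι ι ℚ →ₗ[ℚ] (Fin r' → ℚ)} {γ γ' : Matrix ι ι ℚ}
    {G : Matrix (Fin r') (Fin r) ℚ} (hG : ∀ x ∈ u, lam' (γ * x * γ') = G *ᵥ lam x)
    {x : Matrix ι ι ℂ} (hx : x ∈ cx u) :
    lamC lam' (γ.map (algebraMap ℚ ℂ) * x * γ'.map (algebraMap ℚ ℂ)) =
      G.map (algebraMap ℚ ℂ) *ᵥ lamC lam x := by
  induction hx using Submodule.span_induction with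
  | mem x hx =>
    obtain ⟨X, hX, rfl⟩ := hx
    show lamC lam' (γ.map (algebraMap ℚ ℂ) * X.map (algebraMap ℚ ℂ) * γ'.map (algebraMap ℚ ℂ)) =
      G.map (algebraMap ℚ ℂ) *ᵥ lamC lam (X.map (algebraMap ℚ ℂ))
    rw [← Matrix.map_mul, ← Matrix.map_mul, lamC_rat, lamC_rat, hG X hX]
    funext k
    rw [Matrix.mulVec, dotProduct, Matrix.mulVec, dotProduct, Rat.cast_sum]
    refine Finset.sum_congr rfl fun i _ => ?_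
    rw [Rat.cast_mul]
    rfl
  | zero =>
    rw [mul_zero, zero_mul, W1_lam_zero, W1_lam_zero, Matrix.mulVec_zero]
  | add x y _ _ h1 h2 =>
    rw [mul_add, add_mul, lamC_add, lamC_add, h1, h2, Matrix.mulVec_add]
  | smul c x _ h1 =>
    rw [mul_smul_comm, smul_mul_assoc, lamC_smul, lamC_smul, h1, Matrix.mulVec_smul]

theorem C11b_rho {r' : ℕ} {rho' : Matrix ι ι ℚ →ₗ[ℚ] Matrix (Fin r') (Fin r') ℚ}
    {γ γ' : Matrix ι ι ℚ} {G : Matrix (Fin r') (Fin r) ℚ}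
    (hG : ∀ A ∈ m, rho' (γ * A * γ') * G = G * rho A) {A : Matrix ι ι ℂ} (hA : A ∈ cx m) :
    rhoC rho' (γ.map (algebraMap ℚ ℂ) * A * γ'.map (algebraMap ℚ ℂ)) * G.map (algebraMap ℚ ℂ) =
      G.map (algebraMap ℚ ℂ) * rhoC rho A := by
  have h0 : ∀ {r : ℕ} (rho : Matrix ι ι ℚ →ₗ[ℚ] Matrix (Fin r) (Fin r) ℚ),
      rhoC rho (0 : Matrix ι ι ℂ) = 0 := by
    intro r rho
    have h1 := rhoC_smul (rho := rho) (0 : ℂ) (0 : Matrix ι ι ℂ)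
    rwa [zero_smul, zero_smul] at h1
  induction hA using Submodule.span_induction with
  | mem x hx =>
    obtain ⟨X, hX, rfl⟩ := hx
    show rhoC rho' (γ.map (algebraMap ℚ ℂ) * X.map (algebraMap ℚ ℂ) * γ'.map (algebraMap ℚ ℂ)) *
      G.map (algebraMap ℚ ℂ) = G.map (algebraMap ℚ ℂ) * rhoC rho (X.map (algebraMap ℚ ℂ))
    rw [← Matrix.map_mul, ← Matrix.map_mul, rhoC_rat, rhoC_rat, ← Matrix.map_mul,
      ← Matrix.map_mul, hG X hX]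
  | zero =>
    rw [mul_zero, zero_mul, h0, h0, Matrix.zero_mul, Matrix.mul_zero]
  | add x y _ _ h1 h2 =>
    rw [mul_add, add_mul, rhoC_add, rhoC_add, Matrix.add_mul, h1, h2, Matrix.mul_add]
  | smul c x _ h1 =>
    rw [mul_smul_comm, smul_mul_assoc, rhoC_smul, rhoC_smul, Matrix.smul_mul, h1,
      Matrix.mul_smul]

theorem C11_eqv (hO : OpD wt p K Φ P h) (hQ : QuD wt K P h m n t₀ w r lam rho) {r' : ℕ}
    {lam' : Matrix ι ι ℚ →ₗ[ℚ] (Fin r' → ℚ)}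
    {rho' : Matrix ι ι ℚ →ₗ[ℚ] Matrix (Fin r') (Fin r') ℚ}
    {γ : Matrix ι ι ℚ} (hγ : IsUnit γ) (hγt : Tri wt γ)
    {δ : Matrix.SpecialLinearGroup (Fin 2) ℝ}
    (hF : ∀ (τ : ℍ) (a : ℤ), Fl p (Φ ((δ • τ : ℍ) : ℂ)) a =
      (Fl p (Φ (τ : ℂ)) a).map (Matrix.mulVecLin (γ.map (algebraMap ℚ ℂ))))
    {G : Matrix (Fin r') (Fin r) ℚ} (hG : ∀ x ∈ m ⊓ Low ℚ wt, lam' (γ * x * γ⁻¹) = G *ᵥ lam x)
    (hG' : ∀ A ∈ m, rho' (γ * A * γ⁻¹) * G = G * rho A) {z : ℂ} (hz : z ∈ Hc 0) :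
    DD K P h rho' (US38.mob δ z) * G.map (algebraMap ℚ ℂ) =
      G.map (algebraMap ℚ ℂ) * DD K P h rho z ∧
    ee wt h t₀ lam' (US38.mob δ z) = G.map (algebraMap ℚ ℂ) *ᵥ ee wt h t₀ lam z +
      fun i => ((lam' (γ * t₀ * γ⁻¹ - t₀) i : ℚ) : ℂ) := by
  obtain ⟨e1, -, e3⟩ := C8_opc hO.gr hO.del hγ hγt hF hz
  constructor
  · rw [DD, e1]
    exact C11b_rho hG' (hQ.opP z hz)
  · rw [ee, e3]
    have e4 : γ.map (algebraMap ℚ ℂ) * (h z * Dwt wt * (h z)⁻¹) * (γ⁻¹).map (algebraMap ℚ ℂ) -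
        t₀.map (algebraMap ℚ ℂ) =
        γ.map (algebraMap ℚ ℂ) * (h z * Dwt wt * (h z)⁻¹ - t₀.map (algebraMap ℚ ℂ)) *
          (γ⁻¹).map (algebraMap ℚ ℂ) + (γ * t₀ * γ⁻¹ - t₀).map (algebraMap ℚ ℂ) := by
      rw [Matrix.map_sub _ (fun a b => map_sub _ a b), Matrix.map_mul, Matrix.map_mul, mul_sub,
        sub_mul]
      abel
    rw [e4, lamC_add, lamC_rat, C11b_lam hG (Y_sub_t0 hO hQ hz)]
    rfl

end ZQ38
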