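import Pool.Agent.LibZQ38.JDef
import Pool.Agent.LibZQ38.C11a

/-!
The form on `𝔲 / 𝔫` is preserved by the monodromy.

PLAN. g = dgR wt γ; for block triangular A: symb w (γ A γ⁻¹) = g * symb w A * g⁻¹ if A ∈ WW wt w (only the diagonal blocks of γ, γ⁻¹
contribute; dgR wt γ⁻¹ = g⁻¹ by dgR_mul). QE (g A g⁻¹) (g B g⁻¹) = QE A B for A, B supported in weight w: gᵀ Qg g = Qg with
Qg = dgR wt Q (from hγQ, block by block; dgR wt Q is invertible: hQu), so g⁻¹ Qg⁻¹ (g⁻¹)ᵀ = Qg⁻¹; trace is cyclic. Claim: j' (G v) = g (j v) g⁻¹.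
Take x ∈ u ⊓ WW w with lam x = v (surj and sup; lam vanishes on n), x' = γ x γ⁻¹ ∈ u ⊓ WW w (ZL19.WW_cjg), lam' x' = G v. By sym:
symb x - j v = symb y (y ∈ n ⊓ WW w), symb x' - j' (G v) = symb y'. So j' (G v) - g (j v) g⁻¹ = symb (γ y γ⁻¹) - symb y' = symb y'' with
y'' ∈ n' ⊓ WW w, and it is QE-orthogonal to all symb y₂, y₂ ∈ n' ⊓ WW w: for j' (G v) by perp, for g (j v) g⁻¹ by perp for n and invariance (y₂ = γ y₃ γ⁻¹).
nd for n' gives symb y'' = 0. Then (Gᵀ QWf j' G) a b = QE (j' (G e_a)) (j' (G e_b)) (bilinearity) = QE (j e_a) (j e_b).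
-/

open Matrix Complex
open UpperHalfPlane hiding I
open MW38 (Fl Tri blk dg)
open SP38 (Hc)

namespace ZQ38

variable {ι : Type} [Fintype ι] [DecidableEq ι] {wt p : ι → ℤ} {K : ℕ}

/-- the form as a bilinear map -/
noncomputable def C11c_B (wt : ι → ℤ) (Q : Matrix ι ι ℚ) :
    Matrix ι ι ℚ →ₗ[ℚ] Matrix ι ι ℚ →ₗ[ℚ] ℚ :=
  LinearMap.mk₂ ℚ (QE wt Q)
    (by
      intro A A' B
      simp only [QE, Matrix.transpose_add, Matrix.add_mul, Matrix.trace_add])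
    (by
      intro c A B
      simp only [QE, Matrix.transpose_smul, Matrix.smul_mul, Matrix.trace_smul])
    (by
      intro A B B'
      simp only [QE, Matrix.mul_add, Matrix.add_mul, Matrix.trace_add])
    (by
      intro c A B
      simp only [QE, Matrix.mul_smul, Matrix.smul_mul, Matrix.trace_smul])

theorem C11c_B_apply (Q A B : Matrix ι ι ℚ) : C11c_B wt Q A B = QE wt Q A B := rfl

theorem C11c_lin {r : ℕ} (f : (Fin r → ℚ) →ₗ[ℚ] Matrix ι ι ℚ) (v : Fin r → ℚ) :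
    f v = ∑ c, v c • f (Pi.single c 1) := by
  conv_lhs => rw [← Finset.univ_sum_single v]
  rw [map_sum]
  refine Finset.sum_congr rfl fun c _ => ?_
  rw [← map_smul]
  congr 1
  ext d
  simp [Pi.single_apply]

theorem C11c_form {r s : ℕ} (Q : Matrix ι ι ℚ) (f : (Fin r → ℚ) →ₗ[ℚ] Matrix ι ι ℚ)
    (G : Matrix (Fin r) (Fin s) ℚ) (a b : Fin s) :
    (Gᵀ * QWf wt Q f * G) a b =
      QE wt Q (f (G *ᵥ Pi.single a 1)) (f (G *ᵥ Pi.single b 1)) := by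
  rw [← C11c_B_apply, C11c_lin f (G *ᵥ Pi.single a 1), C11c_lin f (G *ᵥ Pi.single b 1)]
  simp only [map_sum, map_smul, LinearMap.sum_apply, LinearMap.smul_apply, smul_eq_mul,
    Matrix.mulVec_single_one, Matrix.col_apply]
  rw [Matrix.mul_apply]
  refine Finset.sum_congr rfl fun d _ => ?_
  rw [Matrix.mul_apply, Finset.sum_mul, Finset.mul_sum]
  refine Finset.sum_congr rfl fun c _ => ?_
  rw [Matrix.transpose_apply, C11c_B_apply, QWf]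
  ring

theorem C11c_symb_mul {a b : ℤ} {A B : Matrix ι ι ℚ} (hA : A ∈ ZL19.WW wt a)
    (hB : B ∈ ZL19.WW wt b) : symb wt (a + b) (A * B) = symb wt a A * symb wt b B := by
  ext i k
  rw [Matrix.mul_apply]
  by_cases h : wt i - wt k = a + b
  · rw [symb, if_pos h, Matrix.mul_apply]
    refine Finset.sum_congr rfl fun l _ => ?_
    by_cases h1 : wt i - wt l = a
    · rw [symb, symb, if_pos h1, if_pos (by omega)]
    · rw [symb, if_neg h1, zero_mul]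
      rcases lt_or_gt_of_ne h1 with h2 | h2
      · rw [hB l k (by omega), mul_zero]
      · rw [hA i l h2, zero_mul]
  · rw [symb, if_neg h]
    refine (Finset.sum_eq_zero fun l _ => ?_).symm
    by_cases h1 : wt i - wt l = a
    · have h2 : ¬ wt l - wt k = b := by omega
      simp only [symb]
      rw [if_neg h2, mul_zero]
    · rw [symb, if_neg h1, zero_mul]

theorem C11c_symb_zero (A : Matrix ι ι ℚ) : symb wt 0 A = dgR wt A := by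
  ext i k
  simp only [symb, dgR, sub_eq_zero]

theorem C11c_symb_sub (w : ℤ) (A B : Matrix ι ι ℚ) :
    symb wt w (A - B) = symb wt w A - symb wt w B := by
  ext i k
  simp only [symb, Matrix.sub_apply]
  split_ifs
  · rfl
  · rw [sub_zero]

theorem C11c_tri {A : Matrix ι ι ℚ} (hA : Tri wt A) : A ∈ ZL19.WW wt 0 := fun i j h =>
  hA i j (by omega)

theorem C11c_symb_cjg {A B C : Matrix ι ι ℚ} {w : ℤ} (hA : Tri wt A) (hB : B ∈ ZL19.WW wt w)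
    (hC : Tri wt C) : symb wt w (A * B * C) = dgR wt A * symb wt w B * dgR wt C := by
  have h1 := C11c_symb_mul (C11c_tri hA) hB
  have h2 := C11c_symb_mul (ZL19.WW_mul (C11c_tri hA) hB) (C11c_tri hC)
  rw [zero_add] at h1 h2
  rw [add_zero] at h2
  rw [h2, h1, C11c_symb_zero, C11c_symb_zero]

theorem C11c_dgR_tri (A : Matrix ι ι ℚ) : Tri wt (dgR wt A) := fun i j h => by
  rw [dgR, if_neg h.ne']

theorem C11c_dgR_dgR (A : Matrix ι ι ℚ) : dgR wt (dgR wt A) = dgR wt A := by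
  ext i j
  simp only [dgR]
  split_ifs <;> rfl

theorem C11c_inv {Q γ : Matrix ι ι ℚ} (hγt : Tri wt γ)
    (hγQ : ∀ k, (blk wt k k γ)ᵀ * blk wt k k Q * blk wt k k γ = blk wt k k Q) :
    (dgR wt γ)ᵀ * dgR wt Q * dgR wt γ = dgR wt Q := by
  have e0 : (dgR wt γ)ᵀ = dgR wt γᵀ := by
    ext i j
    simp only [dgR, Matrix.transpose_apply, eq_comm]
  have b1 : ∀ (A : Matrix ι ι ℚ) (k : ℤ), blk wt k k (dgR wt A) = blk wt k k A := by
    intro A k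
    ext i j
    simp only [blk, dgR]
    rw [if_pos (i.2.trans j.2.symm)]
  have h1 : dgR wt ((dgR wt γ)ᵀ * dgR wt Q * dgR wt γ) =
      (dgR wt γ)ᵀ * dgR wt Q * dgR wt γ := by
    rw [e0, dgR_mul ((C11c_dgR_tri _).mul (C11c_dgR_tri _)) (C11c_dgR_tri _),
      dgR_mul (C11c_dgR_tri _) (C11c_dgR_tri _), C11c_dgR_dgR, C11c_dgR_dgR, C11c_dgR_dgR]
  rw [← h1]
  ext i j
  by_cases h : wt i = wt j
  · simp only [dgR]
    rw [if_pos h, if_pos h]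
    have h2 := hγQ (wt j)
    rw [← b1 γ, ← b1 Q] at h2
    have h3 : (blk wt (wt j) (wt j) (dgR wt γ))ᵀ = blk wt (wt j) (wt j) (dgR wt γ)ᵀ := rfl
    rw [h3, e0, ← MW38.blk_mul_diag (C11c_dgR_tri _) (C11c_dgR_tri _),
      ← MW38.blk_mul_diag ((C11c_dgR_tri _).mul (C11c_dgR_tri _)) (C11c_dgR_tri _), ← e0] at h2
    have h4 := congrFun (congrFun h2 ⟨i, h⟩) ⟨j, rfl⟩
    simp only [blk] at h4
    have h5 : dgR wt Q i j = Q i j := by rw [dgR, if_pos h]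
    rw [h5] at h4
    exact h4
  · simp only [dgR]
    rw [if_neg h, if_neg h]

theorem C11c_QE {Q g g' : Matrix ι ι ℚ} (hQu : IsUnit (dgR wt Q)) (h1 : g * g' = 1)
    (h2 : g' * g = 1) (hg : gᵀ * dgR wt Q * g = dgR wt Q) (A B : Matrix ι ι ℚ) :
    QE wt Q (g * A * g') (g * B * g') = QE wt Q A B := by
  have hdet : IsUnit (dgR wt Q).det := (Matrix.isUnit_iff_isUnit_det _).1 hQu
  have t1 : g'ᵀ * gᵀ = 1 := by rw [← Matrix.transpose_mul, h1, Matrix.transpose_one]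
  have t2 : gᵀ * g'ᵀ = 1 := by rw [← Matrix.transpose_mul, h2, Matrix.transpose_one]
  have hinv : g' * (dgR wt Q)⁻¹ * g'ᵀ = (dgR wt Q)⁻¹ := by
    symm
    apply Matrix.inv_eq_right_inv
    calc dgR wt Q * (g' * (dgR wt Q)⁻¹ * g'ᵀ)
        = (gᵀ * dgR wt Q * g) * (g' * (dgR wt Q)⁻¹ * g'ᵀ) := by rw [hg]
      _ = gᵀ * dgR wt Q * (g * g') * (dgR wt Q)⁻¹ * g'ᵀ := by simp only [Matrix.mul_assoc]
      _ = gᵀ * (dgR wt Q * (dgR wt Q)⁻¹) * g'ᵀ := by rw [h1, mul_one]; simp only [Matrix.mul_assoc]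
      _ = 1 := by rw [Matrix.mul_nonsing_inv _ hdet, mul_one, t2]
  unfold QE
  rw [Matrix.transpose_mul, Matrix.transpose_mul]
  have e1 : g'ᵀ * (Aᵀ * gᵀ) * dgR wt Q * (g * B * g') * (dgR wt Q)⁻¹ =
      g'ᵀ * (Aᵀ * (gᵀ * dgR wt Q * g) * B * g' * (dgR wt Q)⁻¹) := by
    simp only [Matrix.mul_assoc]
  rw [e1, hg, Matrix.trace_mul_comm]
  have e2 : Aᵀ * dgR wt Q * B * g' * (dgR wt Q)⁻¹ * g'ᵀ =
      Aᵀ * dgR wt Q * B * (g' * (dgR wt Q)⁻¹ * g'ᵀ) := by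
    simp only [Matrix.mul_assoc]
  rw [e2, hinv]

theorem C11_Q {Q : Matrix ι ι ℚ} (hQu : IsUnit (dgR wt Q)) {m n n' : Submodule ℚ (Matrix ι ι ℚ)}
    {w : ℤ} {r r' : ℕ}
    {lam : Matrix ι ι ℚ →ₗ[ℚ] (Fin r → ℚ)} {rho : Matrix ι ι ℚ →ₗ[ℚ] Matrix (Fin r) (Fin r) ℚ}
    {lam' : Matrix ι ι ℚ →ₗ[ℚ] (Fin r' → ℚ)}
    {rho' : Matrix ι ι ℚ →ₗ[ℚ] Matrix (Fin r') (Fin r') ℚ}
    {j : (Fin r → ℚ) →ₗ[ℚ] Matrix ι ι ℚ} {j' : (Fin r' → ℚ) →ₗ[ℚ] Matrix ι ι ℚ}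
    (hW : WD wt m (m ⊓ Low ℚ wt) n w r lam rho) (hW' : WD wt m (m ⊓ Low ℚ wt) n' w r' lam' rho')
    (hJ : JD wt Q m (m ⊓ Low ℚ wt) n w r lam rho j)
    (hJ' : JD wt Q m (m ⊓ Low ℚ wt) n' w r' lam' rho' j')
    {γ : Matrix ι ι ℚ} (hγ : IsUnit γ) (hγt : Tri wt γ)
    (hγQ : ∀ k, (blk wt k k γ)ᵀ * blk wt k k Q * blk wt k k γ = blk wt k k Q)
    (hm : m.map (ZL19.cjg γ γ⁻¹) = m) (hn' : n' = n.map (ZL19.cjg γ γ⁻¹))
    (hn : n ≤ m ⊓ Low ℚ wt) {G : Matrix (Fin r') (Fin r) ℚ}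
    (hG : ∀ x ∈ m ⊓ Low ℚ wt, lam' (γ * x * γ⁻¹) = G *ᵥ lam x) :
    Gᵀ * QWf wt Q j' * G = QWf wt Q j := by
  have hdet : IsUnit γ.det := (Matrix.isUnit_iff_isUnit_det γ).1 hγ
  have e1 : γ * γ⁻¹ = 1 := Matrix.mul_nonsing_inv γ hdet
  have e2 : γ⁻¹ * γ = 1 := Matrix.nonsing_inv_mul γ hdet
  have hγt' : Tri wt γ⁻¹ := hγt.inv hγ
  have c2 : ∀ A : Matrix ι ι ℚ, γ⁻¹ * (γ * A * γ⁻¹) * γ = A := by
    intro A
    calc γ⁻¹ * (γ * A * γ⁻¹) * γ = (γ⁻¹ * γ) * A * (γ⁻¹ * γ) := by simp only [mul_assoc]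
      _ = A := by rw [e2, one_mul, mul_one]
  have c3 : ∀ A : Matrix ι ι ℚ, γ * (γ⁻¹ * A * γ) * γ⁻¹ = A := by
    intro A
    calc γ * (γ⁻¹ * A * γ) * γ⁻¹ = (γ * γ⁻¹) * A * (γ * γ⁻¹) := by simp only [mul_assoc]
      _ = A := by rw [e1, one_mul, mul_one]
  have g1 : dgR wt γ * dgR wt γ⁻¹ = 1 := by rw [← dgR_mul hγt hγt', e1, B13_dgR_one]
  have g2 : dgR wt γ⁻¹ * dgR wt γ = 1 := by rw [← dgR_mul hγt' hγt, e2, B13_dgR_one]
  have hgQ := C11c_inv hγt hγQ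
  have hWW : ∀ (A B C : Matrix ι ι ℚ), Tri wt A → B ∈ ZL19.WW wt w → Tri wt C →
      A * B * C ∈ ZL19.WW wt w := by
    intro A B C hA hB hC
    have := ZL19.WW_mul (ZL19.WW_mul (C11c_tri hA) hB) (C11c_tri hC)
    rwa [zero_add, add_zero] at this
  have key : ∀ v, j' (G *ᵥ v) = dgR wt γ * j v * dgR wt γ⁻¹ := by
    intro v
    obtain ⟨x0, hx0, hx0'⟩ := hW.surj v
    obtain ⟨x1, hx1, x, hx, hxw, hx01⟩ := hJ.sup x0 hx0
    have hlx : lam x = v := by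
      rw [← hx0', hx01, map_add, (hW.ker x1 (hn hx1)).2 hx1, zero_add]
    have hxm : γ * x * γ⁻¹ ∈ m ⊓ Low ℚ wt := by
      refine ⟨?_, C11a_low hγt hx.2 hγt'⟩
      rw [← hm]
      exact ⟨x, hx.1, rfl⟩
    have hxw' := hWW γ x γ⁻¹ hγt hxw hγt'
    have hlx' : lam' (γ * x * γ⁻¹) = G *ᵥ v := by rw [hG x hx, hlx]
    obtain ⟨y, hy, hyw, hxy⟩ := hJ.sym x hx hxw
    obtain ⟨y', hy', hyw', hxy'⟩ := hJ'.sym _ hxm hxw'
    rw [hlx] at hxy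
    rw [hlx'] at hxy'
    have hy'' : γ * y * γ⁻¹ - y' ∈ n' := by
      refine Submodule.sub_mem _ ?_ hy'
      rw [hn']
      exact ⟨y, hy, rfl⟩
    have hyw'' : γ * y * γ⁻¹ - y' ∈ ZL19.WW wt w :=
      Submodule.sub_mem _ (hWW γ y γ⁻¹ hγt hyw hγt') hyw'
    have hdiff : j' (G *ᵥ v) - dgR wt γ * j v * dgR wt γ⁻¹ =
        symb wt w (γ * y * γ⁻¹ - y') := by
      have h1 : j v = symb wt w x - symb wt w y := by rw [← hxy]; abel
      have h2 : j' (G *ᵥ v) = symb wt w (γ * x * γ⁻¹) - symb wt w y' := by rw [← hxy']; abel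
      rw [h1, h2, C11c_symb_sub, C11c_symb_cjg hγt hxw hγt', C11c_symb_cjg hγt hyw hγt',
        Matrix.mul_sub, Matrix.sub_mul]
      abel
    have hz := hJ'.nd _ hy'' hyw'' (by
      intro y₂ hy₂ hyw₂
      rw [← hdiff, ← C11c_B_apply, map_sub, C11c_B_apply, C11c_B_apply,
        hJ'.perp _ y₂ hy₂ hyw₂, zero_sub, neg_eq_zero]
      have hy₃ : γ⁻¹ * y₂ * γ ∈ n := by
        rw [hn'] at hy₂
        obtain ⟨y₃, hy₃, rfl⟩ := hy₂
        rw [ZL19.cjg_apply, c2]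
        exact hy₃
      have hyw₃ := hWW γ⁻¹ y₂ γ hγt' hyw₂ hγt
      rw [← c3 y₂, C11c_symb_cjg hγt hyw₃ hγt', C11c_QE hQu g1 g2 hgQ]
      exact hJ.perp v _ hy₃ hyw₃)
    rw [hz] at hdiff
    exact sub_eq_zero.1 hdiff
  ext a b
  rw [C11c_form, key, key, C11c_QE hQu g1 g2 hgQ]
  rfl

end ZQ38
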