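import Pool.Agent.LibMW38.Defs

/-!
# Mumford-Tate Lie algebras of mixed Hodge structures (MP_eeb1a4_ag)

A mixed Hodge structure on `ℚ^ι` is given by weights `wt` (the basis vectors of weight at most `k`
span `W_k`), Hodge numbers `p` and a period matrix `Φ` (the columns `j` with `a ≤ p j` span `F^a`,
column `j` lies in `W_{wt j}`), as in `MW38`.
-/

open Matrix Complex
open MW38 (Fl Tri blk dg)

namespace ZQ38

variable {ι : Type} [Fintype ι] [DecidableEq ι]

/-- the complex conjugate of a matrix -/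
noncomputable def bar (A : Matrix ι ι ℂ) : Matrix ι ι ℂ := A.map (starRingEnd ℂ)

/-- the step `W_k` of the weight filtration -/
def Wt (wt : ι → ℤ) (k : ℤ) : Submodule ℂ (ι → ℂ) where
  carrier := {v | ∀ i, k < wt i → v i = 0}
  add_mem' := by
    intro u v hu hv i hi
    simp [hu i hi, hv i hi]
  zero_mem' := by intro i _; rfl
  smul_mem' := by
    intro c v hv i hi
    simp [hv i hi]

/-- Deligne's subspace
`I^{a,b} = F^a ∩ W_{a+b} ∩ (F̄^b ∩ W_{a+b} + ∑_{j ≥ 2} F̄^{b-j+1} ∩ W_{a+b-j})` -/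
noncomputable def Ide (wt p : ι → ℤ) (Φ : Matrix ι ι ℂ) (a b : ℤ) : Submodule ℂ (ι → ℂ) :=
  (Fl p Φ a ⊓ Wt wt (a + b)) ⊓
    ((Fl p (bar Φ) b ⊓ Wt wt (a + b)) ⊔
      ⨆ j : ℕ, Fl p (bar Φ) (b - (j + 2) + 1) ⊓ Wt wt (a + b - (j + 2)))

/-- `A` is multiplication by `a` on `I^{a,b}` -/
def IsOpP (wt p : ι → ℤ) (Φ A : Matrix ι ι ℂ) : Prop :=
  ∀ a b : ℤ, ∀ v ∈ Ide wt p Φ a b, A *ᵥ v = (a : ℂ) • v

/-- `A` is multiplication by `b` on `I^{a,b}` -/
def IsOpQ (wt p : ι → ℤ) (Φ A : Matrix ι ι ℂ) : Prop :=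
  ∀ a b : ℤ, ∀ v ∈ Ide wt p Φ a b, A *ᵥ v = (b : ℂ) • v

/-- the complexification of a rational space of matrices -/
def cx (L : Submodule ℚ (Matrix ι ι ℚ)) : Submodule ℂ (Matrix ι ι ℂ) :=
  Submodule.span ℂ ((fun M : Matrix ι ι ℚ => M.map (algebraMap ℚ ℂ)) '' (L : Set (Matrix ι ι ℚ)))

/-- closed under the commutator -/
def IsLie {R : Type*} [CommRing R] {S : Type*} [CommRing S] [Algebra R S]
    (L : Submodule R (Matrix ι ι S)) : Prop :=
  ∀ A ∈ L, ∀ B ∈ L, A * B - B * A ∈ L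

/-- The Lie algebra of the Mumford-Tate group: the smallest rational space of matrices closed under
the commutator whose complexification contains the two derivatives (multiplication by `a` and by
`b` on `I^{a,b}`) of the Deligne cocharacter. -/
noncomputable def mtLie (wt p : ι → ℤ) (Φ : Matrix ι ι ℂ) : Submodule ℚ (Matrix ι ι ℚ) :=
  sInf {L | IsLie L ∧ (∀ A, IsOpP wt p Φ A → A ∈ cx L) ∧ ∀ A, IsOpQ wt p Φ A → A ∈ cx L}

/-- the dimension of the Mumford-Tate group -/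
noncomputable def mtDim (wt p : ι → ℤ) (Φ : Matrix ι ι ℂ) : ℕ := Module.finrank ℚ (mtLie wt p Φ)

/-- the endomorphisms `M` with `M F^a ⊆ F^{a+c}` -/
def Fend (p : ι → ℤ) (Φ : Matrix ι ι ℂ) (c : ℤ) : Submodule ℂ (Matrix ι ι ℂ) where
  carrier := {M | ∀ a : ℤ, ∀ v ∈ Fl p Φ a, M *ᵥ v ∈ Fl p Φ (a + c)}
  add_mem' := by
    intro A B hA hB a v hv
    rw [Matrix.add_mulVec]
    exact Submodule.add_mem _ (hA a v hv) (hB a v hv)
  zero_mem' := by intro a v _; simp
  smul_mem' := by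
    intro c A hA a v hv
    rw [Matrix.smul_mulVec]
    exact Submodule.smul_mem _ _ (hA a v hv)

/-- the dimension of the Mumford-Tate domain: the dimension of `𝔪_ℂ / F⁰𝔪_ℂ` -/
noncomputable def domDim (wt p : ι → ℤ) (Φ : Matrix ι ι ℂ) : ℕ :=
  Module.finrank ℂ ((cx (mtLie wt p Φ)).map (Fend p Φ 0).mkQ)

/-- `W_{-1}`: the matrices which lower the weights -/
def Low (R : Type*) [CommRing R] (wt : ι → ℤ) : Submodule R (Matrix ι ι R) where
  carrier := {A | ∀ i j, wt j ≤ wt i → A i j = 0}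
  add_mem' := by
    intro A B hA hB i j h
    simp [hA i j h, hB i j h]
  zero_mem' := by intro i j _; rfl
  smul_mem' := by
    intro c A hA i j h
    simp [hA i j h]

/-- the span of the commutators -/
def brk {R : Type*} [CommRing R] (A B : Submodule R (Matrix ι ι R)) :
    Submodule R (Matrix ι ι R) :=
  Submodule.span R {C | ∃ X ∈ A, ∃ Y ∈ B, C = X * Y - Y * X}

/-- stable under the commutators with `M` -/
def Stab {R : Type*} [CommRing R] {S : Type*} [CommRing S] [Algebra R S]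
    (M N : Submodule R (Matrix ι ι S)) : Prop :=
  ∀ A ∈ M, ∀ B ∈ N, A * B - B * A ∈ N

/-! ### auxiliary definitions (not used in the statements) -/

/-- unipotent: trivial on the graded pieces -/
def Un {R : Type*} [Zero R] [One R] (wt : ι → ℤ) (g : Matrix ι ι R) : Prop :=
  ∀ i j, wt j ≤ wt i → g i j = if i = j then 1 else 0

/-- the projector onto the coordinates of weight `k` -/
def Ewt (wt : ι → ℤ) (k : ℤ) : Matrix ι ι ℂ := Matrix.diagonal fun i => if wt i = k then 1 else 0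

/-- the projectors of the Hodge decompositions of the graded pieces -/
structure GrP (wt p : ι → ℤ) (K : ℕ) (Φ : Matrix ι ι ℂ) (P : ℤ → Matrix ι ι ℂ) : Prop where
  unit : IsUnit Φ
  tri : Tri wt Φ
  diag : ∀ a i j, wt i ≠ wt j → P a i j = 0
  mul : ∀ a b, P a * P b = if a = b then P a else 0
  supp : ∀ a : ℤ, (K : ℤ) < |a| → P a = 0
  sum : ∑ a ∈ Finset.Icc (-(K : ℤ)) K, P a = 1
  conj : ∀ a i j, (starRingEnd ℂ) (P a i j) = P (wt i - a) i j
  fil : ∀ a v, v ∈ Fl p (dg wt Φ) a ↔ ∀ b < a, P b *ᵥ v = 0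

/-- multiplication by `a` on the `(a, k - a)` part of `Gr_k` -/
noncomputable def PG (K : ℕ) (P : ℤ → Matrix ι ι ℂ) : Matrix ι ι ℂ :=
  ∑ a ∈ Finset.Icc (-(K : ℤ)) K, (a : ℂ) • P a

/-- the weights -/
def Dwt (wt : ι → ℤ) : Matrix ι ι ℂ := Matrix.diagonal fun i => (wt i : ℂ)

/-- `h` carries the Hodge decomposition of the graded pieces to Deligne's decomposition -/
structure DelH (wt p : ι → ℤ) (Φ : Matrix ι ι ℂ) (P : ℤ → Matrix ι ι ℂ) (h : Matrix ι ι ℂ) :
    Prop where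
  un : Un wt h
  ide : ∀ a b v, h *ᵥ v ∈ Ide wt p Φ a b ↔ P a *ᵥ v = v ∧ Ewt wt (a + b) *ᵥ v = v

/-- entrywise real analytic on `Ω` -/
def An (Ω : Set ℂ) (A : ℂ → Matrix ι ι ℂ) : Prop := ∀ i j, AnalyticOnNhd ℝ (fun z => A z i j) Ω

end ZQ38
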