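import Pool.Agent.LibZW67.PVD
import Pool.Agent.LibZQ38.Defs

/-!
The trace of the square of the grading operator is constant.

PLAN. With A = D z: (A - w/2)^2 = Σ_a (a - w/2)^2 LP K A a (ZW67.YY_LP: Σ a LP a = A, LP_mul, LP_sum). The trace
of the idempotent LP K (D z) a is a natural number (LinearMap.IsProj.trace or the rank) and is a continuous
function of z on Hc 0 (Sm.aeval' h.sm _ gives smoothness of z ↦ LP K (D z) a; continuity on the open set), so it is
constant on the preconnected set Hc 0 (convex).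
-/

open Matrix Complex
open UpperHalfPlane hiding I
open MW38 (Fl Tri blk dg)
open SP38 (Hc)

namespace ZQ38

variable {ι : Type} [Fintype ι] [DecidableEq ι] {wt p : ι → ℤ} {K : ℕ}

private theorem C4a_trace_nat {r : ℕ} {E : Matrix (Fin r) (Fin r) ℂ} (hE : E * E = E) :
    ∃ n : ℕ, Matrix.trace E = (n : ℂ) := by
  have h1 : IsIdempotentElem (Matrix.toLin' E) := by
    rw [IsIdempotentElem, Module.End.mul_eq_comp, ← Matrix.toLin'_mul, hE]
  have h2 := (LinearMap.IsIdempotentElem.isProj_range _ h1).trace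
  rw [Matrix.trace_toLin'_eq] at h2
  exact ⟨_, h2⟩

private theorem C4a_const {f : ℂ → ℂ} {s : Set ℂ} (hs : IsPreconnected s) (hf : ContinuousOn f s)
    (hn : ∀ z ∈ s, ∃ n : ℕ, f z = (n : ℂ)) {z z' : ℂ} (hz : z ∈ s) (hz' : z' ∈ s) :
    f z = f z' := by
  by_contra hne
  have hg : ContinuousOn (fun z => (f z).re) s := Complex.continuous_re.comp_continuousOn hf
  obtain ⟨n, h1⟩ := hn z hz
  obtain ⟨n', h2⟩ := hn z' hz'
  have key : ∀ {y y' : ℂ} {m m' : ℕ}, y ∈ s → y' ∈ s → f y = (m : ℂ) → f y' = (m' : ℂ) → m < m' →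
      False := by
    intro y y' m m' hy hy' h3 h4 hmm
    have h5 := hs.intermediate_value hy hy' hg
    have h6 : ((m : ℝ) + 1 / 2) ∈ Set.Icc ((f y).re) ((f y').re) := by
      rw [h3, h4, Complex.natCast_re, Complex.natCast_re]
      have : ((m : ℝ) + 1) ≤ m' := by exact_mod_cast hmm
      constructor <;> linarith
    obtain ⟨x, hx, h7⟩ := h5 h6
    obtain ⟨q, h8⟩ := hn x hx
    simp only [h8, Complex.natCast_re] at h7
    have h9 : (2 * q : ℝ) = ((2 * m + 1 : ℕ) : ℝ) := by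
      push_cast
      linarith
    have h10 : 2 * q = 2 * m + 1 := by exact_mod_cast h9
    omega
  rcases lt_trichotomy n n' with h | h | h
  · exact key hz hz' h1 h2 h
  · exact hne (by rw [h1, h2, h])
  · exact key hz' hz h2 h1 h

theorem trace_const {r : ℕ} {w : ℤ} {Q : Matrix (Fin r) (Fin r) ℝ} {D : ℂ → Matrix (Fin r) (Fin r) ℂ}
    (hs : SP38.Sm (Hc 0) D) (hp : ∀ z ∈ Hc 0, Polynomial.aeval (D z) (ZW67.npoly K) = 0)
    {z z' : ℂ} (hz : z ∈ Hc 0) (hz' : z' ∈ Hc 0) :
    Matrix.trace ((D z - ((w : ℂ) / 2) • 1) * (D z - ((w : ℂ) / 2) • 1)) =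
      Matrix.trace ((D z' - ((w : ℂ) / 2) • 1) * (D z' - ((w : ℂ) / 2) • 1)) := by
  have hconv : Convex ℝ (Hc 0) := by
    have h1 := convex_halfSpace_gt (𝕜 := ℝ) (f := Complex.im) Complex.imLm.isLinear 0
    exact h1
  have hpre : IsPreconnected (Hc 0) := hconv.isPreconnected
  have htr : ∀ a : ℤ, Matrix.trace (ZW67.LP K (D z) a) = Matrix.trace (ZW67.LP K (D z') a) := by
    intro a
    refine C4a_const hpre (f := fun z => Matrix.trace (ZW67.LP K (D z) a)) ?_ ?_ hz hz'
    · have h1 : SP38.Sm (Hc 0) (fun z => ZW67.LP K (D z) a) := ZW67.Sm.aeval' hs _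
      simp only [Matrix.trace, Matrix.diag_apply]
      exact continuousOn_finset_sum _ fun i _ => (h1 i i).continuousOn
    · intro x hx
      have h1 := ZW67.LP_mul (hp x hx) a a
      rw [if_pos rfl] at h1
      exact C4a_trace_nat h1
  have hexp : ∀ x ∈ Hc 0, Matrix.trace ((D x - ((w : ℂ) / 2) • 1) * (D x - ((w : ℂ) / 2) • 1)) =
      ∑ a ∈ Finset.Icc (-(K : ℤ)) K, ((a : ℂ) - w / 2) ^ 2 * Matrix.trace (ZW67.LP K (D x) a) := by
    intro x hx
    have h1 : (D x - ((w : ℂ) / 2) • 1) * (D x - ((w : ℂ) / 2) • 1) =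
        ∑ a ∈ Finset.Icc (-(K : ℤ)) K, ((a : ℂ) - w / 2) ^ 2 • ZW67.LP K (D x) a := by
      have h2 : ∀ a : ℤ, (D x - ((w : ℂ) / 2) • 1) * ZW67.LP K (D x) a =
          ((a : ℂ) - w / 2) • ZW67.LP K (D x) a := by
        intro a
        rw [sub_mul, ZW67.LP_left (hp x hx), smul_mul_assoc, one_mul, sub_smul]
      calc (D x - ((w : ℂ) / 2) • 1) * (D x - ((w : ℂ) / 2) • 1)
          = (D x - ((w : ℂ) / 2) • 1) * (D x - ((w : ℂ) / 2) • 1) *
              ∑ a ∈ Finset.Icc (-(K : ℤ)) K, ZW67.LP K (D x) a := by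
            rw [ZW67.LP_sum, mul_one]
        _ = _ := by
            rw [Finset.mul_sum]
            refine Finset.sum_congr rfl fun a _ => ?_
            rw [mul_assoc, h2, mul_smul_comm, h2, smul_smul, sq]
    rw [h1, Matrix.trace_sum]
    refine Finset.sum_congr rfl fun a _ => ?_
    rw [Matrix.trace_smul, smul_eq_mul]
  rw [hexp z hz, hexp z' hz']
  refine Finset.sum_congr rfl fun a _ => ?_
  rw [htr a]

end ZQ38
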