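import Pool.Agent.LibZQ38.C3

/-!
The types of `𝔲 / 𝔫`.

PLAN. If LP (2K) D a ≠ 0 there is v ≠ 0 with D v = a v (ZW67.LP_left with W_all and npoly_eq: take v = LP (2K) D a u ≠ 0).
lift_typ gives x ∈ cx u ⊓ typ (a, w - a) with lamC x = v ≠ 0, so x ∉ cx n (kerC) and x is not in cx (brk u u)
(cx_mono). If a ≥ -1 and w - a ≥ -1, with w < 0 we get t = (a, w - a) ∈ {(-1,-1), (-1,0), (0,-1)}; the subspace
cx (brk u u) ⊓ typ t ≤ cx u ⊓ typ t has the same finrank by hypothesis, so they are equal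
(Submodule.eq_of_le_of_finrank_eq), a contradiction (brk u u ≤ u follows from hbr and hn).
-/

open Matrix Complex
open UpperHalfPlane hiding I
open MW38 (Fl Tri blk dg)
open SP38 (Hc)

namespace ZQ38

variable {ι : Type} [Fintype ι] [DecidableEq ι] {wt p : ι → ℤ} {K : ℕ}
variable {Φ : Matrix ι ι ℂ} {P : ℤ → Matrix ι ι ℂ} {h : Matrix ι ι ℂ}
  {r : ℕ} {m n : Submodule ℚ (Matrix ι ι ℚ)} {w : ℤ}
  {lam : Matrix ι ι ℚ →ₗ[ℚ] (Fin r → ℚ)} {rho : Matrix ι ι ℚ →ₗ[ℚ] Matrix (Fin r) (Fin r) ℚ}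

theorem types_ok (hW : WD wt m (m ⊓ Low ℚ wt) n w r lam rho) (hn : n ≤ m ⊓ Low ℚ wt)
    (hbr : brk (m ⊓ Low ℚ wt) (m ⊓ Low ℚ wt) ≤ n) (hm : IsLie m)
    (ht : ∀ A ∈ m, Tri wt A) {t₀ : Matrix ι ι ℚ} (ht₀ : t₀ ∈ m)
    (ht₀' : dgR wt t₀ = Matrix.diagonal (fun i => (wt i : ℚ)))
    (hP : GrP wt p K Φ P) (hh : DelH wt p Φ P h)
    (h1 : oP K P h ∈ cx m) (h2 : oQ wt K P h ∈ cx m) (hw : w < 0)
    (h3 : ∀ t : ℤ × ℤ, (t = (-1, -1) ∨ t = (-1, 0) ∨ t = (0, -1)) →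
      hab wt p Φ (m ⊓ Low ℚ wt) t = hab wt p Φ (brk (m ⊓ Low ℚ wt) (m ⊓ Low ℚ wt)) t) {a : ℤ}
    (ha : ZW67.LP (2 * K) (rhoC rho (oP K P h)) a ≠ 0) : a < -1 ∨ w - a < -1 := by
  by_contra hcon
  push Not at hcon
  obtain ⟨ha1, ha2⟩ := hcon
  have hD : Polynomial.aeval (rhoC rho (oP K P h)) (ZW67.npoly (2 * K)) = 0 := by
    rw [npoly_eq]
    exact_mod_cast W_all hW hm ht hP hh.un h1
  obtain ⟨u, hu⟩ : ∃ u, ZW67.LP (2 * K) (rhoC rho (oP K P h)) a *ᵥ u ≠ 0 := by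
    by_contra hall
    push Not at hall
    apply ha
    ext i j
    have h4 := congrFun (hall (Pi.single j 1)) i
    rw [Matrix.mulVec_single_one] at h4
    exact h4
  have hv : rhoC rho (oP K P h) *ᵥ (ZW67.LP (2 * K) (rhoC rho (oP K P h)) a *ᵥ u) =
      (a : ℂ) • (ZW67.LP (2 * K) (rhoC rho (oP K P h)) a *ᵥ u) := by
    rw [Matrix.mulVec_mulVec, ZW67.LP_left hD, Matrix.smul_mulVec]
  obtain ⟨x, hx, hxt, hxv⟩ := lift_typ hW hm ht ht₀ ht₀' hP hh h1 h2 hv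
  have hle : brk (m ⊓ Low ℚ wt) (m ⊓ Low ℚ wt) ≤ m ⊓ Low ℚ wt := hbr.trans hn
  have hcase : (a, w - a) = ((-1, -1) : ℤ × ℤ) ∨ (a, w - a) = ((-1, 0) : ℤ × ℤ) ∨
      (a, w - a) = ((0, -1) : ℤ × ℤ) := by
    simp only [Prod.mk.injEq]
    omega
  have h5 := h3 (a, w - a) hcase
  have h6 : (cx (brk (m ⊓ Low ℚ wt) (m ⊓ Low ℚ wt)) ⊓ typ wt p Φ a (w - a) :
      Submodule ℂ (Matrix ι ι ℂ)) = cx (m ⊓ Low ℚ wt) ⊓ typ wt p Φ a (w - a) :=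
    Submodule.eq_of_le_of_finrank_eq (inf_le_inf_right _ (cx_mono hle)) h5.symm
  have h7 : x ∈ cx (brk (m ⊓ Low ℚ wt) (m ⊓ Low ℚ wt)) ⊓ typ wt p Φ a (w - a) := by
    rw [h6]
    exact ⟨hx, hxt⟩
  have h8 : x ∈ cx n := cx_mono hbr h7.1
  have h9 := (hW.kerC hx).2 h8
  exact hu (hxv.symm.trans h9)

end ZQ38
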