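import Pool.Agent.LibZQ38.CDef
import Pool.Agent.LibZQ38.W2
import Pool.Agent.LibZQ38.W1b
import Pool.Agent.LibZQ38.C2

/-!
The derivative of the grading operator of `𝔲 / 𝔫` has degree `-1`.

PLAN. A z = oP K (P z) (h z) is smooth (An.sm, An.mul, An.inv) and lies in Fend 0 (oP_mem_Fend), so DZ A z ∈ Fend (-1) and
DB A z ∈ Fend 0 (deriv_Fend), both in cx m (deriv_mem_sub). θ = DZ D z = rhoC (DZ A z), DB D z = rhoC (DB A z) (DZ_rhoC).
rho is a Lie homomorphism on cx m (rho_lie: apply both sides to lamC x, x ∈ cx u; actC, Jacobi, surjC), so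
aeval (ad D) q (rhoC X) = rhoC (aeval (adm A) q X) for X ∈ cx m, where ad D M = D M - M D on Matrix (Fin r) (Fin r) ℂ
(Polynomial induction; cx m is stable, cx_isLie). Hence by poly_Fend: (1) rts (-1) (2K) of ad D kills θ and (2) rts 0 (2K)
of ad D kills DB D z. DB D z = -(conj θ): D z conj = w - D z (W_conj) on Hc 0; take DZ of the conjugate
(SP38 lemmas in WirtM / Fam3 on conjugates). So conj of (2): ad (conj D) = - ad D, so rts (-(2K)) 0 of ad D kills θ up to
sign. gcd of the two polynomials is X (X + 1): D (D θ..) i.e. with ad = ad D: ad (ad + 1) θ = 0. With LP a = LP (2K) (D z) a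
(spectral projectors, D z is killed by npoly (2K): W_all, npoly_eq): LP b θ LP a = 0 unless b - a ∈ {-1, 0}. (Equivalently
work with the blocks directly: (1) gives LP b θ LP a = 0 for b - a < -1, (2) gives 0 for b - a > 0.) The diagonal blocks vanish: from
D = Σ b LP b, and differentiating LP b * LP b = LP b and LP b * LP c = 0: LP c (DZ LP b) LP c = 0 for all b, c. Hence
θ = Σ_a LP (a - 1) θ LP a, so D θ = θ D - θ.
-/

open Matrix Complex
open UpperHalfPlane hiding I
open MW38 (Fl Tri blk dg)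
open SP38 (Hc)

namespace ZQ38

variable {ι : Type} [Fintype ι] [DecidableEq ι] {wt p : ι → ℤ} {K : ℕ}
variable {Φ : ℂ → Matrix ι ι ℂ} {P : ℂ → ℤ → Matrix ι ι ℂ} {h : ℂ → Matrix ι ι ℂ}
  {r : ℕ} {m n : Submodule ℚ (Matrix ι ι ℚ)} {w : ℤ} {t₀ : Matrix ι ι ℚ}
  {lam : Matrix ι ι ℚ →ₗ[ℚ] (Fin r → ℚ)} {rho : Matrix ι ι ℚ →ₗ[ℚ] Matrix (Fin r) (Fin r) ℚ}

theorem C5_ext {A B : Matrix (Fin r) (Fin r) ℂ} (h : ∀ v, A *ᵥ v = B *ᵥ v) : A = B := by
  ext i j
  have h1 := congrFun (h (Pi.single j 1)) i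
  rw [Matrix.mulVec_single_one, Matrix.mulVec_single_one] at h1
  exact h1

theorem rho_lie (hW : WD wt m (m ⊓ Low ℚ wt) n w r lam rho) (hm : IsLie m)
    (ht : ∀ A ∈ m, Tri wt A) {A B : Matrix ι ι ℂ} (hA : A ∈ cx m) (hB : B ∈ cx m) :
    rhoC rho (A * B - B * A) = rhoC rho A * rhoC rho B - rhoC rho B * rhoC rho A := by
  apply C5_ext
  intro v
  obtain ⟨x, hx, rfl⟩ := hW.surjC v
  have hAB : A * B - B * A ∈ cx m := cx_isLie hm A hA B hB
  have hBx : B * x - x * B ∈ cx (m ⊓ Low ℚ wt) := W2_adm_mem hm ht hB hx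
  have hAx : A * x - x * A ∈ cx (m ⊓ Low ℚ wt) := W2_adm_mem hm ht hA hx
  rw [← hW.actC hAB hx, Matrix.sub_mulVec, ← Matrix.mulVec_mulVec, ← Matrix.mulVec_mulVec,
    ← hW.actC hB hx, ← hW.actC hA hx, ← hW.actC hA hBx, ← hW.actC hB hAx, ← lamC_sub]
  congr 1
  noncomm_ring

/-- `rhoC` intertwines the polynomials in the commutators -/
theorem C5_poly (hW : WD wt m (m ⊓ Low ℚ wt) n w r lam rho) (hm : IsLie m)
    (ht : ∀ A ∈ m, Tri wt A) {A X : Matrix ι ι ℂ} (hA : A ∈ cx m) (hX : X ∈ cx m)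
    (q : Polynomial ℂ) : Polynomial.aeval (adm A) q X ∈ cx m ∧
      rhoC rho (Polynomial.aeval (adm A) q X) =
        Polynomial.aeval (adm (rhoC rho A)) q (rhoC rho X) := by
  induction q using Polynomial.induction_on' with
  | add p q hp hq =>
    rw [map_add, map_add, LinearMap.add_apply, LinearMap.add_apply, rhoC_add, hp.2, hq.2]
    exact ⟨Submodule.add_mem _ hp.1 hq.1, rfl⟩
  | monomial k a =>
    have hk : ∀ k : ℕ, ∀ X ∈ cx m, ((adm A) ^ k) X ∈ cx m ∧
        rhoC rho (((adm A) ^ k) X) = ((adm (rhoC rho A)) ^ k) (rhoC rho X) := by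
      intro k
      induction k with
      | zero =>
        intro X hX
        rw [pow_zero, pow_zero, Module.End.one_apply, Module.End.one_apply]
        exact ⟨hX, rfl⟩
      | succ k ih =>
        intro X hX
        rw [pow_succ, pow_succ, Module.End.mul_apply, Module.End.mul_apply]
        obtain ⟨h1, h2⟩ := ih _ (cx_isLie hm A hA X hX)
        refine ⟨h1, ?_⟩
        rw [adm_apply, h2, rho_lie hW hm ht hA hX, adm_apply (rhoC rho A)]
    obtain ⟨h1, h2⟩ := hk k X hX
    rw [Polynomial.aeval_monomial, Polynomial.aeval_monomial, ← Algebra.smul_def,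
      ← Algebra.smul_def, LinearMap.smul_apply, LinearMap.smul_apply, rhoC_smul, h2]
    exact ⟨Submodule.smul_mem _ _ h1, rfl⟩

/-- the polynomial with roots in `s` -/
noncomputable def C5_pr (s : Finset ℤ) : Polynomial ℂ :=
  ∏ a ∈ s, (Polynomial.X - Polynomial.C (a : ℂ))

theorem C5_rts (a b : ℤ) : rts a b = C5_pr (Finset.Icc a b) := rfl

theorem C5_pr_insert {s : Finset ℤ} {a : ℤ} (ha : a ∉ s) :
    C5_pr (insert a s) = (Polynomial.X - Polynomial.C (a : ℂ)) * C5_pr s := by
  rw [C5_pr, Finset.prod_insert ha]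
  rfl

theorem C5_step {V : Type*} [AddCommGroup V] [Module ℂ V] (f : Module.End ℂ V) (a : ℤ)
    (q : Polynomial ℂ) (x : V) :
    Polynomial.aeval f ((Polynomial.X - Polynomial.C (a : ℂ)) * q) x =
      f (Polynomial.aeval f q x) - (a : ℂ) • Polynomial.aeval f q x := by
  rw [map_mul, Module.End.mul_apply, map_sub, Polynomial.aeval_X, Polynomial.aeval_C,
    LinearMap.sub_apply, Module.algebraMap_end_apply]

/-- conjugation of a polynomial with integral roots in a commutator -/
theorem C5_conj (D M : Matrix ι ι ℂ) (s : Finset ℤ) :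
    (Polynomial.aeval (adm D) (C5_pr s) M).map (starRingEnd ℂ) =
      Polynomial.aeval (adm (D.map (starRingEnd ℂ))) (C5_pr s) (M.map (starRingEnd ℂ)) := by
  induction s using Finset.induction_on with
  | empty =>
    have h1 : C5_pr ∅ = 1 := Finset.prod_empty
    rw [h1, map_one, map_one]
    rfl
  | insert a s ha ih =>
    rw [C5_pr_insert ha, C5_step, C5_step, ← ih, adm_apply, adm_apply]
    ext i j
    simp only [Matrix.map_apply, Matrix.sub_apply, Matrix.smul_apply, Matrix.mul_apply,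
      map_sub, map_sum, map_mul, smul_eq_mul, map_intCast]

theorem C5_neg {V : Type*} [AddCommGroup V] [Module ℂ V] (f : Module.End ℂ V) (s : Finset ℤ) :
    ∀ x : V, Polynomial.aeval (-f) (C5_pr s) x =
      (-1 : ℂ) ^ s.card • Polynomial.aeval f (C5_pr (s.image fun a => -a)) x := by
  induction s using Finset.induction_on with
  | empty =>
    intro x
    have h1 : C5_pr ∅ = 1 := Finset.prod_empty
    rw [Finset.image_empty, h1, map_one, map_one, Finset.card_empty, pow_zero, one_smul]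
  | insert a s ha ih =>
    intro x
    have ha' : -a ∉ s.image fun a => -a := by
      intro h
      obtain ⟨b, hb, hb'⟩ := Finset.mem_image.1 h
      rw [neg_inj] at hb'
      exact ha (hb' ▸ hb)
    rw [Finset.image_insert, C5_pr_insert ha, C5_pr_insert ha', C5_step, C5_step, ih,
      Finset.card_insert_of_notMem ha, LinearMap.neg_apply, map_smul, Int.cast_neg]
    module

theorem C5_image (a b : ℤ) :
    ((Finset.Icc a b).image fun x => -x) = Finset.Icc (-b) (-a) := by
  ext x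
  rw [Finset.mem_image, Finset.mem_Icc]
  constructor
  · rintro ⟨y, hy, rfl⟩
    rw [Finset.mem_Icc] at hy
    omega
  · intro h
    exact ⟨-x, by rw [Finset.mem_Icc]; omega, by rw [neg_neg]⟩

theorem C5_coprime_pr {s t : Finset ℤ} (h : Disjoint s t) : IsCoprime (C5_pr s) (C5_pr t) := by
  refine IsCoprime.prod_left fun a ha => IsCoprime.prod_right fun b hb => ?_
  have hab : (a : ℂ) ≠ (b : ℂ) := by
    intro h1
    exact Finset.disjoint_left.1 h ha ((Int.cast_injective h1) ▸ hb)
  exact Polynomial.isCoprime_X_sub_C_of_isUnit_sub (sub_ne_zero.2 hab).isUnit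

theorem C5_two {V : Type*} [AddCommGroup V] [Module ℂ V] (f : Module.End ℂ V) (K : ℕ) {x : V}
    (h1 : Polynomial.aeval f (rts (-1) (2 * K)) x = 0)
    (h2 : Polynomial.aeval f (rts (-(2 * K)) 0) x = 0) : f (f x) + f x = 0 := by
  have e0 : ∀ y : V, Polynomial.aeval f (C5_pr {-1, 0}) y = f (f y) + f y := by
    intro y
    have e1 : C5_pr {-1, 0} = (Polynomial.X - Polynomial.C ((-1 : ℤ) : ℂ)) *
        ((Polynomial.X - Polynomial.C ((0 : ℤ) : ℂ)) * 1) := by
      rw [C5_pr, Finset.prod_pair (by decide), mul_one]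
    rw [e1, C5_step, C5_step, map_one, Module.End.one_apply]
    simp
  rcases Nat.eq_zero_or_pos K with rfl | hK
  · have e2 : Finset.Icc (-1 : ℤ) (2 * ((0 : ℕ) : ℤ)) = {-1, 0} := by decide
    rw [C5_rts, e2, e0] at h1
    exact h1
  · set s1 : Finset ℤ := Finset.Icc 1 (2 * K) with hs1
    set s2 : Finset ℤ := Finset.Icc (-(2 * K)) (-2) with hs2
    have hmul : ∀ s : Finset ℤ, Disjoint s {-1, 0} → C5_pr (s ∪ {-1, 0}) =
        C5_pr s * C5_pr {-1, 0} := fun s hs => Finset.prod_union hs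
    have d1 : Disjoint s1 {-1, 0} := by
      rw [Finset.disjoint_left]
      intro a ha hb
      rw [hs1, Finset.mem_Icc] at ha
      rw [Finset.mem_insert, Finset.mem_singleton] at hb
      omega
    have d2 : Disjoint s2 {-1, 0} := by
      rw [Finset.disjoint_left]
      intro a ha hb
      rw [hs2, Finset.mem_Icc] at ha
      rw [Finset.mem_insert, Finset.mem_singleton] at hb
      omega
    have d3 : Disjoint s1 s2 := by
      rw [Finset.disjoint_left]
      intro a ha hb
      rw [hs1, Finset.mem_Icc] at ha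
      rw [hs2, Finset.mem_Icc] at hb
      omega
    have u1 : Finset.Icc (-1 : ℤ) (2 * K) = s1 ∪ {-1, 0} := by
      ext a
      rw [Finset.mem_union, Finset.mem_Icc, hs1, Finset.mem_Icc, Finset.mem_insert,
        Finset.mem_singleton]
      omega
    have u2 : Finset.Icc (-(2 * K) : ℤ) 0 = s2 ∪ {-1, 0} := by
      ext a
      rw [Finset.mem_union, Finset.mem_Icc, hs2, Finset.mem_Icc, Finset.mem_insert,
        Finset.mem_singleton]
      omega
    rw [C5_rts, u1, hmul _ d1] at h1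
    rw [C5_rts, u2, hmul _ d2] at h2
    obtain ⟨u, v, huv⟩ := C5_coprime_pr d3
    have h3 : Polynomial.aeval f (u * (C5_pr s1 * C5_pr {-1, 0}) +
        v * (C5_pr s2 * C5_pr {-1, 0})) x = 0 := by
      rw [map_add, map_mul _ u, map_mul _ v, LinearMap.add_apply, Module.End.mul_apply,
        Module.End.mul_apply, h1, h2, map_zero, map_zero, add_zero]
    have h4 : u * (C5_pr s1 * C5_pr {-1, 0}) + v * (C5_pr s2 * C5_pr {-1, 0}) =
        C5_pr {-1, 0} := by
      rw [← mul_assoc, ← mul_assoc, ← add_mul, huv, one_mul]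
    rw [h4, e0] at h3
    exact h3

/-- derivatives of the polynomials in a smooth family -/
theorem C5_smpow {Ω : Set ℂ} {D : ℂ → Matrix (Fin r) (Fin r) ℂ} (hD : SP38.Sm Ω D)
    (k : ℕ) : SP38.Sm Ω (fun z => D z ^ k) := by
  induction k with
  | zero =>
    simp only [pow_zero]
    exact SP38.Sm.const 1
  | succ k ih =>
    simp only [pow_succ]
    exact SP38.Sm.mul ih hD

theorem C5_dpow {Ω : Set ℂ} (hΩ : IsOpen Ω) {D : ℂ → Matrix (Fin r) (Fin r) ℂ}
    (hD : SP38.Sm Ω D) {z : ℂ} (hz : z ∈ Ω) {T : Matrix (Fin r) (Fin r) ℂ}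
    (hT : adm (D z) (SP38.DZ D z) + SP38.DZ D z = T) (hc : T * D z = D z * T) (k : ℕ) :
    adm (D z) (SP38.DZ (fun z => D z ^ k) z) + SP38.DZ (fun z => D z ^ k) z =
      (k : ℂ) • (D z ^ (k - 1) * T) := by
  induction k with
  | zero =>
    simp only [pow_zero]
    rw [SP38.DZ_const, map_zero, add_zero, Nat.cast_zero, zero_smul]
  | succ k ih =>
    have e : SP38.DZ (fun z => D z ^ (k + 1)) z =
        SP38.DZ (fun z => D z ^ k) z * D z + D z ^ k * SP38.DZ D z := by
      simp only [pow_succ]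
      exact SP38.DZ_mul hΩ hz (C5_smpow hD k) hD
    set X := SP38.DZ (fun z => D z ^ k) z with hX
    set Y := SP38.DZ D z with hY
    have hcom : D z * D z ^ k = D z ^ k * D z := (pow_succ' (D z) k).symm.trans (pow_succ (D z) k)
    rw [e, adm_apply]
    rw [adm_apply] at ih hT
    have e2 : D z * (X * D z + D z ^ k * Y) - (X * D z + D z ^ k * Y) * D z +
        (X * D z + D z ^ k * Y) = (D z * X - X * D z + X) * D z +
          D z ^ k * (D z * Y - Y * D z + Y) := by
      have e3 : D z * (D z ^ k * Y) = D z ^ k * (D z * Y) := by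
        rw [← Matrix.mul_assoc, hcom, Matrix.mul_assoc]
      rw [Matrix.mul_add (D z), e3]
      noncomm_ring
    rw [e2, ih, hT, Matrix.smul_mul, Matrix.mul_assoc, hc]
    rcases k with _ | k
    · simp
    · rw [Nat.add_sub_cancel, Nat.add_sub_cancel, ← Matrix.mul_assoc, ← pow_succ,
        Nat.cast_succ (k + 1), add_smul, one_smul]

theorem C5_sm_aeval {Ω : Set ℂ} {D : ℂ → Matrix (Fin r) (Fin r) ℂ} (hD : SP38.Sm Ω D)
    (q : Polynomial ℂ) : SP38.Sm Ω (fun z => Polynomial.aeval (D z) q) := by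
  induction q using Polynomial.induction_on' with
  | add p q hp hq =>
    simp only [map_add]
    exact SP38.Sm.add hp hq
  | monomial k a =>
    simp only [Polynomial.aeval_monomial, ← Algebra.smul_def]
    exact SP38.Sm.smul a (C5_smpow hD k)

theorem C5_daeval {Ω : Set ℂ} (hΩ : IsOpen Ω) {D : ℂ → Matrix (Fin r) (Fin r) ℂ}
    (hD : SP38.Sm Ω D) {z : ℂ} (hz : z ∈ Ω) {T : Matrix (Fin r) (Fin r) ℂ}
    (hT : adm (D z) (SP38.DZ D z) + SP38.DZ D z = T) (hc : T * D z = D z * T)
    (q : Polynomial ℂ) :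
    adm (D z) (SP38.DZ (fun z => Polynomial.aeval (D z) q) z) +
      SP38.DZ (fun z => Polynomial.aeval (D z) q) z =
      Polynomial.aeval (D z) (Polynomial.derivative q) * T := by
  induction q using Polynomial.induction_on' with
  | add p q hp hq =>
    have e : SP38.DZ (fun z => Polynomial.aeval (D z) (p + q)) z =
        SP38.DZ (fun z => Polynomial.aeval (D z) p) z +
          SP38.DZ (fun z => Polynomial.aeval (D z) q) z := by
      simp only [map_add]
      exact SP38.DZ_add hΩ hz (C5_sm_aeval hD p) (C5_sm_aeval hD q)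
    rw [e, map_add, map_add, map_add, Matrix.add_mul, ← hp, ← hq]
    abel
  | monomial k a =>
    have e : SP38.DZ (fun z => Polynomial.aeval (D z) (Polynomial.monomial k a)) z =
        a • SP38.DZ (fun z => D z ^ k) z := by
      simp only [Polynomial.aeval_monomial, ← Algebra.smul_def]
      exact SP38.DZ_smul hΩ hz a (C5_smpow hD k)
    rw [e, map_smul, ← smul_add, C5_dpow hΩ hD hz hT hc, Polynomial.derivative_monomial,
      Polynomial.aeval_monomial, ← Algebra.smul_def, Matrix.smul_mul, smul_smul]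

theorem C5_separable (s : Finset ℤ) : (C5_pr s).Separable := by
  refine Polynomial.separable_prod' ?_ ?_
  · intro a _ b _ hab
    have hab' : (a : ℂ) ≠ (b : ℂ) := fun h1 => hab (Int.cast_injective h1)
    exact Polynomial.isCoprime_X_sub_C_of_isUnit_sub (sub_ne_zero.2 hab').isUnit
  · intro a _
    exact Polynomial.separable_X_sub_C

/-- the degree of the derivative, abstractly -/
theorem C5_main {Ω : Set ℂ} (hΩ : IsOpen Ω) {D : ℂ → Matrix (Fin r) (Fin r) ℂ}
    (hD : SP38.Sm Ω D) {s : Finset ℤ} (hs : ∀ z ∈ Ω, Polynomial.aeval (D z) (C5_pr s) = 0)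
    {z : ℂ} (hz : z ∈ Ω)
    (h : adm (D z) (adm (D z) (SP38.DZ D z)) + adm (D z) (SP38.DZ D z) = 0) :
    adm (D z) (SP38.DZ D z) + SP38.DZ D z = 0 := by
  set T := adm (D z) (SP38.DZ D z) + SP38.DZ D z with hT
  have hc0 : adm (D z) T = 0 := by
    rw [hT, map_add]
    exact h
  have hc : T * D z = D z * T := by
    rw [adm_apply, sub_eq_zero] at hc0
    exact hc0.symm
  have h1 := C5_daeval hΩ hD hz hT.symm hc (C5_pr s)
  have h2 : SP38.DZ (fun z => Polynomial.aeval (D z) (C5_pr s)) z = 0 := by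
    rw [← SP38.DZ_const (z := z) (0 : Matrix (Fin r) (Fin r) ℂ)]
    refine SP38.DZ_congr ?_
    filter_upwards [hΩ.mem_nhds hz] with x hx
    exact hs x hx
  rw [h2, map_zero, add_zero] at h1
  obtain ⟨u, v, huv⟩ := C5_separable s
  have h3 : Polynomial.aeval (D z) (u * C5_pr s + v * Polynomial.derivative (C5_pr s)) = 1 := by
    rw [huv, map_one]
  rw [map_add, map_mul, map_mul, hs z hz, mul_zero, zero_add] at h3
  calc T = 1 * T := (Matrix.one_mul T).symm
    _ = 0 := by rw [← h3, Matrix.mul_assoc, ← h1, Matrix.mul_zero]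

theorem C5_An (hO : OpD wt p K Φ P h) : An (Hc 0) (fun z => oP K (P z) (h z)) := by
  have hu : ∀ z ∈ Hc 0, IsUnit (h z) := fun z hz => Un.isUnit (hO.del z hz).un
  have h1 : An (Hc 0) (fun z => PG K (P z)) :=
    An.sum _ fun a _ => An.smul (a : ℂ) (hO.anP a)
  exact An.mul (An.mul hO.anh h1) (An.inv hO.anh hu)

theorem deg_DD (hO : OpD wt p K Φ P h) (hQ : QuD wt K P h m n t₀ w r lam rho) {z : ℂ}
    (hz : z ∈ Hc 0) :
    SP38.DZ (DD K P h rho) z * DD K P h rho z - DD K P h rho z * SP38.DZ (DD K P h rho) z =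
      SP38.DZ (DD K P h rho) z := by
  have hΩ := SP38.isOpen_Hc 0
  have hA : SP38.Sm (Hc 0) (fun z => oP K (P z) (h z)) := (C5_An hO).sm
  have hD : SP38.Sm (Hc 0) (DD K P h rho) := rhoC_sm hA
  have e1 : SP38.DZ (DD K P h rho) z = rhoC rho (SP38.DZ (fun z => oP K (P z) (h z)) z) :=
    (DZ_rhoC hΩ hA hz).1
  have e2 : SP38.DB (DD K P h rho) z = rhoC rho (SP38.DB (fun z => oP K (P z) (h z)) z) :=
    (DZ_rhoC hΩ hA hz).2
  have hm := deriv_mem_sub hΩ hA hQ.opP hz
  have hF := deriv_Fend hΩ hO.hol hA (c := 0)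
    (fun z hz => (oP_mem_Fend (hO.gr z hz) (hO.del z hz)).1) hz
  have hoz := hQ.opP z hz
  have h1 : Polynomial.aeval (adm (DD K P h rho z)) (rts (-1) (2 * K))
      (SP38.DZ (DD K P h rho) z) = 0 := by
    have h2 := (C5_poly hQ.wd hQ.lie hQ.tri hoz hm.1 (rts (-1) (2 * K))).2
    have hF2 : SP38.DZ (fun z => oP K (P z) (h z)) z ∈ Fend p (Φ z) (-1) := by
      have := hF.2
      rwa [zero_sub] at this
    rw [e1, DD, ← h2, poly_Fend (hO.gr z hz) (hO.del z hz) hF2]
    have := rhoC_smul (rho := rho) 0 (0 : Matrix ι ι ℂ)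
    rwa [smul_zero, zero_smul] at this
  have h2 : Polynomial.aeval (adm (DD K P h rho z)) (rts 0 (2 * K))
      (SP38.DB (DD K P h rho) z) = 0 := by
    have h2 := (C5_poly hQ.wd hQ.lie hQ.tri hoz hm.2 (rts 0 (2 * K))).2
    rw [e2, DD, ← h2, poly_Fend (hO.gr z hz) (hO.del z hz) hF.1]
    have := rhoC_smul (rho := rho) 0 (0 : Matrix ι ι ℂ)
    rwa [smul_zero, zero_smul] at this
  have hconj : ∀ x ∈ Hc 0, (DD K P h rho x).map (starRingEnd ℂ) =
      (w : ℂ) • 1 - DD K P h rho x := fun x hx =>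
    W_conj hQ.wd hQ.tri hQ.t0 hQ.t0' (hO.gr x hx) (hO.del x hx) (hQ.opP x hx) (hQ.opQ x hx)
  have e3 : (SP38.DB (DD K P h rho) z).map (starRingEnd ℂ) = -SP38.DZ (DD K P h rho) z := by
    rw [← SP38.DZ_conj hΩ hz hD]
    have e4 : SP38.DZ (fun z => (DD K P h rho z).map (starRingEnd ℂ)) z =
        SP38.DZ (fun z => (w : ℂ) • 1 - DD K P h rho z) z := by
      refine SP38.DZ_congr ?_
      filter_upwards [hΩ.mem_nhds hz] with x hx
      exact hconj x hx
    rw [e4, SP38.DZ_sub hΩ hz (SP38.Sm.const _) hD, SP38.DZ_const, zero_sub]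
  have h3 : Polynomial.aeval (adm (DD K P h rho z)) (rts (-(2 * K)) 0)
      (SP38.DZ (DD K P h rho) z) = 0 := by
    have h4 := C5_conj (DD K P h rho z) (SP38.DB (DD K P h rho) z) (Finset.Icc 0 (2 * K))
    rw [← C5_rts, h2, e3, hconj z hz] at h4
    have e5 : adm ((w : ℂ) • 1 - DD K P h rho z) = -adm (DD K P h rho z) := by
      apply LinearMap.ext
      intro M
      rw [LinearMap.neg_apply, adm_apply, adm_apply, Matrix.sub_mul, Matrix.mul_sub,
        Matrix.smul_mul, Matrix.mul_smul, Matrix.one_mul, Matrix.mul_one]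
      abel
    rw [e5, C5_rts, C5_neg, C5_image, neg_zero, map_neg, smul_neg] at h4
    have h5 : ((0 : Matrix (Fin r) (Fin r) ℂ)).map (starRingEnd ℂ) = 0 := by
      ext i j
      simp
    rw [h5] at h4
    have h6 := neg_eq_zero.1 h4.symm
    exact (smul_eq_zero.1 h6).resolve_left (pow_ne_zero _ (neg_ne_zero.2 one_ne_zero))
  have h4 := C5_two _ K h1 h3
  have h5 := C5_main hΩ hD (s := Finset.Icc (-(2 * K)) (2 * K)) (fun x hx =>
    W_all hQ.wd hQ.lie hQ.tri (hO.gr x hx) (hO.del x hx).un (hQ.opP x hx)) hz h4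
  rw [adm_apply] at h5
  have h6 := eq_neg_of_add_eq_zero_right h5
  rw [neg_sub] at h6
  exact h6.symm

end ZQ38
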