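import Pool.Agent.LibZW67.Stmt
import Pool.Agent.LibZQ38.Defs

/-!
A flat splitting which is real at one point.
-/

open Matrix Complex
open UpperHalfPlane hiding I
open MW38 (Fl Tri blk dg)
open SP38 (Hc)

namespace ZQ38

variable {ι : Type} [Fintype ι] [DecidableEq ι] {wt p : ι → ℤ} {K : ℕ}

/-- the conjugates of the projectors -/
theorem C7_conj {r : ℕ} {w : ℤ} {A : Matrix (Fin r) (Fin r) ℂ}
    (hA : Polynomial.aeval A (ZW67.npoly K) = 0)
    (hc : A.map (starRingEnd ℂ) = (w : ℂ) • 1 - A) (a : ℤ) :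
    (ZW67.LP K A a).map (starRingEnd ℂ) = ZW67.LP K A (w - a) := by
  have hconjB : ∀ a : ℤ, (ZW67.LP K A a).map (starRingEnd ℂ) * A =
      ((w - a : ℤ) : ℂ) • (ZW67.LP K A a).map (starRingEnd ℂ) := by
    intro a
    have h1 : (ZW67.LP K A a).map (starRingEnd ℂ) * A.map (starRingEnd ℂ) =
        (a : ℂ) • (ZW67.LP K A a).map (starRingEnd ℂ) := by
      rw [← Matrix.map_mul, ZW67.LP_right hA]
      ext i j
      simp
    rw [hc, mul_sub, mul_smul_comm, mul_one, sub_eq_iff_eq_add] at h1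
    have h2 : (ZW67.LP K A a).map (starRingEnd ℂ) * A =
        (w : ℂ) • (ZW67.LP K A a).map (starRingEnd ℂ) -
          (a : ℂ) • (ZW67.LP K A a).map (starRingEnd ℂ) := by
      rw [h1]; abel
    rw [h2, ← sub_smul]
    push_cast
    rfl
  have hsumc : ∑ b ∈ Finset.Icc (-(K : ℤ)) K, (ZW67.LP K A b).map (starRingEnd ℂ) = 1 := by
    have h1 := congrArg (fun M : Matrix (Fin r) (Fin r) ℂ => M.map (starRingEnd ℂ))
      (ZW67.LP_sum (K := K) (A := A))
    have h2 : (1 : Matrix (Fin r) (Fin r) ℂ).map (starRingEnd ℂ) = 1 := by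
      rw [Matrix.map_one] <;> simp
    rw [h2] at h1
    rw [← h1]
    ext i j
    simp [Matrix.sum_apply, Matrix.map_apply, map_sum]
  have h1 : (ZW67.LP K A a).map (starRingEnd ℂ) =
      (ZW67.LP K A a).map (starRingEnd ℂ) * ZW67.LP K A (w - a) := by
    rw [ZW67.LP_eigen_right hA (hconjB a), if_pos rfl]
  have h2 : ZW67.LP K A (w - a) =
      (ZW67.LP K A a).map (starRingEnd ℂ) * ZW67.LP K A (w - a) := by
    by_cases ha : a ∈ Finset.Icc (-(K : ℤ)) K
    · calc ZW67.LP K A (w - a) = (∑ b ∈ Finset.Icc (-(K : ℤ)) K,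
            (ZW67.LP K A b).map (starRingEnd ℂ)) * ZW67.LP K A (w - a) := by
            rw [hsumc, one_mul]
        _ = (ZW67.LP K A a).map (starRingEnd ℂ) * ZW67.LP K A (w - a) := by
            rw [Finset.sum_mul]
            refine Finset.sum_eq_single_of_mem a ha fun b _ hb => ?_
            rw [ZW67.LP_eigen_right hA (hconjB b), if_neg (by omega)]
    · have h3 : (ZW67.LP K A a).map (starRingEnd ℂ) = 0 := by
        rw [ZW67.LP_zero ha]
        ext i j
        simp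
      rw [h3, zero_mul]
      calc ZW67.LP K A (w - a) = (∑ b ∈ Finset.Icc (-(K : ℤ)) K,
            (ZW67.LP K A b).map (starRingEnd ℂ)) * ZW67.LP K A (w - a) := by
            rw [hsumc, one_mul]
        _ = 0 := by
            rw [Finset.sum_mul]
            refine Finset.sum_eq_zero fun b hb => ?_
            rw [ZW67.LP_eigen_right hA (hconjB b), if_neg]
            intro e
            have : a = b := by omega
            exact ha (this ▸ hb)
  rw [h1, ← h2]

theorem C7_conjv {r : ℕ} (M : Matrix (Fin r) (Fin r) ℂ) (v : Fin r → ℂ) :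
    (fun i => (starRingEnd ℂ) ((M *ᵥ v) i)) =
      M.map (starRingEnd ℂ) *ᵥ (fun i => (starRingEnd ℂ) (v i)) := by
  funext i
  simp only [Matrix.mulVec, dotProduct, map_sum, map_mul, Matrix.map_apply]

theorem C7_key {r : ℕ} {w : ℤ} (hw : w < 0) {A : Matrix (Fin r) (Fin r) ℂ}
    (hA : Polynomial.aeval A (ZW67.npoly K) = 0)
    (hc : A.map (starRingEnd ℂ) = (w : ℂ) • 1 - A) {v : Fin r → ℂ}
    (h1 : ∀ a : ℤ, a < 0 → ZW67.LP K A a *ᵥ v = 0)
    (h2 : ∀ a : ℤ, 0 ≤ a ∨ 0 ≤ w - a →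
      ZW67.LP K A a *ᵥ (v - fun i => (starRingEnd ℂ) (v i)) = 0) : v = 0 := by
  have h3 : ∀ a : ℤ, ZW67.LP K A a *ᵥ v = 0 := by
    intro a
    rcases lt_or_ge a 0 with ha | ha
    · exact h1 a ha
    · have h4 := h2 a (Or.inl ha)
      rw [Matrix.mulVec_sub, sub_eq_zero] at h4
      rw [h4]
      have h5 : ZW67.LP K A a = (ZW67.LP K A (w - a)).map (starRingEnd ℂ) := by
        rw [C7_conj hA hc]
        congr 1
        ring
      rw [h5, ← C7_conjv, h1 (w - a) (by omega)]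
      funext i
      simp
  have h6 : v = (∑ a ∈ Finset.Icc (-(K : ℤ)) K, ZW67.LP K A a) *ᵥ v := by
    rw [ZW67.LP_sum, Matrix.one_mulVec]
  rw [h6, Matrix.sum_mulVec]
  exact Finset.sum_eq_zero fun a _ => h3 a

theorem flat_const {r : ℕ} {w : ℤ} (hw : w < 0) {D : ℂ → Matrix (Fin r) (Fin r) ℂ}
    {e : ℂ → Fin r → ℂ} (hp : ∀ z ∈ Hc 0, Polynomial.aeval (D z) (ZW67.npoly K) = 0)
    (hc : ∀ z ∈ Hc 0, (D z).map (starRingEnd ℂ) = (w : ℂ) • 1 - D z)
    (him : ∀ z ∈ Hc 0, ∀ a : ℤ, 0 ≤ a ∨ 0 ≤ w - a →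
      ZW67.LP K (D z) a *ᵥ (e z - fun i => (starRingEnd ℂ) (e z i)) = 0)
    (hf : ZW67.FlatE K D e) {x : ℂ} (hx : x ∈ Hc 0) {r0 : Fin r → ℝ} (he : e x = SP38.ofR r0) :
    ∀ z ∈ Hc 0, e z = SP38.ofR r0 := by
  obtain ⟨c, hcf⟩ := hf
  have hv : e x - SP38.ofR c = 0 := by
    apply C7_key hw (hp x hx) (hc x hx) (hcf x hx)
    intro a _
    have : (e x - SP38.ofR c) - (fun i => (starRingEnd ℂ) ((e x - SP38.ofR c) i)) = 0 := by
      rw [he]
      funext i
      simp [SP38.ofR]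
    rw [this, Matrix.mulVec_zero]
  have hr : SP38.ofR c = SP38.ofR r0 := by
    rw [← he]
    exact (sub_eq_zero.mp hv).symm
  intro z hz
  have hv2 : e z - SP38.ofR r0 = 0 := by
    apply C7_key hw (hp z hz) (hc z hz)
    · intro a ha
      rw [← hr]
      exact hcf z hz a ha
    · intro a ha
      have : (e z - SP38.ofR r0) - (fun i => (starRingEnd ℂ) ((e z - SP38.ofR r0) i)) =
          e z - fun i => (starRingEnd ℂ) (e z i) := by
        funext i
        simp [SP38.ofR]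
      rw [this]
      exact him z hz a ha
  exact sub_eq_zero.mp hv2

end ZQ38
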