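import Pool.Agent.LibZQ38.JX
import Pool.Agent.LibZQ38.C4a
import Pool.Agent.LibZQ38.C4b
import Pool.Agent.LibZQ38.C5
import Pool.Agent.LibZQ38.C6
import Pool.Agent.LibZQ38.C7
import Pool.Agent.LibZQ38.C8b
import Pool.Agent.LibZQ38.C10
import Pool.Agent.LibZQ38.C11a
import Pool.Agent.LibZQ38.C11b
import Pool.Agent.LibZQ38.C11c
import Pool.Agent.LibZQ38.C12a
import Pool.Agent.LibZW67.Main

/-!
The assembly of `MixedToPure`.
-/

open Matrix Complex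
open UpperHalfPlane hiding I
open MW38 (Fl Tri blk dg)
open SP38 (Hc)

namespace ZQ38

variable {ι : Type} [Fintype ι] [DecidableEq ι] {wt p : ι → ℤ} {K : ℕ}
  {Q : Matrix ι ι ℚ} {Φ : ℂ → Matrix ι ι ℂ} {h : ℂ → Matrix ι ι ℂ} {s : Equiv.Perm ι}

/-- the operators -/
theorem asm_OpD (hv : MW38.VMHS wt p (Q.map (algebraMap ℚ ℝ)) Φ)
    (hs : ∀ j, wt (s j) = wt j ∧ p (s j) = wt j - p j) (hK : ∀ j, |p j| ≤ K)
    (hh : ∀ z ∈ Hc 0, DelH wt p (Φ z) (PPg wt p s (Φ z)) (h z)) (hha : An (Hc 0) h) :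
    OpD wt p K Φ (fun z => PPg wt p s (Φ z)) h where
  hol := ⟨fun z hz => (hv.mhs z hz).unit, hv.hol, fun z hz => hv.tr z hz⟩
  gr := fun z hz => exists_GrP (hv.mhs z hz) hs hK
  del := hh
  anP := fun a => PPg_an hv hs a
  anh := hha

/-- the rational class of a point -/
theorem asm_val {P : ℂ → ℤ → Matrix ι ι ℂ} {m n : Submodule ℚ (Matrix ι ι ℚ)}
    {t₀ : Matrix ι ι ℚ} {w : ℤ} {r : ℕ} {lam : Matrix ι ι ℚ →ₗ[ℚ] (Fin r → ℚ)}
    {rho : Matrix ι ι ℚ →ₗ[ℚ] Matrix (Fin r) (Fin r) ℚ} (hn : n ≤ m ⊓ Low ℚ wt)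
    (hQ : QuD wt K P h m n t₀ w r lam rho) {t : Matrix ι ι ℚ} {z : ℂ}
    (hz : h z * Dwt wt * (h z)⁻¹ - t.map (algebraMap ℚ ℂ) ∈ cx n) :
    ee wt h t₀ lam z = SP38.ofR fun i => ((lam (t - t₀) i : ℚ) : ℝ) := by
  have h1 : h z * Dwt wt * (h z)⁻¹ - t₀.map (algebraMap ℚ ℂ) =
      (h z * Dwt wt * (h z)⁻¹ - t.map (algebraMap ℚ ℂ)) + (t - t₀).map (algebraMap ℚ ℂ) := by
    have : (t - t₀).map (algebraMap ℚ ℂ) = t.map (algebraMap ℚ ℂ) - t₀.map (algebraMap ℚ ℂ) := by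
      ext i j
      simp
    rw [this]
    abel
  rw [ee, h1, lamC_add, (hQ.wd.kerC (cx_mono hn hz)).2 hz, zero_add, lamC_rat]
  funext i
  simp [SP38.ofR]

/-- flat and rational at one point: impossible -/
theorem asm_flat (hv : MW38.VMHS wt p (Q.map (algebraMap ℚ ℝ)) Φ)
    (hs : ∀ j, wt (s j) = wt j ∧ p (s j) = wt j - p j) (hK : ∀ j, |p j| ≤ K)
    (hh : ∀ z ∈ Hc 0, DelH wt p (Φ z) (PPg wt p s (Φ z)) (h z)) (hha : An (Hc 0) h)
    {n : Submodule ℚ (Matrix ι ι ℚ)} {t₀ : Matrix ι ι ℚ} {w : ℤ} {r : ℕ}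
    {lam : Matrix ι ι ℚ →ₗ[ℚ] (Fin r → ℚ)}
    {rho : Matrix ι ι ℚ →ₗ[ℚ] Matrix (Fin r) (Fin r) ℚ} (hw : w < 0)
    (hn : ZL19.MaxI (genLie wt p Φ) (genLie wt p Φ ⊓ Low ℚ wt) n)
    (hQ : QuD wt K (fun z => PPg wt p s (Φ z)) h (genLie wt p Φ) n t₀ w r lam rho)
    {t : Matrix ι ι ℚ} (ht : t ∈ genLie wt p Φ)
    (ht' : dgR wt t = Matrix.diagonal (fun i => (wt i : ℚ))) {τ : ℍ}
    (hτ : h τ * Dwt wt * (h τ)⁻¹ - t.map (algebraMap ℚ ℂ) ∈ cx n)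
    (hf : ZW67.FlatE (2 * K) (DD K (fun z => PPg wt p s (Φ z)) h rho) (ee wt h t₀ lam)) :
    False := by
  have hO := asm_OpD hv hs hK hh hha
  have hτ' : (τ : ℂ) ∈ Hc 0 := τ.2
  have h1 := asm_val hn.le hQ hτ
  have h2 := flat_const hw (fun z hz => DD_poly hO hQ hz) (fun z hz => DD_conj hO hQ hz)
    (fun z hz a ha => ee_im hO hQ hz ha) hf hτ' h1
  refine C8_noflat hO.gr hO.del hO.anP hO.anh hn ht ht' fun z hz => ?_
  have h3 : h z * Dwt wt * (h z)⁻¹ - t.map (algebraMap ℚ ℂ) ∈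
      cx (genLie wt p Φ ⊓ Low ℚ wt) := by
    have e1 : h z * Dwt wt * (h z)⁻¹ - t.map (algebraMap ℚ ℂ) =
        (h z * Dwt wt * (h z)⁻¹ - t₀.map (algebraMap ℚ ℂ)) -
          (t - t₀).map (algebraMap ℚ ℂ) := by
      have : (t - t₀).map (algebraMap ℚ ℂ) =
          t.map (algebraMap ℚ ℂ) - t₀.map (algebraMap ℚ ℂ) := by
        ext i j
        simp
      rw [this]
      abel
    rw [e1]
    refine Submodule.sub_mem _ (Y_sub_t0 hO hQ hz) (mem_cx_of_mem ⟨?_, ?_⟩)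
    · exact Submodule.sub_mem _ ht hQ.t0
    · have h4 : dgR wt (t - t₀) = 0 := by rw [B13_dgR_sub, ht', hQ.t0', sub_self]
      have h5 : Tri wt (t - t₀) := hQ.tri _ (Submodule.sub_mem _ ht hQ.t0)
      intro i j hij
      rcases lt_or_eq_of_le hij with h6 | h6
      · exact h5 i j h6
      · have h7 := congrFun (congrFun h4 i) j
        simpa [dgR, h6] using h7
  refine (hQ.wd.kerC h3).1 ?_
  have h4 := h2 z hz
  have e1 : h z * Dwt wt * (h z)⁻¹ - t.map (algebraMap ℚ ℂ) =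
      (h z * Dwt wt * (h z)⁻¹ - t₀.map (algebraMap ℚ ℂ)) -
        (t - t₀).map (algebraMap ℚ ℂ) := by
    have : (t - t₀).map (algebraMap ℚ ℂ) =
        t.map (algebraMap ℚ ℂ) - t₀.map (algebraMap ℚ ℂ) := by
      ext i j
      simp
    rw [this]
    abel
  rw [ee] at h4
  rw [e1, lamC_sub, h4, lamC_rat]
  funext i
  simp [SP38.ofR]

/-- the member of the family attached to a maximal ideal -/
theorem asm_mem (hv : MW38.VMHS wt p (Q.map (algebraMap ℚ ℝ)) Φ)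
    (hs : ∀ j, wt (s j) = wt j ∧ p (s j) = wt j - p j) (hK : ∀ j, |p j| ≤ K)
    (hh : ∀ z ∈ Hc 0, DelH wt p (Φ z) (PPg wt p s (Φ z)) (h z)) (hha : An (Hc 0) h)
    (htypes : ∀ t : ℤ × ℤ, (t = (-1, -1) ∨ t = (-1, 0) ∨ t = (0, -1)) → ∀ τ : ℍ,
      hab wt p (Φ τ) (genLie wt p Φ ⊓ Low ℚ wt) t =
        hab wt p (Φ τ) (brk (genLie wt p Φ ⊓ Low ℚ wt) (genLie wt p Φ ⊓ Low ℚ wt)) t)
    {n : Submodule ℚ (Matrix ι ι ℚ)}
    (hn : ZL19.MaxI (genLie wt p Φ) (genLie wt p Φ ⊓ Low ℚ wt) n)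
    {t₀ : Matrix ι ι ℚ} (ht₀ : t₀ ∈ genLie wt p Φ)
    (ht₀' : dgR wt t₀ = Matrix.diagonal (fun i => (wt i : ℚ)))
    (d : Dat wt Q (genLie wt p Φ) n) :
    ZW67.Mem d.w (2 * K) ((QWf wt Q d.j).map (algebraMap ℚ ℝ))
      (DD K (fun z => PPg wt p s (Φ z)) h d.rho) (ee wt h t₀ d.lam) := by
  have hO := asm_OpD hv hs hK hh hha
  obtain ⟨hlie, htri, hop⟩ := C8_lie hO.gr hO.del hO.anP hO.anh
  have hQ : QuD wt K (fun z => PPg wt p s (Φ z)) h (genLie wt p Φ) n t₀ d.w d.r d.lam d.rho :=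
    ⟨hlie, htri, ht₀, ht₀', fun z hz => (hop z hz).1, fun z hz => (hop z hz).2, d.wd⟩
  have hbr : brk (genLie wt p Φ ⊓ Low ℚ wt) (genLie wt p Φ ⊓ Low ℚ wt) ≤ n := by
    refine Submodule.span_le.2 ?_
    rintro C ⟨X, hX, Y, hY, rfl⟩
    exact hn.br X hX Y hY
  exact
    { gd :=
        { sm := DD_sm hO
          poly := fun z hz => DD_poly hO hQ hz
          conj := fun z hz => DD_conj hO hQ hz
          skew := fun z hz => dat_skew hv hs hK hh hha d hz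
          deg := fun z hz => deg_DD hO hQ hz
          pos := fun z hz a v hv1 hv0 => dat_pos hv hs hK hh hha d hz a v hv1 hv0 }
      sme := ee_sm hO
      d0 := fun z hz a ha => ee_d0 hO hQ hz ha
      d1 := fun z hz a ha => ee_d1 hO hQ hz ha
      types := fun z hz a ha => types_ok d.wd hn.le hbr hlie htri ht₀ ht₀' (hO.gr z hz)
        (hO.del z hz) (hop z hz).1 (hop z hz).2 d.jd.neg
        (fun t ht => htypes t ht ⟨z, hz⟩) ha
      neg := d.jd.neg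
      frame := dat_frame hv hs hK hh hha d }

/-- equivariance -/
theorem asm_inv (hv : MW38.VMHS wt p (Q.map (algebraMap ℚ ℝ)) Φ)
    (hs : ∀ j, wt (s j) = wt j ∧ p (s j) = wt j - p j) (hK : ∀ j, |p j| ≤ K)
    (hh : ∀ z ∈ Hc 0, DelH wt p (Φ z) (PPg wt p s (Φ z)) (h z)) (hha : An (Hc 0) h)
    {n n' : Submodule ℚ (Matrix ι ι ℚ)}
    (hn : ZL19.MaxI (genLie wt p Φ) (genLie wt p Φ ⊓ Low ℚ wt) n)
    {t₀ : Matrix ι ι ℚ} (ht₀ : t₀ ∈ genLie wt p Φ)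
    (ht₀' : dgR wt t₀ = Matrix.diagonal (fun i => (wt i : ℚ)))
    (d : Dat wt Q (genLie wt p Φ) n) (d' : Dat wt Q (genLie wt p Φ) n')
    {γ : Matrix ι ι ℚ} (hγ : IsUnit γ) (hγt : Tri wt γ)
    (hγQ : ∀ k, (blk wt k k γ)ᵀ * blk wt k k Q * blk wt k k γ = blk wt k k Q)
    {δ : Matrix.SpecialLinearGroup (Fin 2) ℝ}
    (hF : ∀ (τ : ℍ) (a : ℤ), Fl p (Φ ((δ • τ : ℍ) : ℂ)) a =
      (Fl p (Φ (τ : ℂ)) a).map (Matrix.mulVecLin (γ.map (algebraMap ℚ ℂ))))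
    (hn' : n' = n.map (ZL19.cjg γ γ⁻¹)) :
    ∃ (g : Matrix (Fin d'.r) (Fin d.r) ℝ) (b : Fin d'.r → ℝ), d'.w = d.w ∧
      gᵀ * ((QWf wt Q d'.j).map (algebraMap ℚ ℝ)) * g = (QWf wt Q d.j).map (algebraMap ℚ ℝ) ∧
      ∀ z ∈ Hc 0, DD K (fun z => PPg wt p s (Φ z)) h d'.rho (US38.mob δ z) * SP38.cm g =
          SP38.cm g * DD K (fun z => PPg wt p s (Φ z)) h d.rho z ∧
        ee wt h t₀ d'.lam (US38.mob δ z) =
          SP38.cm g *ᵥ ee wt h t₀ d.lam z + SP38.ofR b := by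
  have hO := asm_OpD hv hs hK hh hha
  obtain ⟨hlie, htri, hop⟩ := C8_lie hO.gr hO.del hO.anP hO.anh
  have hQ : QuD wt K (fun z => PPg wt p s (Φ z)) h (genLie wt p Φ) n t₀ d.w d.r d.lam d.rho :=
    ⟨hlie, htri, ht₀, ht₀', fun z hz => (hop z hz).1, fun z hz => (hop z hz).2, d.wd⟩
  obtain ⟨hm, -⟩ := C8_mono hO.gr hO.del hO.anP hO.anh hγ hγt hF
  obtain ⟨hw, G, G', -, -, hG, hGr⟩ := C11_G hlie htri ht₀ ht₀' d.wd d'.wd hγ hγt hm hn' hn.le hn.ne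
  have hQu : IsUnit (dgR wt Q) := Q_unit (hv.mhs I (by simp)) hs
  have hwd' : WD wt (genLie wt p Φ) (genLie wt p Φ ⊓ Low ℚ wt) n' d.w d'.r d'.lam d'.rho :=
    hw ▸ d'.wd
  have hjd' : JD wt Q (genLie wt p Φ) (genLie wt p Φ ⊓ Low ℚ wt) n' d.w d'.r d'.lam d'.rho d'.j :=
    hw ▸ d'.jd
  have hQQ := C11_Q hQu d.wd hwd' d.jd hjd' hγ hγt hγQ hm hn' hn.le hG
  have hcm : SP38.cm (G.map (algebraMap ℚ ℝ)) = G.map (algebraMap ℚ ℂ) := by
    ext i j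
    simp [SP38.cm]
  refine ⟨G.map (algebraMap ℚ ℝ), fun i => ((d'.lam (γ * t₀ * γ⁻¹ - t₀) i : ℚ) : ℝ), hw, ?_, ?_⟩
  · rw [← hQQ, Matrix.map_mul, Matrix.map_mul]
    rfl
  · intro z hz
    obtain ⟨h1, h2⟩ := C11_eqv hO hQ hγ hγt hF hG hGr hz
    rw [hcm]
    refine ⟨h1, ?_⟩
    rw [h2]
    congr 1

/-- the bound -/
theorem asm_count (hv : MW38.VMHS wt p (Q.map (algebraMap ℚ ℝ)) Φ)
    (hs : ∀ j, wt (s j) = wt j ∧ p (s j) = wt j - p j) (hK : ∀ j, |p j| ≤ K)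
    (hh : ∀ z ∈ Hc 0, DelH wt p (Φ z) (PPg wt p s (Φ z)) (h z)) (hha : An (Hc 0) h)
    {t₀ : Matrix ι ι ℚ} (ht₀ : t₀ ∈ genLie wt p Φ)
    (ht₀' : dgR wt t₀ = Matrix.diagonal (fun i => (wt i : ℚ)))
    [Fintype {n // ZL19.MaxI (genLie wt p Φ) (genLie wt p Φ ⊓ Low ℚ wt) n}]
    (d : ∀ n : {n // ZL19.MaxI (genLie wt p Φ) (genLie wt p Φ ⊓ Low ℚ wt) n},
      Dat wt Q (genLie wt p Φ) n.1)
    (S : Finset {n // ZL19.MaxI (genLie wt p Φ) (genLie wt p Φ ⊓ Low ℚ wt) n})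
    {z : ℂ} (hz : z ∈ Hc 0) :
    4 * ∑ n ∈ S, (Matrix.trace ((DD K (fun z => PPg wt p s (Φ z)) h (d n).rho z -
        (((d n).w : ℂ) / 2) • 1) * (DD K (fun z => PPg wt p s (Φ z)) h (d n).rho z -
        (((d n).w : ℂ) / 2) • 1))).re ≤
      ∑ t ∈ types wt p, ((t.1 : ℝ) - t.2) ^ 2 *
        ((hab wt p (Φ z) (genLie wt p Φ ⊓ Low ℚ wt) t : ℝ) -
          hab wt p (Φ z) (brk (genLie wt p Φ ⊓ Low ℚ wt) (genLie wt p Φ ⊓ Low ℚ wt)) t) := by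
  have hO := asm_OpD hv hs hK hh hha
  obtain ⟨hlie, htri, hop⟩ := C8_lie hO.gr hO.del hO.anP hO.anh
  have h1 : ∀ n, 4 * (Matrix.trace ((DD K (fun z => PPg wt p s (Φ z)) h (d n).rho z -
        (((d n).w : ℂ) / 2) • 1) * (DD K (fun z => PPg wt p s (Φ z)) h (d n).rho z -
        (((d n).w : ℂ) / 2) • 1))).re = ∑ t ∈ types wt p, ((t.1 : ℝ) - t.2) ^ 2 *
        ((if t.1 + t.2 = (d n).w then Module.finrank ℂ (Module.End.eigenspace
        (Matrix.toLin' (DD K (fun z => PPg wt p s (Φ z)) h (d n).rho z)) (t.1 : ℂ)) else 0 : ℕ) :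
          ℝ) := by
    intro n
    rw [DD, trace_hab (d n).wd n.2.le hlie htri ht₀ ht₀' (hO.gr z hz) (hO.del z hz) (hop z hz).1
      (hop z hz).2]
    refine Finset.sum_congr rfl fun t _ => ?_
    have h2 := hab_quot (d n).wd n.2.le hlie htri ht₀ ht₀' (hO.gr z hz) (hO.del z hz) (hop z hz).1
      (hop z hz).2 t
    congr 1
    rw [h2]
    push_cast
    ring
  rw [Finset.mul_sum]
  calc ∑ n ∈ S, 4 * (Matrix.trace ((DD K (fun z => PPg wt p s (Φ z)) h (d n).rho z -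
        (((d n).w : ℂ) / 2) • 1) * (DD K (fun z => PPg wt p s (Φ z)) h (d n).rho z -
        (((d n).w : ℂ) / 2) • 1))).re
      ≤ ∑ n, 4 * (Matrix.trace ((DD K (fun z => PPg wt p s (Φ z)) h (d n).rho z -
        (((d n).w : ℂ) / 2) • 1) * (DD K (fun z => PPg wt p s (Φ z)) h (d n).rho z -
        (((d n).w : ℂ) / 2) • 1))).re := by
        refine Finset.sum_le_sum_of_subset_of_nonneg (Finset.subset_univ S) fun n _ _ => ?_
        rw [h1 n]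
        positivity
    _ = ∑ n, ∑ t ∈ types wt p, ((t.1 : ℝ) - t.2) ^ 2 *
        ((if t.1 + t.2 = (d n).w then Module.finrank ℂ (Module.End.eigenspace
        (Matrix.toLin' (DD K (fun z => PPg wt p s (Φ z)) h (d n).rho z)) (t.1 : ℂ)) else 0 : ℕ) :
          ℝ) := Finset.sum_congr rfl fun n _ => h1 n
    _ = ∑ t ∈ types wt p, ((t.1 : ℝ) - t.2) ^ 2 * ((∑ n,
        (if t.1 + t.2 = (d n).w then Module.finrank ℂ (Module.End.eigenspace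
        (Matrix.toLin' (DD K (fun z => PPg wt p s (Φ z)) h (d n).rho z)) (t.1 : ℂ)) else 0) : ℕ) :
          ℝ) := by
        rw [Finset.sum_comm]
        refine Finset.sum_congr rfl fun t _ => ?_
        rw [← Finset.mul_sum]
        congr 1
        push_cast
        rfl
    _ ≤ _ := by
        refine Finset.sum_le_sum fun t _ => mul_le_mul_of_nonneg_left ?_ (sq_nonneg _)
        have h2 := count_eig hv hs hK hh hha d hz t
        rw [le_sub_iff_add_le]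
        have h3 : ((_ : ℕ) : ℝ) ≤ _ := Nat.cast_le.2 h2
        push_cast at h3 ⊢
        linarith

/-- **Mixed to pure.** -/
theorem mixed_to_pure {κ : Type} [Fintype κ]
    {Δ : Subgroup (Matrix.SpecialLinearGroup (Fin 2) ℝ)}
    {σ : κ → Matrix.SpecialLinearGroup (Fin 2) ℝ} {l : κ → ℝ} {D : Set ℍ}
    (hsymm : ∃ s : Equiv.Perm ι, ∀ j, wt (s j) = wt j ∧ p (s j) = wt j - p j)
    (hcurve : US38.IsCurve Δ σ l D) (hv : MW38.VMHS wt p (Q.map (algebraMap ℚ ℝ)) Φ)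
    (hdesc : DescQ wt p Q Φ Δ) (hadm : ∀ i, MW38.Adm wt p (Q.map (algebraMap ℚ ℝ)) Φ Δ (σ i))
    (hfin : {N | brk (genLie wt p Φ ⊓ Low ℚ wt) (genLie wt p Φ ⊓ Low ℚ wt) ≤ N ∧
      N ≤ genLie wt p Φ ⊓ Low ℚ wt ∧ Stab (genLie wt p Φ) N}.Finite)
    (htypes : ∀ t : ℤ × ℤ, (t = (-1, -1) ∨ t = (-1, 0) ∨ t = (0, -1)) → ∀ τ : ℍ,
      hab wt p (Φ τ) (genLie wt p Φ ⊓ Low ℚ wt) t =
        hab wt p (Φ τ) (brk (genLie wt p Φ ⊓ Low ℚ wt) (genLie wt p Φ ⊓ Low ℚ wt)) t) :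
    ∃ Z : Finset ℍ, (∀ τ ∈ hodgeLocus wt p Φ, τ ∉ hodgeLocus wt p (fun z => dg wt (Φ z)) →
        ∃ δ ∈ Δ, δ • τ ∈ Z) ∧
      ∀ τ : ℍ, (Z.card : ℝ) * (4 * Real.pi) ≤ (∑ t ∈ types wt p, ((t.1 : ℝ) - t.2) ^ 2 *
        ((hab wt p (Φ τ) (genLie wt p Φ ⊓ Low ℚ wt) t : ℝ) -
          hab wt p (Φ τ) (brk (genLie wt p Φ ⊓ Low ℚ wt) (genLie wt p Φ ⊓ Low ℚ wt)) t)) *
        (MeasureTheory.volume D).toReal := by
  classical
  obtain ⟨s, hs⟩ := hsymm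
  obtain ⟨K, hK⟩ : ∃ K : ℕ, ∀ j, |p j| ≤ K := by
    refine ⟨∑ j, (p j).natAbs, fun j => ?_⟩
    have h1 : (p j).natAbs ≤ ∑ j, (p j).natAbs :=
      Finset.single_le_sum (f := fun j => (p j).natAbs) (fun _ _ => Nat.zero_le _)
        (Finset.mem_univ j)
    have h2 : ((p j).natAbs : ℤ) ≤ ((∑ j, (p j).natAbs : ℕ) : ℤ) := by exact_mod_cast h1
    rwa [Int.natCast_natAbs] at h2
  obtain ⟨h, hha, hh⟩ := vmhs_h hv hs hK
  replace hh : ∀ z ∈ Hc 0, DelH wt p (Φ z) (PPg wt p s (Φ z)) (h z) := fun z hz => hh z hz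
  have hO := asm_OpD hv hs hK hh hha
  obtain ⟨hlie, htri, hop⟩ := C8_lie hO.gr hO.del hO.anP hO.anh
  obtain ⟨t₀, ht₀, ht₀'⟩ := C8_t0 hO.gr hO.del hO.anP hO.anh
  have hfinM : {n | ZL19.MaxI (genLie wt p Φ) (genLie wt p Φ ⊓ Low ℚ wt) n}.Finite := by
    refine hfin.subset fun n hn => ⟨?_, hn.le, hn.stb⟩
    refine Submodule.span_le.2 ?_
    rintro C ⟨X, hX, Y, hY, rfl⟩
    exact hn.br X hX Y hY
  have : Finite {n // ZL19.MaxI (genLie wt p Φ) (genLie wt p Φ ⊓ Low ℚ wt) n} := hfinM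
  let _ : Fintype {n // ZL19.MaxI (genLie wt p Φ) (genLie wt p Φ ⊓ Low ℚ wt) n} :=
    Fintype.ofFinite _
  have hdat : ∀ n : {n // ZL19.MaxI (genLie wt p Φ) (genLie wt p Φ ⊓ Low ℚ wt) n},
      Nonempty (Dat wt Q (genLie wt p Φ) n.1) := fun n => exists_dat hv hs hK hh hha n.2
  let d : ∀ n : {n // ZL19.MaxI (genLie wt p Φ) (genLie wt p Φ ⊓ Low ℚ wt) n},
      Dat wt Q (genLie wt p Φ) n.1 := fun n => Classical.choice (hdat n)
  let Sp : {n // ZL19.MaxI (genLie wt p Φ) (genLie wt p Φ ⊓ Low ℚ wt) n} → Prop := fun n =>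
    ∃ (τ : ℍ) (t : Matrix ι ι ℚ), t ∈ genLie wt p Φ ∧
      dgR wt t = Matrix.diagonal (fun i => (wt i : ℚ)) ∧
      h τ * Dwt wt * (h τ)⁻¹ - t.map (algebraMap ℚ ℂ) ∈ cx n.1
  have hQ : ∀ n, QuD wt K (fun z => PPg wt p s (Φ z)) h (genLie wt p Φ) n.1 t₀ (d n).w (d n).r
      (d n).lam (d n).rho := fun n =>
    ⟨hlie, htri, ht₀, ht₀', fun z hz => (hop z hz).1, fun z hz => (hop z hz).2, (d n).wd⟩
  have hI : (I : ℂ) ∈ Hc 0 := by
    show (0 : ℝ) < I.im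
    simp
  -- the permutation
  have hperm : ∀ δ ∈ Δ, ∃ π : Equiv.Perm {n // Sp n}, ∀ n : {n // Sp n},
      ∃ (g : Matrix (Fin (d (π n).1).r) (Fin (d n.1).r) ℝ) (b : Fin (d (π n).1).r → ℝ),
        (d (π n).1).w = (d n.1).w ∧
        gᵀ * ((QWf wt Q (d (π n).1).j).map (algebraMap ℚ ℝ)) * g =
          (QWf wt Q (d n.1).j).map (algebraMap ℚ ℝ) ∧
        ∀ z ∈ Hc 0, DD K (fun z => PPg wt p s (Φ z)) h (d (π n).1).rho (US38.mob δ z) *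
            SP38.cm g = SP38.cm g * DD K (fun z => PPg wt p s (Φ z)) h (d n.1).rho z ∧
          ee wt h t₀ (d (π n).1).lam (US38.mob δ z) =
            SP38.cm g *ᵥ ee wt h t₀ (d n.1).lam z + SP38.ofR b := by
    intro δ hδ
    obtain ⟨γ, hγ, hγt, hγQ, hF⟩ := hdesc δ hδ
    obtain ⟨hm, hmax⟩ := C8_mono hO.gr hO.del hO.anP hO.anh hγ hγt hF
    have hgg : γ * γ⁻¹ = 1 := Matrix.mul_nonsing_inv _ ((Matrix.isUnit_iff_isUnit_det _).1 hγ)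
    have hgg' : γ⁻¹ * γ = 1 := Matrix.nonsing_inv_mul _ ((Matrix.isUnit_iff_isUnit_det _).1 hγ)
    let f : {n // Sp n} → {n // Sp n} := fun n => ⟨⟨n.1.1.map (ZL19.cjg γ γ⁻¹), hmax _ n.1.2⟩, by
      obtain ⟨τ, t, ht, ht', hmem⟩ := n.2
      obtain ⟨h1, h2, h3⟩ := C8_spec hO.gr hO.del hO.anP hO.anh hγ hγt hF τ n.1.1 t ht ht' hmem
      exact ⟨δ • τ, γ * t * γ⁻¹, h1, h2, h3⟩⟩
    have hf : Function.Injective f := by
      intro a b hab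
      have h1 : a.1.1.map (ZL19.cjg γ γ⁻¹) = b.1.1.map (ZL19.cjg γ γ⁻¹) :=
        congrArg (fun x => x.1.1) hab
      have h2 := congrArg (fun L => L.map (ZL19.cjg γ⁻¹ γ)) h1
      simp only [ZL19.map_map_cjg hgg'] at h2
      exact Subtype.ext (Subtype.ext h2)
    refine ⟨Equiv.ofBijective f (Finite.injective_iff_bijective.1 hf), fun n => ?_⟩
    exact asm_inv hv hs hK hh hha n.1.2 ht₀ ht₀' (d n.1) (d (f n).1) hγ hγt hγQ hF rfl
  have hmain := ZW67.zw_main (J := {n // Sp n}) hcurve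
    (fun n => asm_mem hv hs hK hh hha htypes n.1.2 ht₀ ht₀' (d n.1))
    (κ := fun n => (Matrix.trace ((DD K (fun z => PPg wt p s (Φ z)) h (d n.1).rho I -
        (((d n.1).w : ℂ) / 2) • 1) * (DD K (fun z => PPg wt p s (Φ z)) h (d n.1).rho I -
        (((d n.1).w : ℂ) / 2) • 1))).re)
    (fun n z hz => le_of_eq (congrArg Complex.re (trace_const (w := (d n.1).w) (DD_sm hO)
      (fun z hz => DD_poly hO (hQ n.1) hz) (Q := 0) hz hI)))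
    hperm (fun n i M => ee_growth hv hs hK (hadm i) hh (d n.1).lam t₀ M)
  rcases hmain with ⟨n, hn⟩ | ⟨Z, hZ1, hZ2⟩
  · exfalso
    obtain ⟨τ, t, ht, ht', hmem⟩ := n.2
    exact asm_flat hv hs hK hh hha (d n.1).jd.neg n.1.2 (hQ n.1) ht ht' hmem hn
  · refine ⟨Z, fun τ h1 h2 => hZ2 τ ?_, fun τ => ?_⟩
    · obtain ⟨n, hn, t, ht, ht', hmem⟩ := C8_point hO.gr hO.del hO.anP hO.anh h1 h2
      refine ⟨⟨⟨n, hn⟩, τ, t, ht, ht', hmem⟩, ?_⟩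
      refine ⟨fun i => (((d ⟨n, hn⟩).lam (t - t₀) i : ℚ) : ℝ), fun a _ => ?_⟩
      rw [asm_val hn.le (hQ ⟨n, hn⟩) hmem, sub_self, Matrix.mulVec_zero]
    · have hτ : (τ : ℂ) ∈ Hc 0 := τ.2
      have h1 : ∑ n : {n // Sp n}, (Matrix.trace ((DD K (fun z => PPg wt p s (Φ z)) h
          (d n.1).rho I - (((d n.1).w : ℂ) / 2) • 1) * (DD K (fun z => PPg wt p s (Φ z)) h
          (d n.1).rho I - (((d n.1).w : ℂ) / 2) • 1))).re =
          ∑ n ∈ Finset.univ.filter Sp, (Matrix.trace ((DD K (fun z => PPg wt p s (Φ z)) h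
          (d n).rho τ - (((d n).w : ℂ) / 2) • 1) * (DD K (fun z => PPg wt p s (Φ z)) h
          (d n).rho τ - (((d n).w : ℂ) / 2) • 1))).re := by
        rw [← Finset.sum_subtype_eq_sum_filter]
        refine Finset.sum_bij (fun n _ => n) ?_ ?_ ?_ ?_
        · intro n _
          simp
        · intro a _ b _ hab
          exact hab
        · intro b _
          exact ⟨b, Finset.mem_univ _, rfl⟩
        · intro n _
          exact congrArg Complex.re (trace_const (w := (d n.1).w) (DD_sm hO)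
            (fun z hz => DD_poly hO (hQ n.1) hz) (Q := 0) hI hτ)
      have h2 := asm_count hv hs hK hh hha ht₀ ht₀' d (Finset.univ.filter Sp) hτ
      have h3 : 0 ≤ (MeasureTheory.volume D).toReal := ENNReal.toReal_nonneg
      calc (Z.card : ℝ) * (4 * Real.pi) = 4 * ((Z.card : ℝ) * Real.pi) := by ring
        _ ≤ 4 * ((∑ n : {n // Sp n}, (Matrix.trace ((DD K (fun z => PPg wt p s (Φ z)) h
          (d n.1).rho I - (((d n.1).w : ℂ) / 2) • 1) * (DD K (fun z => PPg wt p s (Φ z)) h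
          (d n.1).rho I - (((d n.1).w : ℂ) / 2) • 1))).re) *
            (MeasureTheory.volume D).toReal) := by
            exact mul_le_mul_of_nonneg_left hZ1 (by norm_num)
        _ ≤ _ := by
            rw [h1, ← mul_assoc]
            exact mul_le_mul_of_nonneg_right h2 h3

end ZQ38
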