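import Pool.Agent.LibZQ38.Asm2

/-!
The final form of `MixedToPure`.
-/

open Matrix Complex
open UpperHalfPlane hiding I
open MW38 (Fl Tri blk dg)
open SP38 (Hc)

namespace ZQ38

variable {ι : Type} [Fintype ι] [DecidableEq ι] {wt p : ι → ℤ}
  {Q : Matrix ι ι ℚ} {Φ : ℂ → Matrix ι ι ℂ} {κ : Type} [Fintype κ]
  {Δ : Subgroup (Matrix.SpecialLinearGroup (Fin 2) ℝ)}
  {σ : κ → Matrix.SpecialLinearGroup (Fin 2) ℝ} {l : κ → ℝ} {D : Set ℍ}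

theorem rel1 (hsymm : ∃ s : Equiv.Perm ι, ∀ j, wt (s j) = wt j ∧ p (s j) = wt j - p j)
    (hcurve : US38.IsCurve Δ σ l D) (hv : MW38.VMHS wt p (Q.map (algebraMap ℚ ℝ)) Φ)
    (hadm : ∀ i, MW38.Adm wt p (Q.map (algebraMap ℚ ℝ)) Φ Δ (σ i))
    (S : Finset (Submodule ℚ (Matrix ι ι ℚ)))
    (hS : ∀ n ∈ S, MaxSt (genLie wt p Φ) (genLie wt p Φ ⊓ Low ℚ wt) n)
    (hdesc : ∀ δ ∈ Δ, ∃ γ, MonQ wt p Q Φ δ γ ∧ ∀ n ∈ S, conjS γ n ∈ S)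
    (htypes : ∀ n ∈ S, ∀ t : ℤ × ℤ, (t = (-1, -1) ∨ t = (-1, 0) ∨ t = (0, -1)) → ∀ τ : ℍ,
      hab wt p (Φ τ) (genLie wt p Φ ⊓ Low ℚ wt) t = hab wt p (Φ τ) n t) :
    ∃ Z : Finset ℍ, (∀ τ : ℍ, (∃ n ∈ S, mtLie wt p (Φ τ) ⊓ Low ℚ wt ≤ n) →
        ∃ δ ∈ Δ, δ • τ ∈ Z) ∧
      ∀ τ : ℍ, (Z.card : ℝ) * (4 * Real.pi) ≤ (∑ n ∈ S, ∑ t ∈ types wt p,
        ((t.1 : ℝ) - t.2) ^ 2 * ((hab wt p (Φ τ) (genLie wt p Φ ⊓ Low ℚ wt) t : ℝ) -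
          hab wt p (Φ τ) n t)) * (MeasureTheory.volume D).toReal := by
  refine main_S hsymm hcurve hv hadm S (fun n hn => asm_maxI.1 (hS n hn)) ?_ htypes
  intro δ hδ
  obtain ⟨γ, hγ, h1⟩ := hdesc δ hδ
  exact ⟨γ, hγ, fun n hn => by rw [← asm_conjS hγ.1]; exact h1 n hn⟩

/-- the two conclusions together -/
theorem rel3 (hsymm : ∃ s : Equiv.Perm ι, ∀ j, wt (s j) = wt j ∧ p (s j) = wt j - p j)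
    (hcurve : US38.IsCurve Δ σ l D) (hv : MW38.VMHS wt p (Q.map (algebraMap ℚ ℝ)) Φ)
    (hadm : ∀ i, MW38.Adm wt p (Q.map (algebraMap ℚ ℝ)) Φ Δ (σ i))
    (S : Finset (Submodule ℚ (Matrix ι ι ℚ)))
    (hS : ∀ n ∈ S, MaxSt (genLie wt p Φ) (genLie wt p Φ ⊓ Low ℚ wt) n)
    (hdesc : ∀ δ ∈ Δ, ∃ γ, MonQ wt p Q Φ δ γ ∧ ∀ n ∈ S, conjS γ n ∈ S)
    (htypes : ∀ n ∈ S, ∀ t : ℤ × ℤ, (t = (-1, -1) ∨ t = (-1, 0) ∨ t = (0, -1)) → ∀ τ : ℍ,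
      hab wt p (Φ τ) (genLie wt p Φ ⊓ Low ℚ wt) t = hab wt p (Φ τ) n t) :
    ∃ Z : Finset ℍ, (∀ τ : ℍ, (∃ n ∈ S, mtLie wt p (Φ τ) ⊓ Low ℚ wt ≤ n) →
        ∃ δ ∈ Δ, δ • τ ∈ Z) ∧
      ((∀ n, MaxSt (genLie wt p Φ) (genLie wt p Φ ⊓ Low ℚ wt) n → n ∈ S) →
        ∀ τ ∈ hodgeLocus wt p Φ, τ ∉ hodgeLocus wt p (fun z => dg wt (Φ z)) →
          ∃ δ ∈ Δ, δ • τ ∈ Z) ∧
      ∀ τ : ℍ, (Z.card : ℝ) * (4 * Real.pi) ≤ (∑ n ∈ S, ∑ t ∈ types wt p,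
        ((t.1 : ℝ) - t.2) ^ 2 * ((hab wt p (Φ τ) (genLie wt p Φ ⊓ Low ℚ wt) t : ℝ) -
          hab wt p (Φ τ) n t)) * (MeasureTheory.volume D).toReal := by
  obtain ⟨Z, hZ1, hZ2⟩ := rel1 hsymm hcurve hv hadm S hS hdesc htypes
  obtain ⟨s, hs⟩ := hsymm
  obtain ⟨K, hK⟩ : ∃ K : ℕ, ∀ j, |p j| ≤ K := by
    refine ⟨∑ j, (p j).natAbs, fun j => ?_⟩
    have h1 : (p j).natAbs ≤ ∑ j, (p j).natAbs :=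
      Finset.single_le_sum (f := fun j => (p j).natAbs) (fun _ _ => Nat.zero_le _)
        (Finset.mem_univ j)
    have h2 : ((p j).natAbs : ℤ) ≤ ((∑ j, (p j).natAbs : ℕ) : ℤ) := by exact_mod_cast h1
    rwa [Int.natCast_natAbs] at h2
  obtain ⟨h, hha, hh⟩ := vmhs_h hv hs hK
  replace hh : ∀ z ∈ Hc 0, DelH wt p (Φ z) (PPg wt p s (Φ z)) (h z) := fun z hz => hh z hz
  have hO := asm_OpD hv hs hK hh hha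
  refine ⟨Z, hZ1, fun hall τ h1 h2 => ?_, hZ2⟩
  obtain ⟨n, hn, hle⟩ := asm_hl hO.gr hO.del hO.anP hO.anh h1 h2
  exact hZ1 τ ⟨n, hall n (asm_maxI.2 hn), hle⟩

end ZQ38
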