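import Pool.Agent.LibZQ38.Defs

/-!
Complexification of rational spaces of matrices.
-/

open Matrix Complex
open MW38 (Fl Tri blk dg)

namespace ZQ38

variable {ι : Type} [Fintype ι] [DecidableEq ι] {wt p : ι → ℤ} {K : ℕ} {Φ : Matrix ι ι ℂ}
  {P : ℤ → Matrix ι ι ℂ} {Ω : Set ℂ}

theorem B01_map_mem {L : Submodule ℚ (Matrix ι ι ℚ)} {M : Matrix ι ι ℚ} (h : M ∈ L) :
    M.map (algebraMap ℚ ℂ) ∈ cx L :=
  Submodule.subset_span ⟨M, h, rfl⟩

theorem B01_map_ratCast (f : ℂ →ₗ[ℚ] ℚ) (c : ℂ) (q : ℚ) : f (c * (q : ℂ)) = q * f c := by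
  have h : c * (q : ℂ) = q • c := by
    rw [Rat.smul_def, mul_comm]
  rw [h, map_smul, smul_eq_mul]

/-- A complex matrix lies in `L_ℂ` iff all its images under `ℚ`-linear maps `ℂ → ℚ` lie in `L`. -/
theorem mem_cx_iff (L : Submodule ℚ (Matrix ι ι ℚ)) (A : Matrix ι ι ℂ) :
    A ∈ cx L ↔ ∀ f : ℂ →ₗ[ℚ] ℚ, A.map f ∈ L := by
  constructor
  · intro hA
    refine Submodule.span_induction (p := fun A _ => ∀ f : ℂ →ₗ[ℚ] ℚ, A.map f ∈ L)
      ?_ ?_ ?_ ?_ hA
    · rintro _ ⟨M, hM, rfl⟩ f
      have h : (M.map (algebraMap ℚ ℂ)).map f = (f 1) • M := by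
        ext i j
        simp only [Matrix.map_apply, Matrix.smul_apply, smul_eq_mul, eq_ratCast]
        have := B01_map_ratCast f 1 (M i j)
        rw [one_mul] at this
        rw [this, mul_comm]
      change (M.map (algebraMap ℚ ℂ)).map f ∈ L
      rw [h]
      exact L.smul_mem _ hM
    · intro f
      have h : (0 : Matrix ι ι ℂ).map f = 0 := by
        ext i j; simp
      rw [h]; exact L.zero_mem
    · intro A B _ _ hA hB f
      have h : (A + B).map f = A.map f + B.map f := by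
        ext i j; simp
      rw [h]; exact L.add_mem (hA f) (hB f)
    · intro c A _ hA f
      have h : (c • A).map f = A.map (f ∘ₗ LinearMap.mulLeft ℚ c) := by
        ext i j; simp
      rw [h]; exact hA _
  · intro h
    let V : Submodule ℚ ℂ := Submodule.span ℚ (Set.range fun x : ι × ι => A x.1 x.2)
    haveI : FiniteDimensional ℚ V := FiniteDimensional.span_of_finite ℚ (Set.finite_range _)
    let b := Module.finBasis ℚ V
    have hg : ∀ t, ∃ g : ℂ →ₗ[ℚ] ℚ, g ∘ₗ V.subtype = b.coord t := fun t =>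
      LinearMap.exists_extend (b.coord t)
    choose g hg using hg
    have hA : A = ∑ t, ((b t : V) : ℂ) • (A.map (g t)).map (algebraMap ℚ ℂ) := by
      ext i j
      have hm : A i j ∈ V := Submodule.subset_span ⟨(i, j), rfl⟩
      have h1 := b.sum_repr ⟨A i j, hm⟩
      have h2 := congrArg (V.subtype) h1
      rw [map_sum] at h2
      simp only [map_smul, Submodule.subtype_apply] at h2
      rw [Matrix.sum_apply]
      conv_lhs => rw [← h2]
      refine Finset.sum_congr rfl fun t _ => ?_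
      have h3 : g t (A i j) = b.repr ⟨A i j, hm⟩ t := by
        have := LinearMap.congr_fun (hg t) ⟨A i j, hm⟩
        simpa using this
      simp only [Matrix.smul_apply, Matrix.map_apply, smul_eq_mul, eq_ratCast]
      rw [h3, Rat.smul_def, mul_comm]
    rw [hA]
    exact Submodule.sum_mem _ fun t _ => Submodule.smul_mem _ _ (B01_map_mem (h (g t)))

theorem cx_mono {L M : Submodule ℚ (Matrix ι ι ℚ)} (h : L ≤ M) : cx L ≤ cx M :=
  Submodule.span_mono (Set.image_mono h)

theorem mem_cx_sInf {S : Set (Submodule ℚ (Matrix ι ι ℚ))} {A : Matrix ι ι ℂ}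
    (h : ∀ L ∈ S, A ∈ cx L) : A ∈ cx (sInf S) := by
  rw [mem_cx_iff]
  intro f
  rw [Submodule.mem_sInf]
  intro L hL
  exact (mem_cx_iff L A).1 (h L hL) f

/-- a rational matrix in `L_ℂ` lies in `L` -/
theorem mem_of_mem_cx {L : Submodule ℚ (Matrix ι ι ℚ)} {M : Matrix ι ι ℚ}
    (h : M.map (algebraMap ℚ ℂ) ∈ cx L) : M ∈ L := by
  obtain ⟨g, hg⟩ := LinearMap.exists_leftInverse_of_injective (Algebra.linearMap ℚ ℂ) (by
    rw [LinearMap.ker_eq_bot]
    exact (algebraMap ℚ ℂ).injective)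
  have h1 := (mem_cx_iff L _).1 h g
  have h2 : (M.map (algebraMap ℚ ℂ)).map g = M := by
    ext i j
    have := LinearMap.congr_fun hg (M i j)
    simpa using this
  rwa [h2] at h1

theorem mem_cx_of_mem {L : Submodule ℚ (Matrix ι ι ℚ)} {M : Matrix ι ι ℚ} (h : M ∈ L) :
    M.map (algebraMap ℚ ℂ) ∈ cx L := B01_map_mem h

theorem cx_inf (L M : Submodule ℚ (Matrix ι ι ℚ)) : cx (L ⊓ M) = cx L ⊓ cx M := by
  ext A
  rw [Submodule.mem_inf, mem_cx_iff, mem_cx_iff, mem_cx_iff, ← forall_and]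
  rfl

theorem cx_sup (L M : Submodule ℚ (Matrix ι ι ℚ)) : cx (L ⊔ M) = cx L ⊔ cx M := by
  apply le_antisymm
  · refine Submodule.span_le.2 ?_
    rintro _ ⟨X, hX, rfl⟩
    obtain ⟨a, ha, b, hb, rfl⟩ := Submodule.mem_sup.1 hX
    have h : (a + b).map (algebraMap ℚ ℂ) = a.map (algebraMap ℚ ℂ) + b.map (algebraMap ℚ ℂ) := by
      ext i j; simp
    change (a + b).map (algebraMap ℚ ℂ) ∈ cx L ⊔ cx M
    rw [h]
    exact Submodule.add_mem_sup (B01_map_mem ha) (B01_map_mem hb)
  · exact sup_le (cx_mono le_sup_left) (cx_mono le_sup_right)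

theorem B01_eq_zero {z : ℂ} (h : ∀ f : ℂ →ₗ[ℚ] ℚ, f z = 0) : z = 0 :=
  (Module.forall_dual_apply_eq_zero_iff ℚ z).1 h

theorem cx_low (wt : ι → ℤ) : cx (Low ℚ wt) = Low ℂ wt := by
  ext A
  rw [mem_cx_iff]
  constructor
  · intro h i j hij
    exact B01_eq_zero fun f => h f i j hij
  · intro h f i j hij
    rw [Matrix.map_apply, h i j hij, map_zero]

theorem cx_stab {M N : Submodule ℚ (Matrix ι ι ℚ)} (h : Stab M N) : Stab (cx M) (cx N) := by
  intro A hA
  refine Submodule.span_induction (p := fun A _ => ∀ B ∈ cx N, A * B - B * A ∈ cx N)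
      ?_ ?_ ?_ ?_ hA
  · rintro _ ⟨X, hX, rfl⟩ B hB
    refine Submodule.span_induction
      (p := fun B _ => X.map (algebraMap ℚ ℂ) * B - B * X.map (algebraMap ℚ ℂ) ∈ cx N)
      ?_ ?_ ?_ ?_ hB
    · rintro _ ⟨Y, hY, rfl⟩
      have := B01_map_mem (h X hX Y hY)
      have h2 : (X * Y - Y * X).map (algebraMap ℚ ℂ)
          = X.map (algebraMap ℚ ℂ) * Y.map (algebraMap ℚ ℂ)
            - Y.map (algebraMap ℚ ℂ) * X.map (algebraMap ℚ ℂ) := by
        rw [Matrix.map_sub _ (fun a b => map_sub (algebraMap ℚ ℂ) a b), Matrix.map_mul,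
          Matrix.map_mul]
      rw [h2] at this
      exact this
    · simp
    · intro B C _ _ hB hC
      have e : X.map (algebraMap ℚ ℂ) * (B + C) - (B + C) * X.map (algebraMap ℚ ℂ)
          = (X.map (algebraMap ℚ ℂ) * B - B * X.map (algebraMap ℚ ℂ))
            + (X.map (algebraMap ℚ ℂ) * C - C * X.map (algebraMap ℚ ℂ)) := by
        noncomm_ring
      rw [e]
      exact Submodule.add_mem _ hB hC
    · intro c B _ hB
      have e : X.map (algebraMap ℚ ℂ) * (c • B) - (c • B) * X.map (algebraMap ℚ ℂ)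
          = c • (X.map (algebraMap ℚ ℂ) * B - B * X.map (algebraMap ℚ ℂ)) := by
        rw [Matrix.mul_smul, Matrix.smul_mul, smul_sub]
      rw [e]
      exact Submodule.smul_mem _ _ hB
  · intro B _
    simp
  · intro A C _ _ hA hC B hB
    have e : (A + C) * B - B * (A + C) = (A * B - B * A) + (C * B - B * C) := by
      noncomm_ring
    rw [e]
    exact Submodule.add_mem _ (hA B hB) (hC B hB)
  · intro c A _ hA B hB
    have e : (c • A) * B - B * (c • A) = c • (A * B - B * A) := by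
      rw [Matrix.mul_smul, Matrix.smul_mul, smul_sub]
    rw [e]
    exact Submodule.smul_mem _ _ (hA B hB)

theorem cx_isLie {L : Submodule ℚ (Matrix ι ι ℚ)} (h : IsLie L) : IsLie (cx L) :=
  cx_stab (M := L) (N := L) h

theorem cx_tri {wt : ι → ℤ} {L : Submodule ℚ (Matrix ι ι ℚ)} (h : ∀ A ∈ L, Tri wt A)
    {A : Matrix ι ι ℂ} (hA : A ∈ cx L) : Tri wt A := by
  intro i j hij
  exact B01_eq_zero fun f => h _ ((mem_cx_iff L A).1 hA f) i j hij

/-- dimension -/
theorem finrank_cx (L : Submodule ℚ (Matrix ι ι ℚ)) :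
    Module.finrank ℂ (cx L) = Module.finrank ℚ L := by
  let b := Module.finBasis ℚ L
  let v : Fin (Module.finrank ℚ L) → Matrix ι ι ℂ := fun t =>
    ((b t : L) : Matrix ι ι ℚ).map (algebraMap ℚ ℂ)
  have hli : LinearIndependent ℂ v := by
    rw [Fintype.linearIndependent_iff]
    intro c hc t
    refine B01_eq_zero fun f => ?_
    have h1 : ∑ t, f (c t) • ((b t : L) : Matrix ι ι ℚ) = 0 := by
      ext i j
      have h2 := congrArg (fun A : Matrix ι ι ℂ => f (A i j)) hc
      simp only [Matrix.sum_apply, Matrix.smul_apply, smul_eq_mul, map_sum, Matrix.zero_apply,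
        map_zero] at h2
      rw [Matrix.sum_apply, Matrix.zero_apply]
      rw [← h2]
      refine Finset.sum_congr rfl fun t _ => ?_
      simp only [v, Matrix.map_apply, eq_ratCast, Matrix.smul_apply, smul_eq_mul]
      rw [B01_map_ratCast, mul_comm]
    have h3 : ∑ t, f (c t) • b t = 0 := by
      apply Subtype.ext
      rw [Submodule.coe_sum]
      simpa using h1
    exact (Fintype.linearIndependent_iff.1 b.linearIndependent) _ h3 t
  have hspan : Submodule.span ℂ (Set.range v) = cx L := by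
    apply le_antisymm
    · refine Submodule.span_le.2 ?_
      rintro _ ⟨t, rfl⟩
      exact B01_map_mem (b t).2
    · refine Submodule.span_le.2 ?_
      rintro _ ⟨X, hX, rfl⟩
      have h1 := b.sum_repr ⟨X, hX⟩
      have h2 : X = ∑ t, (b.repr ⟨X, hX⟩ t) • ((b t : L) : Matrix ι ι ℚ) := by
        have := congrArg (L.subtype) h1
        rw [map_sum] at this
        simpa using this.symm
      have h3 : X.map (algebraMap ℚ ℂ) = ∑ t, ((b.repr ⟨X, hX⟩ t : ℚ) : ℂ) • v t := by
        ext i j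
        have h4 : X i j = ∑ t, (b.repr ⟨X, hX⟩ t) * ((b t : L) : Matrix ι ι ℚ) i j := by
          conv_lhs => rw [h2]
          rw [Matrix.sum_apply]
          rfl
        rw [Matrix.map_apply, h4, map_sum, Matrix.sum_apply]
        refine Finset.sum_congr rfl fun t _ => ?_
        simp [v]
      change X.map (algebraMap ℚ ℂ) ∈ _
      rw [h3]
      exact Submodule.sum_mem _ fun t _ => Submodule.smul_mem _ _
        (Submodule.subset_span ⟨t, rfl⟩)
  rw [← hspan, finrank_span_eq_card hli, Fintype.card_fin]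

/-- closed under conjugation -/
theorem bar_mem_cx {L : Submodule ℚ (Matrix ι ι ℚ)} {A : Matrix ι ι ℂ} (h : A ∈ cx L) :
    bar A ∈ cx L := by
  rw [mem_cx_iff] at h ⊢
  intro f
  have e : (bar A).map f = A.map (f ∘ₗ (Complex.conjAe.toLinearMap.restrictScalars ℚ)) := by
    ext i j
    simp [bar]
  rw [e]
  exact h _

end ZQ38
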