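import Pool.Agent.LibZQ38.BDef
import Pool.Agent.LibMW38.Col

/-!
Lifting from the graded pieces.

PLAN. `dg wt Φ` is invertible and block diagonal with blocks `blk wt k k Φ` (LibMW38/Col:
dg_isUnit, Col_dg_inv, Col_dg_mul; LibMW38/Alg: mem_Fl_iff, mem_Fl_iff_exists: `v ∈ Fl p G a` iff
`v = G c` with `c j = 0` for `p j < a`). Lm_un: for `wt i = wt j` the entry of `Φ (dg Φ)⁻¹` is the
entry of `dg Φ (dg Φ)⁻¹ = 1`, for `wt j < wt i` it is zero by Tri. Lm_mem: `v = (dg Φ) c`, so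
`Lm v = Φ c`. lead_mem: `x = Φ c`, `c` supported on `p j ≥ a`; also `c` is supported on `wt j ≤ k`
(Φ⁻¹ is Tri), so the coordinates of weight `k` of `x` are those of `dg Φ c'` with `c'` the part of `c`
of weight `k`.
-/

open Matrix Complex
open MW38 (Fl Tri blk dg)

namespace ZQ38

variable {ι : Type} [Fintype ι] [DecidableEq ι] {wt p : ι → ℤ} {K : ℕ} {Φ : Matrix ι ι ℂ}
  {P : ℤ → Matrix ι ι ℂ} {Ω : Set ℂ}

theorem Lm_un (hu : IsUnit Φ) (ht : Tri wt Φ) : Un wt (Lm wt Φ) := by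
  intro i j hij
  rw [Lm, MW38.Col_dg_inv hu ht, Matrix.mul_apply]
  rcases lt_or_eq_of_le hij with h | h
  · have hne : i ≠ j := by
      rintro rfl
      exact lt_irrefl _ h
    rw [if_neg hne]
    apply Finset.sum_eq_zero
    intro m _
    by_cases hm : wt m = wt j
    · rw [ht i m (by rw [hm]; exact h), zero_mul]
    · rw [show dg wt Φ⁻¹ m j = 0 from if_neg hm, mul_zero]
  · have h1 := congrFun (congrFun (MW38.Col_dg_mul hu ht) i) j
    rw [Matrix.mul_apply, Matrix.one_apply] at h1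
    rw [← h1]
    apply Finset.sum_congr rfl
    intro m _
    by_cases hm : wt m = wt j
    · rw [show dg wt Φ i m = Φ i m from if_pos (by rw [hm, h])]
    · rw [show dg wt Φ⁻¹ m j = 0 from if_neg hm, mul_zero, mul_zero]

/-- `Lm` carries `F^a Gr` into `F^a` -/
theorem Lm_mem {a : ℤ} (hu : IsUnit Φ) (ht : Tri wt Φ) {v : ι → ℂ} (hv : v ∈ Fl p (dg wt Φ) a) :
    Lm wt Φ *ᵥ v ∈ Fl p Φ a := by
  rw [MW38.mem_Fl_iff_exists] at hv ⊢
  obtain ⟨c, hc, rfl⟩ := hv
  refine ⟨c, hc, ?_⟩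
  have hdet : IsUnit (dg wt Φ).det :=
    (Matrix.isUnit_iff_isUnit_det _).mp (MW38.dg_isUnit hu ht)
  rw [Lm, Matrix.mulVec_mulVec, Matrix.mul_assoc, Matrix.nonsing_inv_mul _ hdet, mul_one]

/-- unipotent matrices preserve the weight filtration -/
theorem Un.mem_Wt {R : Matrix ι ι ℂ} (h : Un wt R) {k : ℤ} {v : ι → ℂ} (hv : v ∈ Wt wt k) :
    R *ᵥ v ∈ Wt wt k := by
  intro i hi
  rw [Matrix.mulVec, dotProduct]
  apply Finset.sum_eq_zero
  intro j _
  rcases le_or_gt (wt j) (wt i) with h1 | h1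
  · rw [h i j h1]
    by_cases hij : i = j
    · rw [← hij, hv i hi, mul_zero]
    · rw [if_neg hij, zero_mul]
  · rw [hv j (hi.trans h1), mul_zero]

/-- the difference of two unipotent matrices lowers the weight -/
theorem Un.sub_mem {R S : Matrix ι ι ℂ} (hR : Un wt R) (hS : Un wt S) {k : ℤ} {v : ι → ℂ}
    (hv : v ∈ Wt wt k) : (R - S) *ᵥ v ∈ Wt wt (k - 1) := by
  intro i hi
  rw [Matrix.mulVec, dotProduct]
  apply Finset.sum_eq_zero
  intro j _
  rcases le_or_gt (wt j) (wt i) with h1 | h1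
  · rw [Matrix.sub_apply, hR i j h1, hS i j h1, sub_self, zero_mul]
  · rw [hv j (by omega), mul_zero]

theorem bar_isUnit (hu : IsUnit Φ) : IsUnit (bar Φ) := by
  have h := hu.map (RingHom.mapMatrix (m := ι) (starRingEnd ℂ))
  exact h

theorem bar_tri (ht : Tri wt Φ) : Tri wt (bar Φ) := by
  intro i j hij
  rw [bar, Matrix.map_apply, ht i j hij, map_zero]

/-- the leading coordinates of an element of `F^a ∩ W_k` lie in `F^a Gr_k` -/
theorem lead_mem {a k : ℤ} (hu : IsUnit Φ) (ht : Tri wt Φ) {x : ι → ℂ} (hx : x ∈ Fl p Φ a)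
    (hk : x ∈ Wt wt k) : Ewt wt k *ᵥ x ∈ Fl p (dg wt Φ) a := by
  have hdet : IsUnit Φ.det := (Matrix.isUnit_iff_isUnit_det _).mp hu
  have ht' : Tri wt Φ⁻¹ := ht.inv hu
  have hc0 := (MW38.mem_Fl_iff hu x).1 hx
  set c : ι → ℂ := Φ⁻¹ *ᵥ x with hc
  have hxc : x = Φ *ᵥ c := by
    rw [hc, Matrix.mulVec_mulVec, Matrix.mul_nonsing_inv _ hdet, Matrix.one_mulVec]
  have hcw : ∀ j, k < wt j → c j = 0 := by
    intro j hj
    rw [hc, Matrix.mulVec, dotProduct]
    apply Finset.sum_eq_zero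
    intro i _
    rcases lt_or_ge (wt i) (wt j) with h1 | h1
    · rw [ht' j i h1, zero_mul]
    · rw [hk i (lt_of_lt_of_le hj h1), mul_zero]
  rw [MW38.mem_Fl_iff_exists]
  refine ⟨fun j => if wt j = k then c j else 0, ?_, ?_⟩
  · intro j hj
    show (if wt j = k then c j else 0) = 0
    by_cases h1 : wt j = k
    · rw [if_pos h1, hc0 j hj]
    · rw [if_neg h1]
  · ext i
    rw [Ewt, Matrix.mulVec_diagonal]
    have hR : (dg wt Φ *ᵥ fun j => if wt j = k then c j else 0) i =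
        ∑ j, dg wt Φ i j * (if wt j = k then c j else 0) := rfl
    rw [hR]
    by_cases h1 : wt i = k
    · rw [if_pos h1, one_mul]
      conv_lhs => rw [hxc]
      rw [Matrix.mulVec, dotProduct]
      apply Finset.sum_congr rfl
      intro j _
      rcases lt_trichotomy (wt j) k with h2 | h2 | h2
      · rw [ht i j (by rw [h1]; exact h2), zero_mul, if_neg h2.ne, mul_zero]
      · rw [if_pos h2, show dg wt Φ i j = Φ i j from if_pos (by rw [h1, h2])]
      · rw [hcw j h2, mul_zero, if_neg h2.ne', mul_zero]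
    · rw [if_neg h1, zero_mul]
      symm
      apply Finset.sum_eq_zero
      intro j _
      by_cases h2 : wt j = k
      · rw [show dg wt Φ i j = 0 from if_neg (by rw [h2]; exact h1), zero_mul]
      · rw [if_neg h2, mul_zero]

end ZQ38
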