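import Pool.Agent.LibZQ38.B03a

/-!
Deligne splitting: the lift lies in `I^{a,b}`, `b = k - a`.

PLAN. Let `L = Lm wt Φ`, `L̄ = Lm wt (bar Φ)`, `c_j = Ewt wt (k-(j+1)) (Dd .. j v)`.
`x = L v - ∑_{j<J} L (Pge a c_j)`. In `F^a`: Lm_mem, `v ∈ F^a Gr` by GrP.fil (`P b v = 0` for b ≠ a),
GrP.Pge_mem. In `W_k`. By telescoping `Dd .. J v = Dd .. 0 v - ∑_{j<J} (L (Pge a c_j) + L̄ (Pls a c_j))`
and `Dd .. J = 0`, so `x = L̄ v + ∑_{j<J} L̄ (Pls a c_j)`. Here `L̄ v ∈ F̄^b ∩ W_k` (GrP.mem_bar,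
Lm_mem for bar Φ) and `L̄ (Pls a c_j) ∈ F̄^{(k-(j+1))-a+1} ∩ W_{k-(j+1)}` (GrP.Pls_mem): for `j = 0`
this is in `F̄^b ∩ W_k`, for `j ≥ 1` it is the term with index `j - 1` of the supremum.
-/

open Matrix Complex
open MW38 (Fl Tri blk dg)

namespace ZQ38

variable {ι : Type} [Fintype ι] [DecidableEq ι] {wt p : ι → ℤ} {K : ℕ} {Φ : Matrix ι ι ℂ}
  {P : ℤ → Matrix ι ι ℂ} {Ω : Set ℂ}

theorem B03b_Wt_mono {k l : ℤ} (hkl : k ≤ l) : Wt wt k ≤ Wt wt l := by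
  intro v hv i hi
  exact hv i (lt_of_le_of_lt hkl hi)

theorem B03b_Ewt_apply (k : ℤ) (v : ι → ℂ) (i : ι) :
    (Ewt wt k *ᵥ v) i = if wt i = k then v i else 0 := by
  rw [Ewt, Matrix.mulVec_diagonal]
  split_ifs <;> simp

theorem B03b_Ewt_Ewt (k : ℤ) (v : ι → ℂ) : Ewt wt k *ᵥ (Ewt wt k *ᵥ v) = Ewt wt k *ᵥ v := by
  funext i
  rw [B03b_Ewt_apply]
  split_ifs with h
  · rfl
  · rw [B03b_Ewt_apply, if_neg h]

theorem B03b_mem_Wt_of_Ewt {k : ℤ} {v : ι → ℂ} (hv : Ewt wt k *ᵥ v = v) : v ∈ Wt wt k := by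
  intro i hi
  rw [← hv, B03b_Ewt_apply, if_neg (by omega)]

theorem B03b_sum_Wt (h : GrP wt p K Φ P) (s : Finset ℤ) (k : ℤ) {v : ι → ℂ} (hv : v ∈ Wt wt k) :
    (∑ b ∈ s, P b) *ᵥ v ∈ Wt wt k := by
  rw [Matrix.sum_mulVec]
  exact Submodule.sum_mem _ fun b _ => h.mem_Wt b k hv

theorem B03b_tele (h : GrP wt p K Φ P) (a k : ℤ) (v : ι → ℂ) (J : ℕ) :
    Dd wt K Φ P a k J *ᵥ v = Dd wt K Φ P a k 0 *ᵥ v -
      ∑ j ∈ Finset.range J,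
        (Lm wt Φ *ᵥ (Pge K P a *ᵥ (Ewt wt (k - (j + 1)) *ᵥ (Dd wt K Φ P a k j *ᵥ v))) +
          Lm wt (bar Φ) *ᵥ (Pls K P a *ᵥ
            (Ewt wt (k - (j + 1)) *ᵥ (Dd wt K Φ P a k j *ᵥ v)))) := by
  induction J with
  | zero => simp
  | succ J ih =>
    have hd : Dd wt K Φ P a k (J + 1) = Dd wt K Φ P a k J -
        Lm wt Φ * Pge K P a * Ewt wt (k - (J + 1)) * Dd wt K Φ P a k J -
        Lm wt (bar Φ) * Pls K P a * Ewt wt (k - (J + 1)) * Dd wt K Φ P a k J := rfl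
    have h1 : (Lm wt Φ * Pge K P a * Ewt wt (k - (J + 1)) * Dd wt K Φ P a k J) *ᵥ v =
        Lm wt Φ *ᵥ (Pge K P a *ᵥ (Ewt wt (k - (J + 1)) *ᵥ (Dd wt K Φ P a k J *ᵥ v))) := by
      rw [← Matrix.mulVec_mulVec, ← Matrix.mulVec_mulVec, ← Matrix.mulVec_mulVec]
    have h2 : (Lm wt (bar Φ) * Pls K P a * Ewt wt (k - (J + 1)) * Dd wt K Φ P a k J) *ᵥ v =
        Lm wt (bar Φ) *ᵥ (Pls K P a *ᵥ
          (Ewt wt (k - (J + 1)) *ᵥ (Dd wt K Φ P a k J *ᵥ v))) := by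
      rw [← Matrix.mulVec_mulVec, ← Matrix.mulVec_mulVec, ← Matrix.mulVec_mulVec]
    rw [Finset.sum_range_succ, hd, Matrix.sub_mulVec, Matrix.sub_mulVec, h1, h2]
    rw [sub_sub, ← sub_sub (Dd wt K Φ P a k 0 *ᵥ v), ← ih]

theorem Hd_mem (h : GrP wt p K Φ P) {J : ℕ} (hJ : ∀ i j, wt i - wt j < J) {a k : ℤ}
    (hk : k ∈ Finset.univ.image wt) {v : ι → ℂ} (hv : P a *ᵥ v = v) (hv' : Ewt wt k *ᵥ v = v) :
    Hd wt K Φ P J a k *ᵥ v ∈ Ide wt p Φ a (k - a) := by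
  set c : ℕ → ι → ℂ := fun j => Ewt wt (k - (j + 1)) *ᵥ (Dd wt K Φ P a k j *ᵥ v) with hc
  have hcE : ∀ j : ℕ, Ewt wt (k - (j + 1)) *ᵥ c j = c j := fun j => B03b_Ewt_Ewt _ _
  have hcW : ∀ j : ℕ, c j ∈ Wt wt (k - (j + 1)) := fun j => B03b_mem_Wt_of_Ewt (hcE j)
  have hvW : v ∈ Wt wt k := B03b_mem_Wt_of_Ewt hv'
  have hPb : ∀ b, b ≠ a → P b *ᵥ v = 0 := by
    intro b hb
    rw [← hv, Matrix.mulVec_mulVec, h.mul, if_neg hb, Matrix.zero_mulVec]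
  -- first form
  have hx : Hd wt K Φ P J a k *ᵥ v =
      Lm wt Φ *ᵥ v - ∑ j ∈ Finset.range J, Lm wt Φ *ᵥ (Pge K P a *ᵥ c j) := by
    rw [Hd, Matrix.sub_mulVec, Matrix.sum_mulVec]
    simp only [← Matrix.mulVec_mulVec, hv', hv, hc]
  -- second form
  have hD0 : Dd wt K Φ P a k 0 *ᵥ v = Lm wt Φ *ᵥ v - Lm wt (bar Φ) *ᵥ v := by
    rw [Dd, ← Matrix.mulVec_mulVec, ← Matrix.mulVec_mulVec, hv', hv, Matrix.sub_mulVec]
  have hx' : Hd wt K Φ P J a k *ᵥ v =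
      Lm wt (bar Φ) *ᵥ v + ∑ j ∈ Finset.range J, Lm wt (bar Φ) *ᵥ (Pls K P a *ᵥ c j) := by
    have h1 := B03b_tele h a k v J
    rw [Dd_eq_zero h hJ a k hk, Matrix.zero_mulVec, hD0, Finset.sum_add_distrib] at h1
    rw [hx]
    have h2 : Lm wt Φ *ᵥ v - Lm wt (bar Φ) *ᵥ v =
        ∑ j ∈ Finset.range J, Lm wt Φ *ᵥ (Pge K P a *ᵥ c j) +
        ∑ j ∈ Finset.range J, Lm wt (bar Φ) *ᵥ (Pls K P a *ᵥ c j) :=
      (sub_eq_zero.1 h1.symm)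
    rw [sub_eq_iff_eq_add] at h2
    rw [h2]
    abel
  have hak : a + (k - a) = k := by ring
  have hLu : Un wt (Lm wt Φ) := Lm_un h.unit h.tri
  have hLu' : Un wt (Lm wt (bar Φ)) := Lm_un (bar_isUnit h.unit) (bar_tri h.tri)
  rw [Ide, hak]
  refine ⟨⟨?_, ?_⟩, ?_⟩
  · -- in `F^a`
    rw [SetLike.mem_coe, hx]
    refine Submodule.sub_mem _ (Lm_mem h.unit h.tri ((h.fil a v).2 fun b hb => hPb b hb.ne))
      (Submodule.sum_mem _ fun j _ => Lm_mem h.unit h.tri (h.Pge_mem a _))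
  · -- in `W_k`
    rw [SetLike.mem_coe, hx]
    refine Submodule.sub_mem _ (hLu.mem_Wt hvW) (Submodule.sum_mem _ fun j _ => ?_)
    exact B03b_Wt_mono (by omega) (hLu.mem_Wt (B03b_sum_Wt h _ _ (hcW j)))
  · rw [SetLike.mem_coe, hx']
    refine Submodule.add_mem _ ?_ (Submodule.sum_mem _ fun j _ => ?_)
    · refine Submodule.mem_sup_left ⟨?_, hLu'.mem_Wt hvW⟩
      refine Lm_mem (bar_isUnit h.unit) (bar_tri h.tri) ?_
      refine (h.mem_bar (k - a) k hv').2 fun b hb => hPb b ?_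
      intro hba
      rw [hba] at hb
      omega
    · have h3 : Lm wt (bar Φ) *ᵥ (Pls K P a *ᵥ c j) ∈ Fl p (bar Φ) (k - (j + 1) - a + 1) :=
        Lm_mem (bar_isUnit h.unit) (bar_tri h.tri) (h.Pls_mem a _ (hcE j))
      have h4 : Lm wt (bar Φ) *ᵥ (Pls K P a *ᵥ c j) ∈ Wt wt (k - (j + 1)) :=
        hLu'.mem_Wt (B03b_sum_Wt h _ _ (hcW j))
      rcases j with _ | j
      · refine Submodule.mem_sup_left ⟨?_, B03b_Wt_mono (by simp) h4⟩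
        have h5 : k - (((0 : ℕ) : ℤ) + 1) - a + 1 = k - a := by push_cast; ring
        rw [h5] at h3
        exact h3
      · refine Submodule.mem_sup_right (Submodule.mem_iSup_of_mem j ⟨?_, ?_⟩)
        · have h5 : k - (((j + 1 : ℕ) : ℤ) + 1) - a + 1 = k - a - ((j : ℤ) + 2) + 1 := by
            push_cast; ring
          rw [h5] at h3
          exact h3
        · have h5 : k - (((j + 1 : ℕ) : ℤ) + 1) = k - ((j : ℤ) + 2) := by push_cast; ring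
          rw [h5] at h4
          exact h4

end ZQ38
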