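import Pool.Agent.LibZQ38.B01
import Pool.Agent.LibZQ38.B04b

/-!
The operators opP, opQ.
-/

open Matrix Complex
open MW38 (Fl Tri blk dg)

namespace ZQ38

variable {ι : Type} [Fintype ι] [DecidableEq ι] {wt p : ι → ℤ} {K : ℕ} {Φ : Matrix ι ι ℂ}
  {P : ℤ → Matrix ι ι ℂ} {Ω : Set ℂ}

/-- the operator with eigenvalue `a` on `I^{a,b}` -/
noncomputable def oP (K : ℕ) (P : ℤ → Matrix ι ι ℂ) (h : Matrix ι ι ℂ) : Matrix ι ι ℂ :=
  h * PG K P * h⁻¹

/-- the operator with eigenvalue `b` on `I^{a,b}` -/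
noncomputable def oQ (wt : ι → ℤ) (K : ℕ) (P : ℤ → Matrix ι ι ℂ) (h : Matrix ι ι ℂ) :
    Matrix ι ι ℂ := h * (Dwt wt - PG K P) * h⁻¹

theorem B06_PG_mul (hP : GrP wt p K Φ P) (a : ℤ) : PG K P * P a = (a : ℂ) • P a := by
  unfold PG
  rw [Finset.sum_mul]
  by_cases ha : a ∈ Finset.Icc (-(K : ℤ)) K
  · rw [Finset.sum_eq_single_of_mem a ha]
    · rw [smul_mul_assoc, hP.mul, if_pos rfl]
    · intro b _ hb
      rw [smul_mul_assoc, hP.mul, if_neg hb, smul_zero]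
  · have h0 : P a = 0 := by
      apply hP.supp
      rw [Finset.mem_Icc, not_and_or, not_le, not_le] at ha
      rw [lt_abs]
      omega
    rw [h0, smul_zero]
    exact Finset.sum_eq_zero fun b _ => mul_zero _

theorem B06_PG_vec (hP : GrP wt p K Φ P) {a : ℤ} {u : ι → ℂ} (hu : P a *ᵥ u = u) :
    PG K P *ᵥ u = (a : ℂ) • u := by
  conv_lhs => rw [← hu]
  rw [Matrix.mulVec_mulVec, B06_PG_mul hP, Matrix.smul_mulVec, hu]

theorem B06_Dwt_vec {k : ℤ} {u : ι → ℂ} (hu : Ewt wt k *ᵥ u = u) :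
    Dwt wt *ᵥ u = (k : ℂ) • u := by
  funext i
  rw [Dwt, Matrix.mulVec_diagonal, Pi.smul_apply, smul_eq_mul]
  by_cases hi : wt i = k
  · rw [hi]
  · have h1 := congrFun hu i
    rw [Ewt, Matrix.mulVec_diagonal, if_neg hi, zero_mul] at h1
    rw [← h1, mul_zero, mul_zero]

theorem B06_comm (hP : GrP wt p K Φ P) (a k : ℤ) : Ewt wt k * P a = P a * Ewt wt k := by
  ext i j
  rw [Ewt, Matrix.diagonal_mul, Matrix.mul_diagonal]
  by_cases h : wt i = wt j
  · rw [h, mul_comm]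
  · rw [hP.diag a i j h, mul_zero, zero_mul]

theorem B06_Ewt_sum (v : ι → ℂ) : ∑ k ∈ Finset.univ.image wt, Ewt wt k *ᵥ v = v := by
  funext i
  rw [Finset.sum_apply, Finset.sum_eq_single_of_mem (wt i) (Finset.mem_image_of_mem _ (Finset.mem_univ i))]
  · rw [Ewt, Matrix.mulVec_diagonal, if_pos rfl, one_mul]
  · intro k _ hk
    rw [Ewt, Matrix.mulVec_diagonal, if_neg (Ne.symm hk), zero_mul]

theorem B06_Ewt_idem (k : ℤ) : Ewt wt k * Ewt wt k = Ewt wt k := by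
  rw [Ewt, Matrix.diagonal_mul_diagonal]
  congr 1
  funext i
  by_cases h : wt i = k
  · rw [if_pos h, mul_one]
  · rw [if_neg h, mul_zero]

/-- a matrix is determined by its values on the pieces -/
theorem B06_ext (hP : GrP wt p K Φ P) {M N : Matrix ι ι ℂ}
    (h : ∀ a k (u : ι → ℂ), P a *ᵥ u = u → Ewt wt k *ᵥ u = u → M *ᵥ u = N *ᵥ u) : M = N := by
  have h1 : ∀ v : ι → ℂ, M *ᵥ v = N *ᵥ v := by
    intro v
    have hv : v = ∑ a ∈ Finset.Icc (-(K : ℤ)) K, ∑ k ∈ Finset.univ.image wt,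
        P a *ᵥ (Ewt wt k *ᵥ v) := by
      have h2 : ∀ a, ∑ k ∈ Finset.univ.image wt, P a *ᵥ (Ewt wt k *ᵥ v) = P a *ᵥ v := by
        intro a
        rw [← Matrix.mulVec_sum, B06_Ewt_sum]
      rw [Finset.sum_congr rfl fun a _ => h2 a, ← Matrix.sum_mulVec, hP.sum, Matrix.one_mulVec]
    rw [hv, Matrix.mulVec_sum, Matrix.mulVec_sum]
    refine Finset.sum_congr rfl fun a _ => ?_
    rw [Matrix.mulVec_sum, Matrix.mulVec_sum]
    refine Finset.sum_congr rfl fun k _ => ?_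
    apply h a k
    · rw [Matrix.mulVec_mulVec, hP.mul, if_pos rfl]
    · rw [Matrix.mulVec_mulVec, Matrix.mulVec_mulVec, B06_comm hP, mul_assoc,
        B06_Ewt_idem, ← Matrix.mulVec_mulVec]
  ext i j
  have h3 := congrFun (h1 (Pi.single j 1)) i
  simpa using h3

theorem B06_gen (hP : GrP wt p K Φ P) {h : Matrix ι ι ℂ} (hh : DelH wt p Φ P h)
    (M : Matrix ι ι ℂ) (c : ℤ → ℤ → ℂ)
    (hM : ∀ a k (u : ι → ℂ), P a *ᵥ u = u → Ewt wt k *ᵥ u = u → M *ᵥ u = c a k • u)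
    (A : Matrix ι ι ℂ) :
    (∀ a b : ℤ, ∀ v ∈ Ide wt p Φ a b, A *ᵥ v = c a (a + b) • v) ↔ A = h * M * h⁻¹ := by
  have hu : IsUnit h := Un.isUnit hh.un
  have hdet : IsUnit h.det := (Matrix.isUnit_iff_isUnit_det h).1 hu
  constructor
  · intro hA
    have h1 : A * h = h * M := by
      refine B06_ext hP fun a k u h2 h3 => ?_
      rw [← Matrix.mulVec_mulVec, ← Matrix.mulVec_mulVec, hM a k u h2 h3, Matrix.mulVec_smul]
      have h4 : h *ᵥ u ∈ Ide wt p Φ a (k - a) := by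
        rw [hh.ide]
        refine ⟨h2, ?_⟩
        rw [show a + (k - a) = k by ring]
        exact h3
      have h5 := hA a (k - a) _ h4
      rw [show a + (k - a) = k by ring] at h5
      exact h5
    rw [← h1, mul_assoc, Matrix.mul_nonsing_inv _ hdet, mul_one]
  · intro hA a b v hv
    have h1 : h *ᵥ (h⁻¹ *ᵥ v) = v := by
      rw [Matrix.mulVec_mulVec, Matrix.mul_nonsing_inv _ hdet, Matrix.one_mulVec]
    rw [← h1, hh.ide] at hv
    rw [hA, ← Matrix.mulVec_mulVec, ← Matrix.mulVec_mulVec, hM a (a + b) _ hv.1 hv.2,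
      Matrix.mulVec_smul, h1]

theorem isOpP_iff (hP : GrP wt p K Φ P) {h : Matrix ι ι ℂ} (hh : DelH wt p Φ P h)
    (A : Matrix ι ι ℂ) : IsOpP wt p Φ A ↔ A = oP K P h :=
  B06_gen hP hh (PG K P) (fun a _ => (a : ℂ)) (fun _ _ _ h1 _ => B06_PG_vec hP h1) A

theorem isOpQ_iff (hP : GrP wt p K Φ P) {h : Matrix ι ι ℂ} (hh : DelH wt p Φ P h)
    (A : Matrix ι ι ℂ) : IsOpQ wt p Φ A ↔ A = oQ wt K P h := by
  have h1 := B06_gen hP hh (Dwt wt - PG K P) (fun a k => (k : ℂ) - a)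
    (fun a k u h1 h2 => by
      rw [Matrix.sub_mulVec, B06_PG_vec hP h1, B06_Dwt_vec h2, sub_smul]) A
  have h2 : IsOpQ wt p Φ A ↔ ∀ a b : ℤ, ∀ v ∈ Ide wt p Φ a b,
      A *ᵥ v = (((a + b : ℤ) : ℂ) - a) • v := by
    unfold IsOpQ
    refine forall_congr' fun a => forall_congr' fun b => ?_
    rw [show ((a + b : ℤ) : ℂ) - a = b by push_cast; ring]
  rw [h2]
  exact h1

theorem oP_mem (hP : GrP wt p K Φ P) {h : Matrix ι ι ℂ} (hh : DelH wt p Φ P h) :
    oP K P h ∈ cx (mtLie wt p Φ) := by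
  unfold mtLie
  exact mem_cx_sInf fun L hL => hL.2.1 _ ((isOpP_iff hP hh _).2 rfl)

theorem oQ_mem (hP : GrP wt p K Φ P) {h : Matrix ι ι ℂ} (hh : DelH wt p Φ P h) :
    oQ wt K P h ∈ cx (mtLie wt p Φ) := by
  unfold mtLie
  exact mem_cx_sInf fun L hL => hL.2.2 _ ((isOpQ_iff hP hh _).2 rfl)

theorem mtLie_isLie : IsLie (mtLie wt p Φ) := by
  intro A hA B hB
  unfold mtLie at hA hB ⊢
  rw [Submodule.mem_sInf] at hA hB ⊢
  intro L hL
  exact hL.1 A (hA L hL) B (hB L hL)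

theorem mtLie_le_iff (hP : GrP wt p K Φ P) {h : Matrix ι ι ℂ} (hh : DelH wt p Φ P h)
    {L : Submodule ℚ (Matrix ι ι ℚ)} (hL : IsLie L) :
    mtLie wt p Φ ≤ L ↔ oP K P h ∈ cx L ∧ oQ wt K P h ∈ cx L := by
  constructor
  · intro h1
    exact ⟨cx_mono h1 (oP_mem hP hh), cx_mono h1 (oQ_mem hP hh)⟩
  · rintro ⟨h1, h2⟩
    unfold mtLie
    refine sInf_le ⟨hL, fun A hA => ?_, fun A hA => ?_⟩
    · rw [(isOpP_iff hP hh A).1 hA]
      exact h1
    · rw [(isOpQ_iff hP hh A).1 hA]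
      exact h2

/-- the rational block triangular matrices -/
def B06_TriSub (wt : ι → ℤ) : Submodule ℚ (Matrix ι ι ℚ) where
  carrier := {A | Tri wt A}
  add_mem' := by
    intro A B hA hB i j h
    rw [Matrix.add_apply, hA i j h, hB i j h, add_zero]
  zero_mem' := by intro i j _; rfl
  smul_mem' := by
    intro c A hA i j h
    rw [Matrix.smul_apply, hA i j h, smul_zero]

theorem B06_un_tri {h : Matrix ι ι ℂ} (hh : Un wt h) : Tri wt h := by
  intro i j hij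
  rw [hh i j hij.le, if_neg]
  rintro rfl
  exact lt_irrefl _ hij

theorem B06_PG_tri (hP : GrP wt p K Φ P) : Tri wt (PG K P) := by
  intro i j hij
  unfold PG
  rw [Matrix.sum_apply]
  refine Finset.sum_eq_zero fun a _ => ?_
  rw [Matrix.smul_apply, hP.diag a i j hij.ne', smul_zero]

theorem B06_Dwt_tri : Tri wt (Dwt wt) := by
  intro i j hij
  unfold Dwt
  rw [Matrix.diagonal_apply_ne]
  rintro rfl
  exact lt_irrefl _ hij

theorem B06_sub_tri {A B : Matrix ι ι ℂ} (hA : Tri wt A) (hB : Tri wt B) : Tri wt (A - B) := by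
  intro i j h
  rw [Matrix.sub_apply, hA i j h, hB i j h, sub_zero]

theorem mtLie_tri (hP : GrP wt p K Φ P) {h : Matrix ι ι ℂ} (hh : DelH wt p Φ P h) :
    ∀ A ∈ mtLie wt p Φ, Tri wt A := by
  have hu : IsUnit h := Un.isUnit hh.un
  have ht : Tri wt h := B06_un_tri hh.un
  have hti : Tri wt h⁻¹ := ht.inv hu
  have hL : IsLie (B06_TriSub wt) := by
    intro A hA B hB i j hij
    have h1 : Tri wt (A * B) := MW38.Tri.mul hA hB
    have h2 : Tri wt (B * A) := MW38.Tri.mul hB hA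
    rw [Matrix.sub_apply, h1 i j hij, h2 i j hij, sub_zero]
  have hmem : ∀ A : Matrix ι ι ℂ, Tri wt A → A ∈ cx (B06_TriSub wt) := by
    intro A hA
    rw [mem_cx_iff]
    intro f i j hij
    rw [Matrix.map_apply, hA i j hij, map_zero]
  have h1 : mtLie wt p Φ ≤ B06_TriSub wt := by
    rw [mtLie_le_iff hP hh hL]
    refine ⟨hmem _ ?_, hmem _ ?_⟩
    · exact (ht.mul (B06_PG_tri hP)).mul hti
    · exact (ht.mul (B06_sub_tri B06_Dwt_tri (B06_PG_tri hP))).mul hti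
  exact fun A hA => h1 hA

/-- `opP + opQ` -/
theorem oP_add_oQ (h : Matrix ι ι ℂ) (K : ℕ) (P : ℤ → Matrix ι ι ℂ) :
    oP K P h + oQ wt K P h = h * Dwt wt * h⁻¹ := by
  unfold oP oQ
  rw [mul_sub, sub_mul]
  abel

/-- `opP + opQ` acts on the graded pieces by the weight -/
theorem Y_sub_Dwt {h : Matrix ι ι ℂ} (hh : Un wt h) : h * Dwt wt * h⁻¹ - Dwt wt ∈ Low ℂ wt := by
  have hu : IsUnit h := Un.isUnit hh
  have hdet : IsUnit h.det := (Matrix.isUnit_iff_isUnit_det h).1 hu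
  have ht : Tri wt h := B06_un_tri hh
  have hti : Tri wt h⁻¹ := ht.inv hu
  have h1 : h * Dwt wt * h⁻¹ - Dwt wt = (h * Dwt wt - Dwt wt * h) * h⁻¹ := by
    rw [sub_mul, mul_assoc (Dwt wt) h, Matrix.mul_nonsing_inv _ hdet, mul_one]
  rw [h1]
  intro i j hij
  rw [Matrix.mul_apply]
  refine Finset.sum_eq_zero fun k _ => ?_
  by_cases hk : wt k ≤ wt i
  · have h2 : (h * Dwt wt - Dwt wt * h) i k = 0 := by
      rw [Matrix.sub_apply, Dwt, Matrix.mul_diagonal, Matrix.diagonal_mul, hh i k hk]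
      by_cases hik : i = k
      · rw [if_pos hik, hik]
        ring
      · rw [if_neg hik]
        ring
    rw [h2, zero_mul]
  · rw [hti k j (by omega), mul_zero]

end ZQ38
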