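import Pool.Agent.LibZQ38.B04b
import Pool.Agent.LibZQ38.B07

/-!
Complex conjugation and Deligne's splitting.

PLAN. Let u be of type (a,b), a+b=k, so v := conj u is of type (b,a) (GrP.conj) and h v ∈ I^{b,a};
bar h u = conj (h v). Put x := conj (h v) and write h⁻¹ x = ∑ x_{r,s} (components P r Ewt (r+s)).
Must show: x_{a,b} = u, and x_{r,s} ≠ 0, (r,s) ≠ (a,b) implies r < a and s < b.
(1) x ∈ W_k with leading coordinates u: so the weight k part is u.
(2) conjugating the definition of I^{b,a}: x ∈ F^a ∩ W_k + ∑_{j≥2} F^{a-j+1} ∩ W_{k-j}. Now F^c ∩ W_l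
is h of the span of types (r,s) with r ≥ c, r+s ≤ l. So a component of weight k-j (j ≥ 1) has
r ≥ a-j+1 (for j = 1: r ≥ a), hence s = k-j-r ≤ b-1.
(3) x ∈ F̄^b ∩ W_k. Let S_i := F̄^b ∩ W_k + ∑_{j≥2} F̄^{b-j+1} ∩ W_{k-j}, intersected with W_{k-i}.
y := x - h u ∈ S_1 (h u ∈ I^{a,b}). Claim by induction on i ≥ 1: if y ∈ S_i then its components of
weight k-i have r ≤ a-1, and y - (their sum under h) ∈ S_{i+1}. Leading coordinates of y are in
F̄^{b-i+1} Gr_{k-i} (as in Ide_inj), so s ≥ b-i+1, r ≤ a-1; each h x_{r,s} ∈ I^{r,s} ⊆ F̄^s ∩ W_{k-i} +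
∑_{j≥2} F̄^{s-j+1} ∩ W_{k-i-j} is again in S (s ≥ b-i+1).
-/

open Matrix Complex
open MW38 (Fl Tri blk dg)

namespace ZQ38

variable {ι : Type} [Fintype ι] [DecidableEq ι] {wt p : ι → ℤ} {K : ℕ} {Φ : Matrix ι ι ℂ}
  {P : ℤ → Matrix ι ι ℂ} {Ω : Set ℂ}

/-- matrices lowering both Hodge types of the graded pieces strictly -/
def Lam (wt : ι → ℤ) (P : ℤ → Matrix ι ι ℂ) : Submodule ℂ (Matrix ι ι ℂ) where
  carrier := {N | ∀ r l a k : ℤ, (a ≤ r ∨ k - a ≤ l - r) →
    P r * Ewt wt l * N * (P a * Ewt wt k) = 0}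
  add_mem' := by
    intro A B hA hB r l a k h
    rw [Matrix.mul_add, Matrix.add_mul, hA r l a k h, hB r l a k h, add_zero]
  zero_mem' := by intro r l a k _; simp
  smul_mem' := by
    intro c A hA r l a k h
    rw [Matrix.mul_smul, Matrix.smul_mul, hA r l a k h, smul_zero]

/-- conjugate vector -/
private noncomputable def B08a_cj (v : ι → ℂ) : ι → ℂ := fun i => (starRingEnd ℂ) (v i)

private theorem B08a_cj_cj (v : ι → ℂ) : B08a_cj (B08a_cj v) = v := by
  funext i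
  simp [B08a_cj]

private theorem B08a_cj_add (v w : ι → ℂ) : B08a_cj (v + w) = B08a_cj v + B08a_cj w := by
  funext i
  simp [B08a_cj]

private theorem B08a_cj_mulVec (A : Matrix ι ι ℂ) (v : ι → ℂ) :
    B08a_cj (A *ᵥ v) = bar A *ᵥ B08a_cj v := by
  funext i
  simp only [B08a_cj, bar, Matrix.mulVec, dotProduct, map_sum, map_mul, Matrix.map_apply]

private theorem B08a_bar_bar (A : Matrix ι ι ℂ) : bar (bar A) = A := by
  ext i j
  simp [bar]

private theorem B08a_bar_mul (A B : Matrix ι ι ℂ) : bar (A * B) = bar A * bar B := by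
  ext i j
  simp only [bar, Matrix.map_apply, Matrix.mul_apply, map_sum, map_mul]

private theorem B08a_bar_one : bar (1 : Matrix ι ι ℂ) = 1 := by
  ext i j
  simp only [bar, Matrix.map_apply, Matrix.one_apply]
  split_ifs <;> simp

private theorem B08a_bar_zero : bar (0 : Matrix ι ι ℂ) = 0 := by
  ext i j
  simp [bar]

private theorem B08a_bar_sub (A B : Matrix ι ι ℂ) : bar (A - B) = bar A - bar B := by
  ext i j
  simp [bar]

private theorem B08a_bar_PE (hP : GrP wt p K Φ P) (a k : ℤ) :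
    bar (P a * Ewt wt k) = P (k - a) * Ewt wt k := by
  ext i j
  rw [bar, Matrix.map_apply, Ewt, Matrix.mul_diagonal, Matrix.mul_diagonal, map_mul, hP.conj]
  by_cases hj : wt j = k
  · rw [if_pos hj, map_one]
    by_cases hij : wt i = wt j
    · rw [hij, hj]
    · rw [hP.diag _ i j hij, hP.diag _ i j hij]
  · rw [if_neg hj, map_zero, mul_zero, mul_zero]

private theorem B08a_ext {A : Matrix ι ι ℂ} (h : ∀ w, A *ᵥ w = 0) : A = 0 := by
  ext i j
  have h1 := congrFun (h (Pi.single j 1)) i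
  rw [Matrix.mulVec_single_one] at h1
  exact h1

private theorem B08a_inv {h : Matrix ι ι ℂ} (hu : IsUnit h) : h⁻¹ * h = 1 ∧ h * h⁻¹ = 1 :=
  ⟨Matrix.nonsing_inv_mul h ((Matrix.isUnit_iff_isUnit_det h).1 hu),
    Matrix.mul_nonsing_inv h ((Matrix.isUnit_iff_isUnit_det h).1 hu)⟩

private theorem B08a_Ewt_apply (wt : ι → ℤ) (k : ℤ) (x : ι → ℂ) (i : ι) :
    (Ewt wt k *ᵥ x) i = if wt i = k then x i else 0 := by
  rw [Ewt, Matrix.mulVec_diagonal]
  split_ifs <;> simp

private theorem B08a_Ewt_low {wt : ι → ℤ} {k l : ℤ} (hkl : k < l) {x : ι → ℂ}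
    (hx : x ∈ Wt wt k) : Ewt wt l *ᵥ x = 0 := by
  funext i
  rw [B08a_Ewt_apply]
  split_ifs with h
  · exact hx i (by omega)
  · rfl

private theorem B08a_Ewt_idem (wt : ι → ℤ) (k : ℤ) : Ewt wt k * Ewt wt k = Ewt wt k := by
  rw [Ewt, Matrix.diagonal_mul_diagonal]
  congr 1
  funext i
  split_ifs <;> simp

private theorem B08a_Ewt_mul_ne (wt : ι → ℤ) {k l : ℤ} (h : k ≠ l) :
    Ewt wt k * Ewt wt l = 0 := by
  rw [Ewt, Ewt, Matrix.diagonal_mul_diagonal, ← Matrix.diagonal_zero]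
  congr 1
  funext i
  split_ifs with h1 h2
  · exact absurd (h1.symm.trans h2) h
  all_goals simp

private theorem B08a_sum_Ewt (wt : ι → ℤ) : ∑ k ∈ Finset.univ.image wt, Ewt wt k = 1 := by
  ext i j
  rw [Matrix.sum_apply]
  by_cases hij : i = j
  · subst hij
    rw [Matrix.one_apply_eq]
    have : ∀ k ∈ Finset.univ.image wt, Ewt wt k i i = if wt i = k then (1 : ℂ) else 0 := by
      intro k _
      rw [Ewt, Matrix.diagonal_apply_eq]
    rw [Finset.sum_congr rfl this, Finset.sum_ite_eq, if_pos (Finset.mem_image_of_mem _ (Finset.mem_univ i))]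
  · rw [Matrix.one_apply_ne hij]
    apply Finset.sum_eq_zero
    intro k _
    rw [Ewt, Matrix.diagonal_apply_ne _ hij]

private theorem B08a_coord {g : Matrix ι ι ℂ} (hg : Un wt g) {v : ι → ℂ} {i : ι}
    (hv : ∀ j, wt i < wt j → v j = 0) : (g *ᵥ v) i = v i := by
  rw [Matrix.mulVec, dotProduct]
  rw [Finset.sum_eq_single i]
  · rw [hg i i le_rfl, if_pos rfl, one_mul]
  · intro j _ hj
    rcases le_or_gt (wt j) (wt i) with h | h
    · rw [hg i j h, if_neg (Ne.symm hj), zero_mul]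
    · rw [hv j h, mul_zero]
  · intro h; exact absurd (Finset.mem_univ i) h

private theorem B08a_mem {g : Matrix ι ι ℂ} (hg : Un wt g) {k : ℤ} {v : ι → ℂ}
    (hv : g *ᵥ v ∈ Wt wt k) : v ∈ Wt wt k := by
  classical
  by_contra hc
  have hne : (Finset.univ.filter (fun i => k < wt i ∧ v i ≠ 0)).Nonempty := by
    by_contra hne
    rw [Finset.not_nonempty_iff_eq_empty] at hne
    apply hc
    intro i hi
    by_contra h0
    have : i ∈ Finset.univ.filter (fun i => k < wt i ∧ v i ≠ 0) := by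
      simp [hi, h0]
    rw [hne] at this
    exact absurd this (Finset.notMem_empty i)
  obtain ⟨i, hi, hmax⟩ := Finset.exists_max_image _ wt hne
  rw [Finset.mem_filter] at hi
  have h1 : (g *ᵥ v) i = v i := by
    apply B08a_coord hg
    intro j hj
    by_contra h0
    have h2 := hmax j (by simp only [Finset.mem_filter, Finset.mem_univ, true_and]; exact ⟨by omega, h0⟩)
    omega
  have h3 : (g *ᵥ v) i = 0 := hv i hi.2.1
  exact hi.2.2 (by rw [← h1, h3])

private theorem B08a_Wt_mono {wt : ι → ℤ} {k l : ℤ} (h : k ≤ l) : Wt wt k ≤ Wt wt l := by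
  intro x hx i hi
  exact hx i (by omega)

private theorem B08a_sup {a b : ℤ} (n : ℕ) (hn : 1 ≤ n) {x : ι → ℂ} (hx : x ∈ Ide wt p Φ a b) :
    x ∈ Fl p (bar Φ) (b - n + 1) ⊔ Wt wt (a + b - n - 1) := by
  have h1 : ((Fl p (bar Φ) b ⊓ Wt wt (a + b)) ⊔
      ⨆ j : ℕ, Fl p (bar Φ) (b - (j + 2) + 1) ⊓ Wt wt (a + b - (j + 2))) ≤
      Fl p (bar Φ) (b - n + 1) ⊔ Wt wt (a + b - n - 1) := by
    apply sup_le
    · exact (inf_le_left.trans (MW38.Fl_anti (by omega))).trans le_sup_left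
    · apply iSup_le
      intro j
      rcases le_or_gt (j + 2) n with hj | hj
      · exact (inf_le_left.trans (MW38.Fl_anti (by omega))).trans le_sup_left
      · exact (inf_le_right.trans (B08a_Wt_mono (by omega))).trans le_sup_right
  exact h1 hx.2

private theorem B08a_cj_Fl {G : Matrix ι ι ℂ} {c : ℤ} {z : ι → ℂ} (hz : z ∈ Fl p (bar G) c) :
    B08a_cj z ∈ Fl p G c := by
  obtain ⟨w, hw, rfl⟩ := (MW38.mem_Fl_iff_exists z).1 hz
  rw [B08a_cj_mulVec, B08a_bar_bar]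
  refine (MW38.mem_Fl_iff_exists _).2 ⟨B08a_cj w, ?_, rfl⟩
  intro j hj
  simp [B08a_cj, hw j hj]

private theorem B08a_cj_Wt {k : ℤ} {z : ι → ℂ} (hz : z ∈ Wt wt k) : B08a_cj z ∈ Wt wt k := by
  intro i hi
  simp [B08a_cj, hz i hi]

/-- one half of the statement, from the definition of `I^{b,a}` -/
private theorem B08a_half (hP : GrP wt p K Φ P) {h : Matrix ι ι ℂ} (hh : DelH wt p Φ P h)
    (r l a k : ℤ) (hs : k - a ≤ l - r) :
    P r * Ewt wt l * (h⁻¹ * bar h - 1) * (P a * Ewt wt k) = 0 := by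
  have hu : IsUnit h := Un.isUnit hh.un
  apply B08a_ext
  intro w
  -- the vector `u`
  obtain ⟨u, hudef⟩ : ∃ u, u = (P a * Ewt wt k) *ᵥ w := ⟨_, rfl⟩
  have hEu : Ewt wt k *ᵥ u = u := by
    rw [hudef, Matrix.mulVec_mulVec, hP.comm_Ewt, ← Matrix.mul_assoc, B08a_Ewt_idem]
  have hPu : P a *ᵥ u = u := by
    rw [hudef, Matrix.mulVec_mulVec, ← Matrix.mul_assoc, hP.mul, if_pos rfl]
  have hPEu : (P a * Ewt wt k) *ᵥ u = u := by
    rw [← Matrix.mulVec_mulVec, hEu, hPu]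
  obtain ⟨v, hvdef⟩ : ∃ v, v = B08a_cj u := ⟨_, rfl⟩
  have hPEv : (P (k - a) * Ewt wt k) *ᵥ v = v := by
    rw [hvdef, ← B08a_bar_PE hP, ← B08a_cj_mulVec, hPEu]
  have hEv : Ewt wt k *ᵥ v = v := by
    rw [← hPEv, Matrix.mulVec_mulVec, hP.comm_Ewt, ← Matrix.mul_assoc, B08a_Ewt_idem]
  have hPv : P (k - a) *ᵥ v = v := by
    have := hPEv
    rwa [← Matrix.mulVec_mulVec, hEv] at this
  have hI : h *ᵥ v ∈ Ide wt p Φ (k - a) a := by
    apply (hh.ide (k - a) a v).2
    refine ⟨hPv, ?_⟩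
    have e : k - a + a = k := by ring
    rw [e]; exact hEv
  obtain ⟨x, hxdef⟩ : ∃ x, x = bar h *ᵥ u := ⟨_, rfl⟩
  have hxcj : x = B08a_cj (h *ᵥ v) := by
    rw [B08a_cj_mulVec, hvdef, B08a_cj_cj, hxdef]
  have hxW : x ∈ Wt wt k := by
    rw [hxcj]
    apply B08a_cj_Wt
    have := hI.1.2
    have e : k - a + a = k := by ring
    rwa [e] at this
  obtain ⟨ξ, hξdef⟩ : ∃ ξ, ξ = h⁻¹ *ᵥ x := ⟨_, rfl⟩
  have hhξ : h *ᵥ ξ = x := by
    rw [hξdef, Matrix.mulVec_mulVec, (B08a_inv hu).2, Matrix.one_mulVec]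
  have hξW : ξ ∈ Wt wt k := B08a_mem hh.un (by rw [hhξ]; exact hxW)
  have hgoal : (P r * Ewt wt l * (h⁻¹ * bar h - 1) * (P a * Ewt wt k)) *ᵥ w
      = P r *ᵥ (Ewt wt l *ᵥ ξ) - P r *ᵥ (Ewt wt l *ᵥ u) := by
    rw [← Matrix.mulVec_mulVec, ← hudef, ← Matrix.mulVec_mulVec, ← Matrix.mulVec_mulVec,
      Matrix.sub_mulVec, Matrix.one_mulVec, ← Matrix.mulVec_mulVec, ← hxdef, ← hξdef,
      Matrix.mulVec_sub, Matrix.mulVec_sub]
  rw [hgoal]
  rcases lt_trichotomy l k with hlk | hlk | hlk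
  · -- l < k
    have h1 : Ewt wt l *ᵥ u = 0 := by
      rw [← hEu, Matrix.mulVec_mulVec, B08a_Ewt_mul_ne wt (ne_of_lt hlk), Matrix.zero_mulVec]
    rw [h1, Matrix.mulVec_zero, sub_zero]
    obtain ⟨n, hn⟩ : ∃ n : ℕ, (n : ℤ) = k - l := ⟨(k - l).toNat, by omega⟩
    have hn1 : 1 ≤ n := by omega
    have h2 := B08a_sup n hn1 hI
    obtain ⟨s, hs', t, ht, hst⟩ := Submodule.mem_sup.1 h2
    have h3 : x = B08a_cj s + B08a_cj t := by rw [hxcj, ← hst, B08a_cj_add]
    have h4 : ξ = h⁻¹ *ᵥ B08a_cj s + h⁻¹ *ᵥ B08a_cj t := by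
      rw [hξdef, h3, Matrix.mulVec_add]
    have h5 : h⁻¹ *ᵥ B08a_cj t ∈ Wt wt (k - a + a - n - 1) := by
      apply B08a_mem hh.un
      rw [Matrix.mulVec_mulVec, (B08a_inv hu).2, Matrix.one_mulVec]
      exact B08a_cj_Wt ht
    have h6 : Ewt wt l *ᵥ (h⁻¹ *ᵥ B08a_cj t) = 0 := B08a_Ewt_low (by omega) h5
    have h7 := (hP.fil _ _).1 ((fil_h hP hh _ _).1 (B08a_cj_Fl hs')) r (by omega)
    rw [h4, Matrix.mulVec_add, h6, add_zero, Matrix.mulVec_mulVec, hP.comm_Ewt,
      ← Matrix.mulVec_mulVec, h7, Matrix.mulVec_zero]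
  · -- l = k
    subst hlk
    have h1 : Ewt wt l *ᵥ ξ = Ewt wt l *ᵥ u := by
      have h2 : Ewt wt l *ᵥ ξ = Ewt wt l *ᵥ x := by
        funext i
        rw [B08a_Ewt_apply, B08a_Ewt_apply]
        split_ifs with hi
        · rw [← hhξ]
          exact (B08a_coord hh.un (fun j hj => hξW j (by omega))).symm
        · rfl
      have h3 : Ewt wt l *ᵥ x = u := by
        rw [← B08a_cj_cj u, ← hvdef]
        rw [hxcj]
        funext i
        rw [B08a_Ewt_apply]
        have hvi : ∀ j, wt j ≠ l → v j = 0 := by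
          intro j hj
          rw [← hEv, B08a_Ewt_apply, if_neg hj]
        by_cases hi : wt i = l
        · rw [if_pos hi, B08a_cj, B08a_cj, B08a_coord hh.un (fun j hj => hvi j (by omega))]
        · rw [if_neg hi, B08a_cj, hvi i hi, map_zero]
      rw [h2, h3, hEu]
    rw [h1, sub_self]
  · -- k < l
    have h1 : Ewt wt l *ᵥ u = 0 := by
      rw [← hEu, Matrix.mulVec_mulVec, B08a_Ewt_mul_ne wt (ne_of_gt hlk), Matrix.zero_mulVec]
    rw [h1, B08a_Ewt_low hlk hξW, Matrix.mulVec_zero, sub_zero]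

private theorem B08a_other (hP : GrP wt p K Φ P) {h : Matrix ι ι ℂ} (hh : DelH wt p Φ P h)
    (r a : ℤ) (har : a ≤ r) : P r * (h⁻¹ * bar h - 1) * P a = 0 := by
  have hu : IsUnit h := Un.isUnit hh.un
  -- `X = bar N - 1` lowers `r`
  have hX : ∀ r a : ℤ, a ≤ r → P r * (bar (h⁻¹ * bar h) - 1) * P a = 0 := by
    intro r a har
    have h1 : ∀ l k : ℤ, P r * Ewt wt l * (bar (h⁻¹ * bar h) - 1) * (P a * Ewt wt k) = 0 := by
      intro l k
      have h2 := B08a_half hP hh (l - r) l (k - a) k (by omega)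
      have h3 := congrArg bar h2
      rw [B08a_bar_mul, B08a_bar_mul, B08a_bar_PE hP, B08a_bar_PE hP, B08a_bar_sub, B08a_bar_one,
        B08a_bar_zero] at h3
      have e1 : l - (l - r) = r := by ring
      have e2 : k - (k - a) = a := by ring
      rw [e1, e2] at h3
      exact h3
    have h4 : P r * (bar (h⁻¹ * bar h) - 1) * P a
        = ∑ l ∈ Finset.univ.image wt, ∑ k ∈ Finset.univ.image wt,
          P r * Ewt wt l * (bar (h⁻¹ * bar h) - 1) * (P a * Ewt wt k) := by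
      have h5 : ∀ l ∈ Finset.univ.image wt, ∑ k ∈ Finset.univ.image wt,
          P r * Ewt wt l * (bar (h⁻¹ * bar h) - 1) * (P a * Ewt wt k)
          = P r * Ewt wt l * (bar (h⁻¹ * bar h) - 1) * P a := by
        intro l _
        rw [← Finset.mul_sum, ← Finset.mul_sum, B08a_sum_Ewt, Matrix.mul_one]
      rw [Finset.sum_congr rfl h5, ← Finset.sum_mul, ← Finset.sum_mul, ← Finset.mul_sum,
        B08a_sum_Ewt, Matrix.mul_one]
    rw [h4]
    exact Finset.sum_eq_zero (fun l _ => Finset.sum_eq_zero (fun k _ => h1 l k))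
  -- `bar N * N = 1`
  have hN : bar (h⁻¹ * bar h) * (h⁻¹ * bar h) = 1 := by
    rw [B08a_bar_mul, B08a_bar_bar]
    calc bar h⁻¹ * h * (h⁻¹ * bar h) = bar h⁻¹ * (h * h⁻¹) * bar h := by
          simp only [Matrix.mul_assoc]
      _ = bar (h⁻¹ * h) := by rw [(B08a_inv hu).2, Matrix.mul_one, B08a_bar_mul]
      _ = 1 := by rw [(B08a_inv hu).1, B08a_bar_one]
  obtain ⟨X, hXdef⟩ : ∃ X, X = bar (h⁻¹ * bar h) - 1 := ⟨_, rfl⟩
  obtain ⟨Y, hYdef⟩ : ∃ Y, Y = h⁻¹ * bar h - 1 := ⟨_, rfl⟩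
  have hXY : Y = -X - X * Y := by
    have h1 : (X + 1) * (Y + 1) = 1 := by
      rw [hXdef, hYdef, sub_add_cancel, sub_add_cancel, hN]
    have h2 : X * Y + X + Y = 0 := by
      have h3 : (X + 1) * (Y + 1) = X * Y + X + Y + 1 := by
        rw [Matrix.add_mul, Matrix.mul_add, Matrix.mul_one, Matrix.one_mul]
        abel
      rw [h3] at h1
      exact left_eq_add.1 (by rw [add_comm]; exact h1.symm)
    have h4 : Y = -X - X * Y + (X * Y + X + Y) := by abel
    rw [h2, add_zero] at h4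
    exact h4
  rw [← hXdef] at hX
  rw [← hYdef]
  -- downward induction on `r`
  have key : ∀ n : ℕ, ∀ r : ℤ, (K : ℤ) - r < n → a ≤ r → P r * Y * P a = 0 := by
    intro n
    induction n with
    | zero =>
      intro r hr _
      have h0 : P r = 0 := hP.supp r (by rw [lt_abs]; left; push_cast at hr; omega)
      rw [h0, Matrix.zero_mul, Matrix.zero_mul]
    | succ n ih =>
      intro r hr har
      have h1 : P r * Y * P a = - (P r * X * P a) - P r * X * Y * P a := by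
        conv_lhs => rw [hXY]
        rw [Matrix.mul_sub, Matrix.sub_mul, Matrix.mul_neg, Matrix.neg_mul, Matrix.mul_assoc (P r) X Y]
      have h2 : P r * X * Y * P a
          = ∑ c ∈ Finset.Icc (-(K : ℤ)) K, (P r * X * P c) * (P c * Y * P a) := by
        have h3 : ∀ c ∈ Finset.Icc (-(K : ℤ)) K, (P r * X * P c) * (P c * Y * P a)
            = P r * X * P c * (Y * P a) := by
          intro c _
          have h4 : P c * P c = P c := by rw [hP.mul, if_pos rfl]
          calc (P r * X * P c) * (P c * Y * P a) = P r * X * (P c * P c) * (Y * P a) := by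
                simp only [Matrix.mul_assoc]
            _ = _ := by rw [h4]
        rw [Finset.sum_congr rfl h3, ← Finset.sum_mul, ← Finset.mul_sum, hP.sum, Matrix.mul_one]
        simp only [Matrix.mul_assoc]
      rw [h1, hX r a har, h2, neg_zero, zero_sub, neg_eq_zero]
      apply Finset.sum_eq_zero
      intro c _
      rcases le_or_gt c r with hc | hc
      · rw [hX r c hc, Matrix.zero_mul]
      · rw [ih c (by push_cast at hr ⊢; omega) (by omega), Matrix.mul_zero]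
  exact key ((K : ℤ) - r + 1).toNat r (by omega) har

theorem bar_h (hP : GrP wt p K Φ P) {h : Matrix ι ι ℂ} (hh : DelH wt p Φ P h) :
    h⁻¹ * bar h - 1 ∈ Lam wt P := by
  intro r l a k hor
  rcases hor with har | hs
  · have h1 := B08a_other hP hh r a har
    calc P r * Ewt wt l * (h⁻¹ * bar h - 1) * (P a * Ewt wt k)
        = Ewt wt l * (P r * (h⁻¹ * bar h - 1) * P a) * Ewt wt k := by
          rw [hP.comm_Ewt]; simp only [Matrix.mul_assoc]
      _ = 0 := by rw [h1, Matrix.mul_zero, Matrix.zero_mul]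
  · exact B08a_half hP hh r l a k hs

end ZQ38
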