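import Pool.Agent.LibZQ38.Defs

/-!
Deligne splitting: the construction.
-/

open Matrix Complex
open MW38 (Fl Tri blk dg)

namespace ZQ38

variable {ι : Type} [Fintype ι] [DecidableEq ι] {wt p : ι → ℤ} {K : ℕ} {Φ : Matrix ι ι ℂ}
  {P : ℤ → Matrix ι ι ℂ} {Ω : Set ℂ}

/-- the lift `Gr → V` given by the frame `Φ` -/
noncomputable def Lm (wt : ι → ℤ) (Φ : Matrix ι ι ℂ) : Matrix ι ι ℂ := Φ * (dg wt Φ)⁻¹

/-- the projector onto the part of index at least `a` -/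
noncomputable def Pge (K : ℕ) (P : ℤ → Matrix ι ι ℂ) (a : ℤ) : Matrix ι ι ℂ :=
  ∑ b ∈ Finset.Icc a (K : ℤ), P b

/-- the projector onto the part of index less than `a` -/
noncomputable def Pls (K : ℕ) (P : ℤ → Matrix ι ι ℂ) (a : ℤ) : Matrix ι ι ℂ :=
  ∑ b ∈ Finset.Ico (-(K : ℤ)) a, P b

/-- the differences `d_{j+1}` in the construction -/
noncomputable def Dd (wt : ι → ℤ) (K : ℕ) (Φ : Matrix ι ι ℂ) (P : ℤ → Matrix ι ι ℂ) (a k : ℤ) :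
    ℕ → Matrix ι ι ℂ
  | 0 => (Lm wt Φ - Lm wt (bar Φ)) * P a * Ewt wt k
  | j + 1 => Dd wt K Φ P a k j -
      Lm wt Φ * Pge K P a * Ewt wt (k - (j + 1)) * Dd wt K Φ P a k j -
      Lm wt (bar Φ) * Pls K P a * Ewt wt (k - (j + 1)) * Dd wt K Φ P a k j

/-- the lift of `Gr_k^{a,k-a}` to `I^{a,k-a}` -/
noncomputable def Hd (wt : ι → ℤ) (K : ℕ) (Φ : Matrix ι ι ℂ) (P : ℤ → Matrix ι ι ℂ) (J : ℕ)
    (a k : ℤ) : Matrix ι ι ℂ :=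
  Lm wt Φ * P a * Ewt wt k -
    ∑ j ∈ Finset.range J, Lm wt Φ * Pge K P a * Ewt wt (k - (j + 1)) * Dd wt K Φ P a k j

/-- the matrix `h` -/
noncomputable def HH (wt : ι → ℤ) (K : ℕ) (Φ : Matrix ι ι ℂ) (P : ℤ → Matrix ι ι ℂ) (J : ℕ) :
    Matrix ι ι ℂ :=
  ∑ a ∈ Finset.Icc (-(K : ℤ)) K, ∑ k ∈ Finset.univ.image wt, Hd wt K Φ P J a k

end ZQ38
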