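import Pool.Agent.LibZQ38.BPdef
import Pool.Agent.LibMW38.Gen1
import Pool.Agent.LibMW38.Col

/-!
The projectors of a graded-polarized mixed Hodge structure.

PLAN. For a weight k let e : {i // wt i = k} ≃ Fin m. `AAg` is block diagonal (wt (s j) = wt j) and its
block is the reindexed `SP38.AA` of the block of Φ, so the block of PPg a is the reindexed SP38.PP
(LibSP38/Proj1). (inverse of a block diagonal matrix: blockwise, each block is invertible:
IsPHS... see LibSP38/Proj1, Proj2: IsPHS.hd, mem_Fil_iff_PP; MW38.PHS.reindex, MW38.mem_Fl_reindex.)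
Then all fields of GrP are checked blockwise: mul, supp (|a| > K), sum, conj from HD; fil from
MW38.mem_Fl_dg and IsPHS.mem_Fil_iff_PP. AAg_isUnit comes out of the same block argument.
-/

set_option linter.unusedSectionVars false

open Matrix Complex
open MW38 (Fl Tri blk dg)

namespace ZQ38

variable {ι : Type} [Fintype ι] [DecidableEq ι] {wt p : ι → ℤ} {K : ℕ} {Φ : Matrix ι ι ℂ}
  {P : ℤ → Matrix ι ι ℂ} {Ω : Set ℂ}

/-! ### block diagonal matrices -/

/-- block diagonal -/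
def BPaD (wt : ι → ℤ) (A : Matrix ι ι ℂ) : Prop := ∀ i j, wt i ≠ wt j → A i j = 0

theorem BPa_tri {A : Matrix ι ι ℂ} (h : BPaD wt A) : Tri wt A := fun i j hij => h i j hij.ne'

theorem BPa_ext {A B : Matrix ι ι ℂ} (hA : BPaD wt A) (hB : BPaD wt B)
    (h : ∀ k, blk wt k k A = blk wt k k B) : A = B := by
  ext i j
  by_cases hij : wt i = wt j
  · exact congrFun (congrFun (h (wt i)) ⟨i, rfl⟩) ⟨j, hij.symm⟩
  · rw [hA i j hij, hB i j hij]

theorem BPa_mul {A B : Matrix ι ι ℂ} (hA : BPaD wt A) (hB : BPaD wt B) : BPaD wt (A * B) := by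
  intro i j hij
  rw [Matrix.mul_apply]
  refine Finset.sum_eq_zero fun x _ => ?_
  by_cases hx : wt i = wt x
  · rw [hB x j (by omega), mul_zero]
  · rw [hA i x hx, zero_mul]

theorem BPa_sub {A B : Matrix ι ι ℂ} (hA : BPaD wt A) (hB : BPaD wt B) : BPaD wt (A - B) := by
  intro i j hij
  rw [Matrix.sub_apply, hA i j hij, hB i j hij, sub_zero]

theorem BPa_isUnit {A : Matrix ι ι ℂ} (h : BPaD wt A) (hu : ∀ k, IsUnit (blk wt k k A)) :
    IsUnit A := by
  rw [Matrix.isUnit_iff_isUnit_det, Matrix.BlockTriangular.det (b := wt) (BPa_tri h)]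
  refine isUnit_iff_ne_zero.mpr (Finset.prod_ne_zero_iff.mpr fun k _ => ?_)
  have h2 : A.toSquareBlock wt k = blk wt k k A := rfl
  rw [h2]
  exact ((Matrix.isUnit_iff_isUnit_det _).mp (hu k)).ne_zero

theorem BPa_inv {A : Matrix ι ι ℂ} (h : BPaD wt A) (hu : IsUnit A) : BPaD wt A⁻¹ := by
  have h1 : Tri wt A⁻¹ := (BPa_tri h).inv hu
  have h2 : Tri (fun i => -wt i) A⁻¹ :=
    MW38.Tri.inv (fun i j hij => h i j (by have h0 : -wt j < -wt i := hij; omega)) hu
  intro i j hij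
  rcases lt_or_gt_of_ne hij with h3 | h3
  · exact h2 i j (by have h0 : -wt j < -wt i := by omega
                     exact h0)
  · exact h1 i j h3

/-! ### the blocks -/

section block

variable (wt p) in
/-- the index set of the block -/
noncomputable abbrev BPaE (k : ℤ) : {i // wt i = k} ≃ Fin (Fintype.card {i // wt i = k}) :=
  Fintype.equivFin _

/-- the permutation of the block -/
noncomputable def BPaS (s : Equiv.Perm ι) (hs : ∀ j, wt (s j) = wt j ∧ p (s j) = wt j - p j)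
    (k : ℤ) : Equiv.Perm {i // wt i = k} :=
  s.subtypePerm fun x => by rw [(hs x).1]

variable {s : Equiv.Perm ι} (hs : ∀ j, wt (s j) = wt j ∧ p (s j) = wt j - p j)

theorem BPaS_apply (k : ℤ) (j : {i // wt i = k}) : ((BPaS s hs k j : {i // wt i = k}) : ι) = s j :=
  rfl

/-- the permutation of `Fin m` -/
noncomputable def BPaT (k : ℤ) : Equiv.Perm (Fin (Fintype.card {i // wt i = k})) :=
  ((BPaE wt k).symm.trans (BPaS s hs k)).trans (BPaE wt k)

theorem BPaT_spec (k : ℤ) (j : Fin (Fintype.card {i // wt i = k})) :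
    (fun i => p ((BPaE wt k).symm i)) (BPaT hs k j) = k - (fun i => p ((BPaE wt k).symm i)) j := by
  simp only [BPaT, Equiv.trans_apply, Equiv.symm_apply_apply]
  rw [BPaS_apply, (hs _).2, ((BPaE wt k).symm j).2]

include hs in
theorem BPa_AA_diag (l : ℤ) : BPaD wt (AAg wt p s l Φ) := by
  intro i j hij
  unfold AAg dg
  rw [Matrix.of_apply, if_neg hij]
  split_ifs with h1 h2
  · rfl
  · rw [(hs j).1] at h2
    exact absurd h2 hij
  · exact map_zero _

theorem BPa_blk_AA (k l : ℤ) : blk wt k k (AAg wt p s l Φ) =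
    (SP38.AA (fun i => p ((BPaE wt k).symm i)) (BPaT hs k) l
      (Matrix.reindex (BPaE wt k) (BPaE wt k) (blk wt k k Φ))).submatrix (BPaE wt k)
        (BPaE wt k) := by
  ext i j
  have h1 : ∀ x : {i // wt i = k}, dg wt Φ i x = Φ i x := by
    intro x
    unfold dg
    rw [if_pos (by rw [i.2, x.2])]
  have h2 : dg wt Φ i (s j) = Φ i (s j) := h1 (BPaS s hs k j)
  simp only [blk, AAg, SP38.AA, Matrix.of_apply, Matrix.submatrix_apply, Matrix.reindex_apply,
    BPaT, Equiv.trans_apply, Equiv.symm_apply_apply, BPaS_apply]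
  rw [h1, h2]

theorem BPa_diag_D (f : ι → ℂ) : BPaD wt (Matrix.diagonal f) := by
  intro i j hij
  rw [Matrix.diagonal_apply_ne]
  rintro rfl
  exact hij rfl

theorem BPa_blk_diag (k l : ℤ) :
    blk wt k k (Matrix.diagonal fun j => if l ≤ p j then (1 : ℂ) else 0) =
      (SP38.EE (fun i => p ((BPaE wt k).symm i)) l).submatrix (BPaE wt k) (BPaE wt k) := by
  ext i j
  simp only [blk, SP38.EE, Matrix.submatrix_apply, Matrix.diagonal_apply, Subtype.ext_iff,
    EmbeddingLike.apply_eq_iff_eq, Equiv.symm_apply_apply]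

variable {Q : Matrix ι ι ℝ} (h : MW38.MHS wt p Q Φ)

include h in
theorem BPa_phs (k : ℤ) : SP38.IsPHS k (fun i => p ((BPaE wt k).symm i))
    (Matrix.reindex (BPaE wt k) (BPaE wt k) (blk wt k k Q))
    (Matrix.reindex (BPaE wt k) (BPaE wt k) (blk wt k k Φ)) :=
  MW38.PHS.reindex (p := fun i : {i // wt i = k} => p i) (h.gr k) (BPaE wt k)

include h hs in
theorem BPa_AA_unit (l : ℤ) : IsUnit (AAg wt p s l Φ) := by
  refine BPa_isUnit (BPa_AA_diag hs l) fun k => ?_
  rw [BPa_blk_AA hs]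
  have h1 := (BPa_phs h k).isUnit_AA (BPaT_spec hs k) l
  rw [Matrix.isUnit_iff_isUnit_det] at h1 ⊢
  rwa [Matrix.det_submatrix_equiv_self]

include h hs in
theorem BPa_PI_diag (l : ℤ) : BPaD wt (PIg wt p s l Φ) :=
  BPa_mul (BPa_mul (BPa_AA_diag hs l) (BPa_diag_D _))
    (BPa_inv (BPa_AA_diag hs l) (BPa_AA_unit hs h l))

include h in
theorem BPa_blk_PI (k l : ℤ) : blk wt k k (PIg wt p s l Φ) =
    (SP38.PI (fun i => p ((BPaE wt k).symm i)) (BPaT hs k) l
      (Matrix.reindex (BPaE wt k) (BPaE wt k) (blk wt k k Φ))).submatrix (BPaE wt k)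
        (BPaE wt k) := by
  have hA := BPa_AA_diag (Φ := Φ) hs l
  have hu := BPa_AA_unit hs h l
  have hD := BPa_diag_D (wt := wt) (fun j => if l ≤ p j then (1 : ℂ) else 0)
  unfold PIg SP38.PI
  rw [MW38.blk_mul_diag (BPa_tri (BPa_mul hA hD)) (BPa_tri (BPa_inv hA hu)),
    MW38.blk_mul_diag (BPa_tri hA) (BPa_tri hD), MW38.Tri.blk_inv (BPa_tri hA) hu,
    BPa_blk_AA hs, BPa_blk_diag, Matrix.inv_submatrix_equiv, Matrix.submatrix_mul_equiv,
    Matrix.submatrix_mul_equiv]

include h hs in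
theorem BPa_PP_diag (a : ℤ) : BPaD wt (PPg wt p s Φ a) :=
  BPa_sub (BPa_PI_diag hs h a) (BPa_PI_diag hs h (a + 1))

include h in
theorem BPa_blk_PP (k a : ℤ) : blk wt k k (PPg wt p s Φ a) =
    (SP38.PP (fun i => p ((BPaE wt k).symm i)) (BPaT hs k)
      (Matrix.reindex (BPaE wt k) (BPaE wt k) (blk wt k k Φ)) a).submatrix (BPaE wt k)
        (BPaE wt k) := by
  have h1 : blk wt k k (PPg wt p s Φ a) =
      blk wt k k (PIg wt p s a Φ) - blk wt k k (PIg wt p s (a + 1) Φ) := rfl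
  rw [h1, BPa_blk_PI hs h, BPa_blk_PI hs h]
  rfl

include h hs in
theorem BPa_hda (k : ℤ) (hK : ∀ j, |p j| ≤ K) :
    MW38.HDA k K (blk wt k k Q) (fun a => blk wt k k (PPg wt p s Φ a)) := by
  have h1 := MW38.gen1_hda (BPaE wt k)
    ((BPa_phs h k).hd (BPaT_spec hs k) (K := K) fun j => hK _)
  have h2 : (fun a => blk wt k k (PPg wt p s Φ a)) = fun a =>
      (SP38.PP (fun i => p ((BPaE wt k).symm i)) (BPaT hs k)
        (Matrix.reindex (BPaE wt k) (BPaE wt k) (blk wt k k Φ)) a).submatrix (BPaE wt k)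
          (BPaE wt k) := by
    funext a
    exact BPa_blk_PP hs h k a
  rw [h2]
  exact h1

theorem BPa_mulVec {A : Matrix ι ι ℂ} (hA : BPaD wt A) (v : ι → ℂ) (k : ℤ)
    (i : {i // wt i = k}) :
    (A *ᵥ v) i = (blk wt k k A *ᵥ fun i : {i // wt i = k} => v i) i := by
  have h1 := MW38.Col_dg_mulVec (wt := wt) A v k i
  have h2 : dg wt A = A := by
    ext x y
    unfold dg
    split_ifs with h3
    · rfl
    · exact (hA x y h3).symm
  rwa [h2] at h1

end block

theorem AAg_isUnit {Q : Matrix ι ι ℝ} (h : MW38.MHS wt p Q Φ) {s : Equiv.Perm ι}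
    (hs : ∀ j, wt (s j) = wt j ∧ p (s j) = wt j - p j) (k : ℤ) : IsUnit (AAg wt p s k Φ) :=
  BPa_AA_unit hs h k

theorem exists_GrP {Q : Matrix ι ι ℝ} (h : MW38.MHS wt p Q Φ) {s : Equiv.Perm ι}
    (hs : ∀ j, wt (s j) = wt j ∧ p (s j) = wt j - p j) (hK : ∀ j, |p j| ≤ K) :
    GrP wt p K Φ (PPg wt p s Φ) := by
  have hd := BPa_PP_diag hs h
  have h0 : BPaD wt (0 : Matrix ι ι ℂ) := fun _ _ _ => rfl
  have h1 : BPaD wt (1 : Matrix ι ι ℂ) := by
    intro i j hij
    rw [Matrix.one_apply_ne]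
    rintro rfl
    exact hij rfl
  refine ⟨h.unit, h.tri, fun a i j hij => hd a i j hij, ?_, ?_, ?_, ?_, ?_⟩
  · intro a b
    refine BPa_ext (wt := wt) (BPa_mul (hd a) (hd b)) ?_ fun k => ?_
    · split_ifs
      · exact hd a
      · exact h0
    · rw [MW38.blk_mul_diag (BPa_tri (hd a)) (BPa_tri (hd b)), (BPa_hda hs h k hK).mul a b]
      split_ifs
      · rfl
      · rfl
  · intro a ha
    exact BPa_ext (wt := wt) (hd a) h0 fun k => (BPa_hda hs h k hK).supp a ha
  · refine BPa_ext (wt := wt) ?_ h1 fun k => ?_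
    · intro i j hij
      rw [Matrix.sum_apply]
      exact Finset.sum_eq_zero fun a _ => hd a i j hij
    · rw [MW38.blk_one', ← (BPa_hda hs h k hK).sum]
      ext i j
      simp only [blk, Matrix.sum_apply]
  · intro a i j
    by_cases hij : wt i = wt j
    · have h2 := congrFun (congrFun ((BPa_hda hs h (wt i) hK).conj a) ⟨i, rfl⟩) ⟨j, hij.symm⟩
      exact h2
    · rw [hd a i j hij, hd _ i j hij, map_zero]
  · intro a v
    rw [MW38.mem_Fl_dg]
    have h2 : ∀ k, (fun i : {i // wt i = k} => v i) ∈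
        Fl (fun i : {i // wt i = k} => p i) (blk wt k k Φ) a ↔
        ∀ b < a, blk wt k k (PPg wt p s Φ b) *ᵥ (fun i : {i // wt i = k} => v i) = 0 := by
      intro k
      rw [MW38.mem_Fl_reindex (BPaE wt k), (BPa_phs h k).mem_Fil_iff_PP (BPaT_spec hs k)]
      refine forall_congr' fun b => imp_congr_right fun _ => ?_
      rw [BPa_blk_PP hs h, Matrix.submatrix_mulVec_equiv]
      constructor
      · intro h3
        have h4 : (fun i : {i // wt i = k} => v i) ∘ (BPaE wt k).symm =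
            fun i => v ((BPaE wt k).symm i) := rfl
        rw [h4, h3]
        rfl
      · intro h3
        funext i
        have h4 := congrFun h3 ((BPaE wt k).symm i)
        simpa [Function.comp_def] using h4
    constructor
    · intro h3 b hb
      funext i
      have h4 := (h2 (wt i)).mp (h3 (wt i)) b hb
      rw [BPa_mulVec (hd b) v (wt i) ⟨i, rfl⟩, h4]
      rfl
    · intro h3 k
      rw [h2]
      intro b hb
      funext i
      rw [← BPa_mulVec (hd b) v k i, h3 b hb]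
      rfl

theorem BPa_Fl_blk {Φ' : Matrix ι ι ℂ} (hu : IsUnit Φ) (hu' : IsUnit Φ') (ht : Tri wt Φ)
    (ht' : Tri wt Φ') (hF : ∀ a, Fl p Φ a = Fl p Φ' a) (k a : ℤ) :
    Fl (fun i : {i // wt i = k} => p i) (blk wt k k Φ) a ≤
      Fl (fun i : {i // wt i = k} => p i) (blk wt k k Φ') a := by
  obtain ⟨C, hC, hΦ, hC0⟩ := MW38.exists_C hu hu' hF
  have hCt : Tri wt C := by
    have h1 : C = Φ'⁻¹ * Φ := by
      rw [hΦ, ← Matrix.mul_assoc, Matrix.nonsing_inv_mul _ ((Matrix.isUnit_iff_isUnit_det _).mp hu'),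
        Matrix.one_mul]
    rw [h1]
    exact (ht'.inv hu').mul ht
  unfold Fl
  rw [Submodule.span_le]
  rintro v ⟨j, hj, rfl⟩
  show (fun i => blk wt k k Φ i j) ∈ Fl (fun i : {i // wt i = k} => p i) (blk wt k k Φ') a
  rw [MW38.mem_Fl_iff_exists]
  refine ⟨fun i => C i j, fun i hi => hC0 _ _ (lt_of_lt_of_le hi hj), ?_⟩
  rw [hΦ, MW38.blk_mul_diag ht' hCt]
  funext i
  rfl

/-- the projectors only depend on the filtration -/
theorem PPg_congr {Q : Matrix ι ι ℝ} {Φ' : Matrix ι ι ℂ} (h : MW38.MHS wt p Q Φ)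
    (h' : MW38.MHS wt p Q Φ') {s : Equiv.Perm ι}
    (hs : ∀ j, wt (s j) = wt j ∧ p (s j) = wt j - p j) (hF : ∀ a, Fl p Φ a = Fl p Φ' a) (a : ℤ) :
    PPg wt p s Φ a = PPg wt p s Φ' a := by
  refine BPa_ext (BPa_PP_diag hs h a) (BPa_PP_diag hs h' a) fun k => ?_
  rw [BPa_blk_PP hs h, BPa_blk_PP hs h']
  congr 1
  apply (BPa_phs h k).PP_congr (BPa_phs h' k) (BPaT_spec hs k)
  intro b
  have h1 : Fl (fun i : {i // wt i = k} => p i) (blk wt k k Φ) b =
      Fl (fun i : {i // wt i = k} => p i) (blk wt k k Φ') b :=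
    le_antisymm (BPa_Fl_blk h.unit h'.unit h.tri h'.tri hF k b)
      (BPa_Fl_blk h'.unit h.unit h'.tri h.tri (fun a => (hF a).symm) k b)
  ext v
  have h2 : ∀ Ψ : Matrix ι ι ℂ, v ∈ SP38.Fil (fun i => p ((BPaE wt k).symm i))
      (Matrix.reindex (BPaE wt k) (BPaE wt k) (blk wt k k Ψ)) b ↔
      (fun j => v (BPaE wt k j)) ∈ Fl (fun i : {i // wt i = k} => p i) (blk wt k k Ψ) b := by
    intro Ψ
    rw [MW38.mem_Fl_reindex (BPaE wt k)]
    have h3 : (fun i => (fun j => v (BPaE wt k j)) ((BPaE wt k).symm i)) = v := by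
      funext i
      simp
    rw [h3]
  rw [h2, h2, h1]

end ZQ38
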