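import Pool.Agent.LibZQ38.Defs

/-!
Explicit Hodge projectors of the graded pieces.
-/

open Matrix Complex
open MW38 (Fl Tri blk dg)

namespace ZQ38

variable {ι : Type} [Fintype ι] [DecidableEq ι] {wt p : ι → ℤ} {K : ℕ} {Φ : Matrix ι ι ℂ}
  {P : ℤ → Matrix ι ι ℂ} {Ω : Set ℂ}

/-- columns `j` with `k ≤ p j` of `dg Φ` and conjugate columns `s j` for the other `j` -/
noncomputable def AAg (wt p : ι → ℤ) (s : Equiv.Perm ι) (k : ℤ) (Φ : Matrix ι ι ℂ) :
    Matrix ι ι ℂ :=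
  Matrix.of fun i j => if k ≤ p j then dg wt Φ i j else (starRingEnd ℂ) (dg wt Φ i (s j))

/-- the projector onto `F^k` along the conjugate filtration -/
noncomputable def PIg (wt p : ι → ℤ) (s : Equiv.Perm ι) (k : ℤ) (Φ : Matrix ι ι ℂ) :
    Matrix ι ι ℂ :=
  AAg wt p s k Φ * Matrix.diagonal (fun j => if k ≤ p j then 1 else 0) * (AAg wt p s k Φ)⁻¹

/-- the projector onto the part of index `a` -/
noncomputable def PPg (wt p : ι → ℤ) (s : Equiv.Perm ι) (Φ : Matrix ι ι ℂ) (a : ℤ) :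
    Matrix ι ι ℂ := PIg wt p s a Φ - PIg wt p s (a + 1) Φ

end ZQ38
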