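import Pool.Agent.LibZQ38.SDef
import Pool.Agent.LibZQ38.B07
import Pool.Agent.LibZQ38.B12a

/-!
The parts of a given type.

PLAN. typ_iff (→): for v ∈ I^{r,s}: oP v = r v, oQ v = s v (isOpP_iff, isOpQ_iff say that oP, oQ are these
operators), A v ∈ I^{r+a,s+b}, so (oP A - A oP) v = a A v; two matrices which agree on all I^{r,s} are equal
(the vectors h u with P r u = u, Ewt k u = u; B06_ext applied to M * h, N * h). (←): for v ∈ I^{r,s}: oP (A v) =
(r + a) A v and oQ (A v) = (s + b) A v, and a vector x with oP x = c x, oQ x = d x (integers c, d) is in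
I^{c,d}: x = h u, PG u = c u and Dwt u = (c + d) u, so P c u = u (P b (PG u) = b P b u for |b| ≤ K, P b u = 0 for
b ≠ c, u is the sum of the P b u) and Ewt (c + d) u = u; DelH.ide.
typ_bot: if A ∈ typ a b, A ≠ 0, there are r k and u with P r u = u, Ewt k u = u and A (h u) ≠ 0; A h u is
in I^{r+a, k-r+b}; so both E_{r,k} and E_{r+a,k+a+b} (E_{r,k} = {u | P r u = u ∧ Ewt k u = u}) are nonzero, and
E_{r,k} ≠ 0 implies that there is j with p j = r, wt j = k: u ∈ Fl p (dg wt Φ) r and u is not in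
Fl p (dg wt Φ) (r + 1) (GrP.fil); write u = Σ_j c j • (column j of dg wt Φ) over p j ≥ r; the columns with wt j ≠ k
can be dropped (dg wt Φ is block diagonal and u is supported in weight k: apply Ewt k), so some j with p j = r, wt j = k
has c j ≠ 0.
-/

open Matrix Complex
open UpperHalfPlane hiding I
open MW38 (Fl Tri blk dg)
open SP38 (Hc)

namespace ZQ38

variable {ι : Type} [Fintype ι] [DecidableEq ι] {wt p : ι → ℤ} {K : ℕ}
variable {Φ : Matrix ι ι ℂ} {P : ℤ → Matrix ι ι ℂ} {h : Matrix ι ι ℂ}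

private theorem C1_inv (hh : DelH wt p Φ P h) : h⁻¹ * h = 1 ∧ h * h⁻¹ = 1 := by
  have hu : IsUnit h := Un.isUnit hh.un
  exact ⟨Matrix.nonsing_inv_mul h ((Matrix.isUnit_iff_isUnit_det h).1 hu),
    Matrix.mul_nonsing_inv h ((Matrix.isUnit_iff_isUnit_det h).1 hu)⟩

private theorem C1_supp (hP : GrP wt p K Φ P) {b : ℤ} (hb : b ∉ Finset.Icc (-(K : ℤ)) K) :
    P b = 0 := by
  apply hP.supp
  rw [Finset.mem_Icc, not_and_or, not_le, not_le] at hb
  rw [lt_abs]
  omega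

private theorem C1_P_PG (hP : GrP wt p K Φ P) (b : ℤ) : P b * PG K P = (b : ℂ) • P b := by
  rw [PG, Finset.mul_sum]
  by_cases hb : b ∈ Finset.Icc (-(K : ℤ)) K
  · rw [Finset.sum_eq_single_of_mem b hb]
    · rw [Matrix.mul_smul, hP.mul, if_pos rfl]
    · intro c _ hc
      rw [Matrix.mul_smul, hP.mul, if_neg (Ne.symm hc), smul_zero]
  · rw [C1_supp hP hb, smul_zero]
    exact Finset.sum_eq_zero (fun c _ => by rw [Matrix.zero_mul])

/-- the inverse image of an element of `I^{a,b}` -/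
private theorem C1_pull (hh : DelH wt p Φ P h) {a b : ℤ} {x : ι → ℂ} (hx : x ∈ Ide wt p Φ a b) :
    P a *ᵥ (h⁻¹ *ᵥ x) = h⁻¹ *ᵥ x ∧ Ewt wt (a + b) *ᵥ (h⁻¹ *ᵥ x) = h⁻¹ *ᵥ x := by
  rw [← hh.ide, Matrix.mulVec_mulVec, (C1_inv hh).2, Matrix.one_mulVec]
  exact hx

/-- joint eigenvectors of the two operators -/
private theorem C1_mem (hP : GrP wt p K Φ P) (hh : DelH wt p Φ P h) {c d : ℤ} {x : ι → ℂ}
    (h1 : oP K P h *ᵥ x = (c : ℂ) • x) (h2 : oQ wt K P h *ᵥ x = (d : ℂ) • x) :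
    x ∈ Ide wt p Φ c d := by
  set u : ι → ℂ := h⁻¹ *ᵥ x with hu
  have hx : h *ᵥ u = x := by
    rw [hu, Matrix.mulVec_mulVec, (C1_inv hh).2, Matrix.one_mulVec]
  have e1 : PG K P *ᵥ u = (c : ℂ) • u := by
    have h3 : h⁻¹ *ᵥ (oP K P h *ᵥ x) = PG K P *ᵥ u := by
      rw [oP, hu, Matrix.mulVec_mulVec, Matrix.mulVec_mulVec, ← Matrix.mul_assoc, ← Matrix.mul_assoc,
        (C1_inv hh).1, Matrix.one_mul]
    rw [← h3, h1, Matrix.mulVec_smul]
  have e2 : (Dwt wt - PG K P) *ᵥ u = (d : ℂ) • u := by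
    have h3 : h⁻¹ *ᵥ (oQ wt K P h *ᵥ x) = (Dwt wt - PG K P) *ᵥ u := by
      rw [oQ, hu, Matrix.mulVec_mulVec, Matrix.mulVec_mulVec, ← Matrix.mul_assoc, ← Matrix.mul_assoc,
        (C1_inv hh).1, Matrix.one_mul]
    rw [← h3, h2, Matrix.mulVec_smul]
  have e3 : Dwt wt *ᵥ u = ((c + d : ℤ) : ℂ) • u := by
    rw [Matrix.sub_mulVec, e1, sub_eq_iff_eq_add] at e2
    rw [e2, ← add_smul]
    push_cast
    rw [add_comm]
  have e4 : ∀ b : ℤ, b ≠ c → P b *ᵥ u = 0 := by
    intro b hb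
    have h3 : P b *ᵥ (PG K P *ᵥ u) = (b : ℂ) • (P b *ᵥ u) := by
      rw [Matrix.mulVec_mulVec, C1_P_PG hP, Matrix.smul_mulVec]
    rw [e1, Matrix.mulVec_smul, ← sub_eq_zero, ← sub_smul] at h3
    refine (smul_eq_zero.1 h3).resolve_left ?_
    intro h4
    rw [sub_eq_zero] at h4
    exact hb (by exact_mod_cast h4.symm)
  rw [← hx, hh.ide]
  constructor
  · have h3 : ∑ b ∈ Finset.Icc (-(K : ℤ)) K, P b *ᵥ u = u := by
      rw [← Matrix.sum_mulVec, hP.sum, Matrix.one_mulVec]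
    rw [Finset.sum_eq_single c (fun b _ hb => e4 b hb)
      (fun hc => by rw [C1_supp hP hc, Matrix.zero_mulVec])] at h3
    exact h3
  · funext i
    rw [B12a_mulVec_E]
    split_ifs with hi
    · rfl
    · have h3 := congrFun e3 i
      rw [Dwt, Matrix.mulVec_diagonal, Pi.smul_apply, smul_eq_mul, ← sub_eq_zero, ← sub_mul] at h3
      refine ((mul_eq_zero.1 h3).resolve_left ?_).symm
      intro h4
      rw [sub_eq_zero] at h4
      exact hi (by exact_mod_cast h4)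

theorem typ_iff (hP : GrP wt p K Φ P) (hh : DelH wt p Φ P h) (a b : ℤ) (A : Matrix ι ι ℂ) :
    A ∈ typ wt p Φ a b ↔ oP K P h * A - A * oP K P h = (a : ℂ) • A ∧
      oQ wt K P h * A - A * oQ wt K P h = (b : ℂ) • A := by
  have hp : IsOpP wt p Φ (oP K P h) := (isOpP_iff hP hh _).2 rfl
  have hq : IsOpQ wt p Φ (oQ wt K P h) := (isOpQ_iff hP hh _).2 rfl
  have hcan : ∀ M N : Matrix ι ι ℂ, M * h = N * h → M = N := by
    intro M N hMN
    rw [← Matrix.mul_one M, ← Matrix.mul_one N, ← (C1_inv hh).2, ← Matrix.mul_assoc,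
      ← Matrix.mul_assoc, hMN]
  constructor
  · intro hA
    constructor
    · apply hcan
      refine B06_ext hP fun r k u h1 h2 => ?_
      have h3 : h *ᵥ u ∈ Ide wt p Φ r (k - r) := by
        rw [hh.ide, add_sub_cancel]
        exact ⟨h1, h2⟩
      have h4 := hA r (k - r) _ h3
      have h5 := hp _ _ _ h3
      have h6 := hp _ _ _ h4
      rw [← Matrix.mulVec_mulVec, ← Matrix.mulVec_mulVec, Matrix.sub_mulVec, ← Matrix.mulVec_mulVec,
        ← Matrix.mulVec_mulVec, h5, h6, Matrix.mulVec_smul, Matrix.smul_mulVec, ← sub_smul]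
      push_cast
      rw [add_sub_cancel_left]
    · apply hcan
      refine B06_ext hP fun r k u h1 h2 => ?_
      have h3 : h *ᵥ u ∈ Ide wt p Φ r (k - r) := by
        rw [hh.ide, add_sub_cancel]
        exact ⟨h1, h2⟩
      have h4 := hA r (k - r) _ h3
      have h5 := hq _ _ _ h3
      have h6 := hq _ _ _ h4
      rw [← Matrix.mulVec_mulVec, ← Matrix.mulVec_mulVec, Matrix.sub_mulVec, ← Matrix.mulVec_mulVec,
        ← Matrix.mulVec_mulVec, h5, h6, Matrix.mulVec_smul, Matrix.smul_mulVec, ← sub_smul]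
      push_cast
      rw [add_sub_cancel_left]
  · rintro ⟨hA, hB⟩ r s v hv
    apply C1_mem hP hh
    · rw [Matrix.mulVec_mulVec, sub_eq_iff_eq_add.1 hA, Matrix.add_mulVec, ← Matrix.mulVec_mulVec,
        hp r s v hv, Matrix.mulVec_smul, Matrix.smul_mulVec, ← add_smul]
      push_cast
      rw [add_comm]
    · rw [Matrix.mulVec_mulVec, sub_eq_iff_eq_add.1 hB, Matrix.add_mulVec, ← Matrix.mulVec_mulVec,
        hq r s v hv, Matrix.mulVec_smul, Matrix.smul_mulVec, ← add_smul]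
      push_cast
      rw [add_comm]

/-- a nonzero piece has an index -/
private theorem C1_nz (hP : GrP wt p K Φ P) {r k : ℤ} {u : ι → ℂ} (hu : u ≠ 0)
    (h1 : P r *ᵥ u = u) (h2 : Ewt wt k *ᵥ u = u) : ∃ j, p j = r ∧ wt j = k := by
  by_contra hne
  push Not at hne
  have h3 : u ∈ Fl p (dg wt Φ) r := by
    rw [hP.fil]
    intro b hb
    rw [← h1, Matrix.mulVec_mulVec, hP.mul, if_neg (ne_of_lt hb), Matrix.zero_mulVec]
  obtain ⟨c, hc, hc'⟩ := (MW38.mem_Fl_iff_exists u).1 h3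
  have h4 : u ∈ Fl p (dg wt Φ) (r + 1) := by
    rw [MW38.mem_Fl_iff_exists]
    refine ⟨fun j => if wt j = k then c j else 0, ?_, ?_⟩
    · intro j hj
      dsimp only
      split_ifs with hw
      · rcases lt_or_ge (p j) r with h5 | h5
        · exact hc j h5
        · exact absurd hw (hne j (by omega))
      · rfl
    · funext i
      have h5 := congrFun h2 i
      rw [B12a_mulVec_E] at h5
      rw [← h5]
      split_ifs with hi
      · have h6 := congrFun hc' i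
        rw [h6]
        simp only [Matrix.mulVec, dotProduct]
        refine Finset.sum_congr rfl fun j _ => ?_
        by_cases hj : wt j = k
        · rw [if_pos hj]
        · rw [if_neg hj, dg, if_neg (by rw [hi]; exact fun e => hj e.symm), zero_mul, zero_mul]
      · simp only [Matrix.mulVec, dotProduct]
        symm
        refine Finset.sum_eq_zero fun j _ => ?_
        by_cases hj : wt j = k
        · rw [dg, if_neg (by rw [hj]; exact hi), zero_mul]
        · rw [if_neg hj, mul_zero]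
  have h5 := (hP.fil (r + 1) u).1 h4 r (by omega)
  rw [h1] at h5
  exact hu h5

theorem typ_bot (hP : GrP wt p K Φ P) (hh : DelH wt p Φ P h) {t : ℤ × ℤ}
    (ht : t ∉ types wt p) : typ wt p Φ t.1 t.2 = ⊥ := by
  rw [Submodule.eq_bot_iff]
  intro A hA
  have hcan : ∀ M N : Matrix ι ι ℂ, M * h = N * h → M = N := by
    intro M N hMN
    rw [← Matrix.mul_one M, ← Matrix.mul_one N, ← (C1_inv hh).2, ← Matrix.mul_assoc,
      ← Matrix.mul_assoc, hMN]
  apply hcan
  refine B06_ext hP fun r k u h1 h2 => ?_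
  rw [Matrix.zero_mul, Matrix.zero_mulVec, ← Matrix.mulVec_mulVec]
  by_contra hne
  have hu : u ≠ 0 := by
    rintro rfl
    exact hne (by rw [Matrix.mulVec_zero, Matrix.mulVec_zero])
  have h3 : h *ᵥ u ∈ Ide wt p Φ r (k - r) := by
    rw [hh.ide, add_sub_cancel]
    exact ⟨h1, h2⟩
  have h4 := hA r (k - r) _ h3
  obtain ⟨h5, h6⟩ := C1_pull hh h4
  have hy : h⁻¹ *ᵥ (A *ᵥ (h *ᵥ u)) ≠ 0 := by
    intro h7
    apply hne
    have h8 : h *ᵥ (h⁻¹ *ᵥ (A *ᵥ (h *ᵥ u))) = A *ᵥ (h *ᵥ u) := by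
      rw [Matrix.mulVec_mulVec _ h h⁻¹, (C1_inv hh).2, Matrix.one_mulVec]
    rw [← h8, h7, Matrix.mulVec_zero]
  obtain ⟨j, hj1, hj2⟩ := C1_nz hP hu h1 h2
  obtain ⟨i, hi1, hi2⟩ := C1_nz hP hy h5 h6
  apply ht
  rw [types, Finset.mem_image]
  refine ⟨(i, j), Finset.mem_univ _, ?_⟩
  ext
  · show p i - p j = t.1
    rw [hi1, hj1]
    ring
  · show (wt i - p i) - (wt j - p j) = t.2
    rw [hi1, hj1, hi2, hj2]
    ring

end ZQ38
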