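import Pool.Agent.LibZQ38.C2

/-!
The Hodge numbers of `𝔲 / 𝔫` and the trace of the square of the grading operator.

PLAN. hab_quot: S = cx u ⊓ typ t; lamC restricted to S has kernel S ⊓ cx n = cx n ⊓ typ t (kerC, n ≤ u) and, by
typ_iff and actC, for x ∈ S: D lamC x = a lamC x and (w - D) lamC x = b lamC x (W_sum), so the range is contained in
the eigenspace of D for a, and is 0 unless a + b = w; by lift_typ it is the whole eigenspace if a + b = w.
Rank-nullity. trace_hab: D is diagonalizable with eigenvalues in -2K..2K (W_all): (D - w/2)^2 is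
the sum of (a - w/2)^2 LP (2K) D a (ZW67.YY_LP, LP_mul, LP_sum) and the trace of the idempotent LP (2K) D a is
the dimension of its range, which is the eigenspace (LP_left, LP_eigen). Then 4 (a - w/2)^2 = (a - (w - a))^2; a
nonzero eigenspace gives a type (a, w - a) ∈ types wt p by lift_typ and typ_bot (x ≠ 0). The sum over types: terms
with t.1 + t.2 ≠ w vanish by hab_quot.
-/

open Matrix Complex
open UpperHalfPlane hiding I
open MW38 (Fl Tri blk dg)
open SP38 (Hc)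

namespace ZQ38

variable {ι : Type} [Fintype ι] [DecidableEq ι] {wt p : ι → ℤ} {K : ℕ}
variable {Φ : Matrix ι ι ℂ} {P : ℤ → Matrix ι ι ℂ} {h : Matrix ι ι ℂ}
  {r : ℕ} {m n : Submodule ℚ (Matrix ι ι ℚ)} {w : ℤ}
  {lam : Matrix ι ι ℚ →ₗ[ℚ] (Fin r → ℚ)} {rho : Matrix ι ι ℚ →ₗ[ℚ] Matrix (Fin r) (Fin r) ℚ}

/-- `lamC` as a linear map -/
noncomputable def C3_lam (lam : Matrix ι ι ℚ →ₗ[ℚ] (Fin r → ℚ)) :
    Matrix ι ι ℂ →ₗ[ℂ] (Fin r → ℂ) where
  toFun := lamC lam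
  map_add' := lamC_add
  map_smul' := lamC_smul

theorem C3_lam_apply (x : Matrix ι ι ℂ) : C3_lam lam x = lamC lam x := rfl

theorem C3_rank {V W : Type} [AddCommGroup V] [Module ℂ V] [AddCommGroup W] [Module ℂ W]
    [FiniteDimensional ℂ V] (f : V →ₗ[ℂ] W) (S T : Submodule ℂ V) (hTS : T ≤ S)
    (hT : ∀ x ∈ S, f x = 0 ↔ x ∈ T) :
    Module.finrank ℂ S = Module.finrank ℂ T + Module.finrank ℂ (S.map f) := by
  have h1 := (f.domRestrict S).finrank_range_add_finrank_ker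
  rw [LinearMap.range_domRestrict] at h1
  have h2 : LinearMap.ker (f.domRestrict S) = T.comap S.subtype := by
    ext x
    rw [LinearMap.mem_ker, LinearMap.domRestrict_apply, Submodule.mem_comap,
      Submodule.subtype_apply]
    exact hT x.1 x.2
  rw [h2, (Submodule.comapSubtypeEquivOfLe hTS).finrank_eq] at h1
  omega

theorem C3_map (hW : WD wt m (m ⊓ Low ℚ wt) n w r lam rho) (hm : IsLie m)
    (ht : ∀ A ∈ m, Tri wt A) {t₀ : Matrix ι ι ℚ} (ht₀ : t₀ ∈ m)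
    (ht₀' : dgR wt t₀ = Matrix.diagonal (fun i => (wt i : ℚ)))
    (hP : GrP wt p K Φ P) (hh : DelH wt p Φ P h)
    (h1 : oP K P h ∈ cx m) (h2 : oQ wt K P h ∈ cx m) (t : ℤ × ℤ) :
    (cx (m ⊓ Low ℚ wt) ⊓ typ wt p Φ t.1 t.2 : Submodule ℂ (Matrix ι ι ℂ)).map (C3_lam lam) =
      if t.1 + t.2 = w then
        Module.End.eigenspace (Matrix.toLin' (rhoC rho (oP K P h))) (t.1 : ℂ) else ⊥ := by
  have hact : ∀ x ∈ (cx (m ⊓ Low ℚ wt) ⊓ typ wt p Φ t.1 t.2 : Submodule ℂ (Matrix ι ι ℂ)),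
      rhoC rho (oP K P h) *ᵥ lamC lam x = (t.1 : ℂ) • lamC lam x ∧
      rhoC rho (oQ wt K P h) *ᵥ lamC lam x = (t.2 : ℂ) • lamC lam x := by
    intro x hx
    obtain ⟨hx1, hx2⟩ := Submodule.mem_inf.1 hx
    rw [typ_iff hP hh] at hx2
    refine ⟨?_, ?_⟩
    · rw [← hW.actC h1 hx1, hx2.1, lamC_smul]
    · rw [← hW.actC h2 hx1, hx2.2, lamC_smul]
  split_ifs with hw
  · apply le_antisymm
    · rintro _ ⟨x, hx, rfl⟩
      rw [Module.End.mem_eigenspace_iff, Matrix.toLin'_apply, C3_lam_apply]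
      exact (hact x hx).1
    · intro v hv
      rw [Module.End.mem_eigenspace_iff, Matrix.toLin'_apply] at hv
      obtain ⟨x, hx1, hx2, hx3⟩ := lift_typ hW hm ht ht₀ ht₀' hP hh h1 h2 hv
      refine ⟨x, ⟨hx1, ?_⟩, hx3⟩
      have h3 : t.2 = w - t.1 := by omega
      rw [h3]
      exact hx2
  · rw [eq_bot_iff]
    rintro _ ⟨x, hx, rfl⟩
    rw [Submodule.mem_bot, C3_lam_apply]
    obtain ⟨h3, h4⟩ := hact x hx
    rw [W_sum hW ht ht₀ ht₀' hh.un h1 h2, Matrix.sub_mulVec, Matrix.smul_mulVec,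
      Matrix.one_mulVec, h3, sub_eq_iff_eq_add, ← add_smul] at h4
    have h5 : ((w : ℂ) - (t.2 + t.1)) • lamC lam x = 0 := by
      rw [sub_smul, h4, sub_self]
    refine (smul_eq_zero.1 h5).resolve_left ?_
    intro h6'
    have h6 := sub_eq_zero.1 h6'
    apply hw
    have h7 : w = t.2 + t.1 := by exact_mod_cast h6
    omega

theorem hab_quot (hW : WD wt m (m ⊓ Low ℚ wt) n w r lam rho) (hn : n ≤ m ⊓ Low ℚ wt) (hm : IsLie m)
    (ht : ∀ A ∈ m, Tri wt A) {t₀ : Matrix ι ι ℚ} (ht₀ : t₀ ∈ m)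
    (ht₀' : dgR wt t₀ = Matrix.diagonal (fun i => (wt i : ℚ)))
    (hP : GrP wt p K Φ P) (hh : DelH wt p Φ P h)
    (h1 : oP K P h ∈ cx m) (h2 : oQ wt K P h ∈ cx m) (t : ℤ × ℤ) :
    hab wt p Φ (m ⊓ Low ℚ wt) t = hab wt p Φ n t + if t.1 + t.2 = w then
      Module.finrank ℂ (Module.End.eigenspace (Matrix.toLin' (rhoC rho (oP K P h))) (t.1 : ℂ))
      else 0 := by
  have h3 := C3_rank (C3_lam lam)
    (cx (m ⊓ Low ℚ wt) ⊓ typ wt p Φ t.1 t.2 : Submodule ℂ (Matrix ι ι ℂ))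
    (cx n ⊓ typ wt p Φ t.1 t.2 : Submodule ℂ (Matrix ι ι ℂ))
    (inf_le_inf_right _ (cx_mono hn)) (by
      intro x hx
      obtain ⟨hx1, hx2⟩ := Submodule.mem_inf.1 hx
      rw [C3_lam_apply, hW.kerC hx1, Submodule.mem_inf]
      exact ⟨fun h => ⟨h, hx2⟩, fun h => h.1⟩)
  unfold hab
  rw [h3, C3_map hW hm ht ht₀ ht₀' hP hh h1 h2 t]
  congr 1
  by_cases hw : t.1 + t.2 = w
  · rw [if_pos hw, if_pos hw]
  · rw [if_neg hw, if_neg hw]
    exact finrank_bot ℂ _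

theorem C3_trace {s N : ℕ} {A : Matrix (Fin s) (Fin s) ℂ}
    (hA : Polynomial.aeval A (ZW67.npoly N) = 0) {a : ℤ} (ha : a ∈ Finset.Icc (-(N : ℤ)) N) :
    Matrix.trace (ZW67.LP N A a) =
      (Module.finrank ℂ (Module.End.eigenspace (Matrix.toLin' A) (a : ℂ)) : ℂ) := by
  have h1 : LinearMap.IsProj (Module.End.eigenspace (Matrix.toLin' A) (a : ℂ))
      (Matrix.toLin' (ZW67.LP N A a)) := by
    constructor
    · intro x
      rw [Module.End.mem_eigenspace_iff, Matrix.toLin'_apply, Matrix.toLin'_apply,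
        Matrix.mulVec_mulVec, ZW67.LP_left hA, Matrix.smul_mulVec]
    · intro x hx
      rw [Module.End.mem_eigenspace_iff, Matrix.toLin'_apply] at hx
      rw [Matrix.toLin'_apply]
      exact C2_vec_LP hx ha
  have h2 := LinearMap.IsProj.trace h1
  rw [← h2, Matrix.trace_toLin'_eq]

theorem C3_sq {s N : ℕ} {A : Matrix (Fin s) (Fin s) ℂ}
    (hA : Polynomial.aeval A (ZW67.npoly N) = 0) (c : ℂ) :
    Matrix.trace ((A - c • 1) * (A - c • 1)) = ∑ a ∈ Finset.Icc (-(N : ℤ)) N,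
      ((a : ℂ) - c) ^ 2 *
        (Module.finrank ℂ (Module.End.eigenspace (Matrix.toLin' A) (a : ℂ)) : ℂ) := by
  have h1 : ∀ a : ℤ, (A - c • 1) * ZW67.LP N A a = ((a : ℂ) - c) • ZW67.LP N A a := by
    intro a
    rw [Matrix.sub_mul, ZW67.LP_left hA, Matrix.smul_mul, Matrix.one_mul, sub_smul]
  have h2 : (A - c • 1) * (A - c • 1) = ∑ a ∈ Finset.Icc (-(N : ℤ)) N,
      ((a : ℂ) - c) ^ 2 • ZW67.LP N A a := by
    have h3 : (A - c • 1) * (A - c • 1) = (A - c • 1) * ((A - c • 1) *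
        ∑ a ∈ Finset.Icc (-(N : ℤ)) N, ZW67.LP N A a) := by
      rw [ZW67.LP_sum, Matrix.mul_one]
    rw [h3, Finset.mul_sum, Finset.mul_sum]
    refine Finset.sum_congr rfl fun a _ => ?_
    rw [h1, Matrix.mul_smul, h1, smul_smul, sq]
  rw [h2, Matrix.trace_sum]
  refine Finset.sum_congr rfl fun a ha => ?_
  rw [Matrix.trace_smul, C3_trace hA ha, smul_eq_mul]

theorem trace_hab (hW : WD wt m (m ⊓ Low ℚ wt) n w r lam rho) (hn : n ≤ m ⊓ Low ℚ wt) (hm : IsLie m)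
    (ht : ∀ A ∈ m, Tri wt A) {t₀ : Matrix ι ι ℚ} (ht₀ : t₀ ∈ m)
    (ht₀' : dgR wt t₀ = Matrix.diagonal (fun i => (wt i : ℚ)))
    (hP : GrP wt p K Φ P) (hh : DelH wt p Φ P h)
    (h1 : oP K P h ∈ cx m) (h2 : oQ wt K P h ∈ cx m) :
    4 * (Matrix.trace ((rhoC rho (oP K P h) - ((w : ℂ) / 2) • 1) *
      (rhoC rho (oP K P h) - ((w : ℂ) / 2) • 1))).re =
      ∑ t ∈ types wt p, ((t.1 : ℝ) - t.2) ^ 2 *
        ((hab wt p Φ (m ⊓ Low ℚ wt) t : ℝ) - hab wt p Φ n t) := by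
  have hA : Polynomial.aeval (rhoC rho (oP K P h)) (ZW67.npoly (2 * K)) = 0 := by
    rw [npoly_eq]
    exact W_all hW hm ht hP hh.un h1
  set d : ℤ → ℕ := fun a => Module.finrank ℂ
    (Module.End.eigenspace (Matrix.toLin' (rhoC rho (oP K P h))) (a : ℂ)) with hd
  have hR : ∀ t : ℤ × ℤ, ((hab wt p Φ (m ⊓ Low ℚ wt) t : ℝ) - hab wt p Φ n t) =
      if t.1 + t.2 = w then (d t.1 : ℝ) else 0 := by
    intro t
    rw [hab_quot hW hn hm ht ht₀ ht₀' hP hh h1 h2 t]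
    split_ifs <;> push_cast <;> ring
  simp_rw [hR]
  rw [C3_sq hA]
  have h3 : ∑ a ∈ Finset.Icc (-((2 * K : ℕ) : ℤ)) ((2 * K : ℕ) : ℤ),
      ((a : ℂ) - (w : ℂ) / 2) ^ 2 * (Module.finrank ℂ
        (Module.End.eigenspace (Matrix.toLin' (rhoC rho (oP K P h))) (a : ℂ)) : ℂ) =
      ((∑ a ∈ Finset.Icc (-((2 * K : ℕ) : ℤ)) ((2 * K : ℕ) : ℤ),
        ((a : ℝ) - (w : ℝ) / 2) ^ 2 * (d a : ℝ) : ℝ) : ℂ) := by
    push_cast
    rfl
  rw [h3, Complex.ofReal_re, Finset.mul_sum]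
  refine Finset.sum_bij_ne_zero (fun a _ _ => (a, w - a)) ?_ ?_ ?_ ?_
  · intro a _ ha
    by_contra hc
    apply ha
    have hd0 : d a = 0 := by
      rw [hd]
      simp only
      rw [Submodule.finrank_eq_zero, eq_bot_iff]
      intro v hv
      rw [Module.End.mem_eigenspace_iff, Matrix.toLin'_apply] at hv
      obtain ⟨x, _, hx2, hx3⟩ := lift_typ hW hm ht ht₀ ht₀' hP hh h1 h2 hv
      rw [typ_bot hP hh (t := (a, w - a)) hc, Submodule.mem_bot] at hx2
      rw [Submodule.mem_bot, ← hx3, hx2, C2_lam_zero]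
    rw [hd0]
    simp
  · intro a _ _ b _ _ hab
    exact (Prod.mk.inj hab).1
  · rintro ⟨a, b⟩ _ hne
    simp only at hne
    have hw : a + b = w := by
      by_contra hc
      rw [if_neg hc, mul_zero] at hne
      exact hne rfl
    rw [if_pos hw] at hne
    have hda : d a ≠ 0 := by
      intro h0
      rw [h0] at hne
      simp at hne
    have haI : a ∈ Finset.Icc (-((2 * K : ℕ) : ℤ)) ((2 * K : ℕ) : ℤ) := by
      by_contra hc
      apply hda
      rw [hd]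
      simp only
      rw [Submodule.finrank_eq_zero, eq_bot_iff]
      intro v hv
      rw [Module.End.mem_eigenspace_iff, Matrix.toLin'_apply] at hv
      rw [Submodule.mem_bot]
      exact C2_vec_zero hA hv hc
    refine ⟨a, haI, ?_, ?_⟩
    · have h4 : ((a : ℝ) - b) = 2 * ((a : ℝ) - (w : ℝ) / 2) := by
        rw [← hw]
        push_cast
        ring
      rw [h4] at hne
      intro h5
      apply hne
      linear_combination h5
    · rw [← hw]
      simp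
  · intro a _ _
    simp only
    rw [if_pos (by omega)]
    push_cast
    ring

end ZQ38
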