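import Pool.Agent.LibZQ38.SDef
import Pool.Agent.LibZQ38.B10
import Pool.Agent.LibZQ38.B13
import Pool.Agent.LibZQ38.B11
import Pool.Agent.LibZL19.Glue
import Pool.Agent.LibUS38.Mob

/-!
Translation between the two libraries: the points of the Hodge locus.

ZL19.cx and ZQ38.cx are the same by definition (rfl up to names), ZL19.hull {P, Q} is mtLie by
mtLie_le_iff / isOpP_iff, isOpQ_iff.
PLAN. Abbreviate PP τ = oP K (P τ) (h τ), QQ τ = oQ wt K (P τ) (h τ). C8_del: oP * oQ = oQ * oP since PG K P and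
Dwt commute (P a is block diagonal); triP, triQ: B13_tri_oP, B13_tri_oQ (Tri wt A is WC wt 0); grY: oP + oQ = h Dwt h⁻¹
(oP_add_oQ), its block diagonal part is Dwt (Y_sub_Dwt). C8_mt: hull {PP τ, QQ τ} ≤ mtLie by hull_le, oP_mem, oQ_mem,
mtLie_isLie; mtLie ≤ hull by mtLie_le_iff. C8_gen: exists_generic gives z₀ with mtLie (Φ z) ≤ mtLie (Φ z₀) for all z; so
genLie = mtLie (Φ z₀) (iSup), gen ≤ mtLie (Φ z₀) by hull_le (all PP τ, QQ τ are in cx (mtLie (Φ τ)) ≤ cx (mtLie (Φ z₀))) and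
mtLie (Φ z₀) = mt z₀ ≤ gen (mt_le_gen). C8_uu: −1 < wt i − wt j is wt j ≤ wt i. C8_point: from h2, mtLie of dg wt (Φ τ)
is genLie of fun z => dg wt (Φ z); grP_gr, delH_gr (with h = 1), B13_oP, B13_oQ (dgR and ZL19.gr agree) and C8_mt, C8_gen applied to
dg Φ, h = 1 give mt (gr PP) (gr QQ) τ = gen (gr PP) (gr QQ), so by Del.gr_mt, Del.gr_gen: hz : (mt PP QQ τ).map (grL wt) =
(gen PP QQ).map (grL wt). From h1 and Del.mt_eq: uu (mt τ) ≠ uu gen; Del.core, Del.MaxI_gen; the t of Del.exists_t is in mt τ ≤ gen,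
toC t - (PP τ + QQ τ) ∈ cx (uu (mt τ)) ≤ cx n; oP_add_oQ. C8_t0: Del.exists_t at the point I. C8_noflat: Del.no_flat.
-/

open Matrix Complex
open UpperHalfPlane hiding I
open MW38 (Fl Tri blk dg)
open SP38 (Hc)

namespace ZQ38

variable {ι : Type} [Fintype ι] [DecidableEq ι] {wt p : ι → ℤ} {K : ℕ}
variable {Φ : ℂ → Matrix ι ι ℂ} {P : ℂ → ℤ → Matrix ι ι ℂ} {h : ℂ → Matrix ι ι ℂ}

private theorem C8_pre : IsPreconnected (Hc 0) := by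
  have hc : Convex ℝ (Hc 0) := by
    intro z hz w hw a b ha hb hab
    show 0 < (a • z + b • w).im
    have hz' : 0 < z.im := hz
    have hw' : 0 < w.im := hw
    simp only [Complex.add_im, Complex.real_smul, Complex.mul_im, Complex.ofReal_re,
      Complex.ofReal_im, zero_mul, add_zero]
    rcases eq_or_lt_of_le ha with h0 | h0
    · have hb1 : b = 1 := by linarith
      rw [← h0, hb1]
      linarith
    · exact add_pos_of_pos_of_nonneg (mul_pos h0 hz') (mul_nonneg hb hw'.le)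
  exact hc.isPreconnected

private theorem C8_mem (τ : ℍ) : (τ : ℂ) ∈ Hc 0 := τ.im_pos

theorem C8_generic (hP : ∀ z ∈ Hc 0, GrP wt p K (Φ z) (P z))
    (hh : ∀ z ∈ Hc 0, DelH wt p (Φ z) (P z) (h z)) (hPa : ∀ a, An (Hc 0) (fun z => P z a))
    (hha : An (Hc 0) h) : ∃ z₀ ∈ Hc 0, (∀ z ∈ Hc 0, mtLie wt p (Φ z) ≤ mtLie wt p (Φ z₀)) ∧
      genLie wt p Φ = mtLie wt p (Φ z₀) := by
  obtain ⟨z₀, hz₀, hmax⟩ := exists_generic (SP38.isOpen_Hc 0) C8_pre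
    ⟨Complex.I, by show (0 : ℝ) < Complex.I.im; simp⟩ hP hh hPa hha
  refine ⟨z₀, hz₀, hmax, le_antisymm (iSup_le fun τ => hmax τ (C8_mem τ)) ?_⟩
  exact le_iSup (fun τ : ℍ => mtLie wt p (Φ (τ : ℂ))) ⟨z₀, hz₀⟩

theorem C8_del (hP : ∀ z ∈ Hc 0, GrP wt p K (Φ z) (P z))
    (hh : ∀ z ∈ Hc 0, DelH wt p (Φ z) (P z) (h z)) :
    ZL19.Del wt (fun τ : ℍ => oP K (P τ) (h τ)) (fun τ : ℍ => oQ wt K (P τ) (h τ)) := by
  have hd := ZL19.del_opp hP hh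
  exact ⟨fun τ => hd.comm ⟨τ, C8_mem τ⟩, fun τ => hd.triP ⟨τ, C8_mem τ⟩,
    fun τ => hd.triQ ⟨τ, C8_mem τ⟩, fun τ => hd.grY ⟨τ, C8_mem τ⟩⟩

theorem C8_mt (hP : ∀ z ∈ Hc 0, GrP wt p K (Φ z) (P z))
    (hh : ∀ z ∈ Hc 0, DelH wt p (Φ z) (P z) (h z)) (τ : ℍ) :
    ZL19.mt (fun τ : ℍ => oP K (P τ) (h τ)) (fun τ : ℍ => oQ wt K (P τ) (h τ)) τ =
      mtLie wt p (Φ τ) :=
  ZL19.mt_eq_mtLie hP hh ⟨τ, C8_mem τ⟩

theorem C8_gen (hP : ∀ z ∈ Hc 0, GrP wt p K (Φ z) (P z))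
    (hh : ∀ z ∈ Hc 0, DelH wt p (Φ z) (P z) (h z)) (hPa : ∀ a, An (Hc 0) (fun z => P z a))
    (hha : An (Hc 0) h) :
    ZL19.gen (fun τ : ℍ => oP K (P τ) (h τ)) (fun τ : ℍ => oQ wt K (P τ) (h τ)) =
      genLie wt p Φ := by
  obtain ⟨z₀, hz₀, hmax, hg⟩ := C8_generic hP hh hPa hha
  rw [hg]
  apply le_antisymm
  · refine ZL19.hull_le mtLie_isLie ?_
    rintro x (⟨τ, rfl⟩ | ⟨τ, rfl⟩)
    · exact cx_mono (hmax τ (C8_mem τ)) (oP_mem (hP τ (C8_mem τ)) (hh τ (C8_mem τ)))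
    · exact cx_mono (hmax τ (C8_mem τ)) (oQ_mem (hP τ (C8_mem τ)) (hh τ (C8_mem τ)))
  · rw [← C8_mt hP hh ⟨z₀, hz₀⟩]
    exact ZL19.mt_le_gen _

theorem C8_uu (L : Submodule ℚ (Matrix ι ι ℚ)) : ZL19.uu wt L = L ⊓ Low ℚ wt := ZL19.uu_eq L

theorem C8_point (hP : ∀ z ∈ Hc 0, GrP wt p K (Φ z) (P z))
    (hh : ∀ z ∈ Hc 0, DelH wt p (Φ z) (P z) (h z)) (hPa : ∀ a, An (Hc 0) (fun z => P z a))
    (hha : An (Hc 0) h) {τ : ℍ} (h1 : τ ∈ hodgeLocus wt p Φ)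
    (h2 : τ ∉ hodgeLocus wt p fun z => dg wt (Φ z)) :
    ∃ n, ZL19.MaxI (genLie wt p Φ) (genLie wt p Φ ⊓ Low ℚ wt) n ∧
      ∃ t ∈ genLie wt p Φ, dgR wt t = Matrix.diagonal (fun i => (wt i : ℚ)) ∧
        h τ * Dwt wt * (h τ)⁻¹ - t.map (algebraMap ℚ ℂ) ∈ cx n := by
  obtain ⟨z₀, hz₀, hmax, hg⟩ := C8_generic hP hh hPa hha
  have hgr : mtLie wt p (dg wt (Φ τ)) = mtLie wt p (dg wt (Φ z₀)) := by
    apply le_antisymm
    · rw [← ZL19.map_gr_mtLie hP hh (C8_mem τ), ← ZL19.map_gr_mtLie hP hh hz₀]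
      exact Submodule.map_mono (hmax τ (C8_mem τ))
    · have h3 : mtLie wt p (dg wt (Φ τ)) = genLie wt p fun z => dg wt (Φ z) := by
        by_contra hne
        exact h2 hne
      rw [h3]
      exact le_iSup (fun τ : ℍ => mtLie wt p (dg wt (Φ (τ : ℂ)))) ⟨z₀, hz₀⟩
  have hne : mtLie wt p (Φ τ) ≠ mtLie wt p (Φ z₀) := by
    rw [← hg]
    exact h1
  obtain ⟨n, hn, t, ht, ht', hflat⟩ := ZL19.core_pt hP hh hz₀ hmax (C8_mem τ) hgr hne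
  rw [hg]
  refine ⟨n, hn, t, ht, ht', ?_⟩
  rw [← oP_add_oQ _ K (P τ), ← neg_sub]
  exact Submodule.neg_mem _ hflat

theorem C8_t0 (hP : ∀ z ∈ Hc 0, GrP wt p K (Φ z) (P z))
    (hh : ∀ z ∈ Hc 0, DelH wt p (Φ z) (P z) (h z)) (hPa : ∀ a, An (Hc 0) (fun z => P z a))
    (hha : An (Hc 0) h) :
    ∃ t ∈ genLie wt p Φ, dgR wt t = Matrix.diagonal (fun i => (wt i : ℚ)) := by
  obtain ⟨t, ht, htY, -⟩ := (C8_del hP hh).exists_t UpperHalfPlane.I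
  refine ⟨t, ?_, htY⟩
  rw [← C8_gen hP hh hPa hha]
  exact ZL19.mt_le_gen _ ht

theorem C8_noflat (hP : ∀ z ∈ Hc 0, GrP wt p K (Φ z) (P z))
    (hh : ∀ z ∈ Hc 0, DelH wt p (Φ z) (P z) (h z)) (hPa : ∀ a, An (Hc 0) (fun z => P z a))
    (hha : An (Hc 0) h) {n : Submodule ℚ (Matrix ι ι ℚ)}
    (hn : ZL19.MaxI (genLie wt p Φ) (genLie wt p Φ ⊓ Low ℚ wt) n) {t : Matrix ι ι ℚ}
    (ht : t ∈ genLie wt p Φ) (ht' : dgR wt t = Matrix.diagonal (fun i => (wt i : ℚ)))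
    (hflat : ∀ z ∈ Hc 0, h z * Dwt wt * (h z)⁻¹ - t.map (algebraMap ℚ ℂ) ∈ cx n) : False := by
  obtain ⟨z₀, hz₀, hmax, hg⟩ := C8_generic hP hh hPa hha
  rw [hg] at hn ht
  refine ZL19.no_flat' hP hh hz₀ hmax hn ht ht' fun z hz => ?_
  rw [oP_add_oQ, ← neg_sub]
  exact Submodule.neg_mem _ (hflat z hz)

theorem C8_lie (hP : ∀ z ∈ Hc 0, GrP wt p K (Φ z) (P z))
    (hh : ∀ z ∈ Hc 0, DelH wt p (Φ z) (P z) (h z)) (hPa : ∀ a, An (Hc 0) (fun z => P z a))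
    (hha : An (Hc 0) h) : IsLie (genLie wt p Φ) ∧ (∀ A ∈ genLie wt p Φ, Tri wt A) ∧
      ∀ z ∈ Hc 0, oP K (P z) (h z) ∈ cx (genLie wt p Φ) ∧
        oQ wt K (P z) (h z) ∈ cx (genLie wt p Φ) := by
  have hg := C8_gen hP hh hPa hha
  refine ⟨?_, ?_, ?_⟩
  · rw [← hg]
    exact ZL19.hull_lie _
  · intro A hA
    rw [← hg] at hA
    exact ZL19.triQ_iff.2 ((C8_del hP hh).gen_le hA)
  · intro z hz
    rw [← hg]
    exact ⟨ZL19.mem_cx_hull (Or.inl ⟨⟨z, hz⟩, rfl⟩), ZL19.mem_cx_hull (Or.inr ⟨⟨z, hz⟩, rfl⟩)⟩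

end ZQ38
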