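import Pool.Agent.LibSP38.HD2
import Pool.Agent.LibMW38.Defs
import Pool.Agent.LibZQ38.Defs

/-!
A bound for the Hodge projectors from a comparison of norms.

PLAN. Take v = Pi.single j 1, ‖v‖ = 1. ‖P a i j‖ ≤ ‖P a *ᵥ v‖ (norm_le_pi_norm), ‖P a *ᵥ v‖^2 ≤ X qf (P a *ᵥ v) ≤ X qf v ≤ X^2:
qf (P a v) ≤ qf v from HD.qf_sum (all terms are nonnegative: qf_nonneg with the positive definiteness of metr in HD1; for
|a| > K, P a = 0).
-/

open Matrix Complex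
open UpperHalfPlane hiding I
open MW38 (Fl Tri blk dg)
open SP38 (Hc)

namespace ZQ38

variable {ι : Type} [Fintype ι] [DecidableEq ι] {wt p : ι → ℤ} {K : ℕ}

theorem proj_bound {m : ℕ} {w : ℤ} {Q : Matrix (Fin m) (Fin m) ℝ} {P : ℤ → Matrix (Fin m) (Fin m) ℂ}
    (h : SP38.HD w K Q P) {X : ℝ} (hX : 1 ≤ X)
    (h1 : ∀ v, SP38.qf (SP38.metr w K Q P) v ≤ X * ‖v‖ ^ 2)
    (h2 : ∀ v, ‖v‖ ^ 2 ≤ X * SP38.qf (SP38.metr w K Q P) v) (a : ℤ) (i j : Fin m) :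
    ‖P a i j‖ ≤ X := by
  have hX0 : 0 ≤ X := zero_le_one.trans hX
  have hvn : ‖(Pi.single j 1 : Fin m → ℂ)‖ = 1 := by
    rw [Pi.norm_single, norm_one]
  have hcol : P a i j = (P a *ᵥ (Pi.single j 1 : Fin m → ℂ)) i := by
    rw [Matrix.mulVec_single_one]
    rfl
  have h3 : SP38.qf (SP38.metr w K Q P) (P a *ᵥ (Pi.single j 1 : Fin m → ℂ)) ≤
      SP38.qf (SP38.metr w K Q P) (Pi.single j 1 : Fin m → ℂ) := by
    by_cases ha : (K : ℤ) < |a|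
    · have h0 : SP38.qf (SP38.metr w K Q P) (P a *ᵥ (Pi.single j 1 : Fin m → ℂ)) = 0 := by
        rw [h.supp a ha, Matrix.zero_mulVec, SP38.qf, Matrix.mulVec_zero, dotProduct_zero,
          Complex.zero_re]
      rw [h0]
      exact SP38.qf_nonneg h.posDef _
    · rw [h.qf_sum (Pi.single j 1 : Fin m → ℂ)]
      exact Finset.single_le_sum (f := fun a => SP38.qf (SP38.metr w K Q P)
        (P a *ᵥ (Pi.single j 1 : Fin m → ℂ))) (fun b _ => SP38.qf_nonneg h.posDef _)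
        (Finset.mem_Icc.mpr (abs_le.mp (not_lt.mp ha)))
  have h4 : ‖P a *ᵥ (Pi.single j 1 : Fin m → ℂ)‖ ^ 2 ≤ X ^ 2 := by
    have h5 := h1 (Pi.single j 1 : Fin m → ℂ)
    rw [hvn, one_pow, mul_one] at h5
    calc ‖P a *ᵥ (Pi.single j 1 : Fin m → ℂ)‖ ^ 2
        ≤ X * SP38.qf (SP38.metr w K Q P) (P a *ᵥ (Pi.single j 1 : Fin m → ℂ)) := h2 _
      _ ≤ X * X := mul_le_mul_of_nonneg_left (h3.trans h5) hX0
      _ = X ^ 2 := (sq X).symm
  rw [hcol]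
  exact (norm_le_pi_norm _ i).trans (le_of_sq_le_sq h4 hX0)

end ZQ38
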