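import Pool.Agent.LibZQ38.C9a
import Pool.Agent.LibZQ38.BPa
import Pool.Agent.LibZW67.Comp
import Pool.Agent.LibSP38.Fam2
import Pool.Agent.LibMW38.Gen2
import Pool.Agent.LibMW38.EVar

/-!
Polynomial growth of the Hodge projectors of the graded pieces on strips at a cusp.

PLAN. For a weight k (in the image of wt): e = BPaE wt k : {i // wt i = k} ≃ Fin _; G z = reindex e e (blk wt k k (Φ z)),
IsPHS k (fun i => p (e.symm i)) (reindex e e (blk wt k k Q)) (G z) by BPa_phs; holomorphic; Griffiths transversality of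
G: from VMHS.tr (column j of Φ' is Σ_l c l • column l of Φ over p j - 1 ≤ p l; as Φ z and Φ' are block triangular, so is Φ⁻¹ Φ', so only
l with wt l ≤ wt j = k occur, and the rows of weight k of the columns with wt l < k vanish; compare LibMW38 where blocks
of a VMHS are treated, for example the constructions with Gen2.VarA.reindex). SP38.exists_PV gives a PV with the
projectors PP p' s' (G z), s' from BPaT (see BPa_blk_PP); mob_compare gives C, Y with the two norm comparisons at z = mob σ ζ;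
proj_bound with X = ζ.im ^ C; BPa_blk_PP: the entries of PPg with wt i = wt j = k are those of PP; the others vanish
(BPa_PP_diag). Take the maximum over the finitely many k.
-/

open Matrix Complex
open UpperHalfPlane hiding I
open MW38 (Fl Tri blk dg)
open SP38 (Hc)

namespace ZQ38

variable {ι : Type} [Fintype ι] [DecidableEq ι] {wt p : ι → ℤ} {K : ℕ}

theorem PPg_growth {Q : Matrix ι ι ℝ} {Φ : ℂ → Matrix ι ι ℂ} (hv : MW38.VMHS wt p Q Φ)
    {s : Equiv.Perm ι} (hs : ∀ j, wt (s j) = wt j ∧ p (s j) = wt j - p j) (hK : ∀ j, |p j| ≤ K)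
    (σ : Matrix.SpecialLinearGroup (Fin 2) ℝ) (M : ℝ) :
    ∃ (C : ℝ) (n : ℕ) (Y : ℝ), ∀ ζ : ℂ, |ζ.re| ≤ M → Y ≤ ζ.im → ∀ a i j,
      ‖PPg wt p s (Φ (US38.mob σ ζ)) a i j‖ ≤ C * ζ.im ^ n := by
  classical
  have hmob : ∀ ζ : ℂ, 0 < ζ.im → US38.mob σ ζ ∈ Hc 0 := by
    intro ζ hζ
    have h1 := US38.mob_coe σ ⟨ζ, hζ⟩
    rw [show ((⟨ζ, hζ⟩ : ℍ) : ℂ) = ζ from rfl] at h1
    rw [h1]
    exact (σ • (⟨ζ, hζ⟩ : ℍ)).im_pos
  have hopen : IsOpen (Hc 0) := isOpen_lt continuous_const Complex.continuous_im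
  have key : ∀ k : ℤ, ∃ (C : ℕ) (Y : ℝ), 1 ≤ Y ∧ ∀ ζ : ℂ, |ζ.re| ≤ M → Y ≤ ζ.im →
      ∀ (a : ℤ) (i j : {i // wt i = k}),
        ‖PPg wt p s (Φ (US38.mob σ ζ)) a i j‖ ≤ ζ.im ^ C := by
    intro k
    have hvar : MW38.VarA k (fun i : {i // wt i = k} => p i) (blk wt k k Q)
        (fun z => blk wt k k (Φ z)) (fun _ _ => 0) :=
      { phs := fun z hz => (hv.mhs z hz).gr k
        holG := fun i j => hv.hol i j
        holn := fun i => differentiableOn_const 0
        trG := fun z hz j => MW38.eVar_tr hv hz k j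
        trn := fun z hz => by
          have h0 : (fun i : {i // wt i = k} => deriv (fun _ : ℂ => (0 : ℂ)) z) = 0 := by
            funext i
            rw [deriv_const]
            rfl
          rw [h0]
          exact Submodule.zero_mem _ }
    have hr := hvar.reindex (BPaE wt k)
    obtain ⟨θ, hPV⟩ := SP38.exists_PV (Ω := Hc 0) (K := K) hopen (fun i j => hr.holG i j)
      (fun z hz => hr.phs z hz) (BPaT_spec hs k) (fun z hz j => hr.trG z hz j) (fun j => hK _)
    obtain ⟨C, Y, hY, h1⟩ := ZW67.mob_compare hPV σ M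
    refine ⟨C, Y, hY, fun ζ hζ1 hζ2 a i j => ?_⟩
    have him : 1 ≤ ζ.im := hY.trans hζ2
    have hz := hmob ζ (by linarith)
    have h2 := proj_bound (hPV.hd _ hz) (X := ζ.im ^ C) (one_le_pow₀ him)
      (fun v => (h1 ζ hζ1 hζ2 v).1) (fun v => (h1 ζ hζ1 hζ2 v).2) a (BPaE wt k i) (BPaE wt k j)
    have h3 := congrFun (congrFun (BPa_blk_PP hs (hv.mhs _ hz) k a) i) j
    rw [Matrix.submatrix_apply] at h3
    rw [← h3] at h2
    exact h2
  choose Ck Yk hYk hk using key
  refine ⟨1, ∑ k ∈ Finset.univ.image wt, Ck k, 1 + ∑ k ∈ Finset.univ.image wt, Yk k, ?_⟩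
  intro ζ hζ1 hζ2 a i j
  have hY0 : ∀ k, 0 ≤ Yk k := fun k => zero_le_one.trans (hYk k)
  have hmem : wt i ∈ Finset.univ.image wt := Finset.mem_image_of_mem _ (Finset.mem_univ i)
  have hYi : Yk (wt i) ≤ ∑ k ∈ Finset.univ.image wt, Yk k :=
    Finset.single_le_sum (fun k _ => hY0 k) hmem
  have him : 1 ≤ ζ.im := by
    have := Finset.sum_nonneg (s := Finset.univ.image wt) fun k _ => hY0 k
    linarith
  by_cases hij : wt i = wt j
  · have h1 := hk (wt i) ζ hζ1 (by linarith) a ⟨i, rfl⟩ ⟨j, hij.symm⟩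
    have h2 : Ck (wt i) ≤ ∑ k ∈ Finset.univ.image wt, Ck k :=
      Finset.single_le_sum (fun k _ => Nat.zero_le _) hmem
    rw [one_mul]
    exact h1.trans (pow_le_pow_right₀ him h2)
  · rw [BPa_PP_diag hs (hv.mhs _ (hmob ζ (by linarith))) a i j hij, norm_zero, one_mul]
    positivity

end ZQ38
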