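import Pool.Agent.LibZQ38.JXDef
import Pool.Agent.LibZQ38.C8
import Pool.Agent.LibZQ38.C3
import Pool.Agent.LibZQ38.C12a
import Pool.Agent.LibZQ38.BPb
import Pool.Agent.LibZQ38.CDef
import Pool.Agent.LibZL19.JD
import Pool.Agent.LibZL19.CRH
import Pool.Agent.LibZL19.PZ

/-!
The data of the maximal ideals exist, and the count of the types.
-/

open Matrix Complex
open UpperHalfPlane hiding I
open MW38 (Fl Tri blk dg)
open SP38 (Hc)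

namespace ZQ38

variable {ι : Type} [Fintype ι] [DecidableEq ι] {wt p : ι → ℤ} {K : ℕ}

variable {Q : Matrix ι ι ℚ} {Φ : ℂ → Matrix ι ι ℂ} {h : ℂ → Matrix ι ι ℂ} {s : Equiv.Perm ι}

theorem exists_dat (hv : MW38.VMHS wt p (Q.map (algebraMap ℚ ℝ)) Φ)
    (hs : ∀ j, wt (s j) = wt j ∧ p (s j) = wt j - p j) (hK : ∀ j, |p j| ≤ K)
    (hh : ∀ z ∈ Hc 0, DelH wt p (Φ z) (PPg wt p s (Φ z)) (h z)) (hha : An (Hc 0) h)
    {n : Submodule ℚ (Matrix ι ι ℚ)}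
    (hn : ZL19.MaxI (genLie wt p Φ) (genLie wt p Φ ⊓ Low ℚ wt) n) :
    Nonempty (Dat wt Q (genLie wt p Φ) n) := by
  have hP : ∀ z ∈ Hc 0, GrP wt p K (Φ z) (PPg wt p s (Φ z)) := fun z hz =>
    exists_GrP (hv.mhs z hz) hs hK
  have hPa : ∀ a, An (Hc 0) (fun z => PPg wt p s (Φ z) a) := fun a => PPg_an hv hs a
  obtain ⟨z₀, hz₀, hmax, hg⟩ := C8_generic hP hh hPa hha
  rw [hg] at hn ⊢
  obtain ⟨w, r, lam, rho, j, -, hwd, hjd⟩ := ZL19.exists_JD (Q := Q) hP hh hz₀ hmax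
    (Q_unit (hv.mhs z₀ hz₀) hs) (fun z hz => ZL19.hsim (hv.mhs z hz) hs hK)
    (ZL19.posZ (hv.mhs z₀ hz₀) hs hK) hn
  exact ⟨⟨w, r, lam, rho, j, hwd, hjd⟩⟩

theorem count_eig (hv : MW38.VMHS wt p (Q.map (algebraMap ℚ ℝ)) Φ)
    (hs : ∀ j, wt (s j) = wt j ∧ p (s j) = wt j - p j) (hK : ∀ j, |p j| ≤ K)
    (hh : ∀ z ∈ Hc 0, DelH wt p (Φ z) (PPg wt p s (Φ z)) (h z)) (hha : An (Hc 0) h)
    [Fintype {n // ZL19.MaxI (genLie wt p Φ) (genLie wt p Φ ⊓ Low ℚ wt) n}]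
    (d : ∀ n : {n // ZL19.MaxI (genLie wt p Φ) (genLie wt p Φ ⊓ Low ℚ wt) n},
      Dat wt Q (genLie wt p Φ) n.1) {z : ℂ} (hz : z ∈ Hc 0) (t : ℤ × ℤ) :
    hab wt p (Φ z) (brk (genLie wt p Φ ⊓ Low ℚ wt) (genLie wt p Φ ⊓ Low ℚ wt)) t +
      ∑ n, (if t.1 + t.2 = (d n).w then Module.finrank ℂ (Module.End.eigenspace
        (Matrix.toLin' (DD K (fun z => PPg wt p s (Φ z)) h (d n).rho z)) (t.1 : ℂ)) else 0) ≤
      hab wt p (Φ z) (genLie wt p Φ ⊓ Low ℚ wt) t := by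
  classical
  have hP : ∀ z ∈ Hc 0, GrP wt p K (Φ z) (PPg wt p s (Φ z)) := fun z hz =>
    exists_GrP (hv.mhs z hz) hs hK
  have hPa : ∀ a, An (Hc 0) (fun z => PPg wt p s (Φ z) a) := fun a => PPg_an hv hs a
  obtain ⟨hm, ht, hpq⟩ := C8_lie hP hh hPa hha
  obtain ⟨t₀, ht₀, ht₀'⟩ := C8_t0 hP hh hPa hha
  have hfin : {n | ZL19.MaxI (genLie wt p Φ) (genLie wt p Φ ⊓ Low ℚ wt) n}.Finite :=
    Set.finite_coe_iff.1 (Finite.of_fintype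
      {n // ZL19.MaxI (genLie wt p Φ) (genLie wt p Φ ⊓ Low ℚ wt) n})
  have h1 := ZL19.hab_count (hP z hz) (hh z hz) hm ht (hpq z hz).1 (hpq z hz).2 hfin
    (Finset.univ.image fun n : {n // ZL19.MaxI (genLie wt p Φ) (genLie wt p Φ ⊓ Low ℚ wt) n} =>
      n.1)
    (fun n hn => by
      obtain ⟨n', -, rfl⟩ := Finset.mem_image.1 hn
      exact n'.2) t
  rw [Finset.sum_image (fun a _ b _ hab => Subtype.ext hab)] at h1
  have h2 : ∀ n : {n // ZL19.MaxI (genLie wt p Φ) (genLie wt p Φ ⊓ Low ℚ wt) n},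
      (hab wt p (Φ z) (genLie wt p Φ ⊓ Low ℚ wt) t : ℤ) - hab wt p (Φ z) n.1 t =
      ((if t.1 + t.2 = (d n).w then Module.finrank ℂ (Module.End.eigenspace
        (Matrix.toLin' (DD K (fun z => PPg wt p s (Φ z)) h (d n).rho z)) (t.1 : ℂ)) else 0 : ℕ) :
        ℤ) := by
    intro n
    have h3 := hab_quot (d n).wd n.2.le hm ht ht₀ ht₀' (hP z hz) (hh z hz) (hpq z hz).1
      (hpq z hz).2 t
    rw [h3]
    push_cast
    rw [add_sub_cancel_left]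
    rfl
  rw [Finset.sum_congr rfl fun n _ => h2 n, ← Nat.cast_sum] at h1
  omega

end ZQ38
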