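import Pool.Agent.LibZQ38.JXDef
import Pool.Agent.LibZQ38.C6
import Pool.Agent.LibZW67.QE4

/-!
The polarization and the frame of `𝔲 / 𝔫`.
-/

open Matrix Complex
open UpperHalfPlane hiding I
open MW38 (Fl Tri blk dg)
open SP38 (Hc)

namespace ZQ38

variable {ι : Type} [Fintype ι] [DecidableEq ι] {wt p : ι → ℤ} {K : ℕ}
  {Q : Matrix ι ι ℚ} {Φ : ℂ → Matrix ι ι ℂ} {h : ℂ → Matrix ι ι ℂ} {s : Equiv.Perm ι}

theorem X67_opd (hv : MW38.VMHS wt p (Q.map (algebraMap ℚ ℝ)) Φ)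
    (hs : ∀ j, wt (s j) = wt j ∧ p (s j) = wt j - p j) (hK : ∀ j, |p j| ≤ K)
    (hh : ∀ z ∈ Hc 0, DelH wt p (Φ z) (PPg wt p s (Φ z)) (h z)) (hha : An (Hc 0) h) :
    OpD wt p K Φ (fun z => PPg wt p s (Φ z)) h where
  hol := ⟨fun z hz => (hv.mhs z hz).unit, hv.hol, hv.tr⟩
  gr z hz := exists_GrP (hv.mhs z hz) hs hK
  del := hh
  anP a := PPg_an hv hs a
  anh := hha

theorem X67_qud (hv : MW38.VMHS wt p (Q.map (algebraMap ℚ ℝ)) Φ)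
    (hs : ∀ j, wt (s j) = wt j ∧ p (s j) = wt j - p j) (hK : ∀ j, |p j| ≤ K)
    (hh : ∀ z ∈ Hc 0, DelH wt p (Φ z) (PPg wt p s (Φ z)) (h z)) (hha : An (Hc 0) h)
    {n : Submodule ℚ (Matrix ι ι ℚ)} (d : Dat wt Q (genLie wt p Φ) n) :
    ∃ t₀, QuD wt K (fun z => PPg wt p s (Φ z)) h (genLie wt p Φ) n t₀ d.w d.r d.lam d.rho := by
  have hO := X67_opd hv hs hK hh hha
  obtain ⟨t₀, ht, ht'⟩ := C8_t0 hO.gr hO.del hO.anP hO.anh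
  obtain ⟨h1, h2, h3⟩ := C8_lie hO.gr hO.del hO.anP hO.anh
  exact ⟨t₀, h1, h2, ht, ht', fun z hz => (h3 z hz).1, fun z hz => (h3 z hz).2, d.wd⟩

theorem X67_je {m n : Submodule ℚ (Matrix ι ι ℚ)} (d : Dat wt Q m n) :
    ZW67.JE wt m d.w d.r d.rho d.j := ⟨d.jd.supp, d.jd.inj, d.jd.act⟩

theorem X67_QJ {m n : Submodule ℚ (Matrix ι ι ℚ)} (d : Dat wt Q m n) :
    (QWf wt Q d.j).map (algebraMap ℚ ℝ) = ZW67.QJ wt Q d.j := rfl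

theorem dat_skew (hv : MW38.VMHS wt p (Q.map (algebraMap ℚ ℝ)) Φ)
    (hs : ∀ j, wt (s j) = wt j ∧ p (s j) = wt j - p j) (hK : ∀ j, |p j| ≤ K)
    (hh : ∀ z ∈ Hc 0, DelH wt p (Φ z) (PPg wt p s (Φ z)) (h z)) (hha : An (Hc 0) h)
    {n : Submodule ℚ (Matrix ι ι ℚ)} (d : Dat wt Q (genLie wt p Φ) n) {z : ℂ} (hz : z ∈ Hc 0) :
    (DD K (fun z => PPg wt p s (Φ z)) h d.rho z)ᵀ *
        SP38.cm ((QWf wt Q d.j).map (algebraMap ℚ ℝ)) +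
      SP38.cm ((QWf wt Q d.j).map (algebraMap ℚ ℝ)) *
        DD K (fun z => PPg wt p s (Φ z)) h d.rho z =
      (d.w : ℂ) • SP38.cm ((QWf wt Q d.j).map (algebraMap ℚ ℝ)) := by
  obtain ⟨t₀, hQ⟩ := X67_qud hv hs hK hh hha d
  exact (X67_je d).skew (ZW67.polG (hv.mhs z hz) hs hK) (hh z hz).un (hQ.opP z hz)

theorem dat_pos (hv : MW38.VMHS wt p (Q.map (algebraMap ℚ ℝ)) Φ)
    (hs : ∀ j, wt (s j) = wt j ∧ p (s j) = wt j - p j) (hK : ∀ j, |p j| ≤ K)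
    (hh : ∀ z ∈ Hc 0, DelH wt p (Φ z) (PPg wt p s (Φ z)) (h z)) (hha : An (Hc 0) h)
    {n : Submodule ℚ (Matrix ι ι ℚ)} (d : Dat wt Q (genLie wt p Φ) n) {z : ℂ} (hz : z ∈ Hc 0)
    (a : ℤ) (v : Fin d.r → ℂ)
    (hv1 : DD K (fun z => PPg wt p s (Φ z)) h d.rho z *ᵥ v = (a : ℂ) • v) (hv0 : v ≠ 0) :
    0 < (I ^ (2 * a - d.w) *
      SP38.bil ((QWf wt Q d.j).map (algebraMap ℚ ℝ)) v (SP38.cj v)).re ∧
    (I ^ (2 * a - d.w) *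
      SP38.bil ((QWf wt Q d.j).map (algebraMap ℚ ℝ)) v (SP38.cj v)).im = 0 := by
  obtain ⟨t₀, hQ⟩ := X67_qud hv hs hK hh hha d
  exact (X67_je d).pos (ZW67.polG (hv.mhs z hz) hs hK) (hh z hz).un (hQ.opP z hz) hv1 hv0

theorem dat_frame (hv : MW38.VMHS wt p (Q.map (algebraMap ℚ ℝ)) Φ)
    (hs : ∀ j, wt (s j) = wt j ∧ p (s j) = wt j - p j) (hK : ∀ j, |p j| ≤ K)
    (hh : ∀ z ∈ Hc 0, DelH wt p (Φ z) (PPg wt p s (Φ z)) (h z)) (hha : An (Hc 0) h)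
    {n : Submodule ℚ (Matrix ι ι ℚ)} (d : Dat wt Q (genLie wt p Φ) n) :
    ∃ (β : Type) (_ : Fintype β) (pq : β → ℤ) (A : ℂ → Matrix β (Fin d.r) ℂ)
      (M : ℂ → Matrix β β ℂ),
      ZW67.Frame (2 * K) (DD K (fun z => PPg wt p s (Φ z)) h d.rho) pq A M := by
  obtain ⟨t₀, hQ⟩ := X67_qud hv hs hK hh hha d
  have hO := X67_opd hv hs hK hh hha
  exact ZW67.frame_of_JE hO hQ (X67_je d) fun z hz => DD_poly hO hQ hz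

end ZQ38
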