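import Pool.Agent.LibZQ38.JXDef
import Pool.Agent.LibZQ38.JX19
import Pool.Agent.LibZQ38.JX67

/-! The interfaces of the assembly. -/
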