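import Pool.Agent.LibZQ38.JDef
import Pool.Agent.LibZQ38.C8
import Pool.Agent.LibZQ38.C3
import Pool.Agent.LibZQ38.BPb
import Pool.Agent.LibZQ38.CDef

/-!
The data attached to a maximal ideal.
-/

open Matrix Complex
open UpperHalfPlane hiding I
open MW38 (Fl Tri blk dg)
open SP38 (Hc)

namespace ZQ38

variable {ι : Type} [Fintype ι] [DecidableEq ι] {wt p : ι → ℤ} {K : ℕ}

/-- the data attached to a maximal ideal -/
structure Dat (wt : ι → ℤ) (Q : Matrix ι ι ℚ) (m n : Submodule ℚ (Matrix ι ι ℚ)) where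
  w : ℤ
  r : ℕ
  lam : Matrix ι ι ℚ →ₗ[ℚ] (Fin r → ℚ)
  rho : Matrix ι ι ℚ →ₗ[ℚ] Matrix (Fin r) (Fin r) ℚ
  j : (Fin r → ℚ) →ₗ[ℚ] Matrix ι ι ℚ
  wd : WD wt m (m ⊓ Low ℚ wt) n w r lam rho
  jd : JD wt Q m (m ⊓ Low ℚ wt) n w r lam rho j

end ZQ38
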