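import Pool.Agent.LibZQ38.Defs

/-!
Definitions used in the statement of `MixedToPure`.
-/

open Matrix Complex
open UpperHalfPlane hiding I
open MW38 (Fl Tri blk dg)

namespace ZQ38

variable {ι : Type} [Fintype ι] [DecidableEq ι]

/-- the part of type `(a, b)` of `End V`: the endomorphisms which carry each `I^{r,s}` to
`I^{r+a,s+b}` -/
def typ (wt p : ι → ℤ) (Φ : Matrix ι ι ℂ) (a b : ℤ) : Submodule ℂ (Matrix ι ι ℂ) where
  carrier := {A | ∀ r s : ℤ, ∀ v ∈ Ide wt p Φ r s, A *ᵥ v ∈ Ide wt p Φ (r + a) (s + b)}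
  add_mem' := by
    intro A B hA hB r s v hv
    rw [Matrix.add_mulVec]
    exact Submodule.add_mem _ (hA r s v hv) (hB r s v hv)
  zero_mem' := by intro r s v _; simp
  smul_mem' := by
    intro c A hA r s v hv
    rw [Matrix.smul_mulVec]
    exact Submodule.smul_mem _ _ (hA r s v hv)

/-- the dimension of the part of type `t` of the complexification of `L` -/
noncomputable def hab (wt p : ι → ℤ) (Φ : Matrix ι ι ℂ) (L : Submodule ℚ (Matrix ι ι ℚ))
    (t : ℤ × ℤ) : ℕ :=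
  Module.finrank ℂ (cx L ⊓ typ wt p Φ t.1 t.2 : Submodule ℂ (Matrix ι ι ℂ))

/-- the types of `End V` -/
def types (wt p : ι → ℤ) : Finset (ℤ × ℤ) :=
  Finset.univ.image fun x : ι × ι => (p x.1 - p x.2, (wt x.1 - p x.1) - (wt x.2 - p x.2))

/-- The Lie algebra of the generic Mumford-Tate group: the span of the Lie algebras of the
Mumford-Tate groups of all points (it is the Lie algebra of the Mumford-Tate group of a very
general point). -/
noncomputable def genLie (wt p : ι → ℤ) (Φ : ℂ → Matrix ι ι ℂ) : Submodule ℚ (Matrix ι ι ℚ) :=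
  ⨆ τ : ℍ, mtLie wt p (Φ (τ : ℂ))

/-- the Hodge locus: the points at which the Mumford-Tate group is smaller than the generic one -/
def hodgeLocus (wt p : ι → ℤ) (Φ : ℂ → Matrix ι ι ℂ) : Set ℍ :=
  {τ | mtLie wt p (Φ (τ : ℂ)) ≠ genLie wt p Φ}

/-- the variation of mixed Hodge structure over `ℚ` descends to `Δ \ ℍ`: rational monodromy, which
preserves the weight filtration and the polarizations of the graded pieces -/
def DescQ (wt p : ι → ℤ) (Q : Matrix ι ι ℚ) (Φ : ℂ → Matrix ι ι ℂ)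
    (Δ : Subgroup (Matrix.SpecialLinearGroup (Fin 2) ℝ)) : Prop :=
  ∀ δ ∈ Δ, ∃ γ : Matrix ι ι ℚ, IsUnit γ ∧ Tri wt γ ∧
    (∀ k, (blk wt k k γ)ᵀ * blk wt k k Q * blk wt k k γ = blk wt k k Q) ∧
    ∀ (τ : ℍ) (a : ℤ), Fl p (Φ ((δ • τ : ℍ) : ℂ)) a =
      (Fl p (Φ (τ : ℂ)) a).map (Matrix.mulVecLin (γ.map (algebraMap ℚ ℂ)))

end ZQ38
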