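import Pool.Agent.LibZQ38.WDef
import Pool.Agent.LibZQ38.B01
import Pool.Agent.LibZQ38.B05a

/-!
Complexification of the data of `W`.

PLAN. lamC, rhoC are ℂ-linear and agree with lam, rho on rational matrices (a rational matrix is the
sum of its entries times Matrix.single; Matrix.matrix_eq_sum_single or similar). Everything on cx by
Submodule.span_induction (twice for act). kerC (→): a ℚ-basis argument or mem_cx_iff: if x ∈ cx u and
lamC x = 0 then for every ℚ-linear f : ℂ → ℚ, lam (x.map f) = f ∘ lamC x = 0 and x.map f ∈ u, so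
x.map f ∈ n. Smoothness, analyticity, derivatives: finite linear combinations of the entries
(SP38.DZ, DB of LibSP38/WirtM are entrywise, DV, DVb in LibUS38/Hm).
-/

open Matrix Complex
open MW38 (Fl Tri blk dg)

namespace ZQ38

variable {ι : Type} [Fintype ι] [DecidableEq ι] {wt p : ι → ℤ} {K : ℕ} {Φ : Matrix ι ι ℂ}
  {P : ℤ → Matrix ι ι ℂ} {Ω : Set ℂ}

variable {r : ℕ} {m u n : Submodule ℚ (Matrix ι ι ℚ)} {w : ℤ}
  {lam : Matrix ι ι ℚ →ₗ[ℚ] (Fin r → ℚ)} {rho : Matrix ι ι ℚ →ₗ[ℚ] Matrix (Fin r) (Fin r) ℚ}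

theorem W1_lam (A : Matrix ι ι ℂ) (t : Fin r) :
    lamC lam A t = ∑ i, ∑ j, A i j * ((lam (Matrix.single i j 1) t : ℚ) : ℂ) := by
  unfold lamC
  simp only [Finset.sum_apply, Pi.smul_apply, smul_eq_mul]

theorem W1_rho (A : Matrix ι ι ℂ) (s t : Fin r) :
    rhoC rho A s t = ∑ i, ∑ j, A i j * ((rho (Matrix.single i j 1) s t : ℚ) : ℂ) := by
  unfold rhoC
  simp only [Matrix.sum_apply, Matrix.smul_apply, Matrix.map_apply, smul_eq_mul, eq_ratCast]

theorem lamC_add (A B : Matrix ι ι ℂ) : lamC lam (A + B) = lamC lam A + lamC lam B := by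
  funext t
  rw [Pi.add_apply, W1_lam, W1_lam, W1_lam, ← Finset.sum_add_distrib]
  refine Finset.sum_congr rfl fun i _ => ?_
  rw [← Finset.sum_add_distrib]
  refine Finset.sum_congr rfl fun j _ => ?_
  rw [Matrix.add_apply, add_mul]

theorem lamC_smul (c : ℂ) (A : Matrix ι ι ℂ) : lamC lam (c • A) = c • lamC lam A := by
  funext t
  rw [Pi.smul_apply, W1_lam, W1_lam, smul_eq_mul, Finset.mul_sum]
  refine Finset.sum_congr rfl fun i _ => ?_
  rw [Finset.mul_sum]
  refine Finset.sum_congr rfl fun j _ => ?_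
  rw [Matrix.smul_apply, smul_eq_mul, mul_assoc]

theorem lamC_sub (A B : Matrix ι ι ℂ) : lamC lam (A - B) = lamC lam A - lamC lam B := by
  have h1 : A - B = A + (-1 : ℂ) • B := by rw [neg_one_smul, sub_eq_add_neg]
  rw [h1, lamC_add, lamC_smul, neg_one_smul, sub_eq_add_neg]

theorem W1_lam_zero : lamC lam (0 : Matrix ι ι ℂ) = 0 := by
  have h1 := lamC_smul (lam := lam) 0 (0 : Matrix ι ι ℂ)
  rwa [zero_smul, zero_smul] at h1

theorem rhoC_add (A B : Matrix ι ι ℂ) : rhoC rho (A + B) = rhoC rho A + rhoC rho B := by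
  ext s t
  rw [Matrix.add_apply, W1_rho, W1_rho, W1_rho, ← Finset.sum_add_distrib]
  refine Finset.sum_congr rfl fun i _ => ?_
  rw [← Finset.sum_add_distrib]
  refine Finset.sum_congr rfl fun j _ => ?_
  rw [Matrix.add_apply, add_mul]

theorem rhoC_smul (c : ℂ) (A : Matrix ι ι ℂ) : rhoC rho (c • A) = c • rhoC rho A := by
  ext s t
  rw [Matrix.smul_apply, W1_rho, W1_rho, smul_eq_mul, Finset.mul_sum]
  refine Finset.sum_congr rfl fun i _ => ?_
  rw [Finset.mul_sum]
  refine Finset.sum_congr rfl fun j _ => ?_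
  rw [Matrix.smul_apply, smul_eq_mul, mul_assoc]

theorem rhoC_sub (A B : Matrix ι ι ℂ) : rhoC rho (A - B) = rhoC rho A - rhoC rho B := by
  have h1 : A - B = A + (-1 : ℂ) • B := by rw [neg_one_smul, sub_eq_add_neg]
  rw [h1, rhoC_add, rhoC_smul, neg_one_smul, sub_eq_add_neg]

theorem W1_rho_zero : rhoC rho (0 : Matrix ι ι ℂ) = 0 := by
  have h1 := rhoC_smul (rho := rho) 0 (0 : Matrix ι ι ℂ)
  rwa [zero_smul, zero_smul] at h1

theorem W1_eq (A : Matrix ι ι ℚ) : A = ∑ i, ∑ j, A i j • Matrix.single i j (1 : ℚ) := by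
  conv_lhs => rw [Matrix.matrix_eq_sum_single A]
  refine Finset.sum_congr rfl fun i _ => Finset.sum_congr rfl fun j _ => ?_
  rw [Matrix.smul_single, smul_eq_mul, mul_one]

theorem W1_lamQ (A : Matrix ι ι ℚ) (t : Fin r) :
    lam A t = ∑ i, ∑ j, A i j * lam (Matrix.single i j 1) t := by
  conv_lhs => rw [W1_eq A]
  simp only [map_sum, map_smul, Finset.sum_apply, Pi.smul_apply, smul_eq_mul]

theorem W1_rhoQ (A : Matrix ι ι ℚ) (s t : Fin r) :
    rho A s t = ∑ i, ∑ j, A i j * rho (Matrix.single i j 1) s t := by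
  conv_lhs => rw [W1_eq A]
  simp only [map_sum, map_smul, Matrix.sum_apply, Matrix.smul_apply, smul_eq_mul]

theorem lamC_rat (A : Matrix ι ι ℚ) :
    lamC lam (A.map (algebraMap ℚ ℂ)) = fun t => ((lam A t : ℚ) : ℂ) := by
  funext t
  rw [W1_lam, W1_lamQ A t]
  simp only [Matrix.map_apply, eq_ratCast, Rat.cast_sum, Rat.cast_mul]

theorem rhoC_rat (A : Matrix ι ι ℚ) :
    rhoC rho (A.map (algebraMap ℚ ℂ)) = (rho A).map (algebraMap ℚ ℂ) := by
  ext s t
  rw [W1_rho, Matrix.map_apply, W1_rhoQ A s t]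
  simp only [Matrix.map_apply, eq_ratCast, Rat.cast_sum, Rat.cast_mul]

theorem lamC_bar (A : Matrix ι ι ℂ) :
    lamC lam (bar A) = fun t => (starRingEnd ℂ) (lamC lam A t) := by
  funext t
  rw [W1_lam, W1_lam, map_sum]
  refine Finset.sum_congr rfl fun i _ => ?_
  rw [map_sum]
  refine Finset.sum_congr rfl fun j _ => ?_
  rw [map_mul, map_ratCast]
  rfl

theorem rhoC_bar (A : Matrix ι ι ℂ) :
    rhoC rho (bar A) = (rhoC rho A).map (starRingEnd ℂ) := by
  ext s t
  rw [Matrix.map_apply, W1_rho, W1_rho, map_sum]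
  refine Finset.sum_congr rfl fun i _ => ?_
  rw [map_sum]
  refine Finset.sum_congr rfl fun j _ => ?_
  rw [map_mul, map_ratCast]
  rfl

omit [DecidableEq ι] in
theorem W1_map_sub_mul (M N : Matrix ι ι ℚ) :
    M.map (algebraMap ℚ ℂ) * N.map (algebraMap ℚ ℂ) -
      N.map (algebraMap ℚ ℂ) * M.map (algebraMap ℚ ℂ) =
    (M * N - N * M).map (algebraMap ℚ ℂ) := by
  rw [← Matrix.map_mul, ← Matrix.map_mul]
  ext i j
  simp only [Matrix.sub_apply, Matrix.map_apply, map_sub]

theorem WD.actC (h : WD wt m u n w r lam rho) {A x : Matrix ι ι ℂ} (hA : A ∈ cx m)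
    (hx : x ∈ cx u) : lamC lam (A * x - x * A) = rhoC rho A *ᵥ lamC lam x := by
  refine Submodule.span_induction
    (p := fun A _ => lamC lam (A * x - x * A) = rhoC rho A *ᵥ lamC lam x) ?_ ?_ ?_ ?_ hA
  · rintro _ ⟨M, hM, rfl⟩
    refine Submodule.span_induction
      (p := fun x _ => lamC lam (M.map (algebraMap ℚ ℂ) * x - x * M.map (algebraMap ℚ ℂ)) =
        rhoC rho (M.map (algebraMap ℚ ℂ)) *ᵥ lamC lam x) ?_ ?_ ?_ ?_ hx
    · rintro _ ⟨N, hN, rfl⟩
      rw [W1_map_sub_mul, lamC_rat, lamC_rat, rhoC_rat, h.act M hM N hN]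
      funext t
      simp only [Matrix.mulVec, dotProduct, Matrix.map_apply, eq_ratCast, Rat.cast_sum,
        Rat.cast_mul]
    · rw [mul_zero, zero_mul, sub_zero, W1_lam_zero, Matrix.mulVec_zero]
    · intro y z _ _ hy hz
      have h1 : M.map (algebraMap ℚ ℂ) * (y + z) - (y + z) * M.map (algebraMap ℚ ℂ) =
          (M.map (algebraMap ℚ ℂ) * y - y * M.map (algebraMap ℚ ℂ)) +
          (M.map (algebraMap ℚ ℂ) * z - z * M.map (algebraMap ℚ ℂ)) := by
        rw [mul_add, add_mul]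
        abel
      rw [h1, lamC_add, hy, hz, lamC_add, Matrix.mulVec_add]
    · intro c y _ hy
      have h1 : M.map (algebraMap ℚ ℂ) * (c • y) - (c • y) * M.map (algebraMap ℚ ℂ) =
          c • (M.map (algebraMap ℚ ℂ) * y - y * M.map (algebraMap ℚ ℂ)) := by
        rw [Matrix.mul_smul, Matrix.smul_mul, smul_sub]
      rw [h1, lamC_smul, hy, lamC_smul, Matrix.mulVec_smul]
  · rw [mul_zero, zero_mul, sub_zero, W1_lam_zero, W1_rho_zero, Matrix.zero_mulVec]
  · intro y z _ _ hy hz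
    have h1 : (y + z) * x - x * (y + z) = (y * x - x * y) + (z * x - x * z) := by
      rw [mul_add, add_mul]
      abel
    rw [h1, lamC_add, hy, hz, rhoC_add, Matrix.add_mulVec]
  · intro c y _ hy
    have h1 : (c • y) * x - x * (c • y) = c • (y * x - x * y) := by
      rw [Matrix.mul_smul, Matrix.smul_mul, smul_sub]
    rw [h1, lamC_smul, hy, rhoC_smul, Matrix.smul_mulVec]

theorem W1_dual (f : ℂ →ₗ[ℚ] ℚ) (x : Matrix ι ι ℂ) (t : Fin r) :
    lam (x.map f) t = f (lamC lam x t) := by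
  rw [W1_lamQ, W1_lam, map_sum]
  refine Finset.sum_congr rfl fun i _ => ?_
  rw [map_sum]
  refine Finset.sum_congr rfl fun j _ => ?_
  rw [B01_map_ratCast, Matrix.map_apply, mul_comm]

theorem WD.kerC (h : WD wt m u n w r lam rho) {x : Matrix ι ι ℂ} (hx : x ∈ cx u) :
    lamC lam x = 0 ↔ x ∈ cx n := by
  have hu := (mem_cx_iff u x).1 hx
  constructor
  · intro h0
    rw [mem_cx_iff]
    intro f
    rw [← h.ker _ (hu f)]
    funext t
    rw [W1_dual, h0, Pi.zero_apply, Pi.zero_apply, map_zero]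
  · intro hn
    have hn' := (mem_cx_iff n x).1 hn
    funext t
    rw [Pi.zero_apply, ← Module.forall_dual_apply_eq_zero_iff ℚ]
    intro f
    rw [← W1_dual, (h.ker _ (hu f)).2 (hn' f), Pi.zero_apply]

theorem WD.surjC (h : WD wt m u n w r lam rho) (v : Fin r → ℂ) :
    ∃ x ∈ cx u, lamC lam x = v := by
  choose y hy hy' using fun s : Fin r => h.surj (Pi.single s 1)
  have hsum : ∀ S : Finset (Fin r), lamC lam (∑ s ∈ S, v s • (y s).map (algebraMap ℚ ℂ)) =
      ∑ s ∈ S, v s • lamC lam ((y s).map (algebraMap ℚ ℂ)) := by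
    intro S
    classical
    induction S using Finset.induction_on with
    | empty => rw [Finset.sum_empty, Finset.sum_empty, W1_lam_zero]
    | insert a S ha ih => rw [Finset.sum_insert ha, Finset.sum_insert ha, lamC_add, lamC_smul, ih]
  refine ⟨∑ s, v s • (y s).map (algebraMap ℚ ℂ), ?_, ?_⟩
  · exact Submodule.sum_mem _ fun s _ => Submodule.smul_mem _ _ (B01_map_mem (hy s))
  · rw [hsum]
    funext t
    rw [Finset.sum_apply, Finset.sum_eq_single t]
    · rw [Pi.smul_apply, lamC_rat, hy' t]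
      change v t • (((Pi.single t 1 : Fin r → ℚ) t : ℚ) : ℂ) = v t
      rw [Pi.single_eq_same, Rat.cast_one, smul_eq_mul, mul_one]
    · intro s _ hs
      rw [Pi.smul_apply, lamC_rat, hy' s]
      change v s • (((Pi.single s 1 : Fin r → ℚ) t : ℚ) : ℂ) = 0
      rw [Pi.single_eq_of_ne hs.symm, Rat.cast_zero, smul_zero]
    · intro ht
      exact absurd (Finset.mem_univ t) ht

theorem WD.uzC (h : WD wt m u n w r lam rho) {A : Matrix ι ι ℂ} (hA : A ∈ cx u) :
    rhoC rho A = 0 := by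
  refine Submodule.span_induction (p := fun A _ => rhoC rho A = 0) ?_ ?_ ?_ ?_ hA
  · rintro _ ⟨M, hM, rfl⟩
    change rhoC rho (M.map (algebraMap ℚ ℂ)) = 0
    rw [rhoC_rat, h.uz M hM]
    ext s t
    simp
  · exact W1_rho_zero
  · intro y z _ _ hy hz
    rw [rhoC_add, hy, hz, add_zero]
  · intro c y _ hy
    rw [rhoC_smul, hy, smul_zero]

end ZQ38
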